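import Pool.Agent.IP49N.SFin

/-! IP49N/Q2: certified integrals, generated by gen.py (helper52). `ψ = psi2`. -/

set_option autoImplicit false

namespace IP49N
open Pool.Agent.IP49

def Q2_prog : List Op := [
    .z, .p 0, .mul 0 1, .th 0, .mul 1 1, .mul 5 5, .c (-576460752303423488), .mul 1 0, .exp 0,
    .mul 4 0, .mul 6 1]
def Q2_par : List Bl := [
    ⟨Int.ofNat (nat_lit 1850559331451014530), nat_lit 1⟩]
def Q2_cl : List (ℤ × ℕ) := [
    (Int.ofNat (nat_lit 650189682230956273), nat_lit 53343233231),
    (Int.ofNat (nat_lit 1691432214223410474), nat_lit 31460324903)]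
theorem Q2_run : quad (nat_lit 18014398509481984) Q2_par Q2_prog [1, 0] (nat_lit 256)
    (List.replicate (nat_lit 2) Acc.zero) true
    (fun acc b => Bool.and b (chk (nat_lit 18014398509481984) Q2_cl acc)) = true := by decide +kernel

theorem Q2_all {r : ℝ}
    (hr : InB r ⟨Int.ofNat (nat_lit 1850559331451014530), nat_lit 1⟩) :
    ((563949605574 : ℝ) / 1000000000000 ≤ GE (fun x => Real.tanh (r * x) ^ 2) ∧
      GE (fun x => Real.tanh (r * x) ^ 2) ≤ (563949700030 : ℝ) / 1000000000000) ∧
    ((1467083554830 : ℝ) / 1000000000000 ≤ GE (fun x => lc (r * x)) ∧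
      GE (fun x => lc (r * x)) ≤ (1467083615206 : ℝ) / 1000000000000) := by
  have br : |r| ≤ 2 := by simpa using hr.abs_le (K := 2) (by decide +kernel)
  have cc0 : ((-576460752303423488 : ℤ) : ℝ) / S = (-1/2 : ℝ) := by rw [S_eq]; norm_num
  have h := GE_run8 (W := 18014398509481984) (n := 256) (by norm_num) (by rw [S_eq]; norm_num)
    (par := Q2_par) (xs := [r])
    (.cons hr .nil) Q2_prog [1, 0] Q2_cl Q2_run
    (Fs := [fun x => Real.tanh (r * x) ^ 2,
      fun x => lc (r * x)]) rfl
    (by
      refine .cons ⟨by fun_prop (disch := positivity), fun x => ?_⟩ (.cons ⟨by fun_prop (disch := positivity), fun x => ?_⟩ (.nil))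
      all_goals
        simp only [Q2_prog, evp, gt, List.getD_cons_zero, List.getD_cons_succ, cc0]
        ring_nf)
  simp only [Q2_cl, List.forall₂_cons, List.Forall₂.nil, _root_.and_true] at h
  obtain ⟨h0, h1⟩ := h
  have gg : (∃ C k, Gr (fun x => Real.tanh (r * x) ^ 2) C k ∧ k ≤ 6 ∧ C * 8e-10 ≤ (3/3125000000 : ℝ)) ∧
      (∃ C k, Gr (fun x => lc (r * x)) C k ∧ k ≤ 6 ∧ C * 8e-10 ≤ (29/10000000000 : ℝ)) := by
    refine ⟨?_, ?_⟩
    all_goals
      apply gr8
      · repeat' (with_reducible first
          | exact Gr.id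
          | exact Gr.par (by assumption)
          | exact Gr.num (by norm_num)
          | exact Gr.tanh _
          | exact Gr.Md _
          | exact Gr.M2 _
          | exact Gr.Ph _
          | assumption
          | apply Gr.lc
          | apply Gr.Mi
          | apply Gr.logPh
          | apply Gr.neg
          | apply Gr.abs
          | apply Gr.add
          | apply Gr.sub
          | apply Gr.mul
          | apply Gr.pow
          | (refine Gr.div ?_ (by norm_num)))
      · norm_num
      · norm_num
  obtain ⟨gg0, gg1⟩ := gg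
  have g0 := dec_of (lo := (563949605574 : ℝ) / 1000000000000) (hi := (563949700030 : ℝ) / 1000000000000) (h0 _ gg0)
    (by rw [S_eq]; norm_num) (by rw [S_eq]; norm_num)
  have g1 := dec_of (lo := (1467083554830 : ℝ) / 1000000000000) (hi := (1467083615206 : ℝ) / 1000000000000) (h1 _ gg1)
    (by rw [S_eq]; norm_num) (by rw [S_eq]; norm_num)
  exact ⟨g0, g1⟩

end IP49N
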