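import Pool.Agent.IP49.NU0
import Pool.Agent.IP49.NPsi
import Pool.Agent.IP49N.Q1
import Pool.Agent.IP49N.Q2

/-! IP49N/Box (helper52): enclosures of `√ψ`, `qp ψ`, `vv ψ` for `ψ` in the box. -/

set_option autoImplicit false
open MeasureTheory ProbabilityTheory

namespace IP49N
open Pool.Agent.IP49

theorem integrable_tanh2 (ψ : ℝ) :
    Integrable (fun x => Real.tanh (Real.sqrt ψ * x) ^ 2) (gaussianReal 0 1) := by
  refine integrable_of_growth ((continuous_tanh'.comp (by fun_prop)).pow 2).measurable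
    (C := 1) (k := 1) fun x => ?_
  rw [abs_of_nonneg (sq_nonneg _)]
  have := tanh_sq_lt (Real.sqrt ψ * x)
  have := sq_nonneg x
  simp only [pow_one, one_mul]
  linarith

theorem tanh_sq_mono {x y : ℝ} (h : |x| ≤ |y|) : Real.tanh x ^ 2 ≤ Real.tanh y ^ 2 := by
  have e : ∀ z : ℝ, Real.tanh z ^ 2 = 1 - 1 / Real.cosh z ^ 2 := by
    intro z
    rw [Real.tanh_eq_sinh_div_cosh, div_pow]
    have h1 := Real.cosh_sq z
    have h2 := Real.cosh_pos z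
    field_simp
    linarith
  rw [e, e]
  have h1 : Real.cosh x ≤ Real.cosh y := Real.cosh_le_cosh.2 h
  have h2 := Real.cosh_pos x
  have h3 : 1 / Real.cosh y ^ 2 ≤ 1 / Real.cosh x ^ 2 :=
    one_div_le_one_div_of_le (by positivity) (pow_le_pow_left₀ h2.le h1 2)
  linarith

theorem qp_mono {a b : ℝ} (h : a ≤ b) : qp a ≤ qp b := by
  refine GE_mono (integrable_tanh2 a) (integrable_tanh2 b) fun x => tanh_sq_mono ?_
  rw [abs_mul, abs_mul, abs_of_nonneg (Real.sqrt_nonneg _), abs_of_nonneg (Real.sqrt_nonneg _)]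
  exact mul_le_mul_of_nonneg_right (Real.sqrt_le_sqrt h) (abs_nonneg _)

theorem sqrt_ball {ψ : ℝ} {m : ℤ} {r : ℕ} (h0 : 0 ≤ ((m : ℝ) + r) / S)
    (h1 : (((m : ℝ) - r) / S) ^ 2 ≤ ψ) (h2 : ψ ≤ (((m : ℝ) + r) / S) ^ 2) :
    InB (Real.sqrt ψ) ⟨m, r⟩ := by
  refine InB.of_bounds ?_ ?_
  · have := Real.le_sqrt_of_sq_le h1
    rwa [div_le_iff₀ S_pos] at this
  · have := Real.sqrt_le_iff.2 ⟨h0, h2⟩
    rwa [le_div_iff₀ S_pos] at this

theorem vv_sq (ψ : ℝ) : vv ψ ^ 2 = qp ψ / (1 - qp ψ) := by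
  have h1 := qp_nonneg ψ
  have h2 := qp_lt_one (ψ := ψ)
  unfold vv
  rw [div_pow, Real.sq_sqrt h1, Real.sq_sqrt (by linarith)]

theorem vv_nonneg (ψ : ℝ) : 0 ≤ vv ψ := div_nonneg (Real.sqrt_nonneg _) (Real.sqrt_nonneg _)

theorem vv_ball {ψ : ℝ} {m : ℤ} {r : ℕ} (h0 : 0 ≤ ((m : ℝ) + r) / S)
    (h1 : (((m : ℝ) - r) / S) ^ 2 * (1 - qp ψ) ≤ qp ψ)
    (h2 : qp ψ ≤ (((m : ℝ) + r) / S) ^ 2 * (1 - qp ψ)) :
    InB (vv ψ) ⟨m, r⟩ := by
  have h3 := qp_lt_one (ψ := ψ)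
  have h4 := vv_nonneg ψ
  have h5 : vv ψ = Real.sqrt (qp ψ / (1 - qp ψ)) := by rw [← vv_sq, Real.sqrt_sq h4]
  rw [h5]
  refine sqrt_ball h0 ?_ ?_
  · rw [le_div_iff₀ (by linarith)]; exact h1
  · rw [div_le_iff₀ (by linarith)]; exact h2

theorem zz_eq (ψ x : ℝ) : zz 0 ψ x = -(vv ψ * x) := by
  unfold zz vv
  ring

theorem InB_r1 : InB (Real.sqrt psi1) ⟨Int.ofNat (nat_lit 1850552148592551865), nat_lit 1⟩ := by
  refine sqrt_ball ?_ ?_ ?_ <;> · rw [S_eq]; norm_num [psi1]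

theorem InB_r2 : InB (Real.sqrt psi2) ⟨Int.ofNat (nat_lit 1850559331451014530), nat_lit 1⟩ := by
  refine sqrt_ball ?_ ?_ ?_ <;> · rw [S_eq]; norm_num [psi2]

theorem qp1 : (563948286086 : ℝ) / 1000000000000 ≤ qp psi1 ∧
    qp psi1 ≤ (563948380542 : ℝ) / 1000000000000 := (Q1_all InB_r1).1

theorem qp2 : (563949605574 : ℝ) / 1000000000000 ≤ qp psi2 ∧
    qp psi2 ≤ (563949700030 : ℝ) / 1000000000000 := (Q2_all InB_r2).1

theorem InB_v1 : InB (vv psi1) ⟨Int.ofNat (nat_lit 1311144094236910336), nat_lit 136687237695⟩ := by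
  obtain ⟨h1, h2⟩ := qp1
  refine vv_ball ?_ ?_ ?_
  · rw [S_eq]; norm_num
  · rw [S_eq]; norm_num; linarith
  · rw [S_eq]; norm_num; linarith

theorem InB_v2 : InB (vv psi2) ⟨Int.ofNat (nat_lit 1311147611861060096), nat_lit 136688949925⟩ := by
  obtain ⟨h1, h2⟩ := qp2
  refine vv_ball ?_ ?_ ?_
  · rw [S_eq]; norm_num
  · rw [S_eq]; norm_num; linarith
  · rw [S_eq]; norm_num; linarith

/-! ### the whole box -/

section
variable {ψ : ℝ}

theorem box_pos (h1 : psi1 ≤ ψ) : 0 < ψ := lt_of_lt_of_le (by norm_num [psi1]) h1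

theorem box_r (h1 : psi1 ≤ ψ) (h2 : ψ ≤ psi2) :
    InB (Real.sqrt ψ) ⟨Int.ofNat (nat_lit 1850555741999803248), nat_lit 3700000000000⟩ := by
  unfold psi1 at h1
  unfold psi2 at h2
  refine sqrt_ball ?_ ?_ ?_
  · rw [S_eq]; norm_num
  · refine le_trans ?_ h1
    rw [S_eq]; norm_num
  · refine h2.trans ?_
    rw [S_eq]; norm_num

theorem box_q (h1 : psi1 ≤ ψ) (h2 : ψ ≤ psi2) :
    (563948286086 : ℝ) / 1000000000000 ≤ qp ψ ∧ qp ψ ≤ (563949700030 : ℝ) / 1000000000000 :=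
  ⟨qp1.1.trans (qp_mono h1), (qp_mono h2).trans qp2.2⟩

theorem box_v (h1 : psi1 ≤ ψ) (h2 : ψ ≤ psi2) :
    InB (vv ψ) ⟨Int.ofNat (nat_lit 1311145853048648213), nat_lit 1900000000000⟩ := by
  obtain ⟨h1, h2⟩ := box_q h1 h2
  refine vv_ball ?_ ?_ ?_
  · rw [S_eq]; norm_num
  · rw [S_eq]; norm_num; linarith
  · rw [S_eq]; norm_num; linarith

end

end IP49N
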