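import Pool.Agent.IP49N.SFin

/-! IP49N/UVa: certified integrals, generated by gen.py (helper52).  -/

set_option autoImplicit false
set_option maxRecDepth 20000

namespace IP49N
open Pool.Agent.IP49

def UVa_prog : List Op := [
    .z, .p 0, .mul 0 1, .c (0), .sub 0 1, .mil 0, .mul 1 1, .mul 7 7, .c (-576460752303423488),
    .mul 1 0, .exp 0, .mul 4 0, .p 1, .mul 0 11, .p 2, .mul 0 10, .add 2 0, .sub 14 0, .mil 0,
    .mul 15 1, .mul 0 10, .mul 20 3, .mul 0 12, .mul 7 5, .sub 5 0, .mul 0 15, .p 3, .mul 0 26,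
    .p 4, .mul 0 25, .add 2 0, .sub 29 0, .mil 0, .mul 30 1, .mul 0 25, .mul 35 3, .mul 0 27,
    .mul 7 5, .sub 5 0, .mul 0 30]
def UVa_par : List Bl := [
    ⟨Int.ofNat (nat_lit 1311145853048648213), nat_lit 1900000000000⟩,
    ⟨Int.ofNat (nat_lit 1210567579837189325), nat_lit 1⟩,
    ⟨Int.ofNat (nat_lit 103762935414616228), nat_lit 1⟩,
    ⟨Int.ofNat (nat_lit 1095275429376504627), nat_lit 1⟩,
    ⟨Int.negSucc (nat_lit 106068778423829921), nat_lit 1⟩]
def UVa_cl : List (ℤ × ℕ) := [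
    (Int.ofNat (nat_lit 1554733519919080090), nat_lit 3906869223688),
    (Int.ofNat (nat_lit 1482220567162113227), nat_lit 4020559088119),
    (Int.negSucc (nat_lit 844235853136113122), nat_lit 4530391847439),
    (Int.negSucc (nat_lit 406294403500453624), nat_lit 6233878643638),
    (Int.ofNat (nat_lit 1630849806998662695), nat_lit 4089446880773),
    (Int.negSucc (nat_lit 910502402674391455), nat_lit 4526671534952),
    (Int.negSucc (nat_lit 339798292461938563), nat_lit 6124329395287)]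
theorem UVa_run : quad (nat_lit 36028797018963968) UVa_par UVa_prog [30, 20, 18, 15, 5, 3, 0] (nat_lit 128)
    (List.replicate (nat_lit 7) Acc.zero) true
    (fun acc b => Bool.and b (chk (nat_lit 36028797018963968) UVa_cl acc)) = true := by decide +kernel

theorem UVa_all {v : ℝ}
    (hv : InB v ⟨Int.ofNat (nat_lit 1311145853048648213), nat_lit 1900000000000⟩) :
    ((13485129 : ℝ) / 10000000 ≤ GE (fun x => Mi (-(v * x)) ^ 2) ∧
      GE (fun x => Mi (-(v * x)) ^ 2) ≤ (13485198 : ℝ) / 10000000) ∧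
    ((12856179 : ℝ) / 10000000 ≤ GE (fun x => Mi (-(v * x)) * Mi (-((21/20) * (v * x) + (9/100) * Mi (-(v * x))))) ∧
      GE (fun x => Mi (-(v * x)) * Mi (-((21/20) * (v * x) + (9/100) * Mi (-(v * x))))) ≤ (12856250 : ℝ) / 10000000) ∧
    ((-7322619 : ℝ) / 10000000 ≤ GE (fun x => v * x * Mi (-((21/20) * (v * x) + (9/100) * Mi (-(v * x))))) ∧
      GE (fun x => v * x * Mi (-((21/20) * (v * x) + (9/100) * Mi (-(v * x))))) ≤ (-7322539 : ℝ) / 10000000) ∧
    ((-3524097 : ℝ) / 10000000 ≤ GE (fun x => Real.log (Ph (-((21/20) * (v * x) + (9/100) * Mi (-(v * x))))) - ((21/20) * (v * x) + (9/100) * Mi (-(v * x))) * Mi (-((21/20) * (v * x) + (9/100) * Mi (-(v * x))))) ∧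
      GE (fun x => Real.log (Ph (-((21/20) * (v * x) + (9/100) * Mi (-(v * x))))) - ((21/20) * (v * x) + (9/100) * Mi (-(v * x))) * Mi (-((21/20) * (v * x) + (9/100) * Mi (-(v * x))))) ≤ (-3523987 : ℝ) / 10000000) ∧
    ((14145331 : ℝ) / 10000000 ≤ GE (fun x => Mi (-(v * x)) * Mi (-((19/20) * (v * x) - (23/250) * Mi (-(v * x))))) ∧
      GE (fun x => Mi (-(v * x)) * Mi (-((19/20) * (v * x) - (23/250) * Mi (-(v * x))))) ≤ (14145403 : ℝ) / 10000000) ∧
    ((-7897389 : ℝ) / 10000000 ≤ GE (fun x => v * x * Mi (-((19/20) * (v * x) - (23/250) * Mi (-(v * x))))) ∧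
      GE (fun x => v * x * Mi (-((19/20) * (v * x) - (23/250) * Mi (-(v * x))))) ≤ (-7897310 : ℝ) / 10000000) ∧
    ((-2947334 : ℝ) / 10000000 ≤ GE (fun x => Real.log (Ph (-((19/20) * (v * x) - (23/250) * Mi (-(v * x))))) - ((19/20) * (v * x) - (23/250) * Mi (-(v * x))) * Mi (-((19/20) * (v * x) - (23/250) * Mi (-(v * x))))) ∧
      GE (fun x => Real.log (Ph (-((19/20) * (v * x) - (23/250) * Mi (-(v * x))))) - ((19/20) * (v * x) - (23/250) * Mi (-(v * x))) * Mi (-((19/20) * (v * x) - (23/250) * Mi (-(v * x))))) ≤ (-2947227 : ℝ) / 10000000) := by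
  have bv : |v| ≤ 2 := by simpa using hv.abs_le (K := 2) (by decide +kernel)
  have cc0 : ((-576460752303423488 : ℤ) : ℝ) / S = (-1/2 : ℝ) := by rw [S_eq]; norm_num
  have h := GE_run8 (W := 36028797018963968) (n := 128) (by norm_num) (by rw [S_eq]; norm_num)
    (par := UVa_par) (xs := [v, (21/20 : ℝ), (9/100 : ℝ), (19/20 : ℝ), (-23/250 : ℝ)])
    (.cons hv (.cons (InB.of_bounds (by rw [S_eq]; norm_num) (by rw [S_eq]; norm_num)) (.cons (InB.of_bounds (by rw [S_eq]; norm_num) (by rw [S_eq]; norm_num)) (.cons (InB.of_bounds (by rw [S_eq]; norm_num) (by rw [S_eq]; norm_num)) (.cons (InB.of_bounds (by rw [S_eq]; norm_num) (by rw [S_eq]; norm_num)) .nil))))) UVa_prog [30, 20, 18, 15, 5, 3, 0] UVa_cl UVa_run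
    (Fs := [fun x => Mi (-(v * x)) ^ 2,
      fun x => Mi (-(v * x)) * Mi (-((21/20) * (v * x) + (9/100) * Mi (-(v * x)))),
      fun x => v * x * Mi (-((21/20) * (v * x) + (9/100) * Mi (-(v * x)))),
      fun x => Real.log (Ph (-((21/20) * (v * x) + (9/100) * Mi (-(v * x))))) - ((21/20) * (v * x) + (9/100) * Mi (-(v * x))) * Mi (-((21/20) * (v * x) + (9/100) * Mi (-(v * x)))),
      fun x => Mi (-(v * x)) * Mi (-((19/20) * (v * x) - (23/250) * Mi (-(v * x)))),
      fun x => v * x * Mi (-((19/20) * (v * x) - (23/250) * Mi (-(v * x)))),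
      fun x => Real.log (Ph (-((19/20) * (v * x) - (23/250) * Mi (-(v * x))))) - ((19/20) * (v * x) - (23/250) * Mi (-(v * x))) * Mi (-((19/20) * (v * x) - (23/250) * Mi (-(v * x))))]) rfl
    (by
      refine .cons ⟨by fun_prop (disch := positivity), fun x => ?_⟩ (.cons ⟨by fun_prop (disch := positivity), fun x => ?_⟩ (.cons ⟨by fun_prop (disch := positivity), fun x => ?_⟩ (.cons ⟨by fun_prop (disch := positivity), fun x => ?_⟩ (.cons ⟨by fun_prop (disch := positivity), fun x => ?_⟩ (.cons ⟨by fun_prop (disch := positivity), fun x => ?_⟩ (.cons ⟨by fun_prop (disch := positivity), fun x => ?_⟩ (.nil)))))))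
      all_goals
        simp only [UVa_prog, evp, gt, List.getD_cons_zero, List.getD_cons_succ, cc0]
        ring_nf)
  simp only [UVa_cl, List.forall₂_cons, List.Forall₂.nil, _root_.and_true] at h
  obtain ⟨h0, h1, h2, h3, h4, h5, h6⟩ := h
  have gg : (∃ C k, Gr (fun x => Mi (-(v * x)) ^ 2) C k ∧ k ≤ 6 ∧ C * 8e-10 ≤ (43/5000000000 : ℝ)) ∧
      (∃ C k, Gr (fun x => Mi (-(v * x)) * Mi (-((21/20) * (v * x) + (9/100) * Mi (-(v * x))))) C k ∧ k ≤ 6 ∧ C * 8e-10 ≤ (97/10000000000 : ℝ)) ∧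
      (∃ C k, Gr (fun x => v * x * Mi (-((21/20) * (v * x) + (9/100) * Mi (-(v * x))))) C k ∧ k ≤ 6 ∧ C * 8e-10 ≤ (65001/10000000000000 : ℝ)) ∧
      (∃ C k, Gr (fun x => Real.log (Ph (-((21/20) * (v * x) + (9/100) * Mi (-(v * x))))) - ((21/20) * (v * x) + (9/100) * Mi (-(v * x))) * Mi (-((21/20) * (v * x) + (9/100) * Mi (-(v * x))))) C k ∧ k ≤ 6 ∧ C * 8e-10 ≤ (190001/10000000000000 : ℝ)) ∧
      (∃ C k, Gr (fun x => Mi (-(v * x)) * Mi (-((19/20) * (v * x) - (23/250) * Mi (-(v * x))))) C k ∧ k ≤ 6 ∧ C * 8e-10 ≤ (91001/10000000000000 : ℝ)) ∧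
      (∃ C k, Gr (fun x => v * x * Mi (-((19/20) * (v * x) - (23/250) * Mi (-(v * x))))) C k ∧ k ≤ 6 ∧ C * 8e-10 ≤ (61001/10000000000000 : ℝ)) ∧
      (∃ C k, Gr (fun x => Real.log (Ph (-((19/20) * (v * x) - (23/250) * Mi (-(v * x))))) - ((19/20) * (v * x) - (23/250) * Mi (-(v * x))) * Mi (-((19/20) * (v * x) - (23/250) * Mi (-(v * x))))) C k ∧ k ≤ 6 ∧ C * 8e-10 ≤ (160001/10000000000000 : ℝ)) := by
    refine ⟨?_, ?_, ?_, ?_, ?_, ?_, ?_⟩
    all_goals
      apply gr8
      · repeat' (with_reducible first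
          | exact Gr.id
          | exact Gr.par (by assumption)
          | exact Gr.num (by norm_num)
          | exact Gr.tanh _
          | exact Gr.Md _
          | exact Gr.M2 _
          | exact Gr.Ph _
          | assumption
          | apply Gr.lc
          | apply Gr.Mi
          | apply Gr.logPh
          | apply Gr.neg
          | apply Gr.abs
          | apply Gr.add
          | apply Gr.sub
          | apply Gr.mul
          | apply Gr.pow
          | (refine Gr.div ?_ (by norm_num)))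
      · norm_num
      · norm_num
  obtain ⟨gg0, gg1, gg2, gg3, gg4, gg5, gg6⟩ := gg
  have g0 := dec_of (lo := (13485129 : ℝ) / 10000000) (hi := (13485198 : ℝ) / 10000000) (h0 _ gg0)
    (by rw [S_eq]; norm_num) (by rw [S_eq]; norm_num)
  have g1 := dec_of (lo := (12856179 : ℝ) / 10000000) (hi := (12856250 : ℝ) / 10000000) (h1 _ gg1)
    (by rw [S_eq]; norm_num) (by rw [S_eq]; norm_num)
  have g2 := dec_of (lo := (-7322619 : ℝ) / 10000000) (hi := (-7322539 : ℝ) / 10000000) (h2 _ gg2)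
    (by rw [S_eq]; norm_num) (by rw [S_eq]; norm_num)
  have g3 := dec_of (lo := (-3524097 : ℝ) / 10000000) (hi := (-3523987 : ℝ) / 10000000) (h3 _ gg3)
    (by rw [S_eq]; norm_num) (by rw [S_eq]; norm_num)
  have g4 := dec_of (lo := (14145331 : ℝ) / 10000000) (hi := (14145403 : ℝ) / 10000000) (h4 _ gg4)
    (by rw [S_eq]; norm_num) (by rw [S_eq]; norm_num)
  have g5 := dec_of (lo := (-7897389 : ℝ) / 10000000) (hi := (-7897310 : ℝ) / 10000000) (h5 _ gg5)
    (by rw [S_eq]; norm_num) (by rw [S_eq]; norm_num)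
  have g6 := dec_of (lo := (-2947334 : ℝ) / 10000000) (hi := (-2947227 : ℝ) / 10000000) (h6 _ gg6)
    (by rw [S_eq]; norm_num) (by rw [S_eq]; norm_num)
  exact ⟨g0, g1, g2, g3, g4, g5, g6⟩

end IP49N
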