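import Pool.Agent.IP49N.SFin

/-! IP49N/USa: certified integrals, generated by gen.py (helper52).  -/

set_option autoImplicit false
set_option maxRecDepth 20000

namespace IP49N
open Pool.Agent.IP49

def USa_prog : List Op := [
    .z, .p 0, .mul 0 1, .th 0, .p 1, .p 2, .mul 0 3, .mul 2 5, .add 1 0, .th 0, .mul 11 11,
    .c (-576460752303423488), .mul 1 0, .exp 0, .mul 4 0, .mul 14 6, .mul 0 2, .p 3, .mul 0 17,
    .add 13 0, .th 0, .mul 0 8, .p 4, .p 5, .mul 0 23, .mul 2 25, .add 1 0, .th 0, .mul 0 16,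
    .mul 30 2, .mul 0 18, .p 6, .mul 0 33, .add 9 0, .th 0, .mul 0 24]
def USa_par : List Bl := [
    ⟨Int.ofNat (nat_lit 1850555741999803248), nat_lit 3700000000000⟩,
    ⟨Int.ofNat (nat_lit 1125913961238761270), nat_lit 6132993083531⟩,
    ⟨Int.ofNat (nat_lit 149879795598890107), nat_lit 1⟩,
    ⟨Int.ofNat (nat_lit 1145172263066946511), nat_lit 6345930306734⟩,
    ⟨Int.ofNat (nat_lit 1165638656060105425), nat_lit 6182074081845⟩,
    ⟨Int.negSucc (nat_lit 145268109580462718), nat_lit 1⟩,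
    ⟨Int.ofNat (nat_lit 1182395691893999128), nat_lit 6207870446868⟩]
def USa_cl : List (ℤ × ℕ) := [
    (Int.ofNat (nat_lit 1746275199227517363), nat_lit 11744727339980),
    (Int.ofNat (nat_lit 1313032853814557242), nat_lit 26113974949467),
    (Int.ofNat (nat_lit 1768242967643817406), nat_lit 12081548809205),
    (Int.ofNat (nat_lit 1624700760671734808), nat_lit 11830069289418),
    (Int.ofNat (nat_lit 1272261105259999921), nat_lit 26230483849030),
    (Int.ofNat (nat_lit 1643226573559972823), nat_lit 11917215787951)]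
theorem USa_run : quad (nat_lit 36028797018963968) USa_par USa_prog [24, 22, 16, 8, 6, 0] (nat_lit 128)
    (List.replicate (nat_lit 6) Acc.zero) true
    (fun acc b => Bool.and b (chk (nat_lit 36028797018963968) USa_cl acc)) = true := by decide +kernel

theorem USa_all {r sR1a sR1b sL1a sL1b : ℝ}
    (hr : InB r ⟨Int.ofNat (nat_lit 1850555741999803248), nat_lit 3700000000000⟩) (hsR1a : InB sR1a ⟨Int.ofNat (nat_lit 1125913961238761270), nat_lit 6132993083531⟩) (hsR1b : InB sR1b ⟨Int.ofNat (nat_lit 1145172263066946511), nat_lit 6345930306734⟩) (hsL1a : InB sL1a ⟨Int.ofNat (nat_lit 1165638656060105425), nat_lit 6182074081845⟩) (hsL1b : InB sL1b ⟨Int.ofNat (nat_lit 1182395691893999128), nat_lit 6207870446868⟩) :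
    ((1514642 : ℝ) / 1000000 ≤ GE (fun x => lc ((13/100) * Real.tanh (r * x) + sR1a * (r * x))) ∧
      GE (fun x => lc ((13/100) * Real.tanh (r * x) + sR1a * (r * x))) ≤ (1514663 : ℝ) / 1000000) ∧
    ((1138851 : ℝ) / 1000000 ≤ GE (fun x => r * x * Real.tanh ((13/100) * Real.tanh (r * x) + sR1a * (r * x))) ∧
      GE (fun x => r * x * Real.tanh ((13/100) * Real.tanh (r * x) + sR1a * (r * x))) ≤ (1138898 : ℝ) / 1000000) ∧
    ((1533695 : ℝ) / 1000000 ≤ GE (fun x => lc ((13/100) * Real.tanh (r * x) + sR1b * (r * x))) ∧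
      GE (fun x => lc ((13/100) * Real.tanh (r * x) + sR1b * (r * x))) ≤ (1533717 : ℝ) / 1000000) ∧
    ((1409193 : ℝ) / 1000000 ≤ GE (fun x => lc (-((63/500) * Real.tanh (r * x)) + sL1a * (r * x))) ∧
      GE (fun x => lc (-((63/500) * Real.tanh (r * x)) + sL1a * (r * x))) ≤ (1409214 : ℝ) / 1000000) ∧
    ((1103487 : ℝ) / 1000000 ≤ GE (fun x => r * x * Real.tanh (-((63/500) * Real.tanh (r * x)) + sL1a * (r * x))) ∧
      GE (fun x => r * x * Real.tanh (-((63/500) * Real.tanh (r * x)) + sL1a * (r * x))) ≤ (1103534 : ℝ) / 1000000) ∧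
    ((1425261 : ℝ) / 1000000 ≤ GE (fun x => lc (-((63/500) * Real.tanh (r * x)) + sL1b * (r * x))) ∧
      GE (fun x => lc (-((63/500) * Real.tanh (r * x)) + sL1b * (r * x))) ≤ (1425283 : ℝ) / 1000000) := by
  have br : |r| ≤ 2 := by simpa using hr.abs_le (K := 2) (by decide +kernel)
  have bsR1a : |sR1a| ≤ 1 := by simpa using hsR1a.abs_le (K := 1) (by decide +kernel)
  have bsR1b : |sR1b| ≤ 1 := by simpa using hsR1b.abs_le (K := 1) (by decide +kernel)
  have bsL1a : |sL1a| ≤ 2 := by simpa using hsL1a.abs_le (K := 2) (by decide +kernel)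
  have bsL1b : |sL1b| ≤ 2 := by simpa using hsL1b.abs_le (K := 2) (by decide +kernel)
  have cc0 : ((-576460752303423488 : ℤ) : ℝ) / S = (-1/2 : ℝ) := by rw [S_eq]; norm_num
  have h := GE_run8 (W := 36028797018963968) (n := 128) (by norm_num) (by rw [S_eq]; norm_num)
    (par := USa_par) (xs := [r, sR1a, (13/100 : ℝ), sR1b, sL1a, (-63/500 : ℝ), sL1b])
    (.cons hr (.cons hsR1a (.cons (InB.of_bounds (by rw [S_eq]; norm_num) (by rw [S_eq]; norm_num)) (.cons hsR1b (.cons hsL1a (.cons (InB.of_bounds (by rw [S_eq]; norm_num) (by rw [S_eq]; norm_num)) (.cons hsL1b .nil))))))) USa_prog [24, 22, 16, 8, 6, 0] USa_cl USa_run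
    (Fs := [fun x => lc ((13/100) * Real.tanh (r * x) + sR1a * (r * x)),
      fun x => r * x * Real.tanh ((13/100) * Real.tanh (r * x) + sR1a * (r * x)),
      fun x => lc ((13/100) * Real.tanh (r * x) + sR1b * (r * x)),
      fun x => lc (-((63/500) * Real.tanh (r * x)) + sL1a * (r * x)),
      fun x => r * x * Real.tanh (-((63/500) * Real.tanh (r * x)) + sL1a * (r * x)),
      fun x => lc (-((63/500) * Real.tanh (r * x)) + sL1b * (r * x))]) rfl
    (by
      refine .cons ⟨by fun_prop (disch := positivity), fun x => ?_⟩ (.cons ⟨by fun_prop (disch := positivity), fun x => ?_⟩ (.cons ⟨by fun_prop (disch := positivity), fun x => ?_⟩ (.cons ⟨by fun_prop (disch := positivity), fun x => ?_⟩ (.cons ⟨by fun_prop (disch := positivity), fun x => ?_⟩ (.cons ⟨by fun_prop (disch := positivity), fun x => ?_⟩ (.nil))))))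
      all_goals
        simp only [USa_prog, evp, gt, List.getD_cons_zero, List.getD_cons_succ, cc0]
        ring_nf)
  simp only [USa_cl, List.forall₂_cons, List.Forall₂.nil, _root_.and_true] at h
  obtain ⟨h0, h1, h2, h3, h4, h5⟩ := h
  have gg : (∃ C k, Gr (fun x => lc ((13/100) * Real.tanh (r * x) + sR1a * (r * x))) C k ∧ k ≤ 6 ∧ C * 8e-10 ≤ (3/1000000000 : ℝ)) ∧
      (∃ C k, Gr (fun x => r * x * Real.tanh ((13/100) * Real.tanh (r * x) + sR1a * (r * x))) C k ∧ k ≤ 6 ∧ C * 8e-10 ≤ (19001/10000000000000 : ℝ)) ∧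
      (∃ C k, Gr (fun x => lc ((13/100) * Real.tanh (r * x) + sR1b * (r * x))) C k ∧ k ≤ 6 ∧ C * 8e-10 ≤ (3/1000000000 : ℝ)) ∧
      (∃ C k, Gr (fun x => lc (-((63/500) * Real.tanh (r * x)) + sL1a * (r * x))) C k ∧ k ≤ 6 ∧ C * 8e-10 ≤ (49001/10000000000000 : ℝ)) ∧
      (∃ C k, Gr (fun x => r * x * Real.tanh (-((63/500) * Real.tanh (r * x)) + sL1a * (r * x))) C k ∧ k ≤ 6 ∧ C * 8e-10 ≤ (19001/10000000000000 : ℝ)) ∧
      (∃ C k, Gr (fun x => lc (-((63/500) * Real.tanh (r * x)) + sL1b * (r * x))) C k ∧ k ≤ 6 ∧ C * 8e-10 ≤ (49001/10000000000000 : ℝ)) := by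
    refine ⟨?_, ?_, ?_, ?_, ?_, ?_⟩
    all_goals
      apply gr8
      · repeat' (with_reducible first
          | exact Gr.id
          | exact Gr.par (by assumption)
          | exact Gr.num (by norm_num)
          | exact Gr.tanh _
          | exact Gr.Md _
          | exact Gr.M2 _
          | exact Gr.Ph _
          | assumption
          | apply Gr.lc
          | apply Gr.Mi
          | apply Gr.logPh
          | apply Gr.neg
          | apply Gr.abs
          | apply Gr.add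
          | apply Gr.sub
          | apply Gr.mul
          | apply Gr.pow
          | (refine Gr.div ?_ (by norm_num)))
      · norm_num
      · norm_num
  obtain ⟨gg0, gg1, gg2, gg3, gg4, gg5⟩ := gg
  have g0 := dec_of (lo := (1514642 : ℝ) / 1000000) (hi := (1514663 : ℝ) / 1000000) (h0 _ gg0)
    (by rw [S_eq]; norm_num) (by rw [S_eq]; norm_num)
  have g1 := dec_of (lo := (1138851 : ℝ) / 1000000) (hi := (1138898 : ℝ) / 1000000) (h1 _ gg1)
    (by rw [S_eq]; norm_num) (by rw [S_eq]; norm_num)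
  have g2 := dec_of (lo := (1533695 : ℝ) / 1000000) (hi := (1533717 : ℝ) / 1000000) (h2 _ gg2)
    (by rw [S_eq]; norm_num) (by rw [S_eq]; norm_num)
  have g3 := dec_of (lo := (1409193 : ℝ) / 1000000) (hi := (1409214 : ℝ) / 1000000) (h3 _ gg3)
    (by rw [S_eq]; norm_num) (by rw [S_eq]; norm_num)
  have g4 := dec_of (lo := (1103487 : ℝ) / 1000000) (hi := (1103534 : ℝ) / 1000000) (h4 _ gg4)
    (by rw [S_eq]; norm_num) (by rw [S_eq]; norm_num)
  have g5 := dec_of (lo := (1425261 : ℝ) / 1000000) (hi := (1425283 : ℝ) / 1000000) (h5 _ gg5)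
    (by rw [S_eq]; norm_num) (by rw [S_eq]; norm_num)
  exact ⟨g0, g1, g2, g3, g4, g5⟩

end IP49N
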