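import Pool.Agent.IP49N.SFin

/-! IP49N/USb: certified integrals, generated by gen.py (helper52).  -/

set_option autoImplicit false
set_option maxRecDepth 20000

namespace IP49N
open Pool.Agent.IP49

def USb_prog : List Op := [
    .z, .p 0, .mul 0 1, .th 0, .p 1, .p 2, .mul 0 3, .mul 2 5, .add 1 0, .th 0, .mul 11 11,
    .c (-576460752303423488), .mul 1 0, .exp 0, .mul 4 0, .mul 14 6, .mul 0 2, .p 3, .mul 0 17,
    .add 13 0, .th 0, .mul 0 8, .p 4, .p 5, .mul 0 23, .mul 2 25, .add 1 0, .th 0, .mul 0 16,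
    .mul 30 2, .mul 0 18, .p 6, .mul 0 33, .add 9 0, .th 0, .mul 0 24]
def USb_par : List Bl := [
    ⟨Int.ofNat (nat_lit 1850555741999803248), nat_lit 3700000000000⟩,
    ⟨Int.ofNat (nat_lit 1107603891810990026), nat_lit 14266613337938⟩,
    ⟨Int.ofNat (nat_lit 259407338536540570), nat_lit 1⟩,
    ⟨Int.ofNat (nat_lit 1141436111919369229), nat_lit 14802207507767⟩,
    ⟨Int.ofNat (nat_lit 1174422098333255196), nat_lit 14590458589230⟩,
    ⟨Int.negSucc (nat_lit 236348908444403629), nat_lit 1⟩,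
    ⟨Int.ofNat (nat_lit 1201208622743870400), nat_lit 14855242992255⟩]
def USb_cl : List (ℤ × ℕ) := [
    (Int.ofNat (nat_lit 1788785037907043166), nat_lit 33364342264513),
    (Int.ofNat (nat_lit 1325176825580977802), nat_lit 66922096382645),
    (Int.ofNat (nat_lit 1827769869014247611), nat_lit 34612534419534),
    (Int.ofNat (nat_lit 1584730874864424486), nat_lit 31746255186501),
    (Int.ofNat (nat_lit 1256593073549968596), nat_lit 64467943208403),
    (Int.ofNat (nat_lit 1614020634744067653), nat_lit 32462748854778)]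
theorem USb_run : quad (nat_lit 72057594037927936) USb_par USb_prog [24, 22, 16, 8, 6, 0] (nat_lit 64)
    (List.replicate (nat_lit 6) Acc.zero) true
    (fun acc b => Bool.and b (chk (nat_lit 72057594037927936) USb_cl acc)) = true := by decide +kernel

theorem USb_all {r sR2a sR2b sL2a sL2b : ℝ}
    (hr : InB r ⟨Int.ofNat (nat_lit 1850555741999803248), nat_lit 3700000000000⟩) (hsR2a : InB sR2a ⟨Int.ofNat (nat_lit 1107603891810990026), nat_lit 14266613337938⟩) (hsR2b : InB sR2b ⟨Int.ofNat (nat_lit 1141436111919369229), nat_lit 14802207507767⟩) (hsL2a : InB sL2a ⟨Int.ofNat (nat_lit 1174422098333255196), nat_lit 14590458589230⟩) (hsL2b : InB sL2b ⟨Int.ofNat (nat_lit 1201208622743870400), nat_lit 14855242992255⟩) :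
    ((1551494 : ℝ) / 1000000 ≤ GE (fun x => lc ((9/40) * Real.tanh (r * x) + sR2a * (r * x))) ∧
      GE (fun x => lc ((9/40) * Real.tanh (r * x) + sR2a * (r * x))) ≤ (1551553 : ℝ) / 1000000) ∧
    ((1149349 : ℝ) / 1000000 ≤ GE (fun x => r * x * Real.tanh ((9/40) * Real.tanh (r * x) + sR2a * (r * x))) ∧
      GE (fun x => r * x * Real.tanh ((9/40) * Real.tanh (r * x) + sR2a * (r * x))) ≤ (1149466 : ℝ) / 1000000) ∧
    ((1585307 : ℝ) / 1000000 ≤ GE (fun x => lc ((9/40) * Real.tanh (r * x) + sR2b * (r * x))) ∧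
      GE (fun x => lc ((9/40) * Real.tanh (r * x) + sR2b * (r * x))) ≤ (1585368 : ℝ) / 1000000) ∧
    ((1374507 : ℝ) / 1000000 ≤ GE (fun x => lc (-((41/200) * Real.tanh (r * x)) + sL2a * (r * x))) ∧
      GE (fun x => lc (-((41/200) * Real.tanh (r * x)) + sL2a * (r * x))) ≤ (1374563 : ℝ) / 1000000) ∧
    ((1089864 : ℝ) / 1000000 ≤ GE (fun x => r * x * Real.tanh (-((41/200) * Real.tanh (r * x)) + sL2a * (r * x))) ∧
      GE (fun x => r * x * Real.tanh (-((41/200) * Real.tanh (r * x)) + sL2a * (r * x))) ≤ (1089977 : ℝ) / 1000000) ∧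
    ((1399911 : ℝ) / 1000000 ≤ GE (fun x => lc (-((41/200) * Real.tanh (r * x)) + sL2b * (r * x))) ∧
      GE (fun x => lc (-((41/200) * Real.tanh (r * x)) + sL2b * (r * x))) ≤ (1399968 : ℝ) / 1000000) := by
  have br : |r| ≤ 2 := by simpa using hr.abs_le (K := 2) (by decide +kernel)
  have bsR2a : |sR2a| ≤ 1 := by simpa using hsR2a.abs_le (K := 1) (by decide +kernel)
  have bsR2b : |sR2b| ≤ 1 := by simpa using hsR2b.abs_le (K := 1) (by decide +kernel)
  have bsL2a : |sL2a| ≤ 2 := by simpa using hsL2a.abs_le (K := 2) (by decide +kernel)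
  have bsL2b : |sL2b| ≤ 2 := by simpa using hsL2b.abs_le (K := 2) (by decide +kernel)
  have cc0 : ((-576460752303423488 : ℤ) : ℝ) / S = (-1/2 : ℝ) := by rw [S_eq]; norm_num
  have h := GE_run8 (W := 72057594037927936) (n := 64) (by norm_num) (by rw [S_eq]; norm_num)
    (par := USb_par) (xs := [r, sR2a, (9/40 : ℝ), sR2b, sL2a, (-41/200 : ℝ), sL2b])
    (.cons hr (.cons hsR2a (.cons (InB.of_bounds (by rw [S_eq]; norm_num) (by rw [S_eq]; norm_num)) (.cons hsR2b (.cons hsL2a (.cons (InB.of_bounds (by rw [S_eq]; norm_num) (by rw [S_eq]; norm_num)) (.cons hsL2b .nil))))))) USb_prog [24, 22, 16, 8, 6, 0] USb_cl USb_run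
    (Fs := [fun x => lc ((9/40) * Real.tanh (r * x) + sR2a * (r * x)),
      fun x => r * x * Real.tanh ((9/40) * Real.tanh (r * x) + sR2a * (r * x)),
      fun x => lc ((9/40) * Real.tanh (r * x) + sR2b * (r * x)),
      fun x => lc (-((41/200) * Real.tanh (r * x)) + sL2a * (r * x)),
      fun x => r * x * Real.tanh (-((41/200) * Real.tanh (r * x)) + sL2a * (r * x)),
      fun x => lc (-((41/200) * Real.tanh (r * x)) + sL2b * (r * x))]) rfl
    (by
      refine .cons ⟨by fun_prop (disch := positivity), fun x => ?_⟩ (.cons ⟨by fun_prop (disch := positivity), fun x => ?_⟩ (.cons ⟨by fun_prop (disch := positivity), fun x => ?_⟩ (.cons ⟨by fun_prop (disch := positivity), fun x => ?_⟩ (.cons ⟨by fun_prop (disch := positivity), fun x => ?_⟩ (.cons ⟨by fun_prop (disch := positivity), fun x => ?_⟩ (.nil))))))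
      all_goals
        simp only [USb_prog, evp, gt, List.getD_cons_zero, List.getD_cons_succ, cc0]
        ring_nf)
  simp only [USb_cl, List.forall₂_cons, List.Forall₂.nil, _root_.and_true] at h
  obtain ⟨h0, h1, h2, h3, h4, h5⟩ := h
  have gg : (∃ C k, Gr (fun x => lc ((9/40) * Real.tanh (r * x) + sR2a * (r * x))) C k ∧ k ≤ 6 ∧ C * 8e-10 ≤ (31001/10000000000000 : ℝ)) ∧
      (∃ C k, Gr (fun x => r * x * Real.tanh ((9/40) * Real.tanh (r * x) + sR2a * (r * x))) C k ∧ k ≤ 6 ∧ C * 8e-10 ≤ (19001/10000000000000 : ℝ)) ∧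
      (∃ C k, Gr (fun x => lc ((9/40) * Real.tanh (r * x) + sR2b * (r * x))) C k ∧ k ≤ 6 ∧ C * 8e-10 ≤ (31001/10000000000000 : ℝ)) ∧
      (∃ C k, Gr (fun x => lc (-((41/200) * Real.tanh (r * x)) + sL2a * (r * x))) C k ∧ k ≤ 6 ∧ C * 8e-10 ≤ (50001/10000000000000 : ℝ)) ∧
      (∃ C k, Gr (fun x => r * x * Real.tanh (-((41/200) * Real.tanh (r * x)) + sL2a * (r * x))) C k ∧ k ≤ 6 ∧ C * 8e-10 ≤ (19001/10000000000000 : ℝ)) ∧
      (∃ C k, Gr (fun x => lc (-((41/200) * Real.tanh (r * x)) + sL2b * (r * x))) C k ∧ k ≤ 6 ∧ C * 8e-10 ≤ (50001/10000000000000 : ℝ)) := by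
    refine ⟨?_, ?_, ?_, ?_, ?_, ?_⟩
    all_goals
      apply gr8
      · repeat' (with_reducible first
          | exact Gr.id
          | exact Gr.par (by assumption)
          | exact Gr.num (by norm_num)
          | exact Gr.tanh _
          | exact Gr.Md _
          | exact Gr.M2 _
          | exact Gr.Ph _
          | assumption
          | apply Gr.lc
          | apply Gr.Mi
          | apply Gr.logPh
          | apply Gr.neg
          | apply Gr.abs
          | apply Gr.add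
          | apply Gr.sub
          | apply Gr.mul
          | apply Gr.pow
          | (refine Gr.div ?_ (by norm_num)))
      · norm_num
      · norm_num
  obtain ⟨gg0, gg1, gg2, gg3, gg4, gg5⟩ := gg
  have g0 := dec_of (lo := (1551494 : ℝ) / 1000000) (hi := (1551553 : ℝ) / 1000000) (h0 _ gg0)
    (by rw [S_eq]; norm_num) (by rw [S_eq]; norm_num)
  have g1 := dec_of (lo := (1149349 : ℝ) / 1000000) (hi := (1149466 : ℝ) / 1000000) (h1 _ gg1)
    (by rw [S_eq]; norm_num) (by rw [S_eq]; norm_num)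
  have g2 := dec_of (lo := (1585307 : ℝ) / 1000000) (hi := (1585368 : ℝ) / 1000000) (h2 _ gg2)
    (by rw [S_eq]; norm_num) (by rw [S_eq]; norm_num)
  have g3 := dec_of (lo := (1374507 : ℝ) / 1000000) (hi := (1374563 : ℝ) / 1000000) (h3 _ gg3)
    (by rw [S_eq]; norm_num) (by rw [S_eq]; norm_num)
  have g4 := dec_of (lo := (1089864 : ℝ) / 1000000) (hi := (1089977 : ℝ) / 1000000) (h4 _ gg4)
    (by rw [S_eq]; norm_num) (by rw [S_eq]; norm_num)
  have g5 := dec_of (lo := (1399911 : ℝ) / 1000000) (hi := (1399968 : ℝ) / 1000000) (h5 _ gg5)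
    (by rw [S_eq]; norm_num) (by rw [S_eq]; norm_num)
  exact ⟨g0, g1, g2, g3, g4, g5⟩

end IP49N
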