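import Pool.Agent.IP49N.SFin

/-! IP49N/USc: certified integrals, generated by gen.py (helper52).  -/

set_option autoImplicit false
set_option maxRecDepth 20000

namespace IP49N
open Pool.Agent.IP49

def USc_prog : List Op := [
    .z, .p 0, .mul 0 1, .th 0, .p 1, .p 2, .mul 0 3, .mul 2 5, .add 1 0, .th 0, .mul 11 11,
    .c (-576460752303423488), .mul 1 0, .exp 0, .mul 4 0, .mul 14 6, .mul 0 2, .p 3, .mul 0 17,
    .add 13 0, .th 0, .mul 0 8, .p 4, .p 5, .mul 0 23, .mul 2 25, .add 1 0, .th 0, .mul 0 16,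
    .mul 30 2, .mul 0 18, .p 6, .mul 0 33, .add 9 0, .th 0, .mul 0 24]
def USc_par : List Bl := [
    ⟨Int.ofNat (nat_lit 1850555741999803248), nat_lit 3700000000000⟩,
    ⟨Int.ofNat (nat_lit 1063979838178754655), nat_lit 14099727586976⟩,
    ⟨Int.ofNat (nat_lit 472697816888807260), nat_lit 1⟩,
    ⟨Int.ofNat (nat_lit 1139152964404570188), nat_lit 15372193637368⟩,
    ⟨Int.ofNat (nat_lit 1188019519237009291), nat_lit 15462715142481⟩,
    ⟨Int.negSucc (nat_lit 391993311566327971), nat_lit 1⟩,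
    ⟨Int.ofNat (nat_lit 1237735854488537913), nat_lit 15961964626329⟩]
def USc_cl : List (ℤ × ℕ) := [
    (Int.ofNat (nat_lit 1864073434202157797), nat_lit 36072146508621),
    (Int.ofNat (nat_lit 1344784491371348974), nat_lit 70489795560565),
    (Int.ofNat (nat_lit 1952157353566224220), nat_lit 39117212211906),
    (Int.ofNat (nat_lit 1516811442848419096), nat_lit 33627936057208),
    (Int.ofNat (nat_lit 1226430217303296751), nat_lit 67794283806416),
    (Int.ofNat (nat_lit 1570068498040889568), nat_lit 34968270385784)]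
theorem USc_run : quad (nat_lit 72057594037927936) USc_par USc_prog [24, 22, 16, 8, 6, 0] (nat_lit 64)
    (List.replicate (nat_lit 6) Acc.zero) true
    (fun acc b => Bool.and b (chk (nat_lit 72057594037927936) USc_cl acc)) = true := by decide +kernel

theorem USc_all {r sR3a sR3b sL3a sL3b : ℝ}
    (hr : InB r ⟨Int.ofNat (nat_lit 1850555741999803248), nat_lit 3700000000000⟩) (hsR3a : InB sR3a ⟨Int.ofNat (nat_lit 1063979838178754655), nat_lit 14099727586976⟩) (hsR3b : InB sR3b ⟨Int.ofNat (nat_lit 1139152964404570188), nat_lit 15372193637368⟩) (hsL3a : InB sL3a ⟨Int.ofNat (nat_lit 1188019519237009291), nat_lit 15462715142481⟩) (hsL3b : InB sL3b ⟨Int.ofNat (nat_lit 1237735854488537913), nat_lit 15961964626329⟩) :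
    ((1616794 : ℝ) / 1000000 ≤ GE (fun x => lc ((41/100) * Real.tanh (r * x) + sR3a * (r * x))) ∧
      GE (fun x => lc ((41/100) * Real.tanh (r * x) + sR3a * (r * x))) ≤ (1616858 : ℝ) / 1000000) ∧
    ((1166353 : ℝ) / 1000000 ≤ GE (fun x => r * x * Real.tanh ((41/100) * Real.tanh (r * x) + sR3a * (r * x))) ∧
      GE (fun x => r * x * Real.tanh ((41/100) * Real.tanh (r * x) + sR3a * (r * x))) ≤ (1166476 : ℝ) / 1000000) ∧
    ((1693192 : ℝ) / 1000000 ≤ GE (fun x => lc ((41/100) * Real.tanh (r * x) + sR3b * (r * x))) ∧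
      GE (fun x => lc ((41/100) * Real.tanh (r * x) + sR3b * (r * x))) ≤ (1693261 : ℝ) / 1000000) ∧
    ((1315595 : ℝ) / 1000000 ≤ GE (fun x => lc (-((17/50) * Real.tanh (r * x)) + sL3a * (r * x))) ∧
      GE (fun x => lc (-((17/50) * Real.tanh (r * x)) + sL3a * (r * x))) ≤ (1315654 : ℝ) / 1000000) ∧
    ((1063699 : ℝ) / 1000000 ≤ GE (fun x => r * x * Real.tanh (-((17/50) * Real.tanh (r * x)) + sL3a * (r * x))) ∧
      GE (fun x => r * x * Real.tanh (-((17/50) * Real.tanh (r * x)) + sL3a * (r * x))) ≤ (1063818 : ℝ) / 1000000) ∧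
    ((1361787 : ℝ) / 1000000 ≤ GE (fun x => lc (-((17/50) * Real.tanh (r * x)) + sL3b * (r * x))) ∧
      GE (fun x => lc (-((17/50) * Real.tanh (r * x)) + sL3b * (r * x))) ≤ (1361848 : ℝ) / 1000000) := by
  have br : |r| ≤ 2 := by simpa using hr.abs_le (K := 2) (by decide +kernel)
  have bsR3a : |sR3a| ≤ 1 := by simpa using hsR3a.abs_le (K := 1) (by decide +kernel)
  have bsR3b : |sR3b| ≤ 1 := by simpa using hsR3b.abs_le (K := 1) (by decide +kernel)
  have bsL3a : |sL3a| ≤ 2 := by simpa using hsL3a.abs_le (K := 2) (by decide +kernel)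
  have bsL3b : |sL3b| ≤ 2 := by simpa using hsL3b.abs_le (K := 2) (by decide +kernel)
  have cc0 : ((-576460752303423488 : ℤ) : ℝ) / S = (-1/2 : ℝ) := by rw [S_eq]; norm_num
  have h := GE_run8 (W := 72057594037927936) (n := 64) (by norm_num) (by rw [S_eq]; norm_num)
    (par := USc_par) (xs := [r, sR3a, (41/100 : ℝ), sR3b, sL3a, (-17/50 : ℝ), sL3b])
    (.cons hr (.cons hsR3a (.cons (InB.of_bounds (by rw [S_eq]; norm_num) (by rw [S_eq]; norm_num)) (.cons hsR3b (.cons hsL3a (.cons (InB.of_bounds (by rw [S_eq]; norm_num) (by rw [S_eq]; norm_num)) (.cons hsL3b .nil))))))) USc_prog [24, 22, 16, 8, 6, 0] USc_cl USc_run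
    (Fs := [fun x => lc ((41/100) * Real.tanh (r * x) + sR3a * (r * x)),
      fun x => r * x * Real.tanh ((41/100) * Real.tanh (r * x) + sR3a * (r * x)),
      fun x => lc ((41/100) * Real.tanh (r * x) + sR3b * (r * x)),
      fun x => lc (-((17/50) * Real.tanh (r * x)) + sL3a * (r * x)),
      fun x => r * x * Real.tanh (-((17/50) * Real.tanh (r * x)) + sL3a * (r * x)),
      fun x => lc (-((17/50) * Real.tanh (r * x)) + sL3b * (r * x))]) rfl
    (by
      refine .cons ⟨by fun_prop (disch := positivity), fun x => ?_⟩ (.cons ⟨by fun_prop (disch := positivity), fun x => ?_⟩ (.cons ⟨by fun_prop (disch := positivity), fun x => ?_⟩ (.cons ⟨by fun_prop (disch := positivity), fun x => ?_⟩ (.cons ⟨by fun_prop (disch := positivity), fun x => ?_⟩ (.cons ⟨by fun_prop (disch := positivity), fun x => ?_⟩ (.nil))))))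
      all_goals
        simp only [USc_prog, evp, gt, List.getD_cons_zero, List.getD_cons_succ, cc0]
        ring_nf)
  simp only [USc_cl, List.forall₂_cons, List.Forall₂.nil, _root_.and_true] at h
  obtain ⟨h0, h1, h2, h3, h4, h5⟩ := h
  have gg : (∃ C k, Gr (fun x => lc ((41/100) * Real.tanh (r * x) + sR3a * (r * x))) C k ∧ k ≤ 6 ∧ C * 8e-10 ≤ (33001/10000000000000 : ℝ)) ∧
      (∃ C k, Gr (fun x => r * x * Real.tanh ((41/100) * Real.tanh (r * x) + sR3a * (r * x))) C k ∧ k ≤ 6 ∧ C * 8e-10 ≤ (19001/10000000000000 : ℝ)) ∧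
      (∃ C k, Gr (fun x => lc ((41/100) * Real.tanh (r * x) + sR3b * (r * x))) C k ∧ k ≤ 6 ∧ C * 8e-10 ≤ (33001/10000000000000 : ℝ)) ∧
      (∃ C k, Gr (fun x => lc (-((17/50) * Real.tanh (r * x)) + sL3a * (r * x))) C k ∧ k ≤ 6 ∧ C * 8e-10 ≤ (51001/10000000000000 : ℝ)) ∧
      (∃ C k, Gr (fun x => r * x * Real.tanh (-((17/50) * Real.tanh (r * x)) + sL3a * (r * x))) C k ∧ k ≤ 6 ∧ C * 8e-10 ≤ (19001/10000000000000 : ℝ)) ∧
      (∃ C k, Gr (fun x => lc (-((17/50) * Real.tanh (r * x)) + sL3b * (r * x))) C k ∧ k ≤ 6 ∧ C * 8e-10 ≤ (51001/10000000000000 : ℝ)) := by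
    refine ⟨?_, ?_, ?_, ?_, ?_, ?_⟩
    all_goals
      apply gr8
      · repeat' (with_reducible first
          | exact Gr.id
          | exact Gr.par (by assumption)
          | exact Gr.num (by norm_num)
          | exact Gr.tanh _
          | exact Gr.Md _
          | exact Gr.M2 _
          | exact Gr.Ph _
          | assumption
          | apply Gr.lc
          | apply Gr.Mi
          | apply Gr.logPh
          | apply Gr.neg
          | apply Gr.abs
          | apply Gr.add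
          | apply Gr.sub
          | apply Gr.mul
          | apply Gr.pow
          | (refine Gr.div ?_ (by norm_num)))
      · norm_num
      · norm_num
  obtain ⟨gg0, gg1, gg2, gg3, gg4, gg5⟩ := gg
  have g0 := dec_of (lo := (1616794 : ℝ) / 1000000) (hi := (1616858 : ℝ) / 1000000) (h0 _ gg0)
    (by rw [S_eq]; norm_num) (by rw [S_eq]; norm_num)
  have g1 := dec_of (lo := (1166353 : ℝ) / 1000000) (hi := (1166476 : ℝ) / 1000000) (h1 _ gg1)
    (by rw [S_eq]; norm_num) (by rw [S_eq]; norm_num)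
  have g2 := dec_of (lo := (1693192 : ℝ) / 1000000) (hi := (1693261 : ℝ) / 1000000) (h2 _ gg2)
    (by rw [S_eq]; norm_num) (by rw [S_eq]; norm_num)
  have g3 := dec_of (lo := (1315595 : ℝ) / 1000000) (hi := (1315654 : ℝ) / 1000000) (h3 _ gg3)
    (by rw [S_eq]; norm_num) (by rw [S_eq]; norm_num)
  have g4 := dec_of (lo := (1063699 : ℝ) / 1000000) (hi := (1063818 : ℝ) / 1000000) (h4 _ gg4)
    (by rw [S_eq]; norm_num) (by rw [S_eq]; norm_num)
  have g5 := dec_of (lo := (1361787 : ℝ) / 1000000) (hi := (1361848 : ℝ) / 1000000) (h5 _ gg5)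
    (by rw [S_eq]; norm_num) (by rw [S_eq]; norm_num)
  exact ⟨g0, g1, g2, g3, g4, g5⟩

end IP49N
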