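import Pool.Agent.IP49N.SFin

/-! IP49N/USd: certified integrals, generated by gen.py (helper52).  -/

set_option autoImplicit false
set_option maxRecDepth 20000

namespace IP49N
open Pool.Agent.IP49

def USd_prog : List Op := [
    .z, .p 0, .mul 0 1, .th 0, .p 1, .p 2, .mul 0 3, .mul 2 5, .add 1 0, .th 0, .mul 11 11,
    .c (-576460752303423488), .mul 1 0, .exp 0, .mul 4 0, .mul 14 6, .mul 0 2, .p 3, .mul 0 17,
    .add 13 0, .th 0, .mul 0 8, .p 4, .p 5, .mul 0 23, .mul 2 25, .add 1 0, .th 0, .mul 0 16,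
    .mul 30 2, .mul 0 18, .p 6, .mul 0 33, .add 9 0, .th 0, .mul 0 24]
def USd_par : List Bl := [
    ⟨Int.ofNat (nat_lit 1850555741999803248), nat_lit 3700000000000⟩,
    ⟨Int.ofNat (nat_lit 1002148029322687695), nat_lit 14969348325319⟩,
    ⟨Int.ofNat (nat_lit 968454063869751460), nat_lit 1⟩,
    ⟨Int.ofNat (nat_lit 1141831554259730553), nat_lit 17680347251157⟩,
    ⟨Int.ofNat (nat_lit 1218332323023878110), nat_lit 16467519299535⟩,
    ⟨Int.negSucc (nat_lit 645636042579834306), nat_lit 1⟩,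
    ⟨Int.ofNat (nat_lit 1294884132309161259), nat_lit 17323085930501⟩]
def USd_cl : List (ℤ × ℕ) := [
    (Int.ofNat (nat_lit 2093337145794591268), nat_lit 46926688295923),
    (Int.ofNat (nat_lit 1384961517640196797), nat_lit 86041819409023),
    (Int.ofNat (nat_lit 2261983015356801751), nat_lit 54005210514877),
    (Int.ofNat (nat_lit 1420353776460854638), nat_lit 36231210428562),
    (Int.ofNat (nat_lit 1171895791828528426), nat_lit 73899622414375),
    (Int.ofNat (nat_lit 1499234773329337601), nat_lit 38457316501660)]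
theorem USd_run : quad (nat_lit 72057594037927936) USd_par USd_prog [24, 22, 16, 8, 6, 0] (nat_lit 64)
    (List.replicate (nat_lit 6) Acc.zero) true
    (fun acc b => Bool.and b (chk (nat_lit 72057594037927936) USd_cl acc)) = true := by decide +kernel

theorem USd_all {r sR4a sR4b sL4a sL4b : ℝ}
    (hr : InB r ⟨Int.ofNat (nat_lit 1850555741999803248), nat_lit 3700000000000⟩) (hsR4a : InB sR4a ⟨Int.ofNat (nat_lit 1002148029322687695), nat_lit 14969348325319⟩) (hsR4b : InB sR4b ⟨Int.ofNat (nat_lit 1141831554259730553), nat_lit 17680347251157⟩) (hsL4a : InB sL4a ⟨Int.ofNat (nat_lit 1218332323023878110), nat_lit 16467519299535⟩) (hsL4b : InB sL4b ⟨Int.ofNat (nat_lit 1294884132309161259), nat_lit 17323085930501⟩) :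
    ((1815639 : ℝ) / 1000000 ≤ GE (fun x => lc ((21/25) * Real.tanh (r * x) + sR4a * (r * x))) ∧
      GE (fun x => lc ((21/25) * Real.tanh (r * x) + sR4a * (r * x))) ≤ (1815722 : ℝ) / 1000000) ∧
    ((1201187 : ℝ) / 1000000 ≤ GE (fun x => r * x * Real.tanh ((21/25) * Real.tanh (r * x) + sR4a * (r * x))) ∧
      GE (fun x => r * x * Real.tanh ((21/25) * Real.tanh (r * x) + sR4a * (r * x))) ≤ (1201338 : ℝ) / 1000000) ∧
    ((1961910 : ℝ) / 1000000 ≤ GE (fun x => lc ((21/25) * Real.tanh (r * x) + sR4b * (r * x))) ∧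
      GE (fun x => lc ((21/25) * Real.tanh (r * x) + sR4b * (r * x))) ≤ (1962005 : ℝ) / 1000000) ∧
    ((1231929 : ℝ) / 1000000 ≤ GE (fun x => lc (-((14/25) * Real.tanh (r * x)) + sL4a * (r * x))) ∧
      GE (fun x => lc (-((14/25) * Real.tanh (r * x)) + sL4a * (r * x))) ≤ (1231992 : ℝ) / 1000000) ∧
    ((1016393 : ℝ) / 1000000 ≤ GE (fun x => r * x * Real.tanh (-((14/25) * Real.tanh (r * x)) + sL4a * (r * x))) ∧
      GE (fun x => r * x * Real.tanh (-((14/25) * Real.tanh (r * x)) + sL4a * (r * x))) ≤ (1016522 : ℝ) / 1000000) ∧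
    ((1300345 : ℝ) / 1000000 ≤ GE (fun x => lc (-((14/25) * Real.tanh (r * x)) + sL4b * (r * x))) ∧
      GE (fun x => lc (-((14/25) * Real.tanh (r * x)) + sL4b * (r * x))) ≤ (1300413 : ℝ) / 1000000) := by
  have br : |r| ≤ 2 := by simpa using hr.abs_le (K := 2) (by decide +kernel)
  have bsR4a : |sR4a| ≤ 1 := by simpa using hsR4a.abs_le (K := 1) (by decide +kernel)
  have bsR4b : |sR4b| ≤ 1 := by simpa using hsR4b.abs_le (K := 1) (by decide +kernel)
  have bsL4a : |sL4a| ≤ 2 := by simpa using hsL4a.abs_le (K := 2) (by decide +kernel)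
  have bsL4b : |sL4b| ≤ 2 := by simpa using hsL4b.abs_le (K := 2) (by decide +kernel)
  have cc0 : ((-576460752303423488 : ℤ) : ℝ) / S = (-1/2 : ℝ) := by rw [S_eq]; norm_num
  have h := GE_run8 (W := 72057594037927936) (n := 64) (by norm_num) (by rw [S_eq]; norm_num)
    (par := USd_par) (xs := [r, sR4a, (21/25 : ℝ), sR4b, sL4a, (-14/25 : ℝ), sL4b])
    (.cons hr (.cons hsR4a (.cons (InB.of_bounds (by rw [S_eq]; norm_num) (by rw [S_eq]; norm_num)) (.cons hsR4b (.cons hsL4a (.cons (InB.of_bounds (by rw [S_eq]; norm_num) (by rw [S_eq]; norm_num)) (.cons hsL4b .nil))))))) USd_prog [24, 22, 16, 8, 6, 0] USd_cl USd_run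
    (Fs := [fun x => lc ((21/25) * Real.tanh (r * x) + sR4a * (r * x)),
      fun x => r * x * Real.tanh ((21/25) * Real.tanh (r * x) + sR4a * (r * x)),
      fun x => lc ((21/25) * Real.tanh (r * x) + sR4b * (r * x)),
      fun x => lc (-((14/25) * Real.tanh (r * x)) + sL4a * (r * x)),
      fun x => r * x * Real.tanh (-((14/25) * Real.tanh (r * x)) + sL4a * (r * x)),
      fun x => lc (-((14/25) * Real.tanh (r * x)) + sL4b * (r * x))]) rfl
    (by
      refine .cons ⟨by fun_prop (disch := positivity), fun x => ?_⟩ (.cons ⟨by fun_prop (disch := positivity), fun x => ?_⟩ (.cons ⟨by fun_prop (disch := positivity), fun x => ?_⟩ (.cons ⟨by fun_prop (disch := positivity), fun x => ?_⟩ (.cons ⟨by fun_prop (disch := positivity), fun x => ?_⟩ (.cons ⟨by fun_prop (disch := positivity), fun x => ?_⟩ (.nil))))))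
      all_goals
        simp only [USd_prog, evp, gt, List.getD_cons_zero, List.getD_cons_succ, cc0]
        ring_nf)
  simp only [USd_cl, List.forall₂_cons, List.Forall₂.nil, _root_.and_true] at h
  obtain ⟨h0, h1, h2, h3, h4, h5⟩ := h
  have gg : (∃ C k, Gr (fun x => lc ((21/25) * Real.tanh (r * x) + sR4a * (r * x))) C k ∧ k ≤ 6 ∧ C * 8e-10 ≤ (37001/10000000000000 : ℝ)) ∧
      (∃ C k, Gr (fun x => r * x * Real.tanh ((21/25) * Real.tanh (r * x) + sR4a * (r * x))) C k ∧ k ≤ 6 ∧ C * 8e-10 ≤ (19001/10000000000000 : ℝ)) ∧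
      (∃ C k, Gr (fun x => lc ((21/25) * Real.tanh (r * x) + sR4b * (r * x))) C k ∧ k ≤ 6 ∧ C * 8e-10 ≤ (37001/10000000000000 : ℝ)) ∧
      (∃ C k, Gr (fun x => lc (-((14/25) * Real.tanh (r * x)) + sL4a * (r * x))) C k ∧ k ≤ 6 ∧ C * 8e-10 ≤ (53001/10000000000000 : ℝ)) ∧
      (∃ C k, Gr (fun x => r * x * Real.tanh (-((14/25) * Real.tanh (r * x)) + sL4a * (r * x))) C k ∧ k ≤ 6 ∧ C * 8e-10 ≤ (19001/10000000000000 : ℝ)) ∧
      (∃ C k, Gr (fun x => lc (-((14/25) * Real.tanh (r * x)) + sL4b * (r * x))) C k ∧ k ≤ 6 ∧ C * 8e-10 ≤ (53001/10000000000000 : ℝ)) := by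
    refine ⟨?_, ?_, ?_, ?_, ?_, ?_⟩
    all_goals
      apply gr8
      · repeat' (with_reducible first
          | exact Gr.id
          | exact Gr.par (by assumption)
          | exact Gr.num (by norm_num)
          | exact Gr.tanh _
          | exact Gr.Md _
          | exact Gr.M2 _
          | exact Gr.Ph _
          | assumption
          | apply Gr.lc
          | apply Gr.Mi
          | apply Gr.logPh
          | apply Gr.neg
          | apply Gr.abs
          | apply Gr.add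
          | apply Gr.sub
          | apply Gr.mul
          | apply Gr.pow
          | (refine Gr.div ?_ (by norm_num)))
      · norm_num
      · norm_num
  obtain ⟨gg0, gg1, gg2, gg3, gg4, gg5⟩ := gg
  have g0 := dec_of (lo := (1815639 : ℝ) / 1000000) (hi := (1815722 : ℝ) / 1000000) (h0 _ gg0)
    (by rw [S_eq]; norm_num) (by rw [S_eq]; norm_num)
  have g1 := dec_of (lo := (1201187 : ℝ) / 1000000) (hi := (1201338 : ℝ) / 1000000) (h1 _ gg1)
    (by rw [S_eq]; norm_num) (by rw [S_eq]; norm_num)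
  have g2 := dec_of (lo := (1961910 : ℝ) / 1000000) (hi := (1962005 : ℝ) / 1000000) (h2 _ gg2)
    (by rw [S_eq]; norm_num) (by rw [S_eq]; norm_num)
  have g3 := dec_of (lo := (1231929 : ℝ) / 1000000) (hi := (1231992 : ℝ) / 1000000) (h3 _ gg3)
    (by rw [S_eq]; norm_num) (by rw [S_eq]; norm_num)
  have g4 := dec_of (lo := (1016393 : ℝ) / 1000000) (hi := (1016522 : ℝ) / 1000000) (h4 _ gg4)
    (by rw [S_eq]; norm_num) (by rw [S_eq]; norm_num)
  have g5 := dec_of (lo := (1300345 : ℝ) / 1000000) (hi := (1300413 : ℝ) / 1000000) (h5 _ gg5)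
    (by rw [S_eq]; norm_num) (by rw [S_eq]; norm_num)
  exact ⟨g0, g1, g2, g3, g4, g5⟩

end IP49N
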