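import Pool.Agent.IP49N.SFin

/-! IP49N/USe: certified integrals, generated by gen.py (helper52).  -/

set_option autoImplicit false
set_option maxRecDepth 20000

namespace IP49N
open Pool.Agent.IP49

def USe_prog : List Op := [
    .z, .p 0, .mul 0 1, .th 0, .p 1, .p 2, .mul 0 3, .mul 2 5, .add 1 0, .th 0, .mul 11 11,
    .c (-576460752303423488), .mul 1 0, .exp 0, .mul 4 0, .mul 14 6, .mul 0 2, .p 3, .mul 0 17,
    .add 13 0, .th 0, .mul 0 8, .p 4, .p 5, .mul 0 23, .mul 2 25, .add 1 0, .th 0, .mul 0 16,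
    .mul 30 2, .mul 0 18, .p 6, .mul 0 33, .add 9 0, .th 0, .mul 0 24]
def USe_par : List Bl := [
    ⟨Int.ofNat (nat_lit 1850555741999803248), nat_lit 3700000000000⟩,
    ⟨Int.ofNat (nat_lit 930463274952889464), nat_lit 16850388574781⟩,
    ⟨Int.ofNat (nat_lit 2075258708292324557), nat_lit 1⟩,
    ⟨Int.ofNat (nat_lit 1224340994138408735), nat_lit 24344677537856⟩,
    ⟨Int.ofNat (nat_lit 1291268997094098403), nat_lit 19759967968787⟩,
    ⟨Int.negSucc (nat_lit 1083746214330436156), nat_lit 1⟩,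
    ⟨Int.ofNat (nat_lit 1415660992015555851), nat_lit 21417035991332⟩]
def USe_cl : List (ℤ × ℕ) := [
    (Int.ofNat (nat_lit 2716582775296147961), nat_lit 89355988407085),
    (Int.ofNat (nat_lit 1435018631397271948), nat_lit 151618186099147),
    (Int.ofNat (nat_lit 3083562992450637229), nat_lit 118465998316142),
    (Int.ofNat (nat_lit 1291409658454017176), nat_lit 42655482938859),
    (Int.ofNat (nat_lit 1063733208013209008), nat_lit 90470961573259),
    (Int.ofNat (nat_lit 1409897705988453317), nat_lit 46884190240285)]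
theorem USe_run : quad (nat_lit 72057594037927936) USe_par USe_prog [24, 22, 16, 8, 6, 0] (nat_lit 64)
    (List.replicate (nat_lit 6) Acc.zero) true
    (fun acc b => Bool.and b (chk (nat_lit 72057594037927936) USe_cl acc)) = true := by decide +kernel

theorem USe_all {r sR5a sR5b sL5a sL5b : ℝ}
    (hr : InB r ⟨Int.ofNat (nat_lit 1850555741999803248), nat_lit 3700000000000⟩) (hsR5a : InB sR5a ⟨Int.ofNat (nat_lit 930463274952889464), nat_lit 16850388574781⟩) (hsR5b : InB sR5b ⟨Int.ofNat (nat_lit 1224340994138408735), nat_lit 24344677537856⟩) (hsL5a : InB sL5a ⟨Int.ofNat (nat_lit 1291268997094098403), nat_lit 19759967968787⟩) (hsL5b : InB sL5b ⟨Int.ofNat (nat_lit 1415660992015555851), nat_lit 21417035991332⟩) :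
    ((2356182 : ℝ) / 1000000 ≤ GE (fun x => lc ((9/5) * Real.tanh (r * x) + sR5a * (r * x))) ∧
      GE (fun x => lc ((9/5) * Real.tanh (r * x) + sR5a * (r * x))) ≤ (2356338 : ℝ) / 1000000) ∧
    ((124454 : ℝ) / 100000 ≤ GE (fun x => r * x * Real.tanh ((9/5) * Real.tanh (r * x) + sR5a * (r * x))) ∧
      GE (fun x => r * x * Real.tanh ((9/5) * Real.tanh (r * x) + sR5a * (r * x))) ≤ (124482 : ℝ) / 100000) ∧
    ((267446 : ℝ) / 100000 ≤ GE (fun x => lc ((9/5) * Real.tanh (r * x) + sR5b * (r * x))) ∧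
      GE (fun x => lc ((9/5) * Real.tanh (r * x) + sR5b * (r * x))) ≤ (267467 : ℝ) / 100000) ∧
    ((1120082 : ℝ) / 1000000 ≤ GE (fun x => lc (-((47/50) * Real.tanh (r * x)) + sL5a * (r * x))) ∧
      GE (fun x => lc (-((47/50) * Real.tanh (r * x)) + sL5a * (r * x))) ≤ (1120157 : ℝ) / 1000000) ∧
    ((922563 : ℝ) / 1000000 ≤ GE (fun x => r * x * Real.tanh (-((47/50) * Real.tanh (r * x)) + sL5a * (r * x))) ∧
      GE (fun x => r * x * Real.tanh (-((47/50) * Real.tanh (r * x)) + sL5a * (r * x))) ≤ (922720 : ℝ) / 1000000) ∧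
    ((1222850 : ℝ) / 1000000 ≤ GE (fun x => lc (-((47/50) * Real.tanh (r * x)) + sL5b * (r * x))) ∧
      GE (fun x => lc (-((47/50) * Real.tanh (r * x)) + sL5b * (r * x))) ≤ (1222932 : ℝ) / 1000000) := by
  have br : |r| ≤ 2 := by simpa using hr.abs_le (K := 2) (by decide +kernel)
  have bsR5a : |sR5a| ≤ 1 := by simpa using hsR5a.abs_le (K := 1) (by decide +kernel)
  have bsR5b : |sR5b| ≤ 2 := by simpa using hsR5b.abs_le (K := 2) (by decide +kernel)
  have bsL5a : |sL5a| ≤ 2 := by simpa using hsL5a.abs_le (K := 2) (by decide +kernel)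
  have bsL5b : |sL5b| ≤ 2 := by simpa using hsL5b.abs_le (K := 2) (by decide +kernel)
  have cc0 : ((-576460752303423488 : ℤ) : ℝ) / S = (-1/2 : ℝ) := by rw [S_eq]; norm_num
  have h := GE_run8 (W := 72057594037927936) (n := 64) (by norm_num) (by rw [S_eq]; norm_num)
    (par := USe_par) (xs := [r, sR5a, (9/5 : ℝ), sR5b, sL5a, (-47/50 : ℝ), sL5b])
    (.cons hr (.cons hsR5a (.cons (InB.of_bounds (by rw [S_eq]; norm_num) (by rw [S_eq]; norm_num)) (.cons hsR5b (.cons hsL5a (.cons (InB.of_bounds (by rw [S_eq]; norm_num) (by rw [S_eq]; norm_num)) (.cons hsL5b .nil))))))) USe_prog [24, 22, 16, 8, 6, 0] USe_cl USe_run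
    (Fs := [fun x => lc ((9/5) * Real.tanh (r * x) + sR5a * (r * x)),
      fun x => r * x * Real.tanh ((9/5) * Real.tanh (r * x) + sR5a * (r * x)),
      fun x => lc ((9/5) * Real.tanh (r * x) + sR5b * (r * x)),
      fun x => lc (-((47/50) * Real.tanh (r * x)) + sL5a * (r * x)),
      fun x => r * x * Real.tanh (-((47/50) * Real.tanh (r * x)) + sL5a * (r * x)),
      fun x => lc (-((47/50) * Real.tanh (r * x)) + sL5b * (r * x))]) rfl
    (by
      refine .cons ⟨by fun_prop (disch := positivity), fun x => ?_⟩ (.cons ⟨by fun_prop (disch := positivity), fun x => ?_⟩ (.cons ⟨by fun_prop (disch := positivity), fun x => ?_⟩ (.cons ⟨by fun_prop (disch := positivity), fun x => ?_⟩ (.cons ⟨by fun_prop (disch := positivity), fun x => ?_⟩ (.cons ⟨by fun_prop (disch := positivity), fun x => ?_⟩ (.nil))))))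
      all_goals
        simp only [USe_prog, evp, gt, List.getD_cons_zero, List.getD_cons_succ, cc0]
        ring_nf)
  simp only [USe_cl, List.forall₂_cons, List.Forall₂.nil, _root_.and_true] at h
  obtain ⟨h0, h1, h2, h3, h4, h5⟩ := h
  have gg : (∃ C k, Gr (fun x => lc ((9/5) * Real.tanh (r * x) + sR5a * (r * x))) C k ∧ k ≤ 6 ∧ C * 8e-10 ≤ (23/5000000000 : ℝ)) ∧
      (∃ C k, Gr (fun x => r * x * Real.tanh ((9/5) * Real.tanh (r * x) + sR5a * (r * x))) C k ∧ k ≤ 6 ∧ C * 8e-10 ≤ (19001/10000000000000 : ℝ)) ∧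
      (∃ C k, Gr (fun x => lc ((9/5) * Real.tanh (r * x) + sR5b * (r * x))) C k ∧ k ≤ 6 ∧ C * 8e-10 ≤ (65001/10000000000000 : ℝ)) ∧
      (∃ C k, Gr (fun x => lc (-((47/50) * Real.tanh (r * x)) + sL5a * (r * x))) C k ∧ k ≤ 6 ∧ C * 8e-10 ≤ (57/10000000000 : ℝ)) ∧
      (∃ C k, Gr (fun x => r * x * Real.tanh (-((47/50) * Real.tanh (r * x)) + sL5a * (r * x))) C k ∧ k ≤ 6 ∧ C * 8e-10 ≤ (19001/10000000000000 : ℝ)) ∧
      (∃ C k, Gr (fun x => lc (-((47/50) * Real.tanh (r * x)) + sL5b * (r * x))) C k ∧ k ≤ 6 ∧ C * 8e-10 ≤ (57/10000000000 : ℝ)) := by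
    refine ⟨?_, ?_, ?_, ?_, ?_, ?_⟩
    all_goals
      apply gr8
      · repeat' (with_reducible first
          | exact Gr.id
          | exact Gr.par (by assumption)
          | exact Gr.num (by norm_num)
          | exact Gr.tanh _
          | exact Gr.Md _
          | exact Gr.M2 _
          | exact Gr.Ph _
          | assumption
          | apply Gr.lc
          | apply Gr.Mi
          | apply Gr.logPh
          | apply Gr.neg
          | apply Gr.abs
          | apply Gr.add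
          | apply Gr.sub
          | apply Gr.mul
          | apply Gr.pow
          | (refine Gr.div ?_ (by norm_num)))
      · norm_num
      · norm_num
  obtain ⟨gg0, gg1, gg2, gg3, gg4, gg5⟩ := gg
  have g0 := dec_of (lo := (2356182 : ℝ) / 1000000) (hi := (2356338 : ℝ) / 1000000) (h0 _ gg0)
    (by rw [S_eq]; norm_num) (by rw [S_eq]; norm_num)
  have g1 := dec_of (lo := (124454 : ℝ) / 100000) (hi := (124482 : ℝ) / 100000) (h1 _ gg1)
    (by rw [S_eq]; norm_num) (by rw [S_eq]; norm_num)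
  have g2 := dec_of (lo := (267446 : ℝ) / 100000) (hi := (267467 : ℝ) / 100000) (h2 _ gg2)
    (by rw [S_eq]; norm_num) (by rw [S_eq]; norm_num)
  have g3 := dec_of (lo := (1120082 : ℝ) / 1000000) (hi := (1120157 : ℝ) / 1000000) (h3 _ gg3)
    (by rw [S_eq]; norm_num) (by rw [S_eq]; norm_num)
  have g4 := dec_of (lo := (922563 : ℝ) / 1000000) (hi := (922720 : ℝ) / 1000000) (h4 _ gg4)
    (by rw [S_eq]; norm_num) (by rw [S_eq]; norm_num)
  have g5 := dec_of (lo := (1222850 : ℝ) / 1000000) (hi := (1222932 : ℝ) / 1000000) (h5 _ gg5)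
    (by rw [S_eq]; norm_num) (by rw [S_eq]; norm_num)
  exact ⟨g0, g1, g2, g3, g4, g5⟩

end IP49N
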