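import Pool.Agent.IP49N.SFin

/-! IP49N/USf: certified integrals, generated by gen.py (helper52).  -/

set_option autoImplicit false
set_option maxRecDepth 20000

namespace IP49N
open Pool.Agent.IP49

def USf_prog : List Op := [
    .z, .p 0, .mul 0 1, .th 0, .p 1, .p 2, .mul 0 3, .mul 2 5, .add 1 0, .th 0, .mul 11 11,
    .c (-576460752303423488), .mul 1 0, .exp 0, .mul 4 0, .mul 14 6, .mul 0 2, .p 3, .mul 0 17,
    .add 13 0, .th 0, .mul 0 8, .p 4, .c (-1152921504606846976), .mul 0 23, .mul 2 25, .add 1 0,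
    .th 0, .mul 0 16, .p 5, .mul 0 31, .add 7 0, .th 0, .mul 0 22, .p 6, .mul 0 37, .add 13 0,
    .th 0, .mul 41 1, .mul 0 29]
def USf_par : List Bl := [
    ⟨Int.ofNat (nat_lit 1850555741999803248), nat_lit 3700000000000⟩,
    ⟨Int.ofNat (nat_lit 1077871045515036865), nat_lit 15100951144535⟩,
    ⟨Int.negSucc (nat_lit 1037629354146162277), nat_lit 1⟩,
    ⟨Int.ofNat (nat_lit 1263484638484735581), nat_lit 17370449248712⟩,
    ⟨Int.ofNat (nat_lit 1588573161951434632), nat_lit 20015263654891⟩,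
    ⟨Int.ofNat (nat_lit 610380484756071000), nat_lit 6508165708455⟩,
    ⟨Int.ofNat (nat_lit 608650449691565927), nat_lit 2⟩]
def USf_cl : List (ℤ × ℕ) := [
    (Int.ofNat (nat_lit 1123900787110026703), nat_lit 33177114777254),
    (Int.ofNat (nat_lit 932375064700358589), nat_lit 72697903392132),
    (Int.ofNat (nat_lit 1285254296353207449), nat_lit 39040111287221),
    (Int.ofNat (nat_lit 1550738472192664914), nat_lit 48298253909948),
    (Int.ofNat (nat_lit 849053246315182438), nat_lit 18423345256010),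
    (Int.ofNat (nat_lit 204505022443096526), nat_lit 25506989104090)]
theorem USf_run : quad (nat_lit 72057594037927936) USf_par USf_prog [29, 27, 21, 13, 7, 0] (nat_lit 64)
    (List.replicate (nat_lit 6) Acc.zero) true
    (fun acc b => Bool.and b (chk (nat_lit 72057594037927936) USf_cl acc)) = true := by decide +kernel

theorem USf_all {r sL6a sL6b sL7a sL7b sL70 : ℝ}
    (hr : InB r ⟨Int.ofNat (nat_lit 1850555741999803248), nat_lit 3700000000000⟩) (hsL6a : InB sL6a ⟨Int.ofNat (nat_lit 1077871045515036865), nat_lit 15100951144535⟩) (hsL6b : InB sL6b ⟨Int.ofNat (nat_lit 1263484638484735581), nat_lit 17370449248712⟩) (hsL7a : InB sL7a ⟨Int.ofNat (nat_lit 1588573161951434632), nat_lit 20015263654891⟩) (hsL7b : InB sL7b ⟨Int.ofNat (nat_lit 610380484756071000), nat_lit 6508165708455⟩) (hsL70 : InB sL70 ⟨Int.ofNat (nat_lit 608650449691565927), nat_lit 2⟩) :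
    ((974799 : ℝ) / 1000000 ≤ GE (fun x => lc (-((9/10) * Real.tanh (r * x)) + sL6a * (r * x))) ∧
      GE (fun x => lc (-((9/10) * Real.tanh (r * x)) + sL6a * (r * x))) ≤ (974858 : ℝ) / 1000000) ∧
    ((808643 : ℝ) / 1000000 ≤ GE (fun x => r * x * Real.tanh (-((9/10) * Real.tanh (r * x)) + sL6a * (r * x))) ∧
      GE (fun x => r * x * Real.tanh (-((9/10) * Real.tanh (r * x)) + sL6a * (r * x))) ≤ (808770 : ℝ) / 1000000) ∧
    ((1114746 : ℝ) / 1000000 ≤ GE (fun x => lc (-((9/10) * Real.tanh (r * x)) + sL6b * (r * x))) ∧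
      GE (fun x => lc (-((9/10) * Real.tanh (r * x)) + sL6b * (r * x))) ≤ (1114815 : ℝ) / 1000000) ∧
    ((1345009 : ℝ) / 1000000 ≤ GE (fun x => lc (-((1) * Real.tanh (r * x)) + sL7a * (r * x))) ∧
      GE (fun x => lc (-((1) * Real.tanh (r * x)) + sL7a * (r * x))) ≤ (1345094 : ℝ) / 1000000) ∧
    ((736420 : ℝ) / 1000000 ≤ GE (fun x => lc (-((1) * Real.tanh (r * x)) + sL7b * (r * x))) ∧
      GE (fun x => lc (-((1) * Real.tanh (r * x)) + sL7b * (r * x))) ≤ (736453 : ℝ) / 1000000) ∧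
    ((177357 : ℝ) / 1000000 ≤ GE (fun x => r * x * Real.tanh (-((1) * Real.tanh (r * x)) + sL70 * (r * x))) ∧
      GE (fun x => r * x * Real.tanh (-((1) * Real.tanh (r * x)) + sL70 * (r * x))) ≤ (177402 : ℝ) / 1000000) := by
  have br : |r| ≤ 2 := by simpa using hr.abs_le (K := 2) (by decide +kernel)
  have bsL6a : |sL6a| ≤ 1 := by simpa using hsL6a.abs_le (K := 1) (by decide +kernel)
  have bsL6b : |sL6b| ≤ 2 := by simpa using hsL6b.abs_le (K := 2) (by decide +kernel)
  have bsL7a : |sL7a| ≤ 2 := by simpa using hsL7a.abs_le (K := 2) (by decide +kernel)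
  have bsL7b : |sL7b| ≤ 1 := by simpa using hsL7b.abs_le (K := 1) (by decide +kernel)
  have bsL70 : |sL70| ≤ 1 := by simpa using hsL70.abs_le (K := 1) (by decide +kernel)
  have cc0 : ((-1152921504606846976 : ℤ) : ℝ) / S = (-1 : ℝ) := by rw [S_eq]; norm_num
  have cc1 : ((-576460752303423488 : ℤ) : ℝ) / S = (-1/2 : ℝ) := by rw [S_eq]; norm_num
  have h := GE_run8 (W := 72057594037927936) (n := 64) (by norm_num) (by rw [S_eq]; norm_num)
    (par := USf_par) (xs := [r, sL6a, (-9/10 : ℝ), sL6b, sL7a, sL7b, sL70])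
    (.cons hr (.cons hsL6a (.cons (InB.of_bounds (by rw [S_eq]; norm_num) (by rw [S_eq]; norm_num)) (.cons hsL6b (.cons hsL7a (.cons hsL7b (.cons hsL70 .nil))))))) USf_prog [29, 27, 21, 13, 7, 0] USf_cl USf_run
    (Fs := [fun x => lc (-((9/10) * Real.tanh (r * x)) + sL6a * (r * x)),
      fun x => r * x * Real.tanh (-((9/10) * Real.tanh (r * x)) + sL6a * (r * x)),
      fun x => lc (-((9/10) * Real.tanh (r * x)) + sL6b * (r * x)),
      fun x => lc (-((1) * Real.tanh (r * x)) + sL7a * (r * x)),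
      fun x => lc (-((1) * Real.tanh (r * x)) + sL7b * (r * x)),
      fun x => r * x * Real.tanh (-((1) * Real.tanh (r * x)) + sL70 * (r * x))]) rfl
    (by
      refine .cons ⟨by fun_prop (disch := positivity), fun x => ?_⟩ (.cons ⟨by fun_prop (disch := positivity), fun x => ?_⟩ (.cons ⟨by fun_prop (disch := positivity), fun x => ?_⟩ (.cons ⟨by fun_prop (disch := positivity), fun x => ?_⟩ (.cons ⟨by fun_prop (disch := positivity), fun x => ?_⟩ (.cons ⟨by fun_prop (disch := positivity), fun x => ?_⟩ (.nil))))))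
      all_goals
        simp only [USf_prog, evp, gt, List.getD_cons_zero, List.getD_cons_succ, cc0, cc1]
        ring_nf)
  simp only [USf_cl, List.forall₂_cons, List.Forall₂.nil, _root_.and_true] at h
  obtain ⟨h0, h1, h2, h3, h4, h5⟩ := h
  have gg : (∃ C k, Gr (fun x => lc (-((9/10) * Real.tanh (r * x)) + sL6a * (r * x))) C k ∧ k ≤ 6 ∧ C * 8e-10 ≤ (37001/10000000000000 : ℝ)) ∧
      (∃ C k, Gr (fun x => r * x * Real.tanh (-((9/10) * Real.tanh (r * x)) + sL6a * (r * x))) C k ∧ k ≤ 6 ∧ C * 8e-10 ≤ (19001/10000000000000 : ℝ)) ∧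
      (∃ C k, Gr (fun x => lc (-((9/10) * Real.tanh (r * x)) + sL6b * (r * x))) C k ∧ k ≤ 6 ∧ C * 8e-10 ≤ (57/10000000000 : ℝ)) ∧
      (∃ C k, Gr (fun x => lc (-((1) * Real.tanh (r * x)) + sL7a * (r * x))) C k ∧ k ≤ 6 ∧ C * 8e-10 ≤ (29/5000000000 : ℝ)) ∧
      (∃ C k, Gr (fun x => lc (-((1) * Real.tanh (r * x)) + sL7b * (r * x))) C k ∧ k ≤ 6 ∧ C * 8e-10 ≤ (38001/10000000000000 : ℝ)) ∧
      (∃ C k, Gr (fun x => r * x * Real.tanh (-((1) * Real.tanh (r * x)) + sL70 * (r * x))) C k ∧ k ≤ 6 ∧ C * 8e-10 ≤ (19001/10000000000000 : ℝ)) := by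
    refine ⟨?_, ?_, ?_, ?_, ?_, ?_⟩
    all_goals
      apply gr8
      · repeat' (with_reducible first
          | exact Gr.id
          | exact Gr.par (by assumption)
          | exact Gr.num (by norm_num)
          | exact Gr.tanh _
          | exact Gr.Md _
          | exact Gr.M2 _
          | exact Gr.Ph _
          | assumption
          | apply Gr.lc
          | apply Gr.Mi
          | apply Gr.logPh
          | apply Gr.neg
          | apply Gr.abs
          | apply Gr.add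
          | apply Gr.sub
          | apply Gr.mul
          | apply Gr.pow
          | (refine Gr.div ?_ (by norm_num)))
      · norm_num
      · norm_num
  obtain ⟨gg0, gg1, gg2, gg3, gg4, gg5⟩ := gg
  have g0 := dec_of (lo := (974799 : ℝ) / 1000000) (hi := (974858 : ℝ) / 1000000) (h0 _ gg0)
    (by rw [S_eq]; norm_num) (by rw [S_eq]; norm_num)
  have g1 := dec_of (lo := (808643 : ℝ) / 1000000) (hi := (808770 : ℝ) / 1000000) (h1 _ gg1)
    (by rw [S_eq]; norm_num) (by rw [S_eq]; norm_num)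
  have g2 := dec_of (lo := (1114746 : ℝ) / 1000000) (hi := (1114815 : ℝ) / 1000000) (h2 _ gg2)
    (by rw [S_eq]; norm_num) (by rw [S_eq]; norm_num)
  have g3 := dec_of (lo := (1345009 : ℝ) / 1000000) (hi := (1345094 : ℝ) / 1000000) (h3 _ gg3)
    (by rw [S_eq]; norm_num) (by rw [S_eq]; norm_num)
  have g4 := dec_of (lo := (736420 : ℝ) / 1000000) (hi := (736453 : ℝ) / 1000000) (h4 _ gg4)
    (by rw [S_eq]; norm_num) (by rw [S_eq]; norm_num)
  have g5 := dec_of (lo := (177357 : ℝ) / 1000000) (hi := (177402 : ℝ) / 1000000) (h5 _ gg5)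
    (by rw [S_eq]; norm_num) (by rw [S_eq]; norm_num)
  exact ⟨g0, g1, g2, g3, g4, g5⟩

end IP49N
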