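import Pool.Agent.IP49N.SFin

/-! IP49N/UVc: certified integrals, generated by gen.py (helper52).  -/

set_option autoImplicit false
set_option maxRecDepth 20000

namespace IP49N
open Pool.Agent.IP49

def UVc_prog : List Op := [
    .z, .p 0, .mul 0 1, .c (0), .sub 0 1, .mil 0, .p 1, .mul 0 5, .p 2, .mul 0 4, .add 2 0,
    .sub 8 0, .mil 0, .mul 9 1, .mul 15 15, .c (-576460752303423488), .mul 1 0, .exp 0, .mul 4 0,
    .mul 18 7, .mul 0 2, .mul 11 9, .sub 9 0, .mul 0 5, .p 3, .mul 0 24, .p 4, .mul 0 23,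
    .add 2 0, .sub 27 0, .mil 0, .mul 28 1, .mul 0 15, .mul 33 3, .mul 0 17, .mul 7 5, .sub 5 0,
    .mul 0 20]
def UVc_par : List Bl := [
    ⟨Int.ofNat (nat_lit 1311145853048648213), nat_lit 1900000000000⟩,
    ⟨Int.ofNat (nat_lit 1337388945343942492), nat_lit 1⟩,
    ⟨Int.ofNat (nat_lit 322818021289917153), nat_lit 1⟩,
    ⟨Int.ofNat (nat_lit 997277101484922634), nat_lit 1⟩,
    ⟨Int.negSucc (nat_lit 293994983674745978), nat_lit 1⟩]
def UVc_cl : List (ℤ × ℕ) := [
    (Int.ofNat (nat_lit 1336313044363369535), nat_lit 13529995148041),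
    (Int.negSucc (nat_lit 777623897638373646), nat_lit 12931718374004),
    (Int.negSucc (nat_lit 453003150076927917), nat_lit 11883237919168),
    (Int.ofNat (nat_lit 1771219258238513501), nat_lit 17071396016584),
    (Int.negSucc (nat_lit 971976644627789943), nat_lit 15184003169959),
    (Int.negSucc (nat_lit 259600924655696900), nat_lit 13992520770450)]
theorem UVc_run : quad (nat_lit 72057594037927936) UVc_par UVc_prog [20, 18, 15, 5, 3, 0] (nat_lit 64)
    (List.replicate (nat_lit 6) Acc.zero) true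
    (fun acc b => Bool.and b (chk (nat_lit 72057594037927936) UVc_cl acc)) = true := by decide +kernel

theorem UVc_all {v : ℝ}
    (hv : InB v ⟨Int.ofNat (nat_lit 1311145853048648213), nat_lit 1900000000000⟩) :
    ((1159055 : ℝ) / 1000000 ≤ GE (fun x => Mi (-(v * x)) * Mi (-((29/25) * (v * x) + (7/25) * Mi (-(v * x))))) ∧
      GE (fun x => Mi (-(v * x)) * Mi (-((29/25) * (v * x) + (7/25) * Mi (-(v * x))))) ≤ (1159079 : ℝ) / 1000000) ∧
    ((-674493 : ℝ) / 1000000 ≤ GE (fun x => v * x * Mi (-((29/25) * (v * x) + (7/25) * Mi (-(v * x))))) ∧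
      GE (fun x => v * x * Mi (-((29/25) * (v * x) + (7/25) * Mi (-(v * x))))) ≤ (-674469 : ℝ) / 1000000) ∧
    ((-392928 : ℝ) / 1000000 ≤ GE (fun x => Real.log (Ph (-((29/25) * (v * x) + (7/25) * Mi (-(v * x))))) - ((29/25) * (v * x) + (7/25) * Mi (-(v * x))) * Mi (-((29/25) * (v * x) + (7/25) * Mi (-(v * x))))) ∧
      GE (fun x => Real.log (Ph (-((29/25) * (v * x) + (7/25) * Mi (-(v * x))))) - ((29/25) * (v * x) + (7/25) * Mi (-(v * x))) * Mi (-((29/25) * (v * x) + (7/25) * Mi (-(v * x))))) ≤ (-392907 : ℝ) / 1000000) ∧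
    ((1536272 : ℝ) / 1000000 ≤ GE (fun x => Mi (-(v * x)) * Mi (-((173/200) * (v * x) - (51/200) * Mi (-(v * x))))) ∧
      GE (fun x => Mi (-(v * x)) * Mi (-((173/200) * (v * x) - (51/200) * Mi (-(v * x))))) ≤ (1536303 : ℝ) / 1000000) ∧
    ((-843069 : ℝ) / 1000000 ≤ GE (fun x => v * x * Mi (-((173/200) * (v * x) - (51/200) * Mi (-(v * x))))) ∧
      GE (fun x => v * x * Mi (-((173/200) * (v * x) - (51/200) * Mi (-(v * x))))) ≤ (-843042 : ℝ) / 1000000) ∧
    ((-225181 : ℝ) / 1000000 ≤ GE (fun x => Real.log (Ph (-((173/200) * (v * x) - (51/200) * Mi (-(v * x))))) - ((173/200) * (v * x) - (51/200) * Mi (-(v * x))) * Mi (-((173/200) * (v * x) - (51/200) * Mi (-(v * x))))) ∧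
      GE (fun x => Real.log (Ph (-((173/200) * (v * x) - (51/200) * Mi (-(v * x))))) - ((173/200) * (v * x) - (51/200) * Mi (-(v * x))) * Mi (-((173/200) * (v * x) - (51/200) * Mi (-(v * x))))) ≤ (-225155 : ℝ) / 1000000) := by
  have bv : |v| ≤ 2 := by simpa using hv.abs_le (K := 2) (by decide +kernel)
  have cc0 : ((-576460752303423488 : ℤ) : ℝ) / S = (-1/2 : ℝ) := by rw [S_eq]; norm_num
  have h := GE_run8 (W := 72057594037927936) (n := 64) (by norm_num) (by rw [S_eq]; norm_num)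
    (par := UVc_par) (xs := [v, (29/25 : ℝ), (7/25 : ℝ), (173/200 : ℝ), (-51/200 : ℝ)])
    (.cons hv (.cons (InB.of_bounds (by rw [S_eq]; norm_num) (by rw [S_eq]; norm_num)) (.cons (InB.of_bounds (by rw [S_eq]; norm_num) (by rw [S_eq]; norm_num)) (.cons (InB.of_bounds (by rw [S_eq]; norm_num) (by rw [S_eq]; norm_num)) (.cons (InB.of_bounds (by rw [S_eq]; norm_num) (by rw [S_eq]; norm_num)) .nil))))) UVc_prog [20, 18, 15, 5, 3, 0] UVc_cl UVc_run
    (Fs := [fun x => Mi (-(v * x)) * Mi (-((29/25) * (v * x) + (7/25) * Mi (-(v * x)))),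
      fun x => v * x * Mi (-((29/25) * (v * x) + (7/25) * Mi (-(v * x)))),
      fun x => Real.log (Ph (-((29/25) * (v * x) + (7/25) * Mi (-(v * x))))) - ((29/25) * (v * x) + (7/25) * Mi (-(v * x))) * Mi (-((29/25) * (v * x) + (7/25) * Mi (-(v * x)))),
      fun x => Mi (-(v * x)) * Mi (-((173/200) * (v * x) - (51/200) * Mi (-(v * x)))),
      fun x => v * x * Mi (-((173/200) * (v * x) - (51/200) * Mi (-(v * x)))),
      fun x => Real.log (Ph (-((173/200) * (v * x) - (51/200) * Mi (-(v * x))))) - ((173/200) * (v * x) - (51/200) * Mi (-(v * x))) * Mi (-((173/200) * (v * x) - (51/200) * Mi (-(v * x))))]) rfl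
    (by
      refine .cons ⟨by fun_prop (disch := positivity), fun x => ?_⟩ (.cons ⟨by fun_prop (disch := positivity), fun x => ?_⟩ (.cons ⟨by fun_prop (disch := positivity), fun x => ?_⟩ (.cons ⟨by fun_prop (disch := positivity), fun x => ?_⟩ (.cons ⟨by fun_prop (disch := positivity), fun x => ?_⟩ (.cons ⟨by fun_prop (disch := positivity), fun x => ?_⟩ (.nil))))))
      all_goals
        simp only [UVc_prog, evp, gt, List.getD_cons_zero, List.getD_cons_succ, cc0]
        ring_nf)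
  simp only [UVc_cl, List.forall₂_cons, List.Forall₂.nil, _root_.and_true] at h
  obtain ⟨h0, h1, h2, h3, h4, h5⟩ := h
  have gg : (∃ C k, Gr (fun x => Mi (-(v * x)) * Mi (-((29/25) * (v * x) + (7/25) * Mi (-(v * x))))) C k ∧ k ≤ 6 ∧ C * 8e-10 ≤ (3/250000000 : ℝ)) ∧
      (∃ C k, Gr (fun x => v * x * Mi (-((29/25) * (v * x) + (7/25) * Mi (-(v * x))))) C k ∧ k ≤ 6 ∧ C * 8e-10 ≤ (80001/10000000000000 : ℝ)) ∧
      (∃ C k, Gr (fun x => Real.log (Ph (-((29/25) * (v * x) + (7/25) * Mi (-(v * x))))) - ((29/25) * (v * x) + (7/25) * Mi (-(v * x))) * Mi (-((29/25) * (v * x) + (7/25) * Mi (-(v * x))))) C k ∧ k ≤ 6 ∧ C * 8e-10 ≤ (290001/10000000000000 : ℝ)) ∧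
      (∃ C k, Gr (fun x => Mi (-(v * x)) * Mi (-((173/200) * (v * x) - (51/200) * Mi (-(v * x))))) C k ∧ k ≤ 6 ∧ C * 8e-10 ≤ (100001/10000000000000 : ℝ)) ∧
      (∃ C k, Gr (fun x => v * x * Mi (-((173/200) * (v * x) - (51/200) * Mi (-(v * x))))) C k ∧ k ≤ 6 ∧ C * 8e-10 ≤ (67/10000000000 : ℝ)) ∧
      (∃ C k, Gr (fun x => Real.log (Ph (-((173/200) * (v * x) - (51/200) * Mi (-(v * x))))) - ((173/200) * (v * x) - (51/200) * Mi (-(v * x))) * Mi (-((173/200) * (v * x) - (51/200) * Mi (-(v * x))))) C k ∧ k ≤ 6 ∧ C * 8e-10 ≤ (200001/10000000000000 : ℝ)) := by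
    refine ⟨?_, ?_, ?_, ?_, ?_, ?_⟩
    all_goals
      apply gr8
      · repeat' (with_reducible first
          | exact Gr.id
          | exact Gr.par (by assumption)
          | exact Gr.num (by norm_num)
          | exact Gr.tanh _
          | exact Gr.Md _
          | exact Gr.M2 _
          | exact Gr.Ph _
          | assumption
          | apply Gr.lc
          | apply Gr.Mi
          | apply Gr.logPh
          | apply Gr.neg
          | apply Gr.abs
          | apply Gr.add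
          | apply Gr.sub
          | apply Gr.mul
          | apply Gr.pow
          | (refine Gr.div ?_ (by norm_num)))
      · norm_num
      · norm_num
  obtain ⟨gg0, gg1, gg2, gg3, gg4, gg5⟩ := gg
  have g0 := dec_of (lo := (1159055 : ℝ) / 1000000) (hi := (1159079 : ℝ) / 1000000) (h0 _ gg0)
    (by rw [S_eq]; norm_num) (by rw [S_eq]; norm_num)
  have g1 := dec_of (lo := (-674493 : ℝ) / 1000000) (hi := (-674469 : ℝ) / 1000000) (h1 _ gg1)
    (by rw [S_eq]; norm_num) (by rw [S_eq]; norm_num)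
  have g2 := dec_of (lo := (-392928 : ℝ) / 1000000) (hi := (-392907 : ℝ) / 1000000) (h2 _ gg2)
    (by rw [S_eq]; norm_num) (by rw [S_eq]; norm_num)
  have g3 := dec_of (lo := (1536272 : ℝ) / 1000000) (hi := (1536303 : ℝ) / 1000000) (h3 _ gg3)
    (by rw [S_eq]; norm_num) (by rw [S_eq]; norm_num)
  have g4 := dec_of (lo := (-843069 : ℝ) / 1000000) (hi := (-843042 : ℝ) / 1000000) (h4 _ gg4)
    (by rw [S_eq]; norm_num) (by rw [S_eq]; norm_num)
  have g5 := dec_of (lo := (-225181 : ℝ) / 1000000) (hi := (-225155 : ℝ) / 1000000) (h5 _ gg5)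
    (by rw [S_eq]; norm_num) (by rw [S_eq]; norm_num)
  exact ⟨g0, g1, g2, g3, g4, g5⟩

end IP49N
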