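import Pool.Agent.IP49N.SFin

/-! IP49N/UVd: certified integrals, generated by gen.py (helper52).  -/

set_option autoImplicit false
set_option maxRecDepth 20000

namespace IP49N
open Pool.Agent.IP49

def UVd_prog : List Op := [
    .z, .p 0, .mul 0 1, .c (0), .sub 0 1, .mil 0, .p 1, .mul 0 5, .p 2, .mul 0 4, .add 2 0,
    .sub 8 0, .mil 0, .mul 9 1, .mul 15 15, .c (-576460752303423488), .mul 1 0, .exp 0, .mul 4 0,
    .mul 18 7, .mul 0 2, .mul 11 9, .sub 9 0, .mul 0 5, .p 3, .mul 0 24, .p 4, .mul 0 23,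
    .add 2 0, .sub 27 0, .mil 0, .mul 28 1, .mul 0 15, .mul 33 3, .mul 0 17, .mul 7 5, .sub 5 0,
    .mul 0 20]
def UVd_par : List Bl := [
    ⟨Int.ofNat (nat_lit 1311145853048648213), nat_lit 1900000000000⟩,
    ⟨Int.ofNat (nat_lit 1521856386081038008), nat_lit 1⟩,
    ⟨Int.ofNat (nat_lit 599519182395560428), nat_lit 1⟩,
    ⟨Int.ofNat (nat_lit 899278773593340641), nat_lit 1⟩,
    ⟨Int.negSucc (nat_lit 495756246980944199), nat_lit 1⟩]
def UVd_cl : List (ℤ × ℕ) := [
    (Int.ofNat (nat_lit 1175595563558881915), nat_lit 13235485236766),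
    (Int.negSucc (nat_lit 706148691499025341), nat_lit 13733694455001),
    (Int.negSucc (nat_lit 477549020323862693), nat_lit 14503935744878),
    (Int.ofNat (nat_lit 1930543561527884231), nat_lit 19410763097105),
    (Int.negSucc (nat_lit 1041578851692730502), nat_lit 17143824637468),
    (Int.negSucc (nat_lit 147720705857181533), nat_lit 17797514392685)]
theorem UVd_run : quad (nat_lit 72057594037927936) UVd_par UVd_prog [20, 18, 15, 5, 3, 0] (nat_lit 64)
    (List.replicate (nat_lit 6) Acc.zero) true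
    (fun acc b => Bool.and b (chk (nat_lit 72057594037927936) UVd_cl acc)) = true := by decide +kernel

theorem UVd_all {v : ℝ}
    (hv : InB v ⟨Int.ofNat (nat_lit 1311145853048648213), nat_lit 1900000000000⟩) :
    ((1019655 : ℝ) / 1000000 ≤ GE (fun x => Mi (-(v * x)) * Mi (-((33/25) * (v * x) + (13/25) * Mi (-(v * x))))) ∧
      GE (fun x => Mi (-(v * x)) * Mi (-((33/25) * (v * x) + (13/25) * Mi (-(v * x))))) ≤ (1019679 : ℝ) / 1000000) ∧
    ((-612499 : ℝ) / 1000000 ≤ GE (fun x => v * x * Mi (-((33/25) * (v * x) + (13/25) * Mi (-(v * x))))) ∧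
      GE (fun x => v * x * Mi (-((33/25) * (v * x) + (13/25) * Mi (-(v * x))))) ≤ (-612474 : ℝ) / 1000000) ∧
    ((-414221 : ℝ) / 1000000 ≤ GE (fun x => Real.log (Ph (-((33/25) * (v * x) + (13/25) * Mi (-(v * x))))) - ((33/25) * (v * x) + (13/25) * Mi (-(v * x))) * Mi (-((33/25) * (v * x) + (13/25) * Mi (-(v * x))))) ∧
      GE (fun x => Real.log (Ph (-((33/25) * (v * x) + (13/25) * Mi (-(v * x))))) - ((33/25) * (v * x) + (13/25) * Mi (-(v * x))) * Mi (-((33/25) * (v * x) + (13/25) * Mi (-(v * x))))) ≤ (-414195 : ℝ) / 1000000) ∧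
    ((1674462 : ℝ) / 1000000 ≤ GE (fun x => Mi (-(v * x)) * Mi (-((39/50) * (v * x) - (43/100) * Mi (-(v * x))))) ∧
      GE (fun x => Mi (-(v * x)) * Mi (-((39/50) * (v * x) - (43/100) * Mi (-(v * x))))) ≤ (1674497 : ℝ) / 1000000) ∧
    ((-903441 : ℝ) / 1000000 ≤ GE (fun x => v * x * Mi (-((39/50) * (v * x) - (43/100) * Mi (-(v * x))))) ∧
      GE (fun x => v * x * Mi (-((39/50) * (v * x) - (43/100) * Mi (-(v * x))))) ≤ (-903410 : ℝ) / 1000000) ∧
    ((-128143 : ℝ) / 1000000 ≤ GE (fun x => Real.log (Ph (-((39/50) * (v * x) - (43/100) * Mi (-(v * x))))) - ((39/50) * (v * x) - (43/100) * Mi (-(v * x))) * Mi (-((39/50) * (v * x) - (43/100) * Mi (-(v * x))))) ∧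
      GE (fun x => Real.log (Ph (-((39/50) * (v * x) - (43/100) * Mi (-(v * x))))) - ((39/50) * (v * x) - (43/100) * Mi (-(v * x))) * Mi (-((39/50) * (v * x) - (43/100) * Mi (-(v * x))))) ≤ (-128111 : ℝ) / 1000000) := by
  have bv : |v| ≤ 2 := by simpa using hv.abs_le (K := 2) (by decide +kernel)
  have cc0 : ((-576460752303423488 : ℤ) : ℝ) / S = (-1/2 : ℝ) := by rw [S_eq]; norm_num
  have h := GE_run8 (W := 72057594037927936) (n := 64) (by norm_num) (by rw [S_eq]; norm_num)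
    (par := UVd_par) (xs := [v, (33/25 : ℝ), (13/25 : ℝ), (39/50 : ℝ), (-43/100 : ℝ)])
    (.cons hv (.cons (InB.of_bounds (by rw [S_eq]; norm_num) (by rw [S_eq]; norm_num)) (.cons (InB.of_bounds (by rw [S_eq]; norm_num) (by rw [S_eq]; norm_num)) (.cons (InB.of_bounds (by rw [S_eq]; norm_num) (by rw [S_eq]; norm_num)) (.cons (InB.of_bounds (by rw [S_eq]; norm_num) (by rw [S_eq]; norm_num)) .nil))))) UVd_prog [20, 18, 15, 5, 3, 0] UVd_cl UVd_run
    (Fs := [fun x => Mi (-(v * x)) * Mi (-((33/25) * (v * x) + (13/25) * Mi (-(v * x)))),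
      fun x => v * x * Mi (-((33/25) * (v * x) + (13/25) * Mi (-(v * x)))),
      fun x => Real.log (Ph (-((33/25) * (v * x) + (13/25) * Mi (-(v * x))))) - ((33/25) * (v * x) + (13/25) * Mi (-(v * x))) * Mi (-((33/25) * (v * x) + (13/25) * Mi (-(v * x)))),
      fun x => Mi (-(v * x)) * Mi (-((39/50) * (v * x) - (43/100) * Mi (-(v * x)))),
      fun x => v * x * Mi (-((39/50) * (v * x) - (43/100) * Mi (-(v * x)))),
      fun x => Real.log (Ph (-((39/50) * (v * x) - (43/100) * Mi (-(v * x))))) - ((39/50) * (v * x) - (43/100) * Mi (-(v * x))) * Mi (-((39/50) * (v * x) - (43/100) * Mi (-(v * x))))]) rfl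
    (by
      refine .cons ⟨by fun_prop (disch := positivity), fun x => ?_⟩ (.cons ⟨by fun_prop (disch := positivity), fun x => ?_⟩ (.cons ⟨by fun_prop (disch := positivity), fun x => ?_⟩ (.cons ⟨by fun_prop (disch := positivity), fun x => ?_⟩ (.cons ⟨by fun_prop (disch := positivity), fun x => ?_⟩ (.cons ⟨by fun_prop (disch := positivity), fun x => ?_⟩ (.nil))))))
      all_goals
        simp only [UVd_prog, evp, gt, List.getD_cons_zero, List.getD_cons_succ, cc0]
        ring_nf)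
  simp only [UVd_cl, List.forall₂_cons, List.Forall₂.nil, _root_.and_true] at h
  obtain ⟨h0, h1, h2, h3, h4, h5⟩ := h
  have gg : (∃ C k, Gr (fun x => Mi (-(v * x)) * Mi (-((33/25) * (v * x) + (13/25) * Mi (-(v * x))))) C k ∧ k ≤ 6 ∧ C * 8e-10 ≤ (3/200000000 : ℝ)) ∧
      (∃ C k, Gr (fun x => v * x * Mi (-((33/25) * (v * x) + (13/25) * Mi (-(v * x))))) C k ∧ k ≤ 6 ∧ C * 8e-10 ≤ (100001/10000000000000 : ℝ)) ∧
      (∃ C k, Gr (fun x => Real.log (Ph (-((33/25) * (v * x) + (13/25) * Mi (-(v * x))))) - ((33/25) * (v * x) + (13/25) * Mi (-(v * x))) * Mi (-((33/25) * (v * x) + (13/25) * Mi (-(v * x))))) C k ∧ k ≤ 6 ∧ C * 8e-10 ≤ (47/1000000000 : ℝ)) ∧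
      (∃ C k, Gr (fun x => Mi (-(v * x)) * Mi (-((39/50) * (v * x) - (43/100) * Mi (-(v * x))))) C k ∧ k ≤ 6 ∧ C * 8e-10 ≤ (11/1000000000 : ℝ)) ∧
      (∃ C k, Gr (fun x => v * x * Mi (-((39/50) * (v * x) - (43/100) * Mi (-(v * x))))) C k ∧ k ≤ 6 ∧ C * 8e-10 ≤ (74001/10000000000000 : ℝ)) ∧
      (∃ C k, Gr (fun x => Real.log (Ph (-((39/50) * (v * x) - (43/100) * Mi (-(v * x))))) - ((39/50) * (v * x) - (43/100) * Mi (-(v * x))) * Mi (-((39/50) * (v * x) - (43/100) * Mi (-(v * x))))) C k ∧ k ≤ 6 ∧ C * 8e-10 ≤ (1/40000000 : ℝ)) := by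
    refine ⟨?_, ?_, ?_, ?_, ?_, ?_⟩
    all_goals
      apply gr8
      · repeat' (with_reducible first
          | exact Gr.id
          | exact Gr.par (by assumption)
          | exact Gr.num (by norm_num)
          | exact Gr.tanh _
          | exact Gr.Md _
          | exact Gr.M2 _
          | exact Gr.Ph _
          | assumption
          | apply Gr.lc
          | apply Gr.Mi
          | apply Gr.logPh
          | apply Gr.neg
          | apply Gr.abs
          | apply Gr.add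
          | apply Gr.sub
          | apply Gr.mul
          | apply Gr.pow
          | (refine Gr.div ?_ (by norm_num)))
      · norm_num
      · norm_num
  obtain ⟨gg0, gg1, gg2, gg3, gg4, gg5⟩ := gg
  have g0 := dec_of (lo := (1019655 : ℝ) / 1000000) (hi := (1019679 : ℝ) / 1000000) (h0 _ gg0)
    (by rw [S_eq]; norm_num) (by rw [S_eq]; norm_num)
  have g1 := dec_of (lo := (-612499 : ℝ) / 1000000) (hi := (-612474 : ℝ) / 1000000) (h1 _ gg1)
    (by rw [S_eq]; norm_num) (by rw [S_eq]; norm_num)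
  have g2 := dec_of (lo := (-414221 : ℝ) / 1000000) (hi := (-414195 : ℝ) / 1000000) (h2 _ gg2)
    (by rw [S_eq]; norm_num) (by rw [S_eq]; norm_num)
  have g3 := dec_of (lo := (1674462 : ℝ) / 1000000) (hi := (1674497 : ℝ) / 1000000) (h3 _ gg3)
    (by rw [S_eq]; norm_num) (by rw [S_eq]; norm_num)
  have g4 := dec_of (lo := (-903441 : ℝ) / 1000000) (hi := (-903410 : ℝ) / 1000000) (h4 _ gg4)
    (by rw [S_eq]; norm_num) (by rw [S_eq]; norm_num)
  have g5 := dec_of (lo := (-128143 : ℝ) / 1000000) (hi := (-128111 : ℝ) / 1000000) (h5 _ gg5)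
    (by rw [S_eq]; norm_num) (by rw [S_eq]; norm_num)
  exact ⟨g0, g1, g2, g3, g4, g5⟩

end IP49N
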