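import Pool.Agent.IP49N.SFin

/-! IP49N/UVe: certified integrals, generated by gen.py (helper52).  -/

set_option autoImplicit false
set_option maxRecDepth 20000

namespace IP49N
open Pool.Agent.IP49

def UVe_prog : List Op := [
    .z, .p 0, .mul 0 1, .c (0), .sub 0 1, .mil 0, .p 1, .mul 0 5, .p 2, .mul 0 4, .add 2 0,
    .sub 8 0, .mil 0, .mul 9 1, .mul 15 15, .c (-576460752303423488), .mul 1 0, .exp 0, .mul 4 0,
    .mul 18 7, .mul 0 2, .mul 11 9, .sub 9 0, .mul 0 5, .p 3, .mul 0 24,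
    .c (-864691128455135232), .mul 0 23, .add 2 0, .sub 27 0, .mil 0, .mul 28 1, .mul 0 15,
    .mul 33 3, .mul 0 17, .mul 7 5, .sub 5 0, .mul 0 20]
def UVe_par : List Bl := [
    ⟨Int.ofNat (nat_lit 1311145853048648213), nat_lit 1900000000000⟩,
    ⟨Int.ofNat (nat_lit 1844674407370955162), nat_lit 1⟩,
    ⟨Int.ofNat (nat_lit 1037629354146162278), nat_lit 1⟩,
    ⟨Int.ofNat (nat_lit 737869762948382065), nat_lit 1⟩]
def UVe_cl : List (ℤ × ℕ) := [
    (Int.ofNat (nat_lit 957977881476068337), nat_lit 13285641021977),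
    (Int.negSucc (nat_lit 605461868241524004), nat_lit 19870934067187),
    (Int.negSucc (nat_lit 470828141184207848), nat_lit 27154125898640),
    (Int.ofNat (nat_lit 2243226016183458854), nat_lit 26149049253581),
    (Int.negSucc (nat_lit 1178376747403449080), nat_lit 22847132097100),
    (Int.ofNat (nat_lit 134232709723587838), nat_lit 29656421883576)]
theorem UVe_run : quad (nat_lit 72057594037927936) UVe_par UVe_prog [20, 18, 15, 5, 3, 0] (nat_lit 64)
    (List.replicate (nat_lit 6) Acc.zero) true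
    (fun acc b => Bool.and b (chk (nat_lit 72057594037927936) UVe_cl acc)) = true := by decide +kernel

theorem UVe_all {v : ℝ}
    (hv : InB v ⟨Int.ofNat (nat_lit 1311145853048648213), nat_lit 1900000000000⟩) :
    ((830901 : ℝ) / 1000000 ≤ GE (fun x => Mi (-(v * x)) * Mi (-((8/5) * (v * x) + (9/10) * Mi (-(v * x))))) ∧
      GE (fun x => Mi (-(v * x)) * Mi (-((8/5) * (v * x) + (9/10) * Mi (-(v * x))))) ≤ (830925 : ℝ) / 1000000) ∧
    ((-525172 : ℝ) / 1000000 ≤ GE (fun x => v * x * Mi (-((8/5) * (v * x) + (9/10) * Mi (-(v * x))))) ∧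
      GE (fun x => v * x * Mi (-((8/5) * (v * x) + (9/10) * Mi (-(v * x))))) ≤ (-525137 : ℝ) / 1000000) ∧
    ((-408402 : ℝ) / 1000000 ≤ GE (fun x => Real.log (Ph (-((8/5) * (v * x) + (9/10) * Mi (-(v * x))))) - ((8/5) * (v * x) + (9/10) * Mi (-(v * x))) * Mi (-((8/5) * (v * x) + (9/10) * Mi (-(v * x))))) ∧
      GE (fun x => Real.log (Ph (-((8/5) * (v * x) + (9/10) * Mi (-(v * x))))) - ((8/5) * (v * x) + (9/10) * Mi (-(v * x))) * Mi (-((8/5) * (v * x) + (9/10) * Mi (-(v * x))))) ≤ (-408354 : ℝ) / 1000000) ∧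
    ((1945665 : ℝ) / 1000000 ≤ GE (fun x => Mi (-(v * x)) * Mi (-((16/25) * (v * x) - (3/4) * Mi (-(v * x))))) ∧
      GE (fun x => Mi (-(v * x)) * Mi (-((16/25) * (v * x) - (3/4) * Mi (-(v * x))))) ≤ (1945712 : ℝ) / 1000000) ∧
    ((-1022099 : ℝ) / 1000000 ≤ GE (fun x => v * x * Mi (-((16/25) * (v * x) - (3/4) * Mi (-(v * x))))) ∧
      GE (fun x => v * x * Mi (-((16/25) * (v * x) - (3/4) * Mi (-(v * x))))) ≤ (-1022059 : ℝ) / 1000000) ∧
    ((116402 : ℝ) / 1000000 ≤ GE (fun x => Real.log (Ph (-((16/25) * (v * x) - (3/4) * Mi (-(v * x))))) - ((16/25) * (v * x) - (3/4) * Mi (-(v * x))) * Mi (-((16/25) * (v * x) - (3/4) * Mi (-(v * x))))) ∧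
      GE (fun x => Real.log (Ph (-((16/25) * (v * x) - (3/4) * Mi (-(v * x))))) - ((16/25) * (v * x) - (3/4) * Mi (-(v * x))) * Mi (-((16/25) * (v * x) - (3/4) * Mi (-(v * x))))) ≤ (116455 : ℝ) / 1000000) := by
  have bv : |v| ≤ 2 := by simpa using hv.abs_le (K := 2) (by decide +kernel)
  have cc0 : ((-864691128455135232 : ℤ) : ℝ) / S = (-3/4 : ℝ) := by rw [S_eq]; norm_num
  have cc1 : ((-576460752303423488 : ℤ) : ℝ) / S = (-1/2 : ℝ) := by rw [S_eq]; norm_num
  have h := GE_run8 (W := 72057594037927936) (n := 64) (by norm_num) (by rw [S_eq]; norm_num)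
    (par := UVe_par) (xs := [v, (8/5 : ℝ), (9/10 : ℝ), (16/25 : ℝ)])
    (.cons hv (.cons (InB.of_bounds (by rw [S_eq]; norm_num) (by rw [S_eq]; norm_num)) (.cons (InB.of_bounds (by rw [S_eq]; norm_num) (by rw [S_eq]; norm_num)) (.cons (InB.of_bounds (by rw [S_eq]; norm_num) (by rw [S_eq]; norm_num)) .nil)))) UVe_prog [20, 18, 15, 5, 3, 0] UVe_cl UVe_run
    (Fs := [fun x => Mi (-(v * x)) * Mi (-((8/5) * (v * x) + (9/10) * Mi (-(v * x)))),
      fun x => v * x * Mi (-((8/5) * (v * x) + (9/10) * Mi (-(v * x)))),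
      fun x => Real.log (Ph (-((8/5) * (v * x) + (9/10) * Mi (-(v * x))))) - ((8/5) * (v * x) + (9/10) * Mi (-(v * x))) * Mi (-((8/5) * (v * x) + (9/10) * Mi (-(v * x)))),
      fun x => Mi (-(v * x)) * Mi (-((16/25) * (v * x) - (3/4) * Mi (-(v * x)))),
      fun x => v * x * Mi (-((16/25) * (v * x) - (3/4) * Mi (-(v * x)))),
      fun x => Real.log (Ph (-((16/25) * (v * x) - (3/4) * Mi (-(v * x))))) - ((16/25) * (v * x) - (3/4) * Mi (-(v * x))) * Mi (-((16/25) * (v * x) - (3/4) * Mi (-(v * x))))]) rfl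
    (by
      refine .cons ⟨by fun_prop (disch := positivity), fun x => ?_⟩ (.cons ⟨by fun_prop (disch := positivity), fun x => ?_⟩ (.cons ⟨by fun_prop (disch := positivity), fun x => ?_⟩ (.cons ⟨by fun_prop (disch := positivity), fun x => ?_⟩ (.cons ⟨by fun_prop (disch := positivity), fun x => ?_⟩ (.cons ⟨by fun_prop (disch := positivity), fun x => ?_⟩ (.nil))))))
      all_goals
        simp only [UVe_prog, evp, gt, List.getD_cons_zero, List.getD_cons_succ, cc0, cc1]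
        ring_nf)
  simp only [UVe_cl, List.forall₂_cons, List.Forall₂.nil, _root_.and_true] at h
  obtain ⟨h0, h1, h2, h3, h4, h5⟩ := h
  have gg : (∃ C k, Gr (fun x => Mi (-(v * x)) * Mi (-((8/5) * (v * x) + (9/10) * Mi (-(v * x))))) C k ∧ k ≤ 6 ∧ C * 8e-10 ≤ (200001/10000000000000 : ℝ)) ∧
      (∃ C k, Gr (fun x => v * x * Mi (-((8/5) * (v * x) + (9/10) * Mi (-(v * x))))) C k ∧ k ≤ 6 ∧ C * 8e-10 ≤ (130001/10000000000000 : ℝ)) ∧
      (∃ C k, Gr (fun x => Real.log (Ph (-((8/5) * (v * x) + (9/10) * Mi (-(v * x))))) - ((8/5) * (v * x) + (9/10) * Mi (-(v * x))) * Mi (-((8/5) * (v * x) + (9/10) * Mi (-(v * x))))) C k ∧ k ≤ 6 ∧ C * 8e-10 ≤ (17/200000000 : ℝ)) ∧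
      (∃ C k, Gr (fun x => Mi (-(v * x)) * Mi (-((16/25) * (v * x) - (3/4) * Mi (-(v * x))))) C k ∧ k ≤ 6 ∧ C * 8e-10 ≤ (130001/10000000000000 : ℝ)) ∧
      (∃ C k, Gr (fun x => v * x * Mi (-((16/25) * (v * x) - (3/4) * Mi (-(v * x))))) C k ∧ k ≤ 6 ∧ C * 8e-10 ≤ (87001/10000000000000 : ℝ)) ∧
      (∃ C k, Gr (fun x => Real.log (Ph (-((16/25) * (v * x) - (3/4) * Mi (-(v * x))))) - ((16/25) * (v * x) - (3/4) * Mi (-(v * x))) * Mi (-((16/25) * (v * x) - (3/4) * Mi (-(v * x))))) C k ∧ k ≤ 6 ∧ C * 8e-10 ≤ (350001/10000000000000 : ℝ)) := by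
    refine ⟨?_, ?_, ?_, ?_, ?_, ?_⟩
    all_goals
      apply gr8
      · repeat' (with_reducible first
          | exact Gr.id
          | exact Gr.par (by assumption)
          | exact Gr.num (by norm_num)
          | exact Gr.tanh _
          | exact Gr.Md _
          | exact Gr.M2 _
          | exact Gr.Ph _
          | assumption
          | apply Gr.lc
          | apply Gr.Mi
          | apply Gr.logPh
          | apply Gr.neg
          | apply Gr.abs
          | apply Gr.add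
          | apply Gr.sub
          | apply Gr.mul
          | apply Gr.pow
          | (refine Gr.div ?_ (by norm_num)))
      · norm_num
      · norm_num
  obtain ⟨gg0, gg1, gg2, gg3, gg4, gg5⟩ := gg
  have g0 := dec_of (lo := (830901 : ℝ) / 1000000) (hi := (830925 : ℝ) / 1000000) (h0 _ gg0)
    (by rw [S_eq]; norm_num) (by rw [S_eq]; norm_num)
  have g1 := dec_of (lo := (-525172 : ℝ) / 1000000) (hi := (-525137 : ℝ) / 1000000) (h1 _ gg1)
    (by rw [S_eq]; norm_num) (by rw [S_eq]; norm_num)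
  have g2 := dec_of (lo := (-408402 : ℝ) / 1000000) (hi := (-408354 : ℝ) / 1000000) (h2 _ gg2)
    (by rw [S_eq]; norm_num) (by rw [S_eq]; norm_num)
  have g3 := dec_of (lo := (1945665 : ℝ) / 1000000) (hi := (1945712 : ℝ) / 1000000) (h3 _ gg3)
    (by rw [S_eq]; norm_num) (by rw [S_eq]; norm_num)
  have g4 := dec_of (lo := (-1022099 : ℝ) / 1000000) (hi := (-1022059 : ℝ) / 1000000) (h4 _ gg4)
    (by rw [S_eq]; norm_num) (by rw [S_eq]; norm_num)
  have g5 := dec_of (lo := (116402 : ℝ) / 1000000) (hi := (116455 : ℝ) / 1000000) (h5 _ gg5)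
    (by rw [S_eq]; norm_num) (by rw [S_eq]; norm_num)
  exact ⟨g0, g1, g2, g3, g4, g5⟩

end IP49N
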