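import Pool.Agent.IP49N.SFin

/-! IP49N/UVf: certified integrals, generated by gen.py (helper52).  -/

set_option autoImplicit false
set_option maxRecDepth 20000

namespace IP49N
open Pool.Agent.IP49

def UVf_prog : List Op := [
    .z, .p 0, .mul 0 1, .c (0), .sub 0 1, .mil 0, .c (576460752303423488), .mul 0 5, .p 1,
    .mul 0 4, .add 2 0, .sub 8 0, .mil 0, .mul 9 1, .mul 15 15, .c (-576460752303423488),
    .mul 1 0, .exp 0, .mul 4 0, .mul 18 7, .mul 0 2, .mul 11 9, .sub 9 0, .mul 0 5,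
    .c (-288230376151711744), .mul 0 24, .mul 10 22, .add 1 0, .sub 26 0, .mil 0, .mul 27 1,
    .mul 0 14, .mul 32 3, .mul 0 16, .mul 7 5, .sub 5 0, .mul 0 19]
def UVf_par : List Bl := [
    ⟨Int.ofNat (nat_lit 1311145853048648213), nat_lit 1900000000000⟩,
    ⟨Int.negSucc (nat_lit 922337203685477580), nat_lit 1⟩]
def UVf_cl : List (ℤ × ℕ) := [
    (Int.ofNat (nat_lit 2194958638463152358), nat_lit 22651492974446),
    (Int.negSucc (nat_lit 1083917100330629062), nat_lit 19992367239561),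
    (Int.ofNat (nat_lit 43071315205306243), nat_lit 23990229076437),
    (Int.ofNat (nat_lit 1242968495690535316), nat_lit 8761112034418),
    (Int.negSucc (nat_lit 48485286264465379), nat_lit 10132148016759),
    (Int.negSucc (nat_lit 706699123505347055), nat_lit 5722833405656)]
theorem UVf_run : quad (nat_lit 72057594037927936) UVf_par UVf_prog [19, 17, 14, 5, 3, 0] (nat_lit 64)
    (List.replicate (nat_lit 6) Acc.zero) true
    (fun acc b => Bool.and b (chk (nat_lit 72057594037927936) UVf_cl acc)) = true := by decide +kernel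

theorem UVf_all {v : ℝ}
    (hv : InB v ⟨Int.ofNat (nat_lit 1311145853048648213), nat_lit 1900000000000⟩) :
    ((1903803 : ℝ) / 1000000 ≤ GE (fun x => Mi (-(v * x)) * Mi (-((1/2) * (v * x) - (4/5) * Mi (-(v * x))))) ∧
      GE (fun x => Mi (-(v * x)) * Mi (-((1/2) * (v * x) - (4/5) * Mi (-(v * x))))) ≤ (1903843 : ℝ) / 1000000) ∧
    ((-940166 : ℝ) / 1000000 ≤ GE (fun x => v * x * Mi (-((1/2) * (v * x) - (4/5) * Mi (-(v * x))))) ∧
      GE (fun x => v * x * Mi (-((1/2) * (v * x) - (4/5) * Mi (-(v * x))))) ≤ (-940130 : ℝ) / 1000000) ∧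
    ((37337 : ℝ) / 1000000 ≤ GE (fun x => Real.log (Ph (-((1/2) * (v * x) - (4/5) * Mi (-(v * x))))) - ((1/2) * (v * x) - (4/5) * Mi (-(v * x))) * Mi (-((1/2) * (v * x) - (4/5) * Mi (-(v * x))))) ∧
      GE (fun x => Real.log (Ph (-((1/2) * (v * x) - (4/5) * Mi (-(v * x))))) - ((1/2) * (v * x) - (4/5) * Mi (-(v * x))) * Mi (-((1/2) * (v * x) - (4/5) * Mi (-(v * x))))) ≤ (37380 : ℝ) / 1000000) ∧
    ((10780957 : ℝ) / 10000000 ≤ GE (fun x => Mi (-(v * x)) * Mi (-(-((1/4) * (v * x)) - (1/2) * Mi (-(v * x))))) ∧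
      GE (fun x => Mi (-(v * x)) * Mi (-(-((1/4) * (v * x)) - (1/2) * Mi (-(v * x))))) ≤ (10781110 : ℝ) / 10000000) ∧
    ((-420631 : ℝ) / 10000000 ≤ GE (fun x => v * x * Mi (-(-((1/4) * (v * x)) - (1/2) * Mi (-(v * x))))) ∧
      GE (fun x => v * x * Mi (-(-((1/4) * (v * x)) - (1/2) * Mi (-(v * x))))) ≤ (-420454 : ℝ) / 10000000) ∧
    ((-6129688 : ℝ) / 10000000 ≤ GE (fun x => Real.log (Ph (-(-((1/4) * (v * x)) - (1/2) * Mi (-(v * x))))) - (-((1/4) * (v * x)) - (1/2) * Mi (-(v * x))) * Mi (-(-((1/4) * (v * x)) - (1/2) * Mi (-(v * x))))) ∧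
      GE (fun x => Real.log (Ph (-(-((1/4) * (v * x)) - (1/2) * Mi (-(v * x))))) - (-((1/4) * (v * x)) - (1/2) * Mi (-(v * x))) * Mi (-(-((1/4) * (v * x)) - (1/2) * Mi (-(v * x))))) ≤ (-6129588 : ℝ) / 10000000) := by
  have bv : |v| ≤ 2 := by simpa using hv.abs_le (K := 2) (by decide +kernel)
  have cc0 : ((-576460752303423488 : ℤ) : ℝ) / S = (-1/2 : ℝ) := by rw [S_eq]; norm_num
  have cc1 : ((-288230376151711744 : ℤ) : ℝ) / S = (-1/4 : ℝ) := by rw [S_eq]; norm_num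
  have cc2 : ((576460752303423488 : ℤ) : ℝ) / S = (1/2 : ℝ) := by rw [S_eq]; norm_num
  have h := GE_run8 (W := 72057594037927936) (n := 64) (by norm_num) (by rw [S_eq]; norm_num)
    (par := UVf_par) (xs := [v, (-4/5 : ℝ)])
    (.cons hv (.cons (InB.of_bounds (by rw [S_eq]; norm_num) (by rw [S_eq]; norm_num)) .nil)) UVf_prog [19, 17, 14, 5, 3, 0] UVf_cl UVf_run
    (Fs := [fun x => Mi (-(v * x)) * Mi (-((1/2) * (v * x) - (4/5) * Mi (-(v * x)))),
      fun x => v * x * Mi (-((1/2) * (v * x) - (4/5) * Mi (-(v * x)))),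
      fun x => Real.log (Ph (-((1/2) * (v * x) - (4/5) * Mi (-(v * x))))) - ((1/2) * (v * x) - (4/5) * Mi (-(v * x))) * Mi (-((1/2) * (v * x) - (4/5) * Mi (-(v * x)))),
      fun x => Mi (-(v * x)) * Mi (-(-((1/4) * (v * x)) - (1/2) * Mi (-(v * x)))),
      fun x => v * x * Mi (-(-((1/4) * (v * x)) - (1/2) * Mi (-(v * x)))),
      fun x => Real.log (Ph (-(-((1/4) * (v * x)) - (1/2) * Mi (-(v * x))))) - (-((1/4) * (v * x)) - (1/2) * Mi (-(v * x))) * Mi (-(-((1/4) * (v * x)) - (1/2) * Mi (-(v * x))))]) rfl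
    (by
      refine .cons ⟨by fun_prop (disch := positivity), fun x => ?_⟩ (.cons ⟨by fun_prop (disch := positivity), fun x => ?_⟩ (.cons ⟨by fun_prop (disch := positivity), fun x => ?_⟩ (.cons ⟨by fun_prop (disch := positivity), fun x => ?_⟩ (.cons ⟨by fun_prop (disch := positivity), fun x => ?_⟩ (.cons ⟨by fun_prop (disch := positivity), fun x => ?_⟩ (.nil))))))
      all_goals
        simp only [UVf_prog, evp, gt, List.getD_cons_zero, List.getD_cons_succ, cc0, cc1, cc2]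
        ring_nf)
  simp only [UVf_cl, List.forall₂_cons, List.Forall₂.nil, _root_.and_true] at h
  obtain ⟨h0, h1, h2, h3, h4, h5⟩ := h
  have gg : (∃ C k, Gr (fun x => Mi (-(v * x)) * Mi (-((1/2) * (v * x) - (4/5) * Mi (-(v * x))))) C k ∧ k ≤ 6 ∧ C * 8e-10 ≤ (130001/10000000000000 : ℝ)) ∧
      (∃ C k, Gr (fun x => v * x * Mi (-((1/2) * (v * x) - (4/5) * Mi (-(v * x))))) C k ∧ k ≤ 6 ∧ C * 8e-10 ≤ (84001/10000000000000 : ℝ)) ∧
      (∃ C k, Gr (fun x => Real.log (Ph (-((1/2) * (v * x) - (4/5) * Mi (-(v * x))))) - ((1/2) * (v * x) - (4/5) * Mi (-(v * x))) * Mi (-((1/2) * (v * x) - (4/5) * Mi (-(v * x))))) C k ∧ k ≤ 6 ∧ C * 8e-10 ≤ (33/1000000000 : ℝ)) ∧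
      (∃ C k, Gr (fun x => Mi (-(v * x)) * Mi (-(-((1/4) * (v * x)) - (1/2) * Mi (-(v * x))))) C k ∧ k ≤ 6 ∧ C * 8e-10 ≤ (43/5000000000 : ℝ)) ∧
      (∃ C k, Gr (fun x => v * x * Mi (-(-((1/4) * (v * x)) - (1/2) * Mi (-(v * x))))) C k ∧ k ≤ 6 ∧ C * 8e-10 ≤ (29/5000000000 : ℝ)) ∧
      (∃ C k, Gr (fun x => Real.log (Ph (-(-((1/4) * (v * x)) - (1/2) * Mi (-(v * x))))) - (-((1/4) * (v * x)) - (1/2) * Mi (-(v * x))) * Mi (-(-((1/4) * (v * x)) - (1/2) * Mi (-(v * x))))) C k ∧ k ≤ 6 ∧ C * 8e-10 ≤ (7/500000000 : ℝ)) := by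
    refine ⟨?_, ?_, ?_, ?_, ?_, ?_⟩
    all_goals
      apply gr8
      · repeat' (with_reducible first
          | exact Gr.id
          | exact Gr.par (by assumption)
          | exact Gr.num (by norm_num)
          | exact Gr.tanh _
          | exact Gr.Md _
          | exact Gr.M2 _
          | exact Gr.Ph _
          | assumption
          | apply Gr.lc
          | apply Gr.Mi
          | apply Gr.logPh
          | apply Gr.neg
          | apply Gr.abs
          | apply Gr.add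
          | apply Gr.sub
          | apply Gr.mul
          | apply Gr.pow
          | (refine Gr.div ?_ (by norm_num)))
      · norm_num
      · norm_num
  obtain ⟨gg0, gg1, gg2, gg3, gg4, gg5⟩ := gg
  have g0 := dec_of (lo := (1903803 : ℝ) / 1000000) (hi := (1903843 : ℝ) / 1000000) (h0 _ gg0)
    (by rw [S_eq]; norm_num) (by rw [S_eq]; norm_num)
  have g1 := dec_of (lo := (-940166 : ℝ) / 1000000) (hi := (-940130 : ℝ) / 1000000) (h1 _ gg1)
    (by rw [S_eq]; norm_num) (by rw [S_eq]; norm_num)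
  have g2 := dec_of (lo := (37337 : ℝ) / 1000000) (hi := (37380 : ℝ) / 1000000) (h2 _ gg2)
    (by rw [S_eq]; norm_num) (by rw [S_eq]; norm_num)
  have g3 := dec_of (lo := (10780957 : ℝ) / 10000000) (hi := (10781110 : ℝ) / 10000000) (h3 _ gg3)
    (by rw [S_eq]; norm_num) (by rw [S_eq]; norm_num)
  have g4 := dec_of (lo := (-420631 : ℝ) / 10000000) (hi := (-420454 : ℝ) / 10000000) (h4 _ gg4)
    (by rw [S_eq]; norm_num) (by rw [S_eq]; norm_num)
  have g5 := dec_of (lo := (-6129688 : ℝ) / 10000000) (hi := (-6129588 : ℝ) / 10000000) (h5 _ gg5)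
    (by rw [S_eq]; norm_num) (by rw [S_eq]; norm_num)
  exact ⟨g0, g1, g2, g3, g4, g5⟩

end IP49N
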