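import Pool.Agent.IP49N.SFin

/-! IP49N/EX1: certified integrals, generated by gen.py (helper52).  -/

set_option autoImplicit false

namespace IP49N
open Pool.Agent.IP49

def EX1_prog : List Op := [
    .z, .p 0, .p 1, .mul 0 2, .th 0, .mul 4 5, .c (0), .sub 0 1, .mil 0, .mul 6 6, .mul 11 11,
    .c (-576460752303423488), .mul 1 0, .exp 0, .mul 4 0, .mul 11 1, .mul 8 8, .mul 0 3,
    .mul 9 4, .sub 11 12, .mul 12 0, .mul 0 0, .mul 0 8, .c (1152921504606846976), .sub 0 14,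
    .mul 0 0, .mul 0 12]
def EX1_par : List Bl := [
    ⟨Int.ofNat (nat_lit 1311145853048648213), nat_lit 1900000000000⟩,
    ⟨Int.ofNat (nat_lit 1850555741999803248), nat_lit 3700000000000⟩]
def EX1_cl : List (ℤ × ℕ) := [
    (Int.ofNat (nat_lit 650188922017680457), nat_lit 21713643583303),
    (Int.ofNat (nat_lit 1691429701944387133), nat_lit 11792655634301),
    (Int.ofNat (nat_lit 1554733521536372254), nat_lit 14429906236812),
    (Int.negSucc (nat_lit 1252969597044318464), nat_lit 7569582709953),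
    (Int.ofNat (nat_lit 458096876884030653), nat_lit 10280634993654),
    (Int.ofNat (nat_lit 360509495588195035), nat_lit 32588450109396)]
theorem EX1_run : quad (nat_lit 72057594037927936) EX1_par EX1_prog [12, 11, 9, 8, 4, 0] (nat_lit 64)
    (List.replicate (nat_lit 6) Acc.zero) true
    (fun acc b => Bool.and b (chk (nat_lit 72057594037927936) EX1_cl acc)) = true := by decide +kernel

theorem EX1_all {v r : ℝ}
    (hv : InB v ⟨Int.ofNat (nat_lit 1311145853048648213), nat_lit 1900000000000⟩) (hr : InB r ⟨Int.ofNat (nat_lit 1850555741999803248), nat_lit 3700000000000⟩) :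
    ((563930 : ℝ) / 1000000 ≤ GE (fun x => Real.tanh (r * x) ^ 2) ∧
      GE (fun x => Real.tanh (r * x) ^ 2) ≤ (563968 : ℝ) / 1000000) ∧
    ((1467071 : ℝ) / 1000000 ≤ GE (fun x => lc (r * x)) ∧
      GE (fun x => lc (r * x)) ≤ (1467092 : ℝ) / 1000000) ∧
    ((1348503 : ℝ) / 1000000 ≤ GE (fun x => Mi (-(v * x)) ^ 2) ∧
      GE (fun x => Mi (-(v * x)) ^ 2) ≤ (1348529 : ℝ) / 1000000) ∧
    ((-10867845 : ℝ) / 10000000 ≤ GE (fun x => Real.log (Ph (-(v * x)))) ∧
      GE (fun x => Real.log (Ph (-(v * x)))) ≤ (-10867713 : ℝ) / 10000000) ∧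
    ((3973265 : ℝ) / 10000000 ≤ GE (fun x => (Mi (-(v * x)) * (Mi (-(v * x)) - -(v * x))) ^ 2) ∧
      GE (fun x => (Mi (-(v * x)) * (Mi (-(v * x)) - -(v * x))) ^ 2) ≤ (3973449 : ℝ) / 10000000) ∧
    ((312663 : ℝ) / 1000000 ≤ GE (fun x => (1 - Real.tanh (r * x) ^ 2) ^ 2) ∧
      GE (fun x => (1 - Real.tanh (r * x) ^ 2) ^ 2) ≤ (312721 : ℝ) / 1000000) := by
  have bv : |v| ≤ 2 := by simpa using hv.abs_le (K := 2) (by decide +kernel)
  have br : |r| ≤ 2 := by simpa using hr.abs_le (K := 2) (by decide +kernel)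
  have cc0 : ((-576460752303423488 : ℤ) : ℝ) / S = (-1/2 : ℝ) := by rw [S_eq]; norm_num
  have cc1 : ((1152921504606846976 : ℤ) : ℝ) / S = (1 : ℝ) := by rw [S_eq]; norm_num
  have h := GE_run8 (W := 72057594037927936) (n := 64) (by norm_num) (by rw [S_eq]; norm_num)
    (par := EX1_par) (xs := [v, r])
    (.cons hv (.cons hr .nil)) EX1_prog [12, 11, 9, 8, 4, 0] EX1_cl EX1_run
    (Fs := [fun x => Real.tanh (r * x) ^ 2,
      fun x => lc (r * x),
      fun x => Mi (-(v * x)) ^ 2,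
      fun x => Real.log (Ph (-(v * x))),
      fun x => (Mi (-(v * x)) * (Mi (-(v * x)) - -(v * x))) ^ 2,
      fun x => (1 - Real.tanh (r * x) ^ 2) ^ 2]) rfl
    (by
      refine .cons ⟨by fun_prop (disch := positivity), fun x => ?_⟩ (.cons ⟨by fun_prop (disch := positivity), fun x => ?_⟩ (.cons ⟨by fun_prop (disch := positivity), fun x => ?_⟩ (.cons ⟨by fun_prop (disch := positivity), fun x => ?_⟩ (.cons ⟨by fun_prop (disch := positivity), fun x => ?_⟩ (.cons ⟨by fun_prop (disch := positivity), fun x => ?_⟩ (.nil))))))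
      all_goals
        simp only [EX1_prog, evp, gt, List.getD_cons_zero, List.getD_cons_succ, cc0, cc1]
        ring_nf)
  simp only [EX1_cl, List.forall₂_cons, List.Forall₂.nil, _root_.and_true] at h
  obtain ⟨h0, h1, h2, h3, h4, h5⟩ := h
  have gg : (∃ C k, Gr (fun x => Real.tanh (r * x) ^ 2) C k ∧ k ≤ 6 ∧ C * 8e-10 ≤ (3/3125000000 : ℝ)) ∧
      (∃ C k, Gr (fun x => lc (r * x)) C k ∧ k ≤ 6 ∧ C * 8e-10 ≤ (29/10000000000 : ℝ)) ∧
      (∃ C k, Gr (fun x => Mi (-(v * x)) ^ 2) C k ∧ k ≤ 6 ∧ C * 8e-10 ≤ (43/5000000000 : ℝ)) ∧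
      (∃ C k, Gr (fun x => Real.log (Ph (-(v * x)))) C k ∧ k ≤ 6 ∧ C * 8e-10 ≤ (43/5000000000 : ℝ)) ∧
      (∃ C k, Gr (fun x => (Mi (-(v * x)) * (Mi (-(v * x)) - -(v * x))) ^ 2) C k ∧ k ≤ 6 ∧ C * 8e-10 ≤ (2200001/10000000000000 : ℝ)) ∧
      (∃ C k, Gr (fun x => (1 - Real.tanh (r * x) ^ 2) ^ 2) C k ∧ k ≤ 6 ∧ C * 8e-10 ≤ (38001/10000000000000 : ℝ)) := by
    refine ⟨?_, ?_, ?_, ?_, ?_, ?_⟩
    all_goals
      apply gr8
      · repeat' (with_reducible first
          | exact Gr.id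
          | exact Gr.par (by assumption)
          | exact Gr.num (by norm_num)
          | exact Gr.tanh _
          | exact Gr.Md _
          | exact Gr.M2 _
          | exact Gr.Ph _
          | assumption
          | apply Gr.lc
          | apply Gr.Mi
          | apply Gr.logPh
          | apply Gr.neg
          | apply Gr.abs
          | apply Gr.add
          | apply Gr.sub
          | apply Gr.mul
          | apply Gr.pow
          | (refine Gr.div ?_ (by norm_num)))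
      · norm_num
      · norm_num
  obtain ⟨gg0, gg1, gg2, gg3, gg4, gg5⟩ := gg
  have g0 := dec_of (lo := (563930 : ℝ) / 1000000) (hi := (563968 : ℝ) / 1000000) (h0 _ gg0)
    (by rw [S_eq]; norm_num) (by rw [S_eq]; norm_num)
  have g1 := dec_of (lo := (1467071 : ℝ) / 1000000) (hi := (1467092 : ℝ) / 1000000) (h1 _ gg1)
    (by rw [S_eq]; norm_num) (by rw [S_eq]; norm_num)
  have g2 := dec_of (lo := (1348503 : ℝ) / 1000000) (hi := (1348529 : ℝ) / 1000000) (h2 _ gg2)
    (by rw [S_eq]; norm_num) (by rw [S_eq]; norm_num)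
  have g3 := dec_of (lo := (-10867845 : ℝ) / 10000000) (hi := (-10867713 : ℝ) / 10000000) (h3 _ gg3)
    (by rw [S_eq]; norm_num) (by rw [S_eq]; norm_num)
  have g4 := dec_of (lo := (3973265 : ℝ) / 10000000) (hi := (3973449 : ℝ) / 10000000) (h4 _ gg4)
    (by rw [S_eq]; norm_num) (by rw [S_eq]; norm_num)
  have g5 := dec_of (lo := (312663 : ℝ) / 1000000) (hi := (312721 : ℝ) / 1000000) (h5 _ gg5)
    (by rw [S_eq]; norm_num) (by rw [S_eq]; norm_num)
  exact ⟨g0, g1, g2, g3, g4, g5⟩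

end IP49N
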