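import Pool.Agent.IP49N.Box
import Pool.Agent.IP49N.EX1
import Pool.Agent.IP49.NUW

/-! IP49N/NATd (helper52): `AT < 1` and `-d ES2 < 1 - q` on the box. -/

set_option autoImplicit false
open MeasureTheory ProbabilityTheory

namespace IP49N
open Pool.Agent.IP49

theorem AT_eq {ψ : ℝ} (hψ : 0 < ψ) :
    AT 0 0 ψ = ψ * (GE fun x => Md (-(vv ψ * x)) ^ 2) * ES2 ψ
      / ((1 - qp ψ) * n0 (vv ψ)) := by
  have hq := qp_lt_one (ψ := ψ)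
  have hq' : 0 < 1 - qp ψ := by linarith
  have h1 := al_n0 hψ
  have hn := n0_pos (vv ψ)
  have ht : tp 0 (qp ψ) = Real.sqrt (1 - qp ψ) := by unfold tp; rw [add_zero]
  have h2 : (GE fun x => gf 0 0 (qp ψ) (Real.sqrt (qp ψ) * x) ^ 2)
      = (1 / (1 - qp ψ)) ^ 2 * GE fun x => Md (-(vv ψ * x)) ^ 2 := by
    rw [← GE_mul]
    congr 1; funext x
    unfold gf
    rw [ht, Real.sq_sqrt hq'.le]
    have e : (0 - Real.sqrt (qp ψ) * x) / Real.sqrt (1 - qp ψ) = -(vv ψ * x) := by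
      unfold vv; ring
    rw [e, div_pow, one_div, inv_pow, div_eq_inv_mul]
  have h3 : al 0 0 ψ = ψ * (1 - qp ψ) / n0 (vv ψ) := by rw [← h1]; field_simp
  unfold AT
  rw [h2, h3]
  field_simp

theorem box_EX1 {ψ : ℝ} (h1 : psi1 ≤ ψ) (h2 : ψ ≤ psi2) :
    (1348503 / 1000000 ≤ n0 (vv ψ) ∧ n0 (vv ψ) ≤ 1348530 / 1000000) ∧
    ((GE fun x => Md (-(vv ψ * x)) ^ 2) ≤ 39736 / 100000) ∧ (ES2 ψ ≤ 31273 / 100000) := by
  have h := EX1_all (box_v h1 h2) (box_r h1 h2)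
  obtain ⟨-, -, ⟨a1, a2⟩, -, ⟨-, b2⟩, ⟨-, c2⟩⟩ := h
  refine ⟨⟨?_, ?_⟩, ?_, ?_⟩
  · refine le_trans ?_ a1; norm_num
  · refine a2.trans ?_; norm_num
  · refine le_trans b2 ?_; norm_num
  · refine le_trans c2 ?_; norm_num

theorem AT_box {ψ : ℝ} (h1 : psi1 ≤ ψ) (h2 : ψ ≤ psi2) : AT 0 0 ψ < 1 := by
  obtain ⟨⟨hn, -⟩, hM, hE⟩ := box_EX1 h1 h2
  obtain ⟨hq0, hq1⟩ := box_q h1 h2
  have hψ := box_pos h1
  rw [AT_eq hψ]
  have hp2 : ψ ≤ 258 / 100 := h2.trans (by norm_num [psi2])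
  have hE0 : 0 ≤ ES2 ψ := GE_nonneg fun _ => by positivity
  have hM0 : 0 ≤ (GE fun x => Md (-(vv ψ * x)) ^ 2) := GE_nonneg fun _ => by positivity
  have hq' : (436 : ℝ) / 1000 ≤ 1 - qp ψ := by linarith
  rw [div_lt_one (mul_pos (by linarith) (by linarith))]
  calc ψ * (GE fun x => Md (-(vv ψ * x)) ^ 2) * ES2 ψ
      ≤ 258 / 100 * (39736 / 100000) * (31273 / 100000) := by gcongr
    _ < 436 / 1000 * (1348503 / 1000000) := by norm_num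
    _ ≤ _ := by gcongr

theorem dS_box {ψ : ℝ} (h1 : psi1 ≤ ψ) (h2 : ψ ≤ psi2) : -dd 0 0 ψ * ES2 ψ < 1 - qp ψ := by
  obtain ⟨-, -, hE⟩ := box_EX1 h1 h2
  obtain ⟨hq0, hq1⟩ := box_q h1 h2
  have hψ := box_pos h1
  rw [dd_eq hψ, neg_neg]
  have hp2 : ψ ≤ 258 / 100 := h2.trans (by norm_num [psi2])
  have hE0 : 0 ≤ ES2 ψ := GE_nonneg fun _ => by positivity
  have hq' : 0 < 1 - qp ψ := by linarith
  have h3 : ψ * ES2 ψ < 1 := by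
    calc ψ * ES2 ψ ≤ 258 / 100 * (31273 / 100000) := by gcongr
      _ < 1 := by norm_num
  nlinarith

end IP49N
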