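import Pool.Agent.IP49N.SFin

/-! IP49N/NWr: certified integrals, generated by gen.py (helper52). `r = √ψ`: constants of `WData` (helper72). -/

set_option autoImplicit false

namespace IP49N
open Pool.Agent.IP49

def NWr_prog : List Op := [
    .z, .p 0, .mul 0 1, .th 0, .mul 1 1, .c (1152921504606846976), .sub 0 1, .mul 0 4, .mul 0 5,
    .mul 9 9, .c (-576460752303423488), .mul 1 0, .exp 0, .mul 4 0, .mul 6 12, .mul 0 2,
    .mul 9 14, .mul 0 15, .mul 0 5, .c (2882303761517117440), .mul 0 17, .p 1, .mul 0 20,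
    .sub 2 0, .mul 0 0, .c (864691128455135232), .mul 0 1, .mul 2 2, .p 2, .mul 1 0, .add 3 0,
    .mul 0 18]
def NWr_par : List Bl := [
    ⟨Int.ofNat (nat_lit 1850555741999803248), nat_lit 3700000000000⟩,
    ⟨Int.ofNat (nat_lit 495756246980944200), nat_lit 1⟩,
    ⟨Int.ofNat (nat_lit 384307168202282325), nat_lit 1⟩]
def NWr_cl : List (ℤ × ℕ) := [
    (Int.ofNat (nat_lit 142223087000969505), nat_lit 31418827670045),
    (Int.ofNat (nat_lit 195965738986939702), nat_lit 40132556907043),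
    (Int.ofNat (nat_lit 285462426484764313), nat_lit 64612875315924),
    (Int.ofNat (nat_lit 2641220110032328526), nat_lit 253378416292817)]
theorem NWr_run : quad (nat_lit 72057594037927936) NWr_par NWr_prog [18, 16, 13, 0] (nat_lit 64)
    (List.replicate (nat_lit 4) Acc.zero) true
    (fun acc b => Bool.and b (chk (nat_lit 72057594037927936) NWr_cl acc)) = true := by decide +kernel

theorem NWr_all {r : ℝ}
    (hr : InB r ⟨Int.ofNat (nat_lit 1850555741999803248), nat_lit 3700000000000⟩) :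
    ((123331 : ℝ) / 1000000 ≤ GE (fun x => (1 - Real.tanh (r * x) ^ 2) * Real.tanh (r * x) ^ 2) ∧
      GE (fun x => (1 - Real.tanh (r * x) ^ 2) * Real.tanh (r * x) ^ 2) ≤ (123387 : ℝ) / 1000000) ∧
    ((169938 : ℝ) / 1000000 ≤ GE (fun x => (1 - Real.tanh (r * x) ^ 2) * Real.tanh (r * x) * (r * x)) ∧
      GE (fun x => (1 - Real.tanh (r * x) ^ 2) * Real.tanh (r * x) * (r * x)) ≤ (170008 : ℝ) / 1000000) ∧
    ((247543 : ℝ) / 1000000 ≤ GE (fun x => (1 - Real.tanh (r * x) ^ 2) * (r * x) ^ 2) ∧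
      GE (fun x => (1 - Real.tanh (r * x) ^ 2) * (r * x) ^ 2) ≤ (247656 : ℝ) / 1000000) ∧
    ((229067 : ℝ) / 100000 ≤ GE (fun x => 3 / 4 * (5 / 2 * Real.tanh (r * x) - 43 / 100 * (r * x)) ^ 2 + 1 / 3 * (5 / 2 * Real.tanh (r * x) - 43 / 100 * (r * x)) ^ 4) ∧
      GE (fun x => 3 / 4 * (5 / 2 * Real.tanh (r * x) - 43 / 100 * (r * x)) ^ 2 + 1 / 3 * (5 / 2 * Real.tanh (r * x) - 43 / 100 * (r * x)) ^ 4) ≤ (229112 : ℝ) / 100000) := by
  have br : |r| ≤ 2 := by simpa using hr.abs_le (K := 2) (by decide +kernel)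
  have cc0 : ((-576460752303423488 : ℤ) : ℝ) / S = (-1/2 : ℝ) := by rw [S_eq]; norm_num
  have cc1 : ((864691128455135232 : ℤ) : ℝ) / S = (3/4 : ℝ) := by rw [S_eq]; norm_num
  have cc2 : ((1152921504606846976 : ℤ) : ℝ) / S = (1 : ℝ) := by rw [S_eq]; norm_num
  have cc3 : ((2882303761517117440 : ℤ) : ℝ) / S = (5/2 : ℝ) := by rw [S_eq]; norm_num
  have h := GE_run8 (W := 72057594037927936) (n := 64) (by norm_num) (by rw [S_eq]; norm_num)
    (par := NWr_par) (xs := [r, (43/100 : ℝ), (1/3 : ℝ)])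
    (.cons hr (.cons (InB.of_bounds (by rw [S_eq]; norm_num) (by rw [S_eq]; norm_num)) (.cons (InB.of_bounds (by rw [S_eq]; norm_num) (by rw [S_eq]; norm_num)) .nil))) NWr_prog [18, 16, 13, 0] NWr_cl NWr_run
    (Fs := [fun x => (1 - Real.tanh (r * x) ^ 2) * Real.tanh (r * x) ^ 2,
      fun x => (1 - Real.tanh (r * x) ^ 2) * Real.tanh (r * x) * (r * x),
      fun x => (1 - Real.tanh (r * x) ^ 2) * (r * x) ^ 2,
      fun x => 3 / 4 * (5 / 2 * Real.tanh (r * x) - 43 / 100 * (r * x)) ^ 2 + 1 / 3 * (5 / 2 * Real.tanh (r * x) - 43 / 100 * (r * x)) ^ 4]) rfl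
    (by
      refine .cons ⟨by fun_prop (disch := positivity), fun x => ?_⟩ (.cons ⟨by fun_prop (disch := positivity), fun x => ?_⟩ (.cons ⟨by fun_prop (disch := positivity), fun x => ?_⟩ (.cons ⟨by fun_prop (disch := positivity), fun x => ?_⟩ (.nil))))
      all_goals
        simp only [NWr_prog, evp, gt, List.getD_cons_zero, List.getD_cons_succ, cc0, cc1, cc2, cc3]
        ring_nf)
  simp only [NWr_cl, List.forall₂_cons, List.Forall₂.nil, _root_.and_true] at h
  obtain ⟨h0, h1, h2, h3⟩ := h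
  have gg : (∃ C k, Gr (fun x => (1 - Real.tanh (r * x) ^ 2) * Real.tanh (r * x) ^ 2) C k ∧ k ≤ 6 ∧ C * 8e-10 ≤ (19001/10000000000000 : ℝ)) ∧
      (∃ C k, Gr (fun x => (1 - Real.tanh (r * x) ^ 2) * Real.tanh (r * x) * (r * x)) C k ∧ k ≤ 6 ∧ C * 8e-10 ≤ (38001/10000000000000 : ℝ)) ∧
      (∃ C k, Gr (fun x => (1 - Real.tanh (r * x) ^ 2) * (r * x) ^ 2) C k ∧ k ≤ 6 ∧ C * 8e-10 ≤ (77/10000000000 : ℝ)) ∧
      (∃ C k, Gr (fun x => 3 / 4 * (5 / 2 * Real.tanh (r * x) - 43 / 100 * (r * x)) ^ 2 + 1 / 3 * (5 / 2 * Real.tanh (r * x) - 43 / 100 * (r * x)) ^ 4) C k ∧ k ≤ 6 ∧ C * 8e-10 ≤ (490001/10000000000000 : ℝ)) := by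
    refine ⟨?_, ?_, ?_, ?_⟩
    all_goals
      apply gr8
      · repeat' (with_reducible first
          | exact Gr.id
          | exact Gr.par (by assumption)
          | exact Gr.num (by norm_num)
          | exact Gr.tanh _
          | exact Gr.Md _
          | exact Gr.M2 _
          | exact Gr.Ph _
          | assumption
          | apply Gr.lc
          | apply Gr.Mi
          | apply Gr.logPh
          | apply Gr.neg
          | apply Gr.abs
          | apply Gr.add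
          | apply Gr.sub
          | apply Gr.mul
          | apply Gr.pow
          | (refine Gr.div ?_ (by norm_num)))
      · norm_num
      · norm_num
  obtain ⟨gg0, gg1, gg2, gg3⟩ := gg
  have g0 := dec_of (lo := (123331 : ℝ) / 1000000) (hi := (123387 : ℝ) / 1000000) (h0 _ gg0)
    (by rw [S_eq]; norm_num) (by rw [S_eq]; norm_num)
  have g1 := dec_of (lo := (169938 : ℝ) / 1000000) (hi := (170008 : ℝ) / 1000000) (h1 _ gg1)
    (by rw [S_eq]; norm_num) (by rw [S_eq]; norm_num)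
  have g2 := dec_of (lo := (247543 : ℝ) / 1000000) (hi := (247656 : ℝ) / 1000000) (h2 _ gg2)
    (by rw [S_eq]; norm_num) (by rw [S_eq]; norm_num)
  have g3 := dec_of (lo := (229067 : ℝ) / 100000) (hi := (229112 : ℝ) / 100000) (h3 _ gg3)
    (by rw [S_eq]; norm_num) (by rw [S_eq]; norm_num)
  exact ⟨g0, g1, g2, g3⟩

end IP49N
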