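import Pool.Agent.IP49N.SFin

/-! IP49N/NWs: certified integrals, generated by gen.py (helper52). `r = √ψ`: `e3` at `s = -8/25` (helper72). -/

set_option autoImplicit false

namespace IP49N
open Pool.Agent.IP49

def NWs_prog : List Op := [
    .z, .p 0, .mul 0 1, .th 0, .c (2882303761517117440), .mul 0 2, .p 1, .mul 0 5, .sub 2 0,
    .mul 0 0, .mul 0 0, .mul 0 1, .mul 1 1, .p 2, .mul 0 1, .p 3, .mul 0 4, .sub 2 0,
    .c (720575940379279360), .mul 0 8, .add 2 0, .c (540431955284459520), .mul 0 12, .add 2 0,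
    .mul 24 24, .c (-576460752303423488), .mul 1 0, .exp 0, .mul 4 0]
def NWs_par : List Bl := [
    ⟨Int.ofNat (nat_lit 1850555741999803248), nat_lit 3700000000000⟩,
    ⟨Int.ofNat (nat_lit 368934881474191032), nat_lit 1⟩,
    ⟨Int.ofNat (nat_lit 9489065881537835), nat_lit 1⟩,
    ⟨Int.ofNat (nat_lit 106751991167300646), nat_lit 1⟩]
def NWs_cl : List (ℤ × ℕ) := [
    (Int.ofNat (nat_lit 3664661543477845234), nat_lit 782094814548896)]
theorem NWs_run : quad (nat_lit 72057594037927936) NWs_par NWs_prog [0] (nat_lit 80)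
    (List.replicate (nat_lit 1) Acc.zero) true
    (fun acc b => Bool.and b (chk (nat_lit 72057594037927936) NWs_cl acc)) = true := by decide +kernel

theorem NWs_all {r : ℝ}
    (hr : InB r ⟨Int.ofNat (nat_lit 1850555741999803248), nat_lit 3700000000000⟩) :
    ((317790 : ℝ) / 100000 ≤ GE (fun x => 2 / 243 * (5 / 2 * Real.tanh (r * x) - 8 / 25 * (r * x)) ^ 8 - 5 / 54 * (5 / 2 * Real.tanh (r * x) - 8 / 25 * (r * x)) ^ 6 + 5 / 8 * (5 / 2 * Real.tanh (r * x) - 8 / 25 * (r * x)) ^ 4 + 15 / 32 * (5 / 2 * Real.tanh (r * x) - 8 / 25 * (r * x)) ^ 2) ∧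
      GE (fun x => 2 / 243 * (5 / 2 * Real.tanh (r * x) - 8 / 25 * (r * x)) ^ 8 - 5 / 54 * (5 / 2 * Real.tanh (r * x) - 8 / 25 * (r * x)) ^ 6 + 5 / 8 * (5 / 2 * Real.tanh (r * x) - 8 / 25 * (r * x)) ^ 4 + 15 / 32 * (5 / 2 * Real.tanh (r * x) - 8 / 25 * (r * x)) ^ 2) ≤ (317927 : ℝ) / 100000) := by
  have br : |r| ≤ 2 := by simpa using hr.abs_le (K := 2) (by decide +kernel)
  have cc0 : ((-576460752303423488 : ℤ) : ℝ) / S = (-1/2 : ℝ) := by rw [S_eq]; norm_num
  have cc1 : ((540431955284459520 : ℤ) : ℝ) / S = (15/32 : ℝ) := by rw [S_eq]; norm_num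
  have cc2 : ((720575940379279360 : ℤ) : ℝ) / S = (5/8 : ℝ) := by rw [S_eq]; norm_num
  have cc3 : ((2882303761517117440 : ℤ) : ℝ) / S = (5/2 : ℝ) := by rw [S_eq]; norm_num
  have h := GE_run10 (W := 72057594037927936) (n := 80) (by norm_num) (by rw [S_eq]; norm_num)
    (par := NWs_par) (xs := [r, (8/25 : ℝ), (2/243 : ℝ), (5/54 : ℝ)])
    (.cons hr (.cons (InB.of_bounds (by rw [S_eq]; norm_num) (by rw [S_eq]; norm_num)) (.cons (InB.of_bounds (by rw [S_eq]; norm_num) (by rw [S_eq]; norm_num)) (.cons (InB.of_bounds (by rw [S_eq]; norm_num) (by rw [S_eq]; norm_num)) .nil)))) NWs_prog [0] NWs_cl NWs_run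
    (Fs := [fun x => 2 / 243 * (5 / 2 * Real.tanh (r * x) - 8 / 25 * (r * x)) ^ 8 - 5 / 54 * (5 / 2 * Real.tanh (r * x) - 8 / 25 * (r * x)) ^ 6 + 5 / 8 * (5 / 2 * Real.tanh (r * x) - 8 / 25 * (r * x)) ^ 4 + 15 / 32 * (5 / 2 * Real.tanh (r * x) - 8 / 25 * (r * x)) ^ 2]) rfl
    (by
      refine .cons ⟨by fun_prop (disch := positivity), fun x => ?_⟩ (.nil)
      all_goals
        simp only [NWs_prog, evp, gt, List.getD_cons_zero, List.getD_cons_succ, cc0, cc1, cc2, cc3]
        ring_nf)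
  simp only [NWs_cl, List.forall₂_cons, List.Forall₂.nil, _root_.and_true] at h
  have h0 := h
  have gg : (∃ C k, Gr (fun x => 2 / 243 * (5 / 2 * Real.tanh (r * x) - 8 / 25 * (r * x)) ^ 8 - 5 / 54 * (5 / 2 * Real.tanh (r * x) - 8 / 25 * (r * x)) ^ 6 + 5 / 8 * (5 / 2 * Real.tanh (r * x) - 8 / 25 * (r * x)) ^ 4 + 15 / 32 * (5 / 2 * Real.tanh (r * x) - 8 / 25 * (r * x)) ^ 2) C k ∧ k ≤ 12 ∧ C * 6e-11 ≤ (170001/10000000000000 : ℝ)) := by
    all_goals
      apply gr10
      · repeat' (with_reducible first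
          | exact Gr.id
          | exact Gr.par (by assumption)
          | exact Gr.num (by norm_num)
          | exact Gr.tanh _
          | exact Gr.Md _
          | exact Gr.M2 _
          | exact Gr.Ph _
          | assumption
          | apply Gr.lc
          | apply Gr.Mi
          | apply Gr.logPh
          | apply Gr.neg
          | apply Gr.abs
          | apply Gr.add
          | apply Gr.sub
          | apply Gr.mul
          | apply Gr.pow
          | (refine Gr.div ?_ (by norm_num)))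
      · norm_num
      · norm_num
  have gg0 := gg
  have g0 := dec_of (lo := (317790 : ℝ) / 100000) (hi := (317927 : ℝ) / 100000) (h0 _ gg0)
    (by rw [S_eq]; norm_num) (by rw [S_eq]; norm_num)
  exact g0

end IP49N
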