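import Pool.Agent.IP49N.SFin

/-! IP49N/NWv: certified integrals, generated by gen.py (helper52). `v = vv ψ`: constants of `WData` (helper72). -/

set_option autoImplicit false

namespace IP49N
open Pool.Agent.IP49

def NWv_prog : List Op := [
    .z, .p 0, .mul 0 1, .c (0), .sub 0 1, .mil 0, .sub 1 2, .mul 2 0, .mul 0 6, .mul 0 7,
    .mul 10 10, .c (-576460752303423488), .mul 1 0, .exp 0, .mul 4 0, .mul 6 10, .mul 0 2,
    .mul 9 12, .mul 0 13, .mul 0 5, .p 1, .mul 0 16, .add 20 0, .mul 18 0, .mul 0 1, .mul 0 11,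
    .c (864691128455135232), .mul 25 25, .p 2, .mul 1 0, .add 3 0, .mul 0 8, .mul 0 9, .mul 0 19,
    .mul 11 11, .mul 0 12, .mul 0 22]
def NWv_par : List Bl := [
    ⟨Int.ofNat (nat_lit 1311145853048648213), nat_lit 1900000000000⟩,
    ⟨Int.ofNat (nat_lit 2075258708292324557), nat_lit 1⟩,
    ⟨Int.ofNat (nat_lit 384307168202282325), nat_lit 1⟩]
def NWv_cl : List (ℤ × ℕ) := [
    (Int.ofNat (nat_lit 785259010339190924), nat_lit 30927051030614),
    (Int.negSucc (nat_lit 795638168086312664), nat_lit 28700955494286),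
    (Int.ofNat (nat_lit 1253735044970343314), nat_lit 34251128725728),
    (Int.ofNat (nat_lit 3595480171878109888), nat_lit 60580641465801),
    (Int.ofNat (nat_lit 4911474851000451221), nat_lit 109217360276223),
    (Int.ofNat (nat_lit 6170603647962696440), nat_lit 111493670314223)]
theorem NWv_run : quad (nat_lit 72057594037927936) NWv_par NWv_prog [22, 20, 17, 11, 3, 0] (nat_lit 64)
    (List.replicate (nat_lit 6) Acc.zero) true
    (fun acc b => Bool.and b (chk (nat_lit 72057594037927936) NWv_cl acc)) = true := by decide +kernel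

theorem NWv_all {v : ℝ}
    (hv : InB v ⟨Int.ofNat (nat_lit 1311145853048648213), nat_lit 1900000000000⟩) :
    ((681076 : ℝ) / 1000000 ≤ GE (fun x => Md (-(v * x)) * (v * x) ^ 2) ∧
      GE (fun x => Md (-(v * x)) * (v * x) ^ 2) ≤ (681131 : ℝ) / 1000000) ∧
    ((-690132 : ℝ) / 1000000 ≤ GE (fun x => Md (-(v * x)) * (v * x) * Mi (-(v * x))) ∧
      GE (fun x => Md (-(v * x)) * (v * x) * Mi (-(v * x))) ≤ (-690081 : ℝ) / 1000000) ∧
    ((1087411 : ℝ) / 1000000 ≤ GE (fun x => Md (-(v * x)) * Mi (-(v * x)) ^ 2) ∧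
      GE (fun x => Md (-(v * x)) * Mi (-(v * x)) ^ 2) ≤ (1087472 : ℝ) / 1000000) ∧
    ((3118529 : ℝ) / 1000000 ≤ GE (fun x => Mi (-(v * x)) * (v * x + 9 / 5 * Mi (-(v * x))) ^ 2) ∧
      GE (fun x => Mi (-(v * x)) * (v * x + 9 / 5 * Mi (-(v * x))) ^ 2) ≤ (3118635 : ℝ) / 1000000) ∧
    ((4259930 : ℝ) / 1000000 ≤ GE (fun x => (3 / 4 + 1 / 3 * (v * x) ^ 2) * (v * x + 9 / 5 * Mi (-(v * x))) ^ 2) ∧
      GE (fun x => (3 / 4 + 1 / 3 * (v * x) ^ 2) * (v * x + 9 / 5 * Mi (-(v * x))) ^ 2) ≤ (4260121 : ℝ) / 1000000) ∧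
    ((5352048 : ℝ) / 1000000 ≤ GE (fun x => (v * x + 9 / 5 * Mi (-(v * x))) ^ 3) ∧
      GE (fun x => (v * x + 9 / 5 * Mi (-(v * x))) ^ 3) ≤ (5352243 : ℝ) / 1000000) := by
  have bv : |v| ≤ 2 := by simpa using hv.abs_le (K := 2) (by decide +kernel)
  have cc0 : ((-576460752303423488 : ℤ) : ℝ) / S = (-1/2 : ℝ) := by rw [S_eq]; norm_num
  have cc1 : ((864691128455135232 : ℤ) : ℝ) / S = (3/4 : ℝ) := by rw [S_eq]; norm_num
  have h := GE_run8 (W := 72057594037927936) (n := 64) (by norm_num) (by rw [S_eq]; norm_num)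
    (par := NWv_par) (xs := [v, (9/5 : ℝ), (1/3 : ℝ)])
    (.cons hv (.cons (InB.of_bounds (by rw [S_eq]; norm_num) (by rw [S_eq]; norm_num)) (.cons (InB.of_bounds (by rw [S_eq]; norm_num) (by rw [S_eq]; norm_num)) .nil))) NWv_prog [22, 20, 17, 11, 3, 0] NWv_cl NWv_run
    (Fs := [fun x => Md (-(v * x)) * (v * x) ^ 2,
      fun x => Md (-(v * x)) * (v * x) * Mi (-(v * x)),
      fun x => Md (-(v * x)) * Mi (-(v * x)) ^ 2,
      fun x => Mi (-(v * x)) * (v * x + 9 / 5 * Mi (-(v * x))) ^ 2,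
      fun x => (3 / 4 + 1 / 3 * (v * x) ^ 2) * (v * x + 9 / 5 * Mi (-(v * x))) ^ 2,
      fun x => (v * x + 9 / 5 * Mi (-(v * x))) ^ 3]) rfl
    (by
      refine .cons ⟨by fun_prop (disch := positivity), fun x => ?_⟩ (.cons ⟨by fun_prop (disch := positivity), fun x => ?_⟩ (.cons ⟨by fun_prop (disch := positivity), fun x => ?_⟩ (.cons ⟨by fun_prop (disch := positivity), fun x => ?_⟩ (.cons ⟨by fun_prop (disch := positivity), fun x => ?_⟩ (.cons ⟨by fun_prop (disch := positivity), fun x => ?_⟩ (.nil))))))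
      all_goals
        simp only [NWv_prog, evp, gt, List.getD_cons_zero, List.getD_cons_succ, cc0, cc1, Md]
        ring_nf)
  simp only [NWv_cl, List.forall₂_cons, List.Forall₂.nil, _root_.and_true] at h
  obtain ⟨h0, h1, h2, h3, h4, h5⟩ := h
  have gg : (∃ C k, Gr (fun x => Md (-(v * x)) * (v * x) ^ 2) C k ∧ k ≤ 6 ∧ C * 8e-10 ≤ (580001/10000000000000 : ℝ)) ∧
      (∃ C k, Gr (fun x => Md (-(v * x)) * (v * x) * Mi (-(v * x))) C k ∧ k ≤ 6 ∧ C * 8e-10 ≤ (860001/10000000000000 : ℝ)) ∧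
      (∃ C k, Gr (fun x => Md (-(v * x)) * Mi (-(v * x)) ^ 2) C k ∧ k ≤ 6 ∧ C * 8e-10 ≤ (13/100000000 : ℝ)) ∧
      (∃ C k, Gr (fun x => Mi (-(v * x)) * (v * x + 9 / 5 * Mi (-(v * x))) ^ 2) C k ∧ k ≤ 6 ∧ C * 8e-10 ≤ (1600001/10000000000000 : ℝ)) ∧
      (∃ C k, Gr (fun x => (3 / 4 + 1 / 3 * (v * x) ^ 2) * (v * x + 9 / 5 * Mi (-(v * x))) ^ 2) C k ∧ k ≤ 6 ∧ C * 8e-10 ≤ (1100001/10000000000000 : ℝ)) ∧
      (∃ C k, Gr (fun x => (v * x + 9 / 5 * Mi (-(v * x))) ^ 3) C k ∧ k ≤ 6 ∧ C * 8e-10 ≤ (3900001/10000000000000 : ℝ)) := by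
    refine ⟨?_, ?_, ?_, ?_, ?_, ?_⟩
    all_goals
      apply gr8
      · repeat' (with_reducible first
          | exact Gr.id
          | exact Gr.par (by assumption)
          | exact Gr.num (by norm_num)
          | exact Gr.tanh _
          | exact Gr.Md _
          | exact Gr.M2 _
          | exact Gr.Ph _
          | assumption
          | apply Gr.lc
          | apply Gr.Mi
          | apply Gr.logPh
          | apply Gr.neg
          | apply Gr.abs
          | apply Gr.add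
          | apply Gr.sub
          | apply Gr.mul
          | apply Gr.pow
          | (refine Gr.div ?_ (by norm_num)))
      · norm_num
      · norm_num
  obtain ⟨gg0, gg1, gg2, gg3, gg4, gg5⟩ := gg
  have g0 := dec_of (lo := (681076 : ℝ) / 1000000) (hi := (681131 : ℝ) / 1000000) (h0 _ gg0)
    (by rw [S_eq]; norm_num) (by rw [S_eq]; norm_num)
  have g1 := dec_of (lo := (-690132 : ℝ) / 1000000) (hi := (-690081 : ℝ) / 1000000) (h1 _ gg1)
    (by rw [S_eq]; norm_num) (by rw [S_eq]; norm_num)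
  have g2 := dec_of (lo := (1087411 : ℝ) / 1000000) (hi := (1087472 : ℝ) / 1000000) (h2 _ gg2)
    (by rw [S_eq]; norm_num) (by rw [S_eq]; norm_num)
  have g3 := dec_of (lo := (3118529 : ℝ) / 1000000) (hi := (3118635 : ℝ) / 1000000) (h3 _ gg3)
    (by rw [S_eq]; norm_num) (by rw [S_eq]; norm_num)
  have g4 := dec_of (lo := (4259930 : ℝ) / 1000000) (hi := (4260121 : ℝ) / 1000000) (h4 _ gg4)
    (by rw [S_eq]; norm_num) (by rw [S_eq]; norm_num)
  have g5 := dec_of (lo := (5352048 : ℝ) / 1000000) (hi := (5352243 : ℝ) / 1000000) (h5 _ gg5)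
    (by rw [S_eq]; norm_num) (by rw [S_eq]; norm_num)
  exact ⟨g0, g1, g2, g3, g4, g5⟩

end IP49N
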