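import Pool.Agent.IP49N.SFin

/-! IP49N/USg: certified integrals, generated by gen.py (helper52).  -/

set_option autoImplicit false
set_option maxRecDepth 20000

namespace IP49N
open Pool.Agent.IP49

def USg_prog : List Op := [
    .z, .p 0, .mul 0 1, .th 0, .c (11529215046068469760), .mul 0 2, .th 0, .mul 8 8,
    .c (-576460752303423488), .mul 1 0, .exp 0, .mul 4 0]
def USg_par : List Bl := [
    ⟨Int.ofNat (nat_lit 1850555741999803248), nat_lit 3700000000000⟩]
def USg_cl : List (ℤ × ℕ) := [
    (Int.ofNat (nat_lit 7972672528642268650), nat_lit 373512864539894)]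
theorem USg_run : quad (nat_lit 36028797018963968) USg_par USg_prog [0] (nat_lit 128)
    (List.replicate (nat_lit 1) Acc.zero) true
    (fun acc b => Bool.and b (chk (nat_lit 36028797018963968) USg_cl acc)) = true := by decide +kernel

theorem USg_all {r : ℝ}
    (hr : InB r ⟨Int.ofNat (nat_lit 1850555741999803248), nat_lit 3700000000000⟩) :
    ((691486 : ℝ) / 100000 ≤ GE (fun x => lc (10 * Real.tanh (r * x))) ∧
      GE (fun x => lc (10 * Real.tanh (r * x))) ≤ (691552 : ℝ) / 100000) := by
  have br : |r| ≤ 2 := by simpa using hr.abs_le (K := 2) (by decide +kernel)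
  have cc0 : ((-576460752303423488 : ℤ) : ℝ) / S = (-1/2 : ℝ) := by rw [S_eq]; norm_num
  have cc1 : ((11529215046068469760 : ℤ) : ℝ) / S = (10 : ℝ) := by rw [S_eq]; norm_num
  have h := GE_run8 (W := 36028797018963968) (n := 128) (by norm_num) (by rw [S_eq]; norm_num)
    (par := USg_par) (xs := [r])
    (.cons hr .nil) USg_prog [0] USg_cl USg_run
    (Fs := [fun x => lc (10 * Real.tanh (r * x))]) rfl
    (by
      refine .cons ⟨by fun_prop (disch := positivity), fun x => ?_⟩ (.nil)
      all_goals
        simp only [USg_prog, evp, gt, List.getD_cons_zero, List.getD_cons_succ, cc0, cc1]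
        ring_nf)
  simp only [USg_cl, List.forall₂_cons, List.Forall₂.nil, _root_.and_true] at h
  have h0 := h
  have gg : (∃ C k, Gr (fun x => lc (10 * Real.tanh (r * x))) C k ∧ k ≤ 6 ∧ C * 8e-10 ≤ (11/1000000000 : ℝ)) := by
    all_goals
      apply gr8
      · repeat' (with_reducible first
          | exact Gr.id
          | exact Gr.par (by assumption)
          | exact Gr.num (by norm_num)
          | exact Gr.tanh _
          | exact Gr.Md _
          | exact Gr.M2 _
          | exact Gr.Ph _
          | assumption
          | apply Gr.lc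
          | apply Gr.Mi
          | apply Gr.logPh
          | apply Gr.neg
          | apply Gr.abs
          | apply Gr.add
          | apply Gr.sub
          | apply Gr.mul
          | apply Gr.pow
          | (refine Gr.div ?_ (by norm_num)))
      · norm_num
      · norm_num
  have gg0 := gg
  have g0 := dec_of (lo := (691486 : ℝ) / 100000) (hi := (691552 : ℝ) / 100000) (h0 _ gg0)
    (by rw [S_eq]; norm_num) (by rw [S_eq]; norm_num)
  exact g0

end IP49N
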