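import Pool.Agent.IP49N.SFin

/-! IP49N/R1: certified integrals, generated by gen.py (helper52). `ψ = psi1`. -/

set_option autoImplicit false

namespace IP49N
open Pool.Agent.IP49

def R1_prog : List Op := [
    .z, .p 0, .mul 0 1, .c (0), .sub 0 1, .mil 0, .mul 1 1, .mul 7 7, .c (-576460752303423488),
    .mul 1 0, .exp 0, .mul 4 0, .mul 6 1]
def R1_par : List Bl := [
    ⟨Int.ofNat (nat_lit 1311144094236910336), nat_lit 136687237695⟩]
def R1_cl : List (ℤ × ℕ) := [
    (Int.ofNat (nat_lit 1554731384913901314), nat_lit 339547815672),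
    (Int.negSucc (nat_lit 1252968421025208654), nat_lit 143333495995)]
theorem R1_run : quad (nat_lit 18014398509481984) R1_par R1_prog [1, 0] (nat_lit 256)
    (List.replicate (nat_lit 2) Acc.zero) true
    (fun acc b => Bool.and b (chk (nat_lit 18014398509481984) R1_cl acc)) = true := by decide +kernel

theorem R1_all {v : ℝ}
    (hv : InB v ⟨Int.ofNat (nat_lit 1311144094236910336), nat_lit 136687237695⟩) :
    ((1348514213013 : ℝ) / 1000000000000 ≤ GE (fun x => Mi (-(v * x)) ^ 2) ∧
      GE (fun x => Mi (-(v * x)) ^ 2) ≤ (1348514819235 : ℝ) / 1000000000000) ∧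
    ((-1086777000228 : ℝ) / 1000000000000 ≤ GE (fun x => Real.log (Ph (-(v * x)))) ∧
      GE (fun x => Real.log (Ph (-(v * x)))) ≤ (-1086776734383 : ℝ) / 1000000000000) := by
  have bv : |v| ≤ 2 := by simpa using hv.abs_le (K := 2) (by decide +kernel)
  have cc0 : ((-576460752303423488 : ℤ) : ℝ) / S = (-1/2 : ℝ) := by rw [S_eq]; norm_num
  have h := GE_run8 (W := 18014398509481984) (n := 256) (by norm_num) (by rw [S_eq]; norm_num)
    (par := R1_par) (xs := [v])
    (.cons hv .nil) R1_prog [1, 0] R1_cl R1_run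
    (Fs := [fun x => Mi (-(v * x)) ^ 2,
      fun x => Real.log (Ph (-(v * x)))]) rfl
    (by
      refine .cons ⟨by fun_prop (disch := positivity), fun x => ?_⟩ (.cons ⟨by fun_prop (disch := positivity), fun x => ?_⟩ (.nil))
      all_goals
        simp only [R1_prog, evp, gt, List.getD_cons_zero, List.getD_cons_succ, cc0]
        ring_nf)
  simp only [R1_cl, List.forall₂_cons, List.Forall₂.nil, _root_.and_true] at h
  obtain ⟨h0, h1⟩ := h
  have gg : (∃ C k, Gr (fun x => Mi (-(v * x)) ^ 2) C k ∧ k ≤ 6 ∧ C * 8e-10 ≤ (43/5000000000 : ℝ)) ∧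
      (∃ C k, Gr (fun x => Real.log (Ph (-(v * x)))) C k ∧ k ≤ 6 ∧ C * 8e-10 ≤ (43/5000000000 : ℝ)) := by
    refine ⟨?_, ?_⟩
    all_goals
      apply gr8
      · repeat' (with_reducible first
          | exact Gr.id
          | exact Gr.par (by assumption)
          | exact Gr.num (by norm_num)
          | exact Gr.tanh _
          | exact Gr.Md _
          | exact Gr.M2 _
          | exact Gr.Ph _
          | assumption
          | apply Gr.lc
          | apply Gr.Mi
          | apply Gr.logPh
          | apply Gr.neg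
          | apply Gr.abs
          | apply Gr.add
          | apply Gr.sub
          | apply Gr.mul
          | apply Gr.pow
          | (refine Gr.div ?_ (by norm_num)))
      · norm_num
      · norm_num
  obtain ⟨gg0, gg1⟩ := gg
  have g0 := dec_of (lo := (1348514213013 : ℝ) / 1000000000000) (hi := (1348514819235 : ℝ) / 1000000000000) (h0 _ gg0)
    (by rw [S_eq]; norm_num) (by rw [S_eq]; norm_num)
  have g1 := dec_of (lo := (-1086777000228 : ℝ) / 1000000000000) (hi := (-1086776734383 : ℝ) / 1000000000000) (h1 _ gg1)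
    (by rw [S_eq]; norm_num) (by rw [S_eq]; norm_num)
  exact ⟨g0, g1⟩

end IP49N
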