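import Pool.Agent.IP49N.Box
import Pool.Agent.IP49N.R1
import Pool.Agent.IP49N.R2

/-! IP49N/NGG (helper52): the sign of `GG` at the end points of the box. -/

set_option autoImplicit false
open MeasureTheory ProbabilityTheory

namespace IP49N
open Pool.Agent.IP49

theorem GG_eq (ψ : ℝ) : GG 0 ψ = -ψ * (1 - qp ψ) / 2 + (GE fun x => lc (Real.sqrt ψ * x))
    + al 0 0 ψ * GE fun x => Real.log (Ph (-(vv ψ * x))) := by
  unfold GG
  have : ∀ x, (0 - Real.sqrt (qp ψ) * x) / Real.sqrt (1 - qp ψ) = -(vv ψ * x) := by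
    intro x; unfold vv; ring
  simp only [this]

/-- lower bound of `GG` from the three integrals -/
theorem GG_ge {ψ q0 q1 L m0 p c : ℝ} (hψ : 0 < ψ) (hq0 : q0 ≤ qp ψ) (hq1 : qp ψ ≤ q1) (hq : q1 < 1)
    (hL : L ≤ GE fun x => lc (Real.sqrt ψ * x))
    (hm : m0 ≤ GE fun x => Mi (-(vv ψ * x)) ^ 2) (hm0 : 0 < m0)
    (hp : p ≤ GE fun x => Real.log (Ph (-(vv ψ * x)))) (hp0 : p ≤ 0)
    (h : c < L + ψ * (1 - q0) * (p / m0 - 1 / 2)) : c < GG 0 ψ := by
  rw [GG_eq]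
  have h1 : al 0 0 ψ * (GE fun x => Mi (-(vv ψ * x)) ^ 2) = ψ * (1 - qp ψ) := al_n0 hψ
  set M := GE fun x => Mi (-(vv ψ * x)) ^ 2
  set P := GE fun x => Real.log (Ph (-(vv ψ * x)))
  set G := GE fun x => lc (Real.sqrt ψ * x)
  have hM : 0 < M := lt_of_lt_of_le hm0 hm
  have h2 : al 0 0 ψ = ψ * (1 - qp ψ) / M := by rw [← h1]; field_simp
  have h3 : p / m0 ≤ P / M := by
    have h4 : p / m0 ≤ p / M := by
      rw [div_le_div_iff₀ hm0 hM]
      exact mul_le_mul_of_nonpos_left hm hp0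
    exact h4.trans (div_le_div_of_nonneg_right hp hM.le)
  have h5 : al 0 0 ψ * P = ψ * (1 - qp ψ) * (P / M) := by rw [h2]; ring
  rw [h5]
  have h6 : ψ * (1 - q0) * (p / m0 - 1 / 2) ≤ ψ * (1 - qp ψ) * (P / M - 1 / 2) := by
    have h7 : p / m0 - 1 / 2 ≤ 0 := by
      have := div_nonpos_of_nonpos_of_nonneg hp0 hm0.le
      linarith
    calc ψ * (1 - q0) * (p / m0 - 1 / 2) ≤ ψ * (1 - qp ψ) * (p / m0 - 1 / 2) := by
          apply mul_le_mul_of_nonpos_right _ h7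
          apply mul_le_mul_of_nonneg_left _ hψ.le
          linarith
      _ ≤ _ := by
          apply mul_le_mul_of_nonneg_left _ (mul_nonneg hψ.le (by linarith))
          linarith
  linarith

theorem GG_le {ψ q0 q1 L m1 p c : ℝ} (hψ : 0 < ψ) (hq0 : q0 ≤ qp ψ) (hq1 : qp ψ ≤ q1) (hq : q1 < 1)
    (hL : (GE fun x => lc (Real.sqrt ψ * x)) ≤ L)
    (hm : (GE fun x => Mi (-(vv ψ * x)) ^ 2) ≤ m1)
    (hp : (GE fun x => Real.log (Ph (-(vv ψ * x)))) ≤ p) (hp0 : p ≤ 0)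
    (h : L + ψ * (1 - q1) * (p / m1 - 1 / 2) < c) : GG 0 ψ < c := by
  rw [GG_eq]
  have h1 : al 0 0 ψ * (GE fun x => Mi (-(vv ψ * x)) ^ 2) = ψ * (1 - qp ψ) := al_n0 hψ
  have hM : 0 < (GE fun x => Mi (-(vv ψ * x)) ^ 2) := n0_pos (vv ψ)
  set M := GE fun x => Mi (-(vv ψ * x)) ^ 2
  set P := GE fun x => Real.log (Ph (-(vv ψ * x)))
  set G := GE fun x => lc (Real.sqrt ψ * x)
  have h2 : al 0 0 ψ = ψ * (1 - qp ψ) / M := by rw [← h1]; field_simp
  have hm1 : 0 < m1 := lt_of_lt_of_le hM hm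
  have h3 : P / M ≤ p / m1 := by
    have h4 : p / M ≤ p / m1 := by
      rw [div_le_div_iff₀ hM hm1]
      exact mul_le_mul_of_nonpos_left hm hp0
    exact (div_le_div_of_nonneg_right hp hM.le).trans h4
  have h5 : al 0 0 ψ * P = ψ * (1 - qp ψ) * (P / M) := by rw [h2]; ring
  rw [h5]
  have h6 : ψ * (1 - qp ψ) * (P / M - 1 / 2) ≤ ψ * (1 - q1) * (p / m1 - 1 / 2) := by
    have h7 : p / m1 - 1 / 2 ≤ 0 := by
      have := div_nonpos_of_nonpos_of_nonneg hp0 hm1.le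
      linarith
    calc ψ * (1 - qp ψ) * (P / M - 1 / 2) ≤ ψ * (1 - qp ψ) * (p / m1 - 1 / 2) := by
          apply mul_le_mul_of_nonneg_left _ (mul_nonneg hψ.le (by linarith))
          linarith
      _ ≤ _ := by
          apply mul_le_mul_of_nonpos_right _ h7
          apply mul_le_mul_of_nonneg_left _ hψ.le
          linarith
  linarith

theorem GG_psi1 : 0 < GG 0 psi1 := by
  obtain ⟨hq0, hq1⟩ := qp1
  refine GG_ge (by norm_num [psi1]) hq0 hq1 (by norm_num) (Q1_all InB_r1).2.1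
    (R1_all InB_v1).1.1 (by norm_num) (R1_all InB_v1).2.1 (by norm_num) ?_
  norm_num [psi1]

theorem GG_psi2 : GG 0 psi2 < 0 := by
  obtain ⟨hq0, hq1⟩ := qp2
  refine GG_le (by norm_num [psi2]) hq0 hq1 (by norm_num) (Q2_all InB_r2).2.2
    (R2_all InB_v2).1.2 (R2_all InB_v2).2.2 (by norm_num) ?_
  norm_num [psi2]

end IP49N
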