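import Pool.Agent.IP49N.LDbI
import Pool.Agent.IP49N.EX1
import Pool.Agent.IP49.NU0
import Pool.Agent.IP49.LSmA

/-! IP49N/LDb (helper85): the fields `cC`, `sz`, `alo`, `ahi`, `qlo`, `qhi`, `e2` of `LData`. -/

set_option autoImplicit false

namespace IP49N
open Pool.Agent.IP49

section
variable {ψ : ℝ}

theorem LDb_q (h1 : psi1 ≤ ψ) (h2 : ψ ≤ psi2) :
    43605 / 100000 ≤ 1 - qp ψ ∧ 1 - qp ψ ≤ 436052 / 1000000 := by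
  obtain ⟨q1, q2⟩ := box_q h1 h2
  constructor
  · linarith
  · linarith

theorem LDb_pq (h1 : psi1 ≤ ψ) (h2 : ψ ≤ psi2) :
    1123413 / 1000000 ≤ ψ * (1 - qp ψ) ∧ ψ * (1 - qp ψ) ≤ 1123427 / 1000000 := by
  obtain ⟨q1, q2⟩ := box_q h1 h2
  have h0 := box_pos h1
  unfold psi1 at h1
  unfold psi2 at h2
  constructor
  · calc (1123413 : ℝ) / 1000000 ≤ 257634 / 100000 * (436050299 / 1000000000) := by norm_num
      _ ≤ ψ * (1 - qp ψ) := mul_le_mul h1 (by linarith) (by norm_num) h0.le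
  · calc ψ * (1 - qp ψ) ≤ 257636 / 100000 * (436051714 / 1000000000) :=
          mul_le_mul h2 (by linarith) (by linarith) (by norm_num)
      _ ≤ _ := by norm_num

theorem LDb_al (h1 : psi1 ≤ ψ) (h2 : ψ ≤ psi2) :
    83307 / 100000 ≤ al 0 0 ψ ∧ al 0 0 ψ ≤ 83309 / 100000 := by
  obtain ⟨p1, p2⟩ := LDb_pq h1 h2
  obtain ⟨m1, m2⟩ := (LDbI_all (box_v h1 h2) (box_r h1 h2)).2.1
  have h : al 0 0 ψ * (GE fun x => Mi (-(vv ψ * x)) ^ 2) = ψ * (1 - qp ψ) := al_n0 (box_pos h1)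
  set M := GE fun x => Mi (-(vv ψ * x)) ^ 2
  have hM : 0 < M := lt_of_lt_of_le (by norm_num) m1
  have e : al 0 0 ψ = ψ * (1 - qp ψ) / M := by rw [← h]; field_simp
  rw [e]
  constructor
  · rw [le_div_iff₀ hM]
    linarith
  · rw [div_le_iff₀ hM]
    linarith

theorem LDb_sz (h1 : psi1 ≤ ψ) (h2 : ψ ≤ psi2) : 34365 / 100000 ≤ sZ ψ := by
  obtain ⟨p1, p2⟩ := LDb_pq h1 h2
  have m := (LDbI_all (box_v h1 h2) (box_r h1 h2)).1.1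
  unfold sZ
  linarith

theorem LDb_cC (h1 : psi1 ≤ ψ) (h2 : ψ ≤ psi2) : conC 0 ψ ≤ -388 / 1000 := by
  obtain ⟨a1, a2⟩ := LDb_al h1 h2
  have m := (LDbI_all (box_v h1 h2) (box_r h1 h2)).2.2.2
  unfold conC
  simp only [zz_eq]
  nlinarith

theorem LDb_e2 (h1 : psi1 ≤ ψ) (h2 : ψ ≤ psi2) : ES2 ψ ≤ 3128 / 10000 := by
  have h := (EX1_all (box_v h1 h2) (box_r h1 h2)).2.2.2.2.2.2
  unfold ES2
  linarith

theorem ldB (h1 : psi1 ≤ ψ) (h2 : ψ ≤ psi2) :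
    conC 0 ψ ≤ -388 / 1000 ∧ 34365 / 100000 ≤ sZ ψ ∧ 83307 / 100000 ≤ al 0 0 ψ ∧
    al 0 0 ψ ≤ 83309 / 100000 ∧ 43605 / 100000 ≤ 1 - qp ψ ∧ 1 - qp ψ ≤ 436052 / 1000000 ∧
    ES2 ψ ≤ 3128 / 10000 :=
  ⟨LDb_cC h1 h2, LDb_sz h1 h2, (LDb_al h1 h2).1, (LDb_al h1 h2).2, (LDb_q h1 h2).1,
    (LDb_q h1 h2).2, LDb_e2 h1 h2⟩

end

end IP49N
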