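import Pool.Agent.IP49N.SFin

/-!
IP49N/LBase (helper99): common lemmas for the data modules of the (L*) side.
`spF c y = lc (2 y) + log (1 + 2 exp (-(lc (2 y) + c)))`, and
`log (2 e^e cosh (2 y) + 2 e^(-e)) = e + spF (2 e) y`.
-/

set_option autoImplicit false

namespace IP49N
open Pool.Agent.IP49

theorem exp_lc (y : ℝ) : Real.exp (lc y) = 2 * Real.cosh y := by
  unfold lc
  have := Real.cosh_pos y
  rw [Real.exp_log (by positivity)]

theorem two_le_exp_lc (y : ℝ) : 2 ≤ Real.exp (lc y) := by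
  rw [exp_lc]
  have := Real.one_le_cosh y
  linarith

theorem log_spin (e y : ℝ) :
    Real.log (2 * Real.exp e * Real.cosh (2 * y) + 2 * Real.exp (-e))
      = e + (lc (2 * y) + Real.log (1 + 2 * Real.exp (-(lc (2 * y) + 2 * e)))) := by
  have h1 : 2 * Real.exp e * Real.cosh (2 * y) + 2 * Real.exp (-e)
      = Real.exp e * Real.exp (lc (2 * y)) * (1 + 2 * Real.exp (-(lc (2 * y) + 2 * e))) := by
    have e1 : Real.exp (-e) = Real.exp e * Real.exp (lc (2 * y)) *
        Real.exp (-(lc (2 * y) + 2 * e)) := by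
      rw [← Real.exp_add, ← Real.exp_add]
      congr 1
      ring
    rw [e1, exp_lc]
    ring
  rw [h1, Real.log_mul (by positivity) (by positivity), Real.log_mul (by positivity)
    (by positivity), Real.log_exp, Real.log_exp]
  ring

theorem exp_le_three_pow {x : ℝ} (n : ℕ) (h : x ≤ n) : Real.exp x ≤ 3 ^ n := by
  calc Real.exp x ≤ Real.exp n := Real.exp_le_exp.2 h
    _ = Real.exp 1 ^ n := by rw [← Real.exp_nat_mul, mul_one]
    _ ≤ 3 ^ n := by
      apply pow_le_pow_left₀ (Real.exp_pos _).le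
      have := Real.exp_one_lt_d9
      linarith

/-- the spin integrand -/
noncomputable def spF (c y : ℝ) : ℝ :=
  lc (2 * y) + Real.log (1 + 2 * Real.exp (-(lc (2 * y) + c)))

theorem log_spin' (e y : ℝ) :
    Real.log (2 * Real.exp e * Real.cosh (2 * y) + 2 * Real.exp (-e)) = e + spF (2 * e) y :=
  log_spin e y

@[fun_prop] theorem Cont.spF {c : ℝ} {f : ℝ → ℝ} (hf : Continuous f) :
    Continuous fun x => IP49N.spF c (f x) := by
  unfold IP49N.spF
  have h1 : Continuous fun x => lc (2 * f x) := by fun_prop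
  refine h1.add (Continuous.log (by fun_prop) fun x => ?_)
  positivity

theorem Gr.spF {f : ℝ → ℝ} {C : ℝ} {k : ℕ} (c : ℝ) (n : ℕ) (hc : -c ≤ n) (hf : Gr f C k) :
    Gr (fun x => IP49N.spF c (f x)) (2 * C + 1 + 3 ^ n) k := by
  have h2 : Gr (fun x => 2 * f x) (2 * C) k := by
    have := (Gr.num (a := 2) (by norm_num)).mul hf
    simpa using this
  have h3 : Gr (fun x => Real.log (1 + 2 * Real.exp (-(Pool.Agent.IP49.lc (2 * f x) + c))))
      (3 ^ n) 0 := Gr.bdd fun x => by
    have e0 : Real.exp (-(Pool.Agent.IP49.lc (2 * f x) + c))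
        = Real.exp (-c) / Real.exp (Pool.Agent.IP49.lc (2 * f x)) := by
      rw [← Real.exp_sub]; congr 1; ring
    have e1 := two_le_exp_lc (2 * f x)
    have e2 := exp_le_three_pow n hc
    have e3 := Real.exp_pos (-c)
    have e4 : 2 * Real.exp (-(Pool.Agent.IP49.lc (2 * f x) + c)) ≤ 3 ^ n := by
      rw [e0]
      have : Real.exp (-c) / Real.exp (Pool.Agent.IP49.lc (2 * f x)) ≤ Real.exp (-c) / 2 :=
        div_le_div_of_nonneg_left e3.le (by norm_num) e1
      linarith
    have e5 : 0 < Real.exp (-(Pool.Agent.IP49.lc (2 * f x) + c)) := Real.exp_pos _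
    rw [abs_of_nonneg (Real.log_nonneg (by linarith))]
    have := Real.log_le_sub_one_of_pos
      (show 0 < 1 + 2 * Real.exp (-(Pool.Agent.IP49.lc (2 * f x) + c)) by linarith)
    linarith
  have := h2.lc.add h3
  simpa [IP49N.spF] using this

theorem Gr.lin {l s r a b : ℝ} (hr : |r| ≤ 2) (hl : |l| ≤ a) (hs : |s| ≤ b) :
    Gr (fun x => l * Real.tanh (r * x) + s * (r * x)) (a + b * 2) 1 := by
  have h := ((Gr.par hl).mul (Gr.tanh fun x => r * x)).add
    ((Gr.par hs).mul ((Gr.par hr).mul Gr.id))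
  simpa using h

end IP49N
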