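import Pool.Agent.IP49N.SFin
import Pool.Agent.IP49N.LBase

/-! IP49N/LHerB: certified integrals, generated by gen.py (helper52). Hermite constants 45 of the (L*) side (helper99). -/

set_option autoImplicit false
set_option maxRecDepth 20000

namespace IP49N
open Pool.Agent.IP49

def LHerB_prog : List Op := [
    .z, .p 0, .mul 0 1, .c (0), .sub 0 1, .mil 0, .sub 1 2, .mul 2 0, .c (3458764513820540928),
    .sub 0 1, .mul 3 3, .sub 1 0, .mul 4 0, .mul 8 8, .c (1152921504606846976), .sub 0 7,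
    .mul 2 0, .add 4 0, .mul 0 0, .mul 19 19, .c (-576460752303423488), .mul 1 0, .exp 0,
    .mul 4 0, .mul 10 19, .mul 20 17, .add 1 0, .mul 19 20, .add 1 0, .mul 18 22, .add 1 0,
    .mul 22 26, .sub 1 0, .c (6917529027641081856), .mul 0 27, .sub 2 0, .mul 28 0, .add 0 5,
    .sub 0 13, .mul 0 0, .mul 0 17]
def LHerB_par : List Bl := [
    ⟨Int.ofNat (nat_lit 1311145853048648213), nat_lit 1900000000000⟩]
def LHerB_cl : List (ℤ × ℕ) := [
    (Int.ofNat (nat_lit 2452536645225574771), nat_lit 184036429406675),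
    (Int.ofNat (nat_lit 1510333771690649983), nat_lit 181687417428090)]
theorem LHerB_run : quad (nat_lit 72057594037927936) LHerB_par LHerB_prog [17, 0] (nat_lit 64)
    (List.replicate (nat_lit 2) Acc.zero) true
    (fun acc b => Bool.and b (chk (nat_lit 72057594037927936) LHerB_cl acc)) = true := by decide +kernel

theorem LHerB_all {v : ℝ}
    (hv : InB v ⟨Int.ofNat (nat_lit 1311145853048648213), nat_lit 1900000000000⟩) :
    ((212707 : ℝ) / 100000 ≤ GE (fun x => (Md (-(v * x)) * (3 - Md (-(v * x)) - (Mi (-(v * x)) - -(v * x)) ^ 2) + Mi (-(v * x)) ^ 2 * (1 - Md (-(v * x)))) ^ 2) ∧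
      GE (fun x => (Md (-(v * x)) * (3 - Md (-(v * x)) - (Mi (-(v * x)) - -(v * x)) ^ 2) + Mi (-(v * x)) ^ 2 * (1 - Md (-(v * x)))) ^ 2) ≤ (212740 : ℝ) / 100000) ∧
    ((130979 : ℝ) / 100000 ≤ GE (fun x => (Md (-(v * x)) * (Mi (-(v * x)) ^ 3 + Mi (-(v * x)) * Md (-(v * x)) + Md (-(v * x)) * (Mi (-(v * x)) - -(v * x)) + (Mi (-(v * x)) - -(v * x)) ^ 3 - 3 * Mi (-(v * x)) - 6 * (Mi (-(v * x)) - -(v * x))) + 3 * Mi (-(v * x)) - Mi (-(v * x)) ^ 3) ^ 2) ∧
      GE (fun x => (Md (-(v * x)) * (Mi (-(v * x)) ^ 3 + Mi (-(v * x)) * Md (-(v * x)) + Md (-(v * x)) * (Mi (-(v * x)) - -(v * x)) + (Mi (-(v * x)) - -(v * x)) ^ 3 - 3 * Mi (-(v * x)) - 6 * (Mi (-(v * x)) - -(v * x))) + 3 * Mi (-(v * x)) - Mi (-(v * x)) ^ 3) ^ 2) ≤ (131022 : ℝ) / 100000) := by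
  have bv : |v| ≤ 2 := by simpa using hv.abs_le (K := 2) (by decide +kernel)
  have cc0 : ((-576460752303423488 : ℤ) : ℝ) / S = (-1/2 : ℝ) := by rw [S_eq]; norm_num
  have cc1 : ((1152921504606846976 : ℤ) : ℝ) / S = (1 : ℝ) := by rw [S_eq]; norm_num
  have cc2 : ((3458764513820540928 : ℤ) : ℝ) / S = (3 : ℝ) := by rw [S_eq]; norm_num
  have cc3 : ((6917529027641081856 : ℤ) : ℝ) / S = (6 : ℝ) := by rw [S_eq]; norm_num
  have h := GE_run8 (W := 72057594037927936) (n := 64) (by norm_num) (by rw [S_eq]; norm_num)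
    (par := LHerB_par) (xs := [v])
    (.cons hv .nil) LHerB_prog [17, 0] LHerB_cl LHerB_run
    (Fs := [fun x => (Md (-(v * x)) * (3 - Md (-(v * x)) - (Mi (-(v * x)) - -(v * x)) ^ 2) + Mi (-(v * x)) ^ 2 * (1 - Md (-(v * x)))) ^ 2,
      fun x => (Md (-(v * x)) * (Mi (-(v * x)) ^ 3 + Mi (-(v * x)) * Md (-(v * x)) + Md (-(v * x)) * (Mi (-(v * x)) - -(v * x)) + (Mi (-(v * x)) - -(v * x)) ^ 3 - 3 * Mi (-(v * x)) - 6 * (Mi (-(v * x)) - -(v * x))) + 3 * Mi (-(v * x)) - Mi (-(v * x)) ^ 3) ^ 2]) rfl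
    (by
      refine .cons ⟨by fun_prop (disch := positivity), fun x => ?_⟩ (.cons ⟨by fun_prop (disch := positivity), fun x => ?_⟩ (.nil))
      all_goals
        simp only [LHerB_prog, evp, gt, List.getD_cons_zero, List.getD_cons_succ, cc0, cc1, cc2, cc3, Md]
        ring_nf)
  simp only [LHerB_cl, List.forall₂_cons, List.Forall₂.nil, _root_.and_true] at h
  obtain ⟨h0, h1⟩ := h
  have gg : (∃ C k, Gr (fun x => (Md (-(v * x)) * (3 - Md (-(v * x)) - (Mi (-(v * x)) - -(v * x)) ^ 2) + Mi (-(v * x)) ^ 2 * (1 - Md (-(v * x)))) ^ 2) C k ∧ k ≤ 6 ∧ C * 8e-10 ≤ (21/10000000 : ℝ)) ∧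
      (∃ C k, Gr (fun x => (Md (-(v * x)) * (Mi (-(v * x)) ^ 3 + Mi (-(v * x)) * Md (-(v * x)) + Md (-(v * x)) * (Mi (-(v * x)) - -(v * x)) + (Mi (-(v * x)) - -(v * x)) ^ 3 - 3 * Mi (-(v * x)) - 6 * (Mi (-(v * x)) - -(v * x))) + 3 * Mi (-(v * x)) - Mi (-(v * x)) ^ 3) ^ 2) C k ∧ k ≤ 6 ∧ C * 8e-10 ≤ (530000001/10000000000000 : ℝ)) := by
    refine ⟨?_, ?_⟩
    all_goals
      apply gr8
      · repeat' (with_reducible first
          | exact Gr.id
          | exact Gr.par (by assumption)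
          | exact Gr.num (by norm_num)
          | exact Gr.tanh _
          | exact Gr.Md _
          | exact Gr.M2 _
          | exact Gr.Ph _
          | assumption
          | apply Gr.lc
          | apply Gr.Mi
          | apply Gr.logPh
          | apply Gr.neg
          | apply Gr.abs
          | apply Gr.add
          | apply Gr.sub
          | apply Gr.mul
          | apply Gr.pow
          | (refine Gr.div ?_ (by norm_num)))
      · norm_num
      · norm_num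
  obtain ⟨gg0, gg1⟩ := gg
  have g0 := dec_of (lo := (212707 : ℝ) / 100000) (hi := (212740 : ℝ) / 100000) (h0 _ gg0)
    (by rw [S_eq]; norm_num) (by rw [S_eq]; norm_num)
  have g1 := dec_of (lo := (130979 : ℝ) / 100000) (hi := (131022 : ℝ) / 100000) (h1 _ gg1)
    (by rw [S_eq]; norm_num) (by rw [S_eq]; norm_num)
  exact ⟨g0, g1⟩

end IP49N
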