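import Pool.Agent.IP49N.SFin
import Pool.Agent.IP49N.LBase

/-! IP49N/LHerC: certified integrals, generated by gen.py (helper52). Hermite constants 6 of the (L*) side (helper99). -/

set_option autoImplicit false
set_option maxRecDepth 20000

namespace IP49N
open Pool.Agent.IP49

def LHerC_prog : List Op := [
    .z, .p 0, .mul 0 1, .c (0), .sub 0 1, .mil 0, .sub 1 2, .mul 2 0, .mul 1 1,
    .c (11529215046068469760), .mul 0 1, .mul 6 6, .c (3458764513820540928), .mul 0 1, .add 3 0,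
    .c (6917529027641081856), .mul 0 8, .add 2 0, .c (17293822569102704640), .sub 1 0, .mul 8 8,
    .sub 1 0, .mul 10 14, .sub 1 0, .mul 16 16, .sub 1 0, .mul 18 17, .sub 1 0, .mul 19 19,
    .sub 1 0, .mul 22 0, .add 0 10, .sub 0 18, .mul 0 0, .mul 34 34, .c (-576460752303423488),
    .mul 1 0, .exp 0, .mul 4 0]
def LHerC_par : List Bl := [
    ⟨Int.ofNat (nat_lit 1311145853048648213), nat_lit 1900000000000⟩]
def LHerC_cl : List (ℤ × ℕ) := [
    (Int.ofNat (nat_lit 40972853125362879915), nat_lit 7730166617770418)]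
theorem LHerC_run : quad (nat_lit 72057594037927936) LHerC_par LHerC_prog [0] (nat_lit 80)
    (List.replicate (nat_lit 1) Acc.zero) true
    (fun acc b => Bool.and b (chk (nat_lit 72057594037927936) LHerC_cl acc)) = true := by decide +kernel

theorem LHerC_all {v : ℝ}
    (hv : InB v ⟨Int.ofNat (nat_lit 1311145853048648213), nat_lit 1900000000000⟩) :
    ((355314 : ℝ) / 10000 ≤ GE (fun x => (Md (-(v * x)) * (10 * (Mi (-(v * x)) - -(v * x)) ^ 2 + 3 * Mi (-(v * x)) ^ 2 + 6 * Md (-(v * x)) - 15 - Mi (-(v * x)) ^ 4 - Mi (-(v * x)) ^ 2 * Md (-(v * x)) - Md (-(v * x)) ^ 2 - Md (-(v * x)) * (Mi (-(v * x)) - -(v * x)) ^ 2 - (Mi (-(v * x)) - -(v * x)) ^ 4) + Mi (-(v * x)) ^ 4 - 3 * Mi (-(v * x)) ^ 2) ^ 2) ∧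
      GE (fun x => (Md (-(v * x)) * (10 * (Mi (-(v * x)) - -(v * x)) ^ 2 + 3 * Mi (-(v * x)) ^ 2 + 6 * Md (-(v * x)) - 15 - Mi (-(v * x)) ^ 4 - Mi (-(v * x)) ^ 2 * Md (-(v * x)) - Md (-(v * x)) ^ 2 - Md (-(v * x)) * (Mi (-(v * x)) - -(v * x)) ^ 2 - (Mi (-(v * x)) - -(v * x)) ^ 4) + Mi (-(v * x)) ^ 4 - 3 * Mi (-(v * x)) ^ 2) ^ 2) ≤ (355451 : ℝ) / 10000) := by
  have bv : |v| ≤ 2 := by simpa using hv.abs_le (K := 2) (by decide +kernel)
  have cc0 : ((-576460752303423488 : ℤ) : ℝ) / S = (-1/2 : ℝ) := by rw [S_eq]; norm_num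
  have cc1 : ((3458764513820540928 : ℤ) : ℝ) / S = (3 : ℝ) := by rw [S_eq]; norm_num
  have cc2 : ((6917529027641081856 : ℤ) : ℝ) / S = (6 : ℝ) := by rw [S_eq]; norm_num
  have cc3 : ((11529215046068469760 : ℤ) : ℝ) / S = (10 : ℝ) := by rw [S_eq]; norm_num
  have cc4 : ((17293822569102704640 : ℤ) : ℝ) / S = (15 : ℝ) := by rw [S_eq]; norm_num
  have h := GE_run10 (W := 72057594037927936) (n := 80) (by norm_num) (by rw [S_eq]; norm_num)
    (par := LHerC_par) (xs := [v])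
    (.cons hv .nil) LHerC_prog [0] LHerC_cl LHerC_run
    (Fs := [fun x => (Md (-(v * x)) * (10 * (Mi (-(v * x)) - -(v * x)) ^ 2 + 3 * Mi (-(v * x)) ^ 2 + 6 * Md (-(v * x)) - 15 - Mi (-(v * x)) ^ 4 - Mi (-(v * x)) ^ 2 * Md (-(v * x)) - Md (-(v * x)) ^ 2 - Md (-(v * x)) * (Mi (-(v * x)) - -(v * x)) ^ 2 - (Mi (-(v * x)) - -(v * x)) ^ 4) + Mi (-(v * x)) ^ 4 - 3 * Mi (-(v * x)) ^ 2) ^ 2]) rfl
    (by
      refine .cons ⟨by fun_prop (disch := positivity), fun x => ?_⟩ (.nil)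
      all_goals
        simp only [LHerC_prog, evp, gt, List.getD_cons_zero, List.getD_cons_succ, cc0, cc1, cc2, cc3, cc4, Md]
        ring_nf)
  simp only [LHerC_cl, List.forall₂_cons, List.Forall₂.nil, _root_.and_true] at h
  have h0 := h
  have gg : (∃ C k, Gr (fun x => (Md (-(v * x)) * (10 * (Mi (-(v * x)) - -(v * x)) ^ 2 + 3 * Mi (-(v * x)) ^ 2 + 6 * Md (-(v * x)) - 15 - Mi (-(v * x)) ^ 4 - Mi (-(v * x)) ^ 2 * Md (-(v * x)) - Md (-(v * x)) ^ 2 - Md (-(v * x)) * (Mi (-(v * x)) - -(v * x)) ^ 2 - (Mi (-(v * x)) - -(v * x)) ^ 4) + Mi (-(v * x)) ^ 4 - 3 * Mi (-(v * x)) ^ 2) ^ 2) C k ∧ k ≤ 12 ∧ C * 6e-11 ≤ (950000001/10000000000000 : ℝ)) := by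
    all_goals
      apply gr10
      · repeat' (with_reducible first
          | exact Gr.id
          | exact Gr.par (by assumption)
          | exact Gr.num (by norm_num)
          | exact Gr.tanh _
          | exact Gr.Md _
          | exact Gr.M2 _
          | exact Gr.Ph _
          | assumption
          | apply Gr.lc
          | apply Gr.Mi
          | apply Gr.logPh
          | apply Gr.neg
          | apply Gr.abs
          | apply Gr.add
          | apply Gr.sub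
          | apply Gr.mul
          | apply Gr.pow
          | (refine Gr.div ?_ (by norm_num)))
      · norm_num
      · norm_num
  have gg0 := gg
  have g0 := dec_of (lo := (355314 : ℝ) / 10000) (hi := (355451 : ℝ) / 10000) (h0 _ gg0)
    (by rw [S_eq]; norm_num) (by rw [S_eq]; norm_num)
  exact g0

end IP49N
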