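import Pool.Agent.IP49N.LBase
import Pool.Agent.IP49.TMom

/-!
IP49N/LBase2 (helper99): `T1` for the engine.
-/

set_option autoImplicit false

namespace IP49N
open Pool.Agent.IP49

theorem T1_log (z : ℝ) :
    T1 z = Real.exp (Mi z ^ 2 + Real.log (Ph (z + Mi z)) - 2 * Real.log (Ph z)) := by
  unfold T1
  have h1 := Ph_pos z
  have h2 := Ph_pos (z + Mi z)
  rw [Real.exp_sub, Real.exp_add, Real.exp_log h2, two_mul, Real.exp_add, Real.exp_log h1]
  ring

@[fun_prop] theorem Cont.T1 {f : ℝ → ℝ} (hf : Continuous f) :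
    Continuous fun x => Pool.Agent.IP49.T1 (f x) := continuous_T1.comp hf

theorem Gr.T1 {f : ℝ → ℝ} {C : ℝ} {k : ℕ} (hf : Gr f C k) :
    Gr (fun x => Pool.Agent.IP49.T1 (f x)) (8 * (C + 1)) k := by
  intro x
  have h1 := T1_pos (f x)
  have h2 := T1_le (f x)
  have h3 := hf x
  have h4 := one_le_w x k
  rw [abs_of_pos h1]
  nlinarith

end IP49N
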