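import Pool.Agent.IP49N.SFin
import Pool.Agent.IP49N.LBase2

/-! IP49N/LHerT: certified integrals, generated by gen.py (helper52). Hermite constants T of the (L*) side (helper99). -/

set_option autoImplicit false
set_option maxRecDepth 20000

namespace IP49N
open Pool.Agent.IP49

def LHerT_prog : List Op := [
    .z, .p 0, .mul 0 1, .c (0), .sub 0 1, .mil 0, .sub 1 2, .mul 2 0, .add 4 3, .mil 0, .mul 6 6,
    .add 0 1, .c (2305843009213693952), .mul 0 8, .sub 2 0, .exp 0, .mul 17 17,
    .c (-576460752303423488), .mul 1 0, .exp 0, .mul 4 0]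
def LHerT_par : List Bl := [
    ⟨Int.ofNat (nat_lit 1311145853048648213), nat_lit 1900000000000⟩]
def LHerT_cl : List (ℤ × ℕ) := [
    (Int.ofNat (nat_lit 2062375979632733579), nat_lit 89384559136112)]
theorem LHerT_run : quad (nat_lit 72057594037927936) LHerT_par LHerT_prog [0] (nat_lit 64)
    (List.replicate (nat_lit 1) Acc.zero) true
    (fun acc b => Bool.and b (chk (nat_lit 72057594037927936) LHerT_cl acc)) = true := by decide +kernel

theorem LHerT_all {v : ℝ}
    (hv : InB v ⟨Int.ofNat (nat_lit 1311145853048648213), nat_lit 1900000000000⟩) :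
    ((1788748 : ℝ) / 1000000 ≤ GE (fun x => T1 (-(v * x))) ∧
      GE (fun x => T1 (-(v * x))) ≤ (1788904 : ℝ) / 1000000) := by
  have bv : |v| ≤ 2 := by simpa using hv.abs_le (K := 2) (by decide +kernel)
  have cc0 : ((-576460752303423488 : ℤ) : ℝ) / S = (-1/2 : ℝ) := by rw [S_eq]; norm_num
  have cc1 : ((2305843009213693952 : ℤ) : ℝ) / S = (2 : ℝ) := by rw [S_eq]; norm_num
  have h := GE_run8 (W := 72057594037927936) (n := 64) (by norm_num) (by rw [S_eq]; norm_num)
    (par := LHerT_par) (xs := [v])
    (.cons hv .nil) LHerT_prog [0] LHerT_cl LHerT_run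
    (Fs := [fun x => T1 (-(v * x))]) rfl
    (by
      refine .cons ⟨by fun_prop (disch := positivity), fun x => ?_⟩ (.nil)
      all_goals
        simp only [LHerT_prog, evp, gt, List.getD_cons_zero, List.getD_cons_succ, cc0, cc1, T1_log]
        ring_nf)
  simp only [LHerT_cl, List.forall₂_cons, List.Forall₂.nil, _root_.and_true] at h
  have h0 := h
  have gg : (∃ C k, Gr (fun x => T1 (-(v * x))) C k ∧ k ≤ 6 ∧ C * 8e-10 ≤ (1/10000000 : ℝ)) := by
    all_goals
      apply gr8
      · repeat' (with_reducible first
          | exact Gr.id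
          | exact Gr.par (by assumption)
          | exact Gr.num (by norm_num)
          | exact Gr.tanh _
          | exact Gr.Md _
          | exact Gr.M2 _
          | exact Gr.Ph _
          | assumption
          | apply Gr.T1
          | apply Gr.lc
          | apply Gr.Mi
          | apply Gr.logPh
          | apply Gr.neg
          | apply Gr.abs
          | apply Gr.add
          | apply Gr.sub
          | apply Gr.mul
          | apply Gr.pow
          | (refine Gr.div ?_ (by norm_num)))
      · norm_num
      · norm_num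
  have gg0 := gg
  have g0 := dec_of (lo := (1788748 : ℝ) / 1000000) (hi := (1788904 : ℝ) / 1000000) (h0 _ gg0)
    (by rw [S_eq]; norm_num) (by rw [S_eq]; norm_num)
  exact g0

end IP49N
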