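import Pool.Agent.IP49N.LHerA
import Pool.Agent.IP49N.LHerB
import Pool.Agent.IP49N.LHerC
import Pool.Agent.IP49N.LHerT
import Pool.Agent.IP49N.Box
import Pool.Agent.IP49.NLA

/-! IP49N/LHerX (helper99): the fields `c2 .. c6`, `cT` of `LData`. -/

set_option autoImplicit false
open MeasureTheory ProbabilityTheory

namespace IP49N
open Pool.Agent.IP49

theorem Ecj_of {ψ : ℝ} {j : ℕ} {f : ℝ → ℝ} {U c B : ℝ} (hf : ∀ z, ta j z ^ 2 = f z)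
    (hc : (j.factorial : ℝ) = c) (hc0 : 0 < c)
    (h : (GE fun x => f (-(vv ψ * x))) ≤ U) (hB : U ≤ B * c) : Ecj ψ j ≤ B := by
  have h1 : Ecj ψ j = c⁻¹ * GE fun x => f (-(vv ψ * x)) := by
    unfold Ecj
    rw [← GE_mul]
    congr 1
    funext x
    rw [zz_eq, hf, hc, div_eq_inv_mul]
  rw [h1, inv_mul_le_iff₀ hc0, mul_comm c B]
  exact h.trans hB

theorem LHer_fields {ψ : ℝ} (h1 : psi1 ≤ ψ) (h2 : ψ ≤ psi2) :
    Ecj ψ 2 ≤ 1987 / 10000 ∧ Ecj ψ 3 ≤ 73 / 10000 ∧ Ecj ψ 4 ≤ 887 / 10000 ∧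
    Ecj ψ 5 ≤ 1096 / 100000 ∧ Ecj ψ 6 ≤ 495 / 10000 ∧ ET ψ ≤ 1790 / 1000 := by
  obtain ⟨⟨-, a2⟩, ⟨-, a3⟩⟩ := LHerA_all (box_v h1 h2)
  obtain ⟨⟨-, a4⟩, ⟨-, a5⟩⟩ := LHerB_all (box_v h1 h2)
  obtain ⟨-, a6⟩ := LHerC_all (box_v h1 h2)
  obtain ⟨-, aT⟩ := LHerT_all (box_v h1 h2)
  refine ⟨?_, ?_, ?_, ?_, ?_, ?_⟩
  · refine Ecj_of (f := fun z => Md z ^ 2) (fun z => ?_) (c := 2) (by norm_num [Nat.factorial])
      (by norm_num) a2 (by norm_num)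
    rw [ta_two]; ring
  · refine Ecj_of (f := fun z => M2 z ^ 2) (fun z => ?_) (c := 6) (by norm_num [Nat.factorial])
      (by norm_num) a3 (by norm_num)
    rw [ta_three]
  · refine Ecj_of (f := fun z => (Md z * (3 - Md z - (Mi z - z) ^ 2)
      + Mi z ^ 2 * (1 - Md z)) ^ 2) (fun z => ?_) (c := 24) (by norm_num [Nat.factorial])
      (by norm_num) a4 (by norm_num)
    rw [ta_four]; unfold Md; ring
  · refine Ecj_of (f := fun z => (Md z * (Mi z ^ 3 + Mi z * Md z + Md z * (Mi z - z)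
      + (Mi z - z) ^ 3 - 3 * Mi z - 6 * (Mi z - z)) + 3 * Mi z - Mi z ^ 3) ^ 2) (fun z => ?_)
      (c := 120) (by norm_num [Nat.factorial]) (by norm_num) a5 (by norm_num)
    rw [ta_five]; unfold Md; ring
  · refine Ecj_of (f := fun z => (Md z * (10 * (Mi z - z) ^ 2 + 3 * Mi z ^ 2 + 6 * Md z - 15
      - Mi z ^ 4 - Mi z ^ 2 * Md z - Md z ^ 2 - Md z * (Mi z - z) ^ 2 - (Mi z - z) ^ 4)
      + Mi z ^ 4 - 3 * Mi z ^ 2) ^ 2) (fun z => ?_)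
      (c := 720) (by norm_num [Nat.factorial]) (by norm_num) a6 (by norm_num)
    rw [ta_six]; unfold Md; ring
  · have e : ET ψ = GE fun x => T1 (-(vv ψ * x)) := by
      unfold ET
      congr 1
      funext x
      rw [zz_eq]
    rw [e]
    exact aT.trans (by norm_num)

end IP49N
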