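import Pool.Agent.IP49N.SFin
import Pool.Agent.IP49N.Box
import Pool.Agent.IP49.NLC

/-! IP49N/LEnd: certified integrals, generated by gen.py (helper52).  -/

set_option autoImplicit false

namespace IP49N
open Pool.Agent.IP49

theorem grE1 (r : ℝ) : Gr (fun x => Real.exp (-lc (r * x))) 1 0 :=
  Gr.expn fun x => by
    have h := (lc_bounds (r * x)).1
    have h2 := abs_nonneg (r * x)
    linarith

theorem grE2 {v : ℝ} (hv : |v| ≤ 2) :
    Gr (fun x => Real.exp (-((-(v * x)) ^ 2 * (25/49)) - Real.log (Ph (-(v * x))))) 6 1 := by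
  intro x
  set z := -(v * x) with hz
  have hP := Ph_pos z
  have h1 : Mi z * Ph z = phi z := MC.Mi_mul_Ph z
  have h2 : phi z * Real.sqrt (2 * Real.pi) = Real.exp (-z ^ 2 / 2) := by
    unfold phi
    exact div_mul_cancel₀ _ (Real.sqrt_pos.2 (by positivity)).ne'
  have h3 : Real.sqrt (2 * Real.pi) ≤ 63 / 25 := by
    rw [Real.sqrt_le_left (by norm_num)]
    have := Real.pi_lt_d2
    norm_num at this ⊢
    linarith
  have h4 : Mi z ≤ 1 + |z| := Mi_le_abs z
  have h5 : |z| ≤ 2 * |x| := by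
    rw [hz, abs_neg, abs_mul]
    exact mul_le_mul_of_nonneg_right hv (abs_nonneg x)
  have h6 : Real.exp (-(z ^ 2 * (25/49)) - Real.log (Ph z)) * Ph z
      = Real.exp (-(z ^ 2 * (25/49))) := by
    rw [Real.exp_sub, Real.exp_log hP]
    field_simp
  have h7 : Real.exp (-(z ^ 2 * (25/49))) ≤ Real.exp (-z ^ 2 / 2) :=
    Real.exp_le_exp.2 (by nlinarith [sq_nonneg z])
  have hM := Mi_pos z
  have hx := abs_nonneg x
  rw [abs_of_pos (Real.exp_pos _), pow_one]
  have h8 : Real.exp (-(z ^ 2 * (25/49)) - Real.log (Ph z)) * Ph z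
      ≤ (63 / 25 * Mi z) * Ph z := by
    rw [h6]
    refine h7.trans ?_
    rw [← h2, ← h1]
    have : Mi z * Ph z * Real.sqrt (2 * Real.pi) ≤ Mi z * Ph z * (63 / 25) :=
      mul_le_mul_of_nonneg_left h3 (mul_nonneg hM.le hP.le)
    linarith
  have h9 := le_of_mul_le_mul_right h8 hP
  linarith

def LEnd_prog : List Op := [
    .z, .p 0, .p 1, .mul 0 2, .th 0, .mul 4 5, .c (0), .sub 0 1, .mil 0, .sub 3 5, .exp 0,
    .mul 12 12, .c (-576460752303423488), .mul 1 0, .exp 0, .mul 4 0, .mul 9 9, .p 2, .mul 1 0,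
    .sub 13 0, .sub 0 11, .exp 0, .mul 0 7]
def LEnd_par : List Bl := [
    ⟨Int.ofNat (nat_lit 1311145853048648213), nat_lit 1900000000000⟩,
    ⟨Int.ofNat (nat_lit 1850555741999803248), nat_lit 3700000000000⟩,
    ⟨Int.ofNat (nat_lit 588225257452472947), nat_lit 1⟩]
def LEnd_cl : List (ℤ × ℕ) := [
    (Int.ofNat (nat_lit 336581000333422918), nat_lit 3310424083459),
    (Int.ofNat (nat_lit 2649615502997449143), nat_lit 23748120380154)]
theorem LEnd_run : quad (nat_lit 72057594037927936) LEnd_par LEnd_prog [7, 0] (nat_lit 64)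
    (List.replicate (nat_lit 2) Acc.zero) true
    (fun acc b => Bool.and b (chk (nat_lit 72057594037927936) LEnd_cl acc)) = true := by decide +kernel

theorem LEnd_all {v r : ℝ}
    (hv : InB v ⟨Int.ofNat (nat_lit 1311145853048648213), nat_lit 1900000000000⟩)
    (hr : InB r ⟨Int.ofNat (nat_lit 1850555741999803248), nat_lit 3700000000000⟩) :
    ((2919346 : ℝ) / 10000000 ≤ GE (fun x => Real.exp (-lc (r * x))) ∧
      GE (fun x => Real.exp (-lc (r * x))) ≤ (2919404 : ℝ) / 10000000) ∧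
    ((2298154 : ℝ) / 1000000 ≤ GE (fun x => Real.exp (-((-(v * x)) ^ 2 * (25/49)) - Real.log (Ph (-(v * x))))) ∧
      GE (fun x => Real.exp (-((-(v * x)) ^ 2 * (25/49)) - Real.log (Ph (-(v * x))))) ≤ (2298196 : ℝ) / 1000000) := by
  have bv : |v| ≤ 2 := by simpa using hv.abs_le (K := 2) (by decide +kernel)
  have br : |r| ≤ 2 := by simpa using hr.abs_le (K := 2) (by decide +kernel)
  have cc0 : ((-576460752303423488 : ℤ) : ℝ) / S = (-1/2 : ℝ) := by rw [S_eq]; norm_num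
  have h := GE_run8 (W := 72057594037927936) (n := 64) (by norm_num) (by rw [S_eq]; norm_num)
    (par := LEnd_par) (xs := [v, r, (25/49 : ℝ)])
    (.cons hv (.cons hr (.cons (InB.of_bounds (by rw [S_eq]; norm_num) (by rw [S_eq]; norm_num)) .nil))) LEnd_prog [7, 0] LEnd_cl LEnd_run
    (Fs := [fun x => Real.exp (-lc (r * x)),
      fun x => Real.exp (-((-(v * x)) ^ 2 * (25/49)) - Real.log (Ph (-(v * x))))]) rfl
    (by
      refine .cons ⟨by fun_prop (disch := positivity), fun x => ?_⟩ (.cons ⟨by fun_prop (disch := positivity), fun x => ?_⟩ (.nil))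
      all_goals
        simp only [LEnd_prog, evp, gt, List.getD_cons_zero, List.getD_cons_succ, cc0]
        ring_nf)
  simp only [LEnd_cl, List.forall₂_cons, List.Forall₂.nil, _root_.and_true] at h
  obtain ⟨h0, h1⟩ := h
  have gg : (∃ C k, Gr (fun x => Real.exp (-lc (r * x))) C k ∧ k ≤ 6 ∧ C * 8e-10 ≤ (20001/10000000000000 : ℝ)) ∧
      (∃ C k, Gr (fun x => Real.exp (-((-(v * x)) ^ 2 * (25/49)) - Real.log (Ph (-(v * x))))) C k ∧ k ≤ 6 ∧ C * 8e-10 ≤ (1/10000000 : ℝ)) := by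
    refine ⟨?_, ?_⟩
    all_goals
      apply gr8
      · first | exact grE1 _ | exact grE2 bv
      · norm_num
      · norm_num
  obtain ⟨gg0, gg1⟩ := gg
  have g0 := dec_of (lo := (2919346 : ℝ) / 10000000) (hi := (2919404 : ℝ) / 10000000) (h0 _ gg0)
    (by rw [S_eq]; norm_num) (by rw [S_eq]; norm_num)
  have g1 := dec_of (lo := (2298154 : ℝ) / 1000000) (hi := (2298196 : ℝ) / 1000000) (h1 _ gg1)
    (by rw [S_eq]; norm_num) (by rw [S_eq]; norm_num)
  exact ⟨g0, g1⟩

section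
variable {ψ : ℝ}

theorem Esech_eq (ψ : ℝ) : Esech ψ = 2 * GE (fun x => Real.exp (-lc (Real.sqrt ψ * x))) := by
  unfold Esech
  rw [← GE_mul]
  congr 1
  funext x
  unfold lc
  have h := Real.cosh_pos (Real.sqrt ψ * x)
  rw [Real.exp_neg, Real.exp_log (by positivity)]
  field_simp

theorem Gend_eq (ψ : ℝ) : Gend ψ =
    GE (fun x => Real.exp (-((-(vv ψ * x)) ^ 2 * (25/49)) - Real.log (Ph (-(vv ψ * x))))) := by
  unfold Gend
  congr 1
  funext x
  rw [zz_eq, Real.exp_sub, Real.exp_log (Ph_pos _)]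
  congr 2
  ring

theorem LEnd_es (h1 : psi1 ≤ ψ) (h2 : ψ ≤ psi2) : Esech ψ ≤ 5845 / 10000 := by
  have h := (LEnd_all (box_v h1 h2) (box_r h1 h2)).1.2
  rw [Esech_eq]
  linarith

theorem LEnd_ge (h1 : psi1 ≤ ψ) (h2 : ψ ≤ psi2) : 2297 / 1000 ≤ Gend ψ := by
  have h := (LEnd_all (box_v h1 h2) (box_r h1 h2)).2.1
  rw [Gend_eq]
  linarith

end

end IP49N
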