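import Pool.Agent.IP49N.LPaG

/-! IP49N/LPaJ (helper85): the integrals `C1w`, `C2w` of the cell `[4/5, 9/10]`, tilt `1/5`,
tangent point `17/20`; generated from gen.py (helper52). -/

set_option autoImplicit false

namespace IP49N
open Pool.Agent.IP49

/-- `Dw / Ph` -/
noncomputable def DJ (X : ℝ) : ℝ :=
  1 - RX (10/19) X * (209/10000) - RX (20/39) X * (503/10000) - RX (5/9) X * (151/10000)

theorem CelJ : Cel WJ (4/5) (9/10) (151/500) (17/20) (5/9) DJ where
  ha := by norm_num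
  h0 := by norm_num
  h0b := by norm_num
  hb := by norm_num
  hk := by norm_num
  hk2 := by norm_num
  hW := WJ_ok.2
  hca := by norm_num
  hD X := by
    have r0 := RX_mul (10/19) X
    have r1 := RX_mul (20/39) X
    have r2 := RX_mul (5/9) X
    have e0 : -X ^ 2 / (1 + 9/10) = -(X ^ 2 * (10/19)) := by ring
    have e1 : -X ^ 2 / (1 + 19/20) = -(X ^ 2 * (20/39)) := by ring
    have e2 : -X ^ 2 / (1 + 4/5) = -(X ^ 2 * (5/9)) := by ring
    unfold Dw WJ DJ
    rw [e0, e1, e2]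
    linear_combination - (209/10000) * r0 - (503/10000) * r1 - (151/10000) * r2
  hc := by
    have h := cont_RX
    unfold DJ
    fun_prop

def LPaJ_prog : List Op := [
    .z, .p 0, .mul 0 1, .c (0), .sub 0 1, .mil 0, .p 1, .mul 2 0, .add 4 0, .mil 0, .mul 2 2,
    .c (1152921504606846976), .p 2, .mul 2 0, .sub 12 0, .sub 0 5, .exp 0, .p 3, .mul 1 0,
    .sub 7 0, .p 4, .mul 10 0, .sub 20 0, .sub 0 13, .exp 0, .p 5, .mul 1 0, .sub 7 0, .p 6,
    .mul 18 0, .sub 28 0, .sub 0 21, .exp 0, .p 7, .mul 1 0, .sub 7 0, .log 0, .add 27 0, .inv 2,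
    .mul 6 0, .mul 41 41, .c (-576460752303423488), .mul 1 0, .exp 0, .mul 6 0, .mul 5 1]
def LPaJ_par : List Bl := [
    ⟨Int.ofNat (nat_lit 1311145853048648213), nat_lit 1900000000000⟩,
    ⟨Int.ofNat (nat_lit 230584300921369395), nat_lit 1⟩,
    ⟨Int.ofNat (nat_lit 606800791898340514), nat_lit 1⟩,
    ⟨Int.ofNat (nat_lit 24096059446283102), nat_lit 1⟩,
    ⟨Int.ofNat (nat_lit 591241797234280501), nat_lit 1⟩,
    ⟨Int.ofNat (nat_lit 57991951681724403), nat_lit 1⟩,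
    ⟨Int.ofNat (nat_lit 640511947003803876), nat_lit 1⟩,
    ⟨Int.ofNat (nat_lit 17409114719563389), nat_lit 1⟩]
def LPaJ_cl : List (ℤ × ℕ) := [
    (Int.negSucc (nat_lit 1900811078570526196), nat_lit 16379557425827),
    (Int.ofNat (nat_lit 4196681312050021307), nat_lit 105582867832933)]
theorem LPaJ_run : quad (nat_lit 72057594037927936) LPaJ_par LPaJ_prog [1, 0] (nat_lit 64)
    (List.replicate (nat_lit 2) Acc.zero) true
    (fun acc b => Bool.and b (chk (nat_lit 72057594037927936) LPaJ_cl acc)) = true := by decide +kernel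

theorem LPaJ_all {v : ℝ}
    (hv : InB v ⟨Int.ofNat (nat_lit 1311145853048648213), nat_lit 1900000000000⟩) :
    ((-164871 : ℝ) / 100000 ≤ GE (fun x => Real.log (Ph (XX v x)) + Real.log (DJ (XX v x))) ∧
      GE (fun x => Real.log (Ph (XX v x)) + Real.log (DJ (XX v x))) ≤ (-164867 : ℝ) / 100000) ∧
    ((363994 : ℝ) / 100000 ≤ GE (fun x => RX (5/9) (XX v x) * (DJ (XX v x))⁻¹) ∧
      GE (fun x => RX (5/9) (XX v x) * (DJ (XX v x))⁻¹) ≤ (364014 : ℝ) / 100000) := by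
  have bv : |v| ≤ 2 := by simpa using hv.abs_le (K := 2) (by decide +kernel)
  have cc0 : ((-576460752303423488 : ℤ) : ℝ) / S = (-1/2 : ℝ) := by rw [S_eq]; norm_num
  have cc1 : ((1152921504606846976 : ℤ) : ℝ) / S = (1 : ℝ) := by rw [S_eq]; norm_num
  have h := GE_run8 (W := 72057594037927936) (n := 64) (by norm_num) (by rw [S_eq]; norm_num)
    (par := LPaJ_par) (xs := [v, (1/5 : ℝ), (10/19 : ℝ), (209/10000 : ℝ), (20/39 : ℝ), (503/10000 : ℝ), (5/9 : ℝ), (151/10000 : ℝ)])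
    (.cons hv
      (.cons (InB.of_bounds (by rw [S_eq]; norm_num) (by rw [S_eq]; norm_num))
      (.cons (InB.of_bounds (by rw [S_eq]; norm_num) (by rw [S_eq]; norm_num))
      (.cons (InB.of_bounds (by rw [S_eq]; norm_num) (by rw [S_eq]; norm_num))
      (.cons (InB.of_bounds (by rw [S_eq]; norm_num) (by rw [S_eq]; norm_num))
      (.cons (InB.of_bounds (by rw [S_eq]; norm_num) (by rw [S_eq]; norm_num))
      (.cons (InB.of_bounds (by rw [S_eq]; norm_num) (by rw [S_eq]; norm_num))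
      (.cons (InB.of_bounds (by rw [S_eq]; norm_num) (by rw [S_eq]; norm_num))
      .nil))))))))
    LPaJ_prog [1, 0] LPaJ_cl LPaJ_run
    (Fs := [fun x => Real.log (Ph (XX v x)) + Real.log (DJ (XX v x)),
      fun x => RX (5/9) (XX v x) * (DJ (XX v x))⁻¹]) rfl
    (by
      refine .cons ⟨CelJ.cont1 v, fun x => ?_⟩ (.cons ⟨CelJ.cont2 v, fun x => ?_⟩ .nil)
      all_goals
        simp only [LPaJ_prog, evp, gt, List.getD_cons_zero, List.getD_cons_succ, cc0, cc1, DJ, RX, XX]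
        ring_nf)
  simp only [LPaJ_cl, List.forall₂_cons, List.Forall₂.nil, _root_.and_true] at h
  obtain ⟨h0, h1⟩ := h
  have g0 := dec_of (lo := (-164871 : ℝ) / 100000) (hi := (-164867 : ℝ) / 100000) (h0 (1/10000000)
    (gr8 (CelJ.gr1 bv) (by norm_num) (by norm_num)))
    (by rw [S_eq]; norm_num) (by rw [S_eq]; norm_num)
  have g1 := dec_of (lo := (363994 : ℝ) / 100000) (hi := (364014 : ℝ) / 100000) (h1 (1/10000000)
    (gr8 (CelJ.gr2 (C := 70) (by norm_num) v) (by norm_num) (by norm_num)))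
    (by rw [S_eq]; norm_num) (by rw [S_eq]; norm_num)
  exact ⟨g0, g1⟩

theorem LPaJ_C {ψ : ℝ}
    (hv : InB (Real.sqrt (qp ψ) / Real.sqrt (1 - qp ψ)) ⟨Int.ofNat (nat_lit 1311145853048648213), nat_lit 1900000000000⟩) :
    ((-164871 : ℝ) / 100000 ≤ C1w ψ (1 / 5) WJ (4/5) (9/10) (151/500) (17/20) ∧
      C1w ψ (1 / 5) WJ (4/5) (9/10) (151/500) (17/20) ≤ (-164867 : ℝ) / 100000) ∧
    ((363994 : ℝ) / 100000 ≤ C2w ψ (1 / 5) WJ (4/5) (9/10) (151/500) (17/20) ∧
      C2w ψ (1 / 5) WJ (4/5) (9/10) (151/500) (17/20) ≤ (364014 : ℝ) / 100000) := by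
  rw [CelJ.C1, CelJ.C2]
  exact LPaJ_all hv

end IP49N
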