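import Pool.Agent.IP49N.LPaG

/-! IP49N/LPaK (helper85): the integrals `C1w`, `C2w` of the cell `[9/10, 97/100]`, tilt `1/5`,
tangent point `187/200`; generated from gen.py (helper52). -/

set_option autoImplicit false

namespace IP49N
open Pool.Agent.IP49

/-- `Dw / Ph` -/
noncomputable def DK (X : ℝ) : ℝ :=
  1 - RX (100/197) X * (389/10000) - RX (10/19) X * (49/3125)

theorem CelK : Cel WK (9/10) (97/100) (56/125) (187/200) (10/19) DK where
  ha := by norm_num
  h0 := by norm_num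
  h0b := by norm_num
  hb := by norm_num
  hk := by norm_num
  hk2 := by norm_num
  hW := WK_ok.2
  hca := by norm_num
  hD X := by
    have r0 := RX_mul (100/197) X
    have r1 := RX_mul (10/19) X
    have e0 : -X ^ 2 / (1 + 97/100) = -(X ^ 2 * (100/197)) := by ring
    have e1 : -X ^ 2 / (1 + 9/10) = -(X ^ 2 * (10/19)) := by ring
    unfold Dw WK DK
    rw [e0, e1]
    linear_combination - (389/10000) * r0 - (49/3125) * r1
  hc := by
    have h := cont_RX
    unfold DK
    fun_prop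

def LPaK_prog : List Op := [
    .z, .p 0, .mul 0 1, .c (0), .sub 0 1, .mil 0, .p 1, .mul 2 0, .add 4 0, .mil 0, .mul 2 2,
    .c (1152921504606846976), .p 2, .mul 2 0, .sub 12 0, .sub 0 5, .exp 0, .p 3, .mul 1 0,
    .sub 7 0, .p 4, .mul 10 0, .sub 20 0, .sub 0 13, .exp 0, .p 5, .mul 1 0, .sub 7 0, .log 0,
    .add 19 0, .inv 2, .mul 6 0, .mul 33 33, .c (-576460752303423488), .mul 1 0, .exp 0,
    .mul 6 0, .mul 5 1]
def LPaK_par : List Bl := [
    ⟨Int.ofNat (nat_lit 1311145853048648213), nat_lit 1900000000000⟩,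
    ⟨Int.ofNat (nat_lit 230584300921369395), nat_lit 1⟩,
    ⟨Int.ofNat (nat_lit 585239342440023846), nat_lit 1⟩,
    ⟨Int.ofNat (nat_lit 44848646529206347), nat_lit 1⟩,
    ⟨Int.ofNat (nat_lit 606800791898340514), nat_lit 1⟩,
    ⟨Int.ofNat (nat_lit 18077809192235361), nat_lit 1⟩]
def LPaK_cl : List (ℤ × ℕ) := [
    (Int.negSucc (nat_lit 1775225958348580027), nat_lit 13668764346467),
    (Int.ofNat (nat_lit 3768763807058525563), nat_lit 73610140818820)]
theorem LPaK_run : quad (nat_lit 72057594037927936) LPaK_par LPaK_prog [1, 0] (nat_lit 64)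
    (List.replicate (nat_lit 2) Acc.zero) true
    (fun acc b => Bool.and b (chk (nat_lit 72057594037927936) LPaK_cl acc)) = true := by decide +kernel

theorem LPaK_all {v : ℝ}
    (hv : InB v ⟨Int.ofNat (nat_lit 1311145853048648213), nat_lit 1900000000000⟩) :
    ((-153978 : ℝ) / 100000 ≤ GE (fun x => Real.log (Ph (XX v x)) + Real.log (DK (XX v x))) ∧
      GE (fun x => Real.log (Ph (XX v x)) + Real.log (DK (XX v x))) ≤ (-153975 : ℝ) / 100000) ∧
    ((326881 : ℝ) / 100000 ≤ GE (fun x => RX (10/19) (XX v x) * (DK (XX v x))⁻¹) ∧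
      GE (fun x => RX (10/19) (XX v x) * (DK (XX v x))⁻¹) ≤ (326895 : ℝ) / 100000) := by
  have bv : |v| ≤ 2 := by simpa using hv.abs_le (K := 2) (by decide +kernel)
  have cc0 : ((-576460752303423488 : ℤ) : ℝ) / S = (-1/2 : ℝ) := by rw [S_eq]; norm_num
  have cc1 : ((1152921504606846976 : ℤ) : ℝ) / S = (1 : ℝ) := by rw [S_eq]; norm_num
  have h := GE_run8 (W := 72057594037927936) (n := 64) (by norm_num) (by rw [S_eq]; norm_num)
    (par := LPaK_par) (xs := [v, (1/5 : ℝ), (100/197 : ℝ), (389/10000 : ℝ), (10/19 : ℝ), (49/3125 : ℝ)])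
    (.cons hv
      (.cons (InB.of_bounds (by rw [S_eq]; norm_num) (by rw [S_eq]; norm_num))
      (.cons (InB.of_bounds (by rw [S_eq]; norm_num) (by rw [S_eq]; norm_num))
      (.cons (InB.of_bounds (by rw [S_eq]; norm_num) (by rw [S_eq]; norm_num))
      (.cons (InB.of_bounds (by rw [S_eq]; norm_num) (by rw [S_eq]; norm_num))
      (.cons (InB.of_bounds (by rw [S_eq]; norm_num) (by rw [S_eq]; norm_num))
      .nil))))))
    LPaK_prog [1, 0] LPaK_cl LPaK_run
    (Fs := [fun x => Real.log (Ph (XX v x)) + Real.log (DK (XX v x)),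
      fun x => RX (10/19) (XX v x) * (DK (XX v x))⁻¹]) rfl
    (by
      refine .cons ⟨CelK.cont1 v, fun x => ?_⟩ (.cons ⟨CelK.cont2 v, fun x => ?_⟩ .nil)
      all_goals
        simp only [LPaK_prog, evp, gt, List.getD_cons_zero, List.getD_cons_succ, cc0, cc1, DK, RX, XX]
        ring_nf)
  simp only [LPaK_cl, List.forall₂_cons, List.Forall₂.nil, _root_.and_true] at h
  obtain ⟨h0, h1⟩ := h
  have g0 := dec_of (lo := (-153978 : ℝ) / 100000) (hi := (-153975 : ℝ) / 100000) (h0 (1/10000000)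
    (gr8 (CelK.gr1 bv) (by norm_num) (by norm_num)))
    (by rw [S_eq]; norm_num) (by rw [S_eq]; norm_num)
  have g1 := dec_of (lo := (326881 : ℝ) / 100000) (hi := (326895 : ℝ) / 100000) (h1 (1/10000000)
    (gr8 (CelK.gr2 (C := 70) (by norm_num) v) (by norm_num) (by norm_num)))
    (by rw [S_eq]; norm_num) (by rw [S_eq]; norm_num)
  exact ⟨g0, g1⟩

theorem LPaK_C {ψ : ℝ}
    (hv : InB (Real.sqrt (qp ψ) / Real.sqrt (1 - qp ψ)) ⟨Int.ofNat (nat_lit 1311145853048648213), nat_lit 1900000000000⟩) :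
    ((-153978 : ℝ) / 100000 ≤ C1w ψ (1 / 5) WK (9/10) (97/100) (56/125) (187/200) ∧
      C1w ψ (1 / 5) WK (9/10) (97/100) (56/125) (187/200) ≤ (-153975 : ℝ) / 100000) ∧
    ((326881 : ℝ) / 100000 ≤ C2w ψ (1 / 5) WK (9/10) (97/100) (56/125) (187/200) ∧
      C2w ψ (1 / 5) WK (9/10) (97/100) (56/125) (187/200) ≤ (326895 : ℝ) / 100000) := by
  rw [CelK.C1, CelK.C2]
  exact LPaK_all hv

end IP49N
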