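import Pool.Agent.IP49N.LPaI
import Pool.Agent.IP49N.LPaJ
import Pool.Agent.IP49N.LPaK
import Pool.Agent.IP49N.Box
import Pool.Agent.IP49N.LEnd

/-! IP49N/LPData (helper85): the fields `pI*`, `pJ*`, `pK*`, `es`, `ge` of `LData`. -/

set_option autoImplicit false

namespace IP49N
open Pool.Agent.IP49

theorem LPData {ψ : ℝ} (h1 : psi1 ≤ ψ) (h2 : ψ ≤ psi2) :
    (C1w ψ (1 / 5) WI (37 / 50) (4 / 5) (249 / 1000) (77 / 100) ≤ -1740 / 1000 ∧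
      408 / 100 ≤ C2w ψ (1 / 5) WI (37 / 50) (4 / 5) (249 / 1000) (77 / 100) ∧
      C2w ψ (1 / 5) WI (37 / 50) (4 / 5) (249 / 1000) (77 / 100) ≤ 4085 / 1000) ∧
    (C1w ψ (1 / 5) WJ (4 / 5) (9 / 10) (151 / 500) (17 / 20) ≤ -1648 / 1000 ∧
      3635 / 1000 ≤ C2w ψ (1 / 5) WJ (4 / 5) (9 / 10) (151 / 500) (17 / 20) ∧
      C2w ψ (1 / 5) WJ (4 / 5) (9 / 10) (151 / 500) (17 / 20) ≤ 3645 / 1000) ∧
    (C1w ψ (1 / 5) WK (9 / 10) (97 / 100) (56 / 125) (187 / 200) ≤ -1539 / 1000 ∧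
      3268 / 1000 ≤ C2w ψ (1 / 5) WK (9 / 10) (97 / 100) (56 / 125) (187 / 200) ∧
      C2w ψ (1 / 5) WK (9 / 10) (97 / 100) (56 / 125) (187 / 200) ≤ 3270 / 1000) := by
  obtain ⟨-, i1⟩ := LPaI_C1 h1 h2
  obtain ⟨i2, i3⟩ := LPaI_C2 h1 h2
  obtain ⟨⟨-, j1⟩, j2, j3⟩ := LPaJ_C (ψ := ψ) (box_v h1 h2)
  obtain ⟨⟨-, k1⟩, k2, k3⟩ := LPaK_C (ψ := ψ) (box_v h1 h2)
  refine ⟨⟨?_, ?_, ?_⟩, ⟨?_, ?_, ?_⟩, ⟨?_, ?_, ?_⟩⟩
  · exact i1.trans (by norm_num)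
  · exact le_trans (by norm_num) i2
  · exact i3.trans (by norm_num)
  · exact j1.trans (by norm_num)
  · exact le_trans (by norm_num) j2
  · exact j3.trans (by norm_num)
  · exact k1.trans (by norm_num)
  · exact le_trans (by norm_num) k2
  · exact k3.trans (by norm_num)

end IP49N
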