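import Pool.Agent.IP49N.LSpX
import Pool.Agent.IP49N.LHerX
import Pool.Agent.IP49N.LPData
import Pool.Agent.IP49N.LDb
import Pool.Agent.IP49.NLF

/-! IP49N/NLD (helper99): the numerical data of the (L*) side on the whole box. -/

set_option autoImplicit false

namespace IP49N
open Pool.Agent.IP49

theorem ldata {ψ : ℝ} (h1 : psi1 ≤ ψ) (h2 : ψ ≤ psi2) : LData ψ := by
  obtain ⟨c2, c3, c4, c5, c6, cT⟩ := LHer_fields h1 h2
  obtain ⟨cC, sz, alo, ahi, qlo, qhi, e2⟩ := ldB h1 h2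
  obtain ⟨⟨i1, i2, i3⟩, ⟨j1, j2, j3⟩, ⟨k1, k2, k3⟩⟩ := LPData h1 h2
  obtain ⟨sE, sG, sH, sI, sJ, sK⟩ := LSp_D h1 h2
  exact
    { c2 := c2, c3 := c3, c4 := c4, c5 := c5, c6 := c6, cT := cT, qlo := qlo, qhi := qhi,
      alo := alo, ahi := ahi, sz := sz, cC := cC, e2 := e2, es := LEnd_es h1 h2,
      ge := LEnd_ge h1 h2, sA := LSp_sA h1 h2, sB := LSp_sB h1 h2, sC := LSp_sC h1 h2,
      sE := sE, sG := sG, sH := sH, sI := sI, sJ := sJ, sK := sK,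
      pI1 := i1, pI2 := i2, pI3 := i3, pJ1 := j1, pJ2 := j2, pJ3 := j3,
      pK1 := k1, pK2 := k2, pK3 := k3 }

end IP49N
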