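import Pool.Agent.IP49N.SExp

/-! IP49N/SConst: the numerical constants. `π` bounds: `Real.pi_gt_d20`, `Real.pi_lt_d20`.
`spL/S ≤ √(π/2)`: square both sides (`Real.le_sqrt`), `norm_num`. `cL`, `cU`: `1/√(2π)`, compare
squares. `hL`, `hU`: `log √(2π)`; use `Real.le_log_iff_exp_le`/`Real.log_le_iff_le_exp` and the
verified bounds `expPU hL`, `expPL hU` (evaluate `expPU hL ≤ N` by `decide +kernel`): the gap
between `hL`, `hU` and the true value `1059463996343540307.28..` is about `4·10^10`, i.e. relative
`3·10^-8`, much more than the error of `expPL/expPU`. -/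

set_option autoImplicit false

namespace IP49N
open Pool.Agent.IP49

private theorem sconst_Sv : (S : ℝ) = 1152921504606846976 := by
  rw [S_eq]; norm_num

private theorem sconst_spL : (spL : ℝ) = 1444972820938818966 := by
  have : spL = 1444972820938818966 := by decide +kernel
  rw [this]; norm_num

private theorem sconst_spU : (spU : ℝ) = 1444972820938818967 := by
  have : spU = 1444972820938818967 := by decide +kernel
  rw [this]; norm_num

private theorem sconst_cL : (cL : ℝ) = 459949134171706403 := by
  have : cL = 459949134171706403 := by decide +kernel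
  rw [this]; norm_num

private theorem sconst_cU : (cU : ℝ) = 459949134171706404 := by
  have : cU = 459949134171706404 := by decide +kernel
  rw [this]; norm_num

theorem spL_le : (spL : ℝ) ≤ S * Real.sqrt (Real.pi / 2) := by
  have hp := Real.pi_gt_d20
  rw [sconst_spL, sconst_Sv]
  have h : (1444972820938818966 : ℝ) / 1152921504606846976 ≤ Real.sqrt (Real.pi / 2) := by
    apply Real.le_sqrt_of_sq_le
    have : ((1444972820938818966 : ℝ) / 1152921504606846976) ^ 2
      ≤ 3.14159265358979323846 / 2 := by norm_num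
    linarith
  rw [div_le_iff₀ (by norm_num)] at h
  linarith

theorem le_spU : S * Real.sqrt (Real.pi / 2) ≤ spU := by
  have hp := Real.pi_lt_d20
  rw [sconst_spU, sconst_Sv]
  have h : Real.sqrt (Real.pi / 2) ≤ (1444972820938818967 : ℝ) / 1152921504606846976 := by
    rw [Real.sqrt_le_left (by norm_num)]
    have : (3.14159265358979323847 : ℝ) / 2
      ≤ ((1444972820938818967 : ℝ) / 1152921504606846976) ^ 2 := by norm_num
    linarith
  rw [le_div_iff₀ (by norm_num)] at h
  linarith

theorem cL_le : (cL : ℝ) ≤ S * (1 / Real.sqrt (2 * Real.pi)) := by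
  have hp := Real.pi_lt_d20
  have hs : 0 < Real.sqrt (2 * Real.pi) := Real.sqrt_pos.2 (by positivity)
  rw [sconst_cL, sconst_Sv, mul_one_div, le_div_iff₀ hs]
  have h : Real.sqrt (2 * Real.pi) ≤ (1152921504606846976 : ℝ) / 459949134171706403 := by
    rw [Real.sqrt_le_left (by norm_num)]
    have : 2 * (3.14159265358979323847 : ℝ)
      ≤ ((1152921504606846976 : ℝ) / 459949134171706403) ^ 2 := by norm_num
    linarith
  rw [le_div_iff₀ (by norm_num)] at h
  linarith

theorem le_cU : S * (1 / Real.sqrt (2 * Real.pi)) ≤ cU := by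
  have hp := Real.pi_gt_d20
  have hs : 0 < Real.sqrt (2 * Real.pi) := Real.sqrt_pos.2 (by positivity)
  rw [sconst_cU, sconst_Sv, mul_one_div, div_le_iff₀ hs]
  have h : (1152921504606846976 : ℝ) / 459949134171706404 ≤ Real.sqrt (2 * Real.pi) := by
    apply Real.le_sqrt_of_sq_le
    have : ((1152921504606846976 : ℝ) / 459949134171706404) ^ 2
      ≤ 2 * 3.14159265358979323846 := by norm_num
    linarith
  rw [div_le_iff₀ (by norm_num)] at h
  linarith

theorem hL_le : (hL : ℝ) ≤ S * Real.log (Real.sqrt (2 * Real.pi)) := by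
  have hp := Real.pi_gt_d20
  have hs : 0 < Real.sqrt (2 * Real.pi) := Real.sqrt_pos.2 (by positivity)
  have h1 := le_expPU (x := hL) (by decide +kernel)
  have h2 : (expPU hL : ℝ) ≤ 2889945641877537915 := by
    have : expPU hL ≤ 2889945641877537915 := by decide +kernel
    exact_mod_cast this
  have h3 : (2889945641877537915 : ℝ) / 1152921504606846976 ≤ Real.sqrt (2 * Real.pi) := by
    apply Real.le_sqrt_of_sq_le
    have : ((2889945641877537915 : ℝ) / 1152921504606846976) ^ 2
      ≤ 2 * 3.14159265358979323846 := by norm_num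
    linarith
  have h4 : Real.exp (hL / S) ≤ Real.sqrt (2 * Real.pi) := by
    refine le_trans ?_ h3
    rw [le_div_iff₀ (by norm_num), ← sconst_Sv]
    linarith
  have h5 : (hL : ℝ) / S ≤ Real.log (Real.sqrt (2 * Real.pi)) :=
    (Real.le_log_iff_exp_le hs).2 h4
  rw [div_le_iff₀ S_pos] at h5
  linarith

theorem le_hU : S * Real.log (Real.sqrt (2 * Real.pi)) ≤ hU := by
  have hp := Real.pi_lt_d20
  have hs : 0 < Real.sqrt (2 * Real.pi) := Real.sqrt_pos.2 (by positivity)
  have h1 := expPL_le hU
  have h2 : (2889945641877786855 : ℝ) ≤ (expPL hU : ℝ) := by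
    have : 2889945641877786855 ≤ expPL hU := by decide +kernel
    exact_mod_cast this
  have h3 : Real.sqrt (2 * Real.pi) ≤ (2889945641877786855 : ℝ) / 1152921504606846976 := by
    rw [Real.sqrt_le_left (by norm_num)]
    have : 2 * (3.14159265358979323847 : ℝ)
      ≤ ((2889945641877786855 : ℝ) / 1152921504606846976) ^ 2 := by norm_num
    linarith
  have h4 : Real.sqrt (2 * Real.pi) ≤ Real.exp (hU / S) := by
    refine le_trans h3 ?_
    rw [div_le_iff₀ (by norm_num), ← sconst_Sv]
    linarith
  have h5 : Real.log (Real.sqrt (2 * Real.pi)) ≤ (hU : ℝ) / S :=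
    (Real.log_le_iff_le_exp hs).2 h4
  rw [le_div_iff₀ S_pos] at h5
  linarith

end IP49N
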