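import Pool.Agent.IP49N.SBasic

/-! IP49N/SMulB: product of balls. Cases on the signs of the two centres: the new centre differs
from `a.m * b.m / S` by at most `1` (floor, or `-(floor+1)`), and
`|x y S - a.m b.m / S| ≤ (|a.m| b.r + a.r (|b.m| + b.r)) / S` because
`x S = a.m + e`, `y S = b.m + e'`, `|e| ≤ a.r`, `|e'| ≤ b.r`; `mrad` adds `2` to the rounded down
quotient (`div_lt_succ`). -/

set_option autoImplicit false

namespace IP49N
open Pool.Agent.IP49

private theorem mul_key {x y am bm c ar br A B q : ℝ}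
    (hx : |x * S - am| ≤ ar) (hy : |y * S - bm| ≤ br) (hA : |am| = A) (hB : |bm| = B)
    (hc : |am * bm / S - c| ≤ 1) (hq : (A * br + ar * (B + br)) / S < q + 1) :
    |x * y * S - c| ≤ 2 + q := by
  have hS := S_pos
  have hS' := S_ne
  have har : 0 ≤ ar := (abs_nonneg _).trans hx
  have h1 : x * y * S - am * bm / S
      = (am * (y * S - bm) + (x * S - am) * (bm + (y * S - bm))) / S := by
    field_simp
    ring
  have h2 : |x * y * S - am * bm / S| ≤ (A * br + ar * (B + br)) / S := by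
    rw [h1, abs_div, abs_of_pos hS]
    refine div_le_div_of_nonneg_right ?_ hS.le
    refine (abs_add_le _ _).trans (add_le_add ?_ ?_)
    · rw [abs_mul, hA]
      exact mul_le_mul_of_nonneg_left hy (hA ▸ abs_nonneg _)
    · rw [abs_mul]
      refine mul_le_mul hx ((abs_add_le _ _).trans (add_le_add hB.le hy)) (abs_nonneg _) har
  have h3 : |x * y * S - c| ≤ |x * y * S - am * bm / S| + |am * bm / S - c| := by
    have : x * y * S - c = (x * y * S - am * bm / S) + (am * bm / S - c) := by ring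
    rw [this]
    exact abs_add_le _ _
  linarith

private theorem cen_pos {m n : ℕ} : |(m : ℝ) * n / S - ((m * n / S : ℕ) : ℝ)| ≤ 1 := by
  have h1 := div_lt_succ (m * n) S S_posN
  have h2 := div_le_real (m * n) S
  push_cast at h1 h2 ⊢
  rw [abs_le]
  constructor <;> linarith

private theorem cen_neg {m n : ℕ} : |-((m : ℝ) * n / S) - -(((m * n / S : ℕ) : ℝ) + 1)| ≤ 1 := by
  have h1 := div_lt_succ (m * n) S S_posN
  have h2 := div_le_real (m * n) S
  push_cast at h1 h2 ⊢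
  rw [abs_le]
  constructor <;> linarith

private theorem rad_lt (m n r s : ℕ) :
    ((m : ℝ) * s + r * (n + s)) / S < (((m * s + r * (n + s)) / S : ℕ) : ℝ) + 1 := by
  have h1 := div_lt_succ (m * s + r * (n + s)) S S_posN
  push_cast at h1 ⊢
  exact h1

private theorem cast_negSucc (q : ℕ) : ((Int.negSucc q : ℤ) : ℝ) = -((q : ℝ) + 1) := by
  rw [Int.negSucc_eq]
  push_cast
  ring

theorem InB.mul {x y : ℝ} {a b : Bl} (hx : InB x a) (hy : InB y b) : InB (x * y) (a.mul b) := by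
  obtain ⟨am, ar⟩ := a
  obtain ⟨bm, br⟩ := b
  unfold InB at hx hy ⊢
  rcases am with m | m <;> rcases bm with n | n
  · show |x * y * S - (((m * n / S : ℕ) : ℤ) : ℝ)|
      ≤ ((2 + (m * br + ar * (n + br)) / S : ℕ) : ℝ)
    have e1 : |((Int.ofNat m : ℤ) : ℝ)| = (m : ℝ) := by simp
    have e2 : |((Int.ofNat n : ℤ) : ℝ)| = (n : ℝ) := by simp
    have hc : |((Int.ofNat m : ℤ) : ℝ) * ((Int.ofNat n : ℤ) : ℝ) / S
        - (((m * n / S : ℕ) : ℤ) : ℝ)| ≤ 1 := by
      rw [Int.ofNat_eq_natCast, Int.ofNat_eq_natCast, Int.cast_natCast, Int.cast_natCast,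
        Int.cast_natCast]
      exact cen_pos
    have := mul_key hx hy e1 e2 hc (rad_lt m n ar br)
    push_cast at this ⊢
    exact this
  · show |x * y * S - ((Int.negSucc (m * (n + 1) / S) : ℤ) : ℝ)|
      ≤ ((2 + (m * br + ar * ((n + 1) + br)) / S : ℕ) : ℝ)
    have e1 : |((Int.ofNat m : ℤ) : ℝ)| = (m : ℝ) := by simp
    have e0 : ((Int.negSucc n : ℤ) : ℝ) = -((n + 1 : ℕ) : ℝ) := by
      rw [Int.negSucc_eq]; push_cast; ring
    have e2 : |((Int.negSucc n : ℤ) : ℝ)| = ((n + 1 : ℕ) : ℝ) := by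
      rw [e0, abs_neg, abs_of_nonneg (Nat.cast_nonneg _)]
    have hc : |((Int.ofNat m : ℤ) : ℝ) * ((Int.negSucc n : ℤ) : ℝ) / S
        - ((Int.negSucc (m * (n + 1) / S) : ℤ) : ℝ)| ≤ 1 := by
      have h1 := @cen_neg m (n + 1)
      have h2 : ((Int.negSucc (m * (n + 1) / S) : ℤ) : ℝ)
          = -(((m * (n + 1) / S : ℕ) : ℝ) + 1) := cast_negSucc _
      have h3 : ((Int.ofNat m : ℤ) : ℝ) * ((Int.negSucc n : ℤ) : ℝ) / S
          = -((m : ℝ) * ((n + 1 : ℕ) : ℝ) / S) := by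
        rw [e0, Int.ofNat_eq_natCast, Int.cast_natCast]; ring
      rw [h2, h3]
      exact h1
    have := mul_key hx hy e1 e2 hc (rad_lt m (n + 1) ar br)
    push_cast at this ⊢
    exact this
  · show |x * y * S - ((Int.negSucc ((m + 1) * n / S) : ℤ) : ℝ)|
      ≤ ((2 + ((m + 1) * br + ar * (n + br)) / S : ℕ) : ℝ)
    have e0 : ((Int.negSucc m : ℤ) : ℝ) = -((m + 1 : ℕ) : ℝ) := by
      rw [Int.negSucc_eq]; push_cast; ring
    have e1 : |((Int.negSucc m : ℤ) : ℝ)| = ((m + 1 : ℕ) : ℝ) := by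
      rw [e0, abs_neg, abs_of_nonneg (Nat.cast_nonneg _)]
    have e2 : |((Int.ofNat n : ℤ) : ℝ)| = (n : ℝ) := by simp
    have hc : |((Int.negSucc m : ℤ) : ℝ) * ((Int.ofNat n : ℤ) : ℝ) / S
        - ((Int.negSucc ((m + 1) * n / S) : ℤ) : ℝ)| ≤ 1 := by
      have h1 := @cen_neg (m + 1) n
      have h2 : ((Int.negSucc ((m + 1) * n / S) : ℤ) : ℝ)
          = -((((m + 1) * n / S : ℕ) : ℝ) + 1) := cast_negSucc _
      have h3 : ((Int.negSucc m : ℤ) : ℝ) * ((Int.ofNat n : ℤ) : ℝ) / S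
          = -(((m + 1 : ℕ) : ℝ) * (n : ℝ) / S) := by
        rw [e0, Int.ofNat_eq_natCast, Int.cast_natCast]; ring
      rw [h2, h3]
      exact h1
    have := mul_key hx hy e1 e2 hc (rad_lt (m + 1) n ar br)
    push_cast at this ⊢
    exact this
  · show |x * y * S - ((((m + 1) * (n + 1) / S : ℕ) : ℤ) : ℝ)|
      ≤ ((2 + ((m + 1) * br + ar * ((n + 1) + br)) / S : ℕ) : ℝ)
    have e01 : ((Int.negSucc m : ℤ) : ℝ) = -((m + 1 : ℕ) : ℝ) := by
      rw [Int.negSucc_eq]; push_cast; ring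
    have e1 : |((Int.negSucc m : ℤ) : ℝ)| = ((m + 1 : ℕ) : ℝ) := by
      rw [e01, abs_neg, abs_of_nonneg (Nat.cast_nonneg _)]
    have e02 : ((Int.negSucc n : ℤ) : ℝ) = -((n + 1 : ℕ) : ℝ) := by
      rw [Int.negSucc_eq]; push_cast; ring
    have e2 : |((Int.negSucc n : ℤ) : ℝ)| = ((n + 1 : ℕ) : ℝ) := by
      rw [e02, abs_neg, abs_of_nonneg (Nat.cast_nonneg _)]
    have hc : |((Int.negSucc m : ℤ) : ℝ) * ((Int.negSucc n : ℤ) : ℝ) / S
        - ((((m + 1) * (n + 1) / S : ℕ) : ℤ) : ℝ)| ≤ 1 := by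
      have h1 := @cen_pos (m + 1) (n + 1)
      have h3 : ((Int.negSucc m : ℤ) : ℝ) * ((Int.negSucc n : ℤ) : ℝ) / S
          = ((m + 1 : ℕ) : ℝ) * ((n + 1 : ℕ) : ℝ) / S := by
        rw [e01, e02]; ring
      rw [h3, Int.cast_natCast]
      exact h1
    have := mul_key hx hy e1 e2 hc (rad_lt (m + 1) (n + 1) ar br)
    push_cast at this ⊢
    exact this

end IP49N
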