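import Pool.Agent.IP49N.SSem
import Pool.Agent.IP49N.SConst
import Pool.Agent.IP49N.SMulB

/-! IP49N/SCell: integral over one cell, accumulators.
`cell_integral`: substitute `x = c + u`; `∫_{-w}^{w} (α0 + α1 u + α2 u² + α3 u³) = 2 w α0 + (2/3) w³ α2`;
the rest `e(u) = f(c+u) - P(u)` is continuous and `|e(u)| ≤ (R/S) u⁴`, integral `≤ (2/5) w⁵ R/S`.
`AccV.val`: `InB.mul`, `InB.add`, `InB.dbl`, `InB.dv`, `InB.wid`, `InB.cst`, `le_mu`, and
`InB (1/√(2π)) ⟨cL, cU - cL⟩` from `cL_le`, `le_cU`. -/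

set_option autoImplicit false
open MeasureTheory intervalIntegral

namespace IP49N
open Pool.Agent.IP49

theorem cell_integral {f : ℝ → ℝ} (hc : Continuous f) {c : ℝ} {W : ℕ} {T : TM}
    (h : InT f c (W / S) T) :
    ∃ α0 α2 : ℝ, InB α0 T.a0 ∧ InB α2 T.a2 ∧
      |(∫ x in (c - W / S)..(c + W / S), f x)
          - (2 * (W / S : ℝ) * α0 + 2 / 3 * (W / S : ℝ) ^ 3 * α2)|
        ≤ 2 / 5 * (W / S : ℝ) ^ 5 * (T.R / S) := by
  obtain ⟨α0, α1, α2, α3, h0, h1, h2, h3, hf⟩ := h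
  refine ⟨α0, α2, h0, h2, ?_⟩
  set w : ℝ := (W : ℝ) / S with hw
  have hw0 : 0 ≤ w := div_nonneg (Nat.cast_nonneg _) S_pos.le
  have e1 : ∫ x in (c - w)..(c + w), f x = ∫ u in (-w)..w, f (c + u) := by
    rw [intervalIntegral.integral_comp_add_left (fun x => f x) c, sub_eq_add_neg]
  have e2 : ∫ u in (-w)..w, (α0 + α1 * u + α2 * u ^ 2 + α3 * u ^ 3) =
      2 * w * α0 + 2 / 3 * w ^ 3 * α2 := by
    have hd : ∀ u ∈ Set.uIcc (-w) w, HasDerivAt
        (fun u : ℝ => α0 * u + α1 * (u ^ 2 / 2) + α2 * (u ^ 3 / 3) + α3 * (u ^ 4 / 4))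
        (α0 + α1 * u + α2 * u ^ 2 + α3 * u ^ 3) u := by
      intro u _
      have d1 : HasDerivAt (fun u : ℝ => α0 * u) α0 u := by
        simpa using (hasDerivAt_id u).const_mul α0
      have d2 : HasDerivAt (fun u : ℝ => α1 * (u ^ 2 / 2)) (α1 * u) u := by
        have := ((hasDerivAt_pow 2 u).div_const 2).const_mul α1
        refine this.congr_deriv ?_
        simp
      have d3 : HasDerivAt (fun u : ℝ => α2 * (u ^ 3 / 3)) (α2 * u ^ 2) u := by
        have := ((hasDerivAt_pow 3 u).div_const 3).const_mul α2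
        refine this.congr_deriv ?_
        simp
      have d4 : HasDerivAt (fun u : ℝ => α3 * (u ^ 4 / 4)) (α3 * u ^ 3) u := by
        have := ((hasDerivAt_pow 4 u).div_const 4).const_mul α3
        refine this.congr_deriv ?_
        simp
      exact ((d1.add d2).add d3).add d4
    rw [intervalIntegral.integral_eq_sub_of_hasDerivAt hd
      (Continuous.intervalIntegrable (by fun_prop) _ _)]
    ring
  have e3 : ∫ u in (-w)..w, (T.R / S : ℝ) * u ^ 4 = 2 / 5 * w ^ 5 * (T.R / S) := by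
    rw [intervalIntegral.integral_const_mul, integral_pow]
    push_cast
    ring
  have i1 : IntervalIntegrable (fun u => f (c + u)) volume (-w) w :=
    Continuous.intervalIntegrable (by fun_prop) _ _
  have i2 : IntervalIntegrable (fun u : ℝ => α0 + α1 * u + α2 * u ^ 2 + α3 * u ^ 3) volume (-w) w :=
    Continuous.intervalIntegrable (by fun_prop) _ _
  rw [e1, ← e2, ← intervalIntegral.integral_sub i1 i2, ← e3, ← Real.norm_eq_abs]
  apply intervalIntegral.norm_integral_le_of_norm_le (by linarith)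
  · refine Filter.Eventually.of_forall fun u hu => ?_
    have hu2 : |u| ≤ w := by
      rw [abs_le]
      exact ⟨hu.1.le, hu.2⟩
    obtain ⟨r, hr, hr2⟩ := hf u hu2
    rw [hr2]
    have e4 : α0 + α1 * u + α2 * u ^ 2 + α3 * u ^ 3 + r * u ^ 4
        - (α0 + α1 * u + α2 * u ^ 2 + α3 * u ^ 3) = r * u ^ 4 := by ring
    rw [e4, Real.norm_eq_abs, abs_mul, abs_of_nonneg (by positivity : (0:ℝ) ≤ u ^ 4)]
    apply mul_le_mul_of_nonneg_right _ (by positivity)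
    rw [le_div_iff₀ S_pos]
    exact hr
  · exact Continuous.intervalIntegrable (by fun_prop) _ _

theorem AccV.zero {W : ℕ} : AccV W 0 Acc.zero := by
  refine ⟨0, 0, InB.zero, InB.zero, ?_⟩
  have : (Acc.zero.r4 : ℝ) = 0 := by
    show ((0 : ℕ) : ℝ) = 0
    simp
  rw [this]
  simp

theorem AccV.val {W : ℕ} {I : ℝ} {A : Acc} (h : AccV W I A) :
    InB (I / Real.sqrt (2 * Real.pi)) (A.val W) := by
  obtain ⟨σ0, σ2, h0, h2, hI⟩ := h
  have hw0 : (0:ℝ) ≤ (W : ℝ) / S := div_nonneg (Nat.cast_nonneg _) S_pos.le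
  have hwB : InB ((W : ℝ) / S) ⟨Int.ofNat W, nat_lit 0⟩ := by
    have := InB.cst (Int.ofNat W)
    simpa using this
  have hwS : (W : ℝ) / S * S ≤ W := by rw [div_mul_cancel₀ _ S_ne]
  have hc : InB (1 / Real.sqrt (2 * Real.pi)) ⟨Int.ofNat cL, Nat.sub cU cL⟩ := by
    unfold InB
    have a1 := cL_le
    have a2 := le_cU
    have a3 : cL ≤ cU := by decide +kernel
    show |1 / Real.sqrt (2 * Real.pi) * S - (((cL : ℕ) : ℤ) : ℝ)| ≤ ((cU - cL : ℕ) : ℝ)
    rw [Nat.cast_sub a3, Int.cast_natCast, abs_le]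
    constructor <;> linarith
  have hm := h0.dbl.mul hwB
  have hm2 := (h2.dbl.mul (hwB.mul (hwB.mul hwB))).dv (n := 3) (by norm_num)
  have hs := hm.add hm2
  have b1 : ((A.r4 : ℝ) / S) * S ≤ A.r4 := by rw [div_mul_cancel₀ _ S_ne]
  have r0 : (0:ℝ) ≤ (A.r4 : ℝ) / S := div_nonneg (Nat.cast_nonneg _) S_pos.le
  have b2 := le_mu r0 hw0 b1 hwS
  have b3 := le_mu (mul_nonneg r0 hw0) hw0 b2 hwS
  have b4 := le_mu (mul_nonneg (mul_nonneg r0 hw0) hw0) hw0 b3 hwS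
  have b5 := le_mu (mul_nonneg (mul_nonneg (mul_nonneg r0 hw0) hw0) hw0) hw0 b4 hwS
  have b6 := le_mu (mul_nonneg (mul_nonneg (mul_nonneg (mul_nonneg r0 hw0) hw0) hw0) hw0) hw0
    b5 hwS
  set m5 : ℕ := mu (mu (mu (mu (mu A.r4 W) W) W) W) W with hm5
  have hdv := div_lt_succ (2 * m5) 5 (by norm_num)
  have hfin : |I - (2 * σ0 * ((W : ℝ) / S) +
      2 * σ2 * ((W : ℝ) / S * ((W : ℝ) / S * ((W : ℝ) / S))) / ((3 : ℕ) : ℝ))| * S ≤
      ((Nat.succ (Nat.div (Nat.mul (nat_lit 2) m5) (nat_lit 5)) : ℕ) : ℝ) := by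
    have e1 : I - (2 * σ0 * ((W : ℝ) / S) +
      2 * σ2 * ((W : ℝ) / S * ((W : ℝ) / S * ((W : ℝ) / S))) / ((3 : ℕ) : ℝ)) =
      I - (2 * (W / S : ℝ) * σ0 + 2 / 3 * (W / S : ℝ) ^ 3 * σ2) := by
      push_cast
      ring
    rw [e1]
    have e2 : ((Nat.succ (Nat.div (Nat.mul (nat_lit 2) m5) (nat_lit 5)) : ℕ) : ℝ) =
        ((2 * m5 / 5 : ℕ) : ℝ) + 1 := by
      show ((2 * m5 / 5 + 1 : ℕ) : ℝ) = _
      push_cast
      rfl
    rw [e2]
    push_cast at hdv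
    have e3 : 2 / 5 * (W / S : ℝ) ^ 5 * (A.r4 / S) * S =
        2 / 5 * ((A.r4 : ℝ) / S * (W / S) * (W / S) * (W / S) * (W / S) * (W / S) * S) := by ring
    calc |I - (2 * (W / S : ℝ) * σ0 + 2 / 3 * (W / S : ℝ) ^ 3 * σ2)| * S
        ≤ 2 / 5 * (W / S : ℝ) ^ 5 * (A.r4 / S) * S := mul_le_mul_of_nonneg_right hI S_pos.le
      _ = _ := e3
      _ ≤ 2 / 5 * m5 := by
          apply mul_le_mul_of_nonneg_left b6 (by norm_num)
      _ = 2 * m5 / 5 := by ring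
      _ ≤ ((2 * m5 / 5 : ℕ) : ℝ) + 1 := hdv.le
  have hw2 := (hs.wid hfin).mul hc
  have e4 : I / Real.sqrt (2 * Real.pi) = I * (1 / Real.sqrt (2 * Real.pi)) := by ring
  rw [e4]
  exact hw2

end IP49N
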