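import Pool.Agent.IP49N.SBasic
import Pool.Agent.IP49.MillsA

/-! IP49N/SCf: Mills ratio `M(t) = Ph t / phi t` for `t > 2` by the continued fraction.
`I_n(t) = ∫_0^∞ x^n e^(-t x - x²/2) dx`, `t > 0`: `I_0 = M(t)` (substitution), `I_n > 0`,
`1 = t I_0 + I_1`, `(n+1) I_n = t I_(n+1) + I_(n+2)` (integrate the derivative of
`x^(n+1) e^(-t x - x²/2)`, `integral_Ioi_of_hasDerivAt_of_tendsto`). With `ρ_n = I_n/I_(n-1)`:
`ρ_n = n/(t + ρ_(n+1))`, `M = 1/(t + ρ_1)`, `0 < ρ_21 ≤ 21/t`.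
`cf t n lo hi k`: if `lo ≤ S ρ_(n+1) ≤ hi` then after the `n` steps the pair encloses `S ρ_1`
(`k (n S²)/(t + hi)` rounded down etc.). -/

set_option autoImplicit false

namespace IP49N
open Pool.Agent.IP49
open MeasureTheory Filter Topology

/-- `I_n(τ)` -/
private noncomputable def cfI (τ : ℝ) (n : ℕ) : ℝ :=
  ∫ x in Set.Ioi (0 : ℝ), x ^ n * Real.exp (-(τ * x) - x ^ 2 / 2)

private theorem cf_int {τ : ℝ} (hτ : 0 ≤ τ) (n : ℕ) :
    IntegrableOn (fun x : ℝ => x ^ n * Real.exp (-(τ * x) - x ^ 2 / 2)) (Set.Ioi 0) := by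
  have h := integrableOn_rpow_mul_exp_neg_mul_sq (b := 1 / 2) (by norm_num) (s := (n : ℝ))
    (by have : (0 : ℝ) ≤ n := Nat.cast_nonneg n
        linarith)
  refine Integrable.mono' h (Continuous.aestronglyMeasurable (by fun_prop)) ?_
  filter_upwards [ae_restrict_mem measurableSet_Ioi] with x hx
  have hx' : (0 : ℝ) < x := hx
  rw [Real.norm_eq_abs, abs_of_nonneg (by positivity), Real.rpow_natCast]
  refine mul_le_mul_of_nonneg_left ?_ (by positivity)
  refine Real.exp_le_exp.2 ?_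
  have := mul_nonneg hτ hx'.le
  nlinarith

private theorem cf_pos {τ : ℝ} (hτ : 0 ≤ τ) (n : ℕ) : 0 < cfI τ n := by
  unfold cfI
  rw [setIntegral_pos_iff_support_of_nonneg_ae]
  · refine lt_of_lt_of_le (b := volume (Set.Ioo (0 : ℝ) 1)) (by simp) (measure_mono ?_)
    intro x hx
    refine ⟨?_, hx.1⟩
    rw [Function.mem_support]
    have : 0 < x := hx.1
    positivity
  · filter_upwards [ae_restrict_mem measurableSet_Ioi] with x hx
    have hx' : (0 : ℝ) < x := hx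
    show (0 : ℝ) ≤ _
    positivity
  · exact cf_int hτ n

private theorem cf_tendsto {τ : ℝ} (hτ : 1 ≤ τ) (n : ℕ) :
    Tendsto (fun x : ℝ => x ^ n * Real.exp (-(τ * x) - x ^ 2 / 2)) atTop (𝓝 0) := by
  refine squeeze_zero' ?_ ?_ (Real.tendsto_pow_mul_exp_neg_atTop_nhds_zero n)
  · filter_upwards [eventually_ge_atTop (0 : ℝ)] with x hx
    positivity
  · filter_upwards [eventually_ge_atTop (0 : ℝ)] with x hx
    refine mul_le_mul_of_nonneg_left (Real.exp_le_exp.2 ?_) (by positivity)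
    nlinarith [sq_nonneg x, mul_le_mul_of_nonneg_right hτ hx]

private theorem cf_hasDeriv (τ : ℝ) (n : ℕ) (x : ℝ) :
    HasDerivAt (fun x : ℝ => x ^ (n + 1) * Real.exp (-(τ * x) - x ^ 2 / 2))
      (((n : ℝ) + 1) * (x ^ n * Real.exp (-(τ * x) - x ^ 2 / 2))
        - τ * (x ^ (n + 1) * Real.exp (-(τ * x) - x ^ 2 / 2))
        - x ^ (n + 2) * Real.exp (-(τ * x) - x ^ 2 / 2)) x := by
  have h1 : HasDerivAt (fun x : ℝ => -(τ * x) - x ^ 2 / 2) (-τ - x) x := by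
    have := (((hasDerivAt_id x).const_mul τ).neg).sub (((hasDerivAt_id x).pow 2).div_const 2)
    refine this.congr_deriv ?_
    simp
  have h2 := (hasDerivAt_pow (n + 1) x).mul h1.exp
  refine h2.congr_deriv ?_
  push_cast
  ring

private theorem cf_rec {τ : ℝ} (hτ : 1 ≤ τ) (n : ℕ) :
    ((n : ℝ) + 1) * cfI τ n = τ * cfI τ (n + 1) + cfI τ (n + 2) := by
  have hτ0 : 0 ≤ τ := by linarith
  have i1 : IntegrableOn (fun x : ℝ => ((n : ℝ) + 1) *
      (x ^ n * Real.exp (-(τ * x) - x ^ 2 / 2))) (Set.Ioi 0) := (cf_int hτ0 n).const_mul _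
  have i2 : IntegrableOn (fun x : ℝ => τ *
      (x ^ (n + 1) * Real.exp (-(τ * x) - x ^ 2 / 2))) (Set.Ioi 0) :=
    (cf_int hτ0 (n + 1)).const_mul _
  have i12 : IntegrableOn (fun x : ℝ => ((n : ℝ) + 1) *
      (x ^ n * Real.exp (-(τ * x) - x ^ 2 / 2)) - τ *
      (x ^ (n + 1) * Real.exp (-(τ * x) - x ^ 2 / 2))) (Set.Ioi 0) := i1.sub i2
  have h := integral_Ioi_of_hasDerivAt_of_tendsto' (a := 0) (m := 0)
    (fun x _ => cf_hasDeriv τ n x) (i12.sub (cf_int hτ0 (n + 2))) (cf_tendsto hτ (n + 1))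
  rw [integral_sub i12 (cf_int hτ0 (n + 2)), integral_sub i1 i2, integral_const_mul,
    integral_const_mul] at h
  have h0 : (0 : ℝ) ^ (n + 1) = 0 := by simp
  rw [h0, zero_mul, sub_zero] at h
  unfold cfI
  linarith

private theorem cf_rec0 {τ : ℝ} (hτ : 1 ≤ τ) : 1 = τ * cfI τ 0 + cfI τ 1 := by
  have hτ0 : 0 ≤ τ := by linarith
  have hd : ∀ x : ℝ, HasDerivAt (fun x : ℝ => Real.exp (-(τ * x) - x ^ 2 / 2))
      (-(τ * (x ^ 0 * Real.exp (-(τ * x) - x ^ 2 / 2)))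
        - x ^ 1 * Real.exp (-(τ * x) - x ^ 2 / 2)) x := by
    intro x
    have h1 : HasDerivAt (fun x : ℝ => -(τ * x) - x ^ 2 / 2) (-τ - x) x := by
      have := (((hasDerivAt_id x).const_mul τ).neg).sub (((hasDerivAt_id x).pow 2).div_const 2)
      refine this.congr_deriv ?_
      simp
    refine h1.exp.congr_deriv ?_
    ring
  have ht : Tendsto (fun x : ℝ => Real.exp (-(τ * x) - x ^ 2 / 2)) atTop (𝓝 0) := by
    have := cf_tendsto hτ 0
    simpa using this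
  have i1 : IntegrableOn (fun x : ℝ => -(τ *
      (x ^ 0 * Real.exp (-(τ * x) - x ^ 2 / 2)))) (Set.Ioi 0) := ((cf_int hτ0 0).const_mul τ).neg
  have h := integral_Ioi_of_hasDerivAt_of_tendsto' (a := 0) (m := 0) (fun x _ => hd x)
    (i1.sub (cf_int hτ0 1)) ht
  rw [integral_sub i1 (cf_int hτ0 1), integral_neg, integral_const_mul] at h
  unfold cfI
  simp only [mul_zero, neg_zero, ne_eq, OfNat.ofNat_ne_zero, not_false_eq_true, zero_pow,
    zero_div, sub_zero, Real.exp_zero] at h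
  linarith

private theorem cf_mills (τ : ℝ) : Ph τ / phi τ = cfI τ 0 := by
  have hφ := phi_pos τ
  rw [div_eq_iff hφ.ne', Ph_eq]
  have h := (measurePreserving_add_right volume τ).setIntegral_preimage_emb
    (measurableEmbedding_addRight τ) phi (Set.Ioi τ)
  rw [← h]
  have hpre : (fun x : ℝ => x + τ) ⁻¹' Set.Ioi τ = Set.Ioi 0 := by
    ext x
    simp
  rw [hpre]
  unfold cfI
  rw [← integral_mul_const]
  refine integral_congr_ae (Eventually.of_forall fun x => ?_)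
  show phi (x + τ) = x ^ 0 * Real.exp (-(τ * x) - x ^ 2 / 2) * phi τ
  unfold phi
  rw [pow_zero, one_mul, ← mul_div_assoc, ← Real.exp_add]
  congr 2
  ring

/-- `ρ_(n+1) = I_(n+1)/I_n` -/
private noncomputable def cfr (τ : ℝ) (n : ℕ) : ℝ := cfI τ (n + 1) / cfI τ n

private theorem cfr_pos {τ : ℝ} (hτ : 0 ≤ τ) (n : ℕ) : 0 < cfr τ n :=
  div_pos (cf_pos hτ _) (cf_pos hτ _)

private theorem cfr_rec {τ : ℝ} (hτ : 1 ≤ τ) (n : ℕ) :
    cfr τ n = ((n : ℝ) + 1) / (τ + cfr τ (n + 1)) := by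
  have hτ0 : 0 ≤ τ := by linarith
  have h := cf_rec hτ n
  have h0 := cf_pos hτ0 n
  have h1 := cf_pos hτ0 (n + 1)
  have h2 := cf_pos hτ0 (n + 2)
  have hr := cfr_pos hτ0 (n + 1)
  rw [eq_div_iff (by positivity)]
  unfold cfr
  field_simp
  linear_combination -h

private theorem cf_val {τ : ℝ} (hτ : 1 ≤ τ) : Ph τ / phi τ = 1 / (τ + cfr τ 0) := by
  have hτ0 : 0 ≤ τ := by linarith
  have h := cf_rec0 hτ
  have h0 := cf_pos hτ0 0
  have hr := cfr_pos hτ0 0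
  rw [cf_mills, eq_div_iff (by positivity)]
  unfold cfr
  field_simp
  linear_combination -h

/-- one step of the enclosure -/
private theorem cf_step {t lo hi : ℕ} (ht : 0 < t) {n : ℕ} {r r' : ℝ} (hr0 : 0 ≤ r)
    (h1 : (lo : ℝ) ≤ S * r) (h2 : S * r ≤ hi) (hrr : r' = ((n : ℝ) + 1) / ((t : ℝ) / S + r)) :
    (((n + 1) * S2 / (t + hi) : ℕ) : ℝ) ≤ S * r' ∧
      S * r' ≤ (((n + 1) * S2 / (t + lo) + 1 : ℕ) : ℝ) := by
  have hS := S_pos
  have ht' : (0 : ℝ) < t := by exact_mod_cast ht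
  have hval : S * r' = (((n + 1) * S2 : ℕ) : ℝ) / (t + S * r) := by
    rw [hrr]
    push_cast
    rw [S2_eq]
    field_simp
  have hn : (0 : ℝ) ≤ (((n + 1) * S2 : ℕ) : ℝ) := Nat.cast_nonneg _
  constructor
  · rw [hval]
    refine (div_le_real _ _).trans ?_
    push_cast
    have hn' : (0 : ℝ) ≤ ((n : ℝ) + 1) * S2 := by positivity
    refine div_le_div_of_nonneg_left hn' (by positivity) ?_
    linarith
  · rw [hval]
    have h3 := div_lt_succ ((n + 1) * S2) (t + lo) (by omega)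
    push_cast at h3 ⊢
    refine le_trans ?_ h3.le
    have hn' : (0 : ℝ) ≤ ((n : ℝ) + 1) * S2 := by positivity
    refine div_le_div_of_nonneg_left hn' (by positivity) ?_
    linarith

private theorem cf_spec {t : ℕ} (ht : 2 * S < t) (k : ℕ → ℕ → ℕ) : ∀ (n lo hi : ℕ),
    (lo : ℝ) ≤ S * cfr ((t : ℝ) / S) n → S * cfr ((t : ℝ) / S) n ≤ hi →
    ∃ lo' hi' : ℕ, cf t n lo hi k = k lo' hi' ∧ (lo' : ℝ) ≤ S * cfr ((t : ℝ) / S) 0 ∧
      S * cfr ((t : ℝ) / S) 0 ≤ hi' := by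
  have ht0 : 0 < t := by omega
  have hτ : (1 : ℝ) ≤ (t : ℝ) / S := by
    rw [le_div_iff₀ S_pos]
    have : ((2 * S : ℕ) : ℝ) < t := by exact_mod_cast ht
    push_cast at this
    linarith [S_pos]
  intro n
  induction n with
  | zero =>
    intro lo hi h1 h2
    exact ⟨lo, hi, rfl, h1, h2⟩
  | succ n ih =>
    intro lo hi h1 h2
    have hstep := cf_step (n := n) ht0 (cfr_pos (by linarith) (n + 1)).le h1 h2 (cfr_rec hτ n)
    exact ih _ _ hstep.1 hstep.2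

private theorem cf_start {t : ℕ} (ht : 2 * S < t) :
    ((0 : ℕ) : ℝ) ≤ S * cfr ((t : ℝ) / S) 20 ∧
      S * cfr ((t : ℝ) / S) 20 ≤ ((21 * S2 / t + 1 : ℕ) : ℝ) := by
  have ht0 : 0 < t := by omega
  have hτ : (1 : ℝ) ≤ (t : ℝ) / S := by
    rw [le_div_iff₀ S_pos]
    have : ((2 * S : ℕ) : ℝ) < t := by exact_mod_cast ht
    push_cast at this
    linarith [S_pos]
  have hp := cfr_pos (τ := (t : ℝ) / S) (by linarith) 21
  have h0 := cfr_pos (τ := (t : ℝ) / S) (by linarith) 20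
  refine ⟨by rw [Nat.cast_zero]; exact mul_nonneg S_pos.le h0.le, ?_⟩
  have h := cf_step (t := t) (lo := 0) (hi := ⌈(S : ℝ) * cfr ((t : ℝ) / S) 21⌉₊) ht0 (n := 20)
    hp.le (by rw [Nat.cast_zero]; exact mul_nonneg S_pos.le hp.le) (Nat.le_ceil _) (cfr_rec hτ 20)
  exact h.2

private theorem milL_gt {t : ℕ} (ht : 2 * S < t) :
    milL t = cf t 20 0 (21 * S2 / t + 1) (fun _ hi => S2 / (t + hi)) := by
  have hb : Nat.ble t (Nat.mul 2 S) = false := by
    rw [← Bool.not_eq_true, Nat.ble_eq]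
    exact not_le.2 ht
  show (Bool.rec _ _ (Nat.ble t (Nat.mul 2 S)) : ℕ) = _
  rw [hb]
  rfl

private theorem milU_gt {t : ℕ} (ht : 2 * S < t) :
    milU t = cf t 20 0 (21 * S2 / t + 1) (fun lo _ => S2 / (t + lo) + 1) := by
  have hb : Nat.ble t (Nat.mul 2 S) = false := by
    rw [← Bool.not_eq_true, Nat.ble_eq]
    exact not_le.2 ht
  show (Bool.rec _ _ (Nat.ble t (Nat.mul 2 S)) : ℕ) = _
  rw [hb]
  rfl

private theorem cf_valS {t : ℕ} (ht : 2 * S < t) :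
    (S : ℝ) * (Ph ((t : ℝ) / S) / phi ((t : ℝ) / S))
      = (S2 : ℝ) / (t + S * cfr ((t : ℝ) / S) 0) := by
  have hτ : (1 : ℝ) ≤ (t : ℝ) / S := by
    rw [le_div_iff₀ S_pos]
    have : ((2 * S : ℕ) : ℝ) < t := by exact_mod_cast ht
    push_cast at this
    linarith [S_pos]
  have hS := S_pos
  have h0 := cfr_pos (τ := (t : ℝ) / S) (by linarith) 0
  have ht' : (0 : ℝ) < t := by
    have : 0 < t := by omega
    exact_mod_cast this
  rw [cf_val hτ, S2_eq]
  field_simp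

theorem milL_le_of_gt {t : ℕ} (ht : 2 * S < t) : (milL t : ℝ) ≤ S * (Ph (t / S) / phi (t / S)) := by
  obtain ⟨h1, h2⟩ := cf_start ht
  obtain ⟨lo, hi, he, hlo, hhi⟩ := cf_spec ht (fun _ hi => S2 / (t + hi)) 20 0 (21 * S2 / t + 1)
    h1 h2
  rw [milL_gt ht, he, cf_valS ht]
  refine (div_le_real _ _).trans ?_
  have ht' : (0 : ℝ) < t := by
    have : 0 < t := by omega
    exact_mod_cast this
  have h0 : (0 : ℝ) ≤ lo := Nat.cast_nonneg _
  push_cast
  refine div_le_div_of_nonneg_left (Nat.cast_nonneg _) (by linarith) ?_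
  linarith

theorem le_milU_of_gt {t : ℕ} (ht : 2 * S < t) : S * (Ph (t / S) / phi (t / S)) ≤ milU t := by
  obtain ⟨h1, h2⟩ := cf_start ht
  obtain ⟨lo, hi, he, hlo, hhi⟩ := cf_spec ht (fun lo _ => S2 / (t + lo) + 1) 20 0
    (21 * S2 / t + 1) h1 h2
  rw [milU_gt ht, he, cf_valS ht]
  have h3 := div_lt_succ S2 (t + lo) (by omega)
  have ht' : (0 : ℝ) < t := by
    have : 0 < t := by omega
    exact_mod_cast this
  have h0 : (0 : ℝ) ≤ lo := Nat.cast_nonneg _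
  push_cast at h3 ⊢
  refine le_trans ?_ h3.le
  refine div_le_div_of_nonneg_left (Nat.cast_nonneg _) (by linarith) ?_
  linarith

end IP49N
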