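import Pool.Agent.IP49N.SBasic

/-! IP49N/SExp: soundness of the fixed point exponential.
`exp y = 1 + y/1 (1 + y/2 (... (1 + y/9 R9)))` with `Rn(y) = ∑_{j≥0} y^j n!/(n+j)!`
(so `Rn = 1 + y/(n+1) R_{n+1}` and `1 ≤ Rn`; `R_9 ≤ 2` for `0 ≤ y ≤ 4`, e.g. `Rn ≤ ∑ (y/10)^j`).
It is convenient to prove by induction on `n` (for `y : ℕ`, real `t ≥ 0`):
if `(s : ℝ) ≤ S t` then `expHL y n s ≤ S * (1 + (y/S)/1 (1 + ... (y/S)/n t))`, i.e. with
`H 0 z t = t`, `H (n+1) z t = H n z (1 + z/(n+1) t)`, and `exp z = H n z (Rn z)`.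
`expPL x`: `y = ⌊x/256⌋`, 8 squarings (`sqL`: if `s ≤ S r`, `r ≥ 0`, then `s*s/S ≤ S r²`), and
`exp(y/S)^256 ≤ exp(x/S)`. `expPU`: `y = ⌊x/256⌋+1`, start value `2 S ≥ S R9(y/S)`, and
`exp(x/S) ≤ exp(y/S)^256`. -/

set_option autoImplicit false

namespace IP49N
open Pool.Agent.IP49

theorem expHL_succ (y n s : ℕ) :
    expHL y (n + 1) s = expHL y n (S + (y * s) / (S * (n + 1))) := by
  unfold expHL
  generalize S = T
  rfl

theorem expHU_succ (y n s : ℕ) :
    expHU y (n + 1) s = expHU y n (S + ((y * s) / (S * (n + 1)) + 1)) := by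
  unfold expHU
  generalize S = T
  rfl

theorem sqL_succ (n s : ℕ) : sqL (n + 1) s = sqL n (s * s / S) := by
  unfold sqL
  generalize S = T
  rfl

theorem sqU_succ (n s : ℕ) : sqU (n + 1) s = sqU n (s * s / S + 1) := by
  unfold sqU
  generalize S = T
  rfl

theorem expHL_le_sum (y : ℕ) (n : ℕ) : ∀ (s : ℕ) (t : ℝ), (s : ℝ) ≤ S * t →
    (expHL y n s : ℝ) ≤ S * (∑ k ∈ Finset.range n, ((y : ℝ) / S) ^ k / (k.factorial : ℝ)
      + ((y : ℝ) / S) ^ n / (n.factorial : ℝ) * t) := by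
  induction n with
  | zero =>
    intro s t h
    have : expHL y 0 s = s := rfl
    rw [this]
    simpa using h
  | succ n ih =>
    intro s t h
    rw [expHL_succ]
    have h1 : ((S + (y * s) / (S * (n + 1)) : ℕ) : ℝ) ≤ S * (1 + (y : ℝ) / S / (n + 1) * t) := by
      have h2 := div_le_real (y * s) (S * (n + 1))
      push_cast at h2 ⊢
      have h3 : (y : ℝ) * s / (S * (n + 1)) ≤ (y : ℝ) * (S * t) / (S * (n + 1)) := by
        apply div_le_div_of_nonneg_right
        · exact mul_le_mul_of_nonneg_left h (Nat.cast_nonneg _)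
        · have := S_pos; positivity
      have h4 : (y : ℝ) * (S * t) / (S * (n + 1)) = S * ((y : ℝ) / S / (n + 1) * t) := by
        have := S_ne
        have h5 : ((n : ℝ) + 1) ≠ 0 := by positivity
        field_simp
      linarith
    refine (ih _ _ h1).trans (le_of_eq ?_)
    rw [Finset.sum_range_succ, Nat.factorial_succ, pow_succ]
    push_cast
    have h5 : ((n : ℝ) + 1) ≠ 0 := by positivity
    have h6 : ((n.factorial : ℕ) : ℝ) ≠ 0 := by positivity
    have := S_ne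
    field_simp
    ring

theorem sum_le_expHU (y : ℕ) (n : ℕ) : ∀ (s : ℕ) (t : ℝ), S * t ≤ (s : ℝ) →
    S * (∑ k ∈ Finset.range n, ((y : ℝ) / S) ^ k / (k.factorial : ℝ)
      + ((y : ℝ) / S) ^ n / (n.factorial : ℝ) * t) ≤ (expHU y n s : ℝ) := by
  induction n with
  | zero =>
    intro s t h
    have : expHU y 0 s = s := rfl
    rw [this]
    simpa using h
  | succ n ih =>
    intro s t h
    rw [expHU_succ]
    have h1 : S * (1 + (y : ℝ) / S / (n + 1) * t) ≤
        ((S + ((y * s) / (S * (n + 1)) + 1) : ℕ) : ℝ) := by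
      have h2 := div_lt_succ (y * s) (S * (n + 1)) (Nat.mul_pos S_posN (Nat.succ_pos n))
      push_cast at h2 ⊢
      have h3 : (y : ℝ) * (S * t) / (S * (n + 1)) ≤ (y : ℝ) * s / (S * (n + 1)) := by
        apply div_le_div_of_nonneg_right
        · exact mul_le_mul_of_nonneg_left h (Nat.cast_nonneg _)
        · have := S_pos; positivity
      have h4 : (y : ℝ) * (S * t) / (S * (n + 1)) = S * ((y : ℝ) / S / (n + 1) * t) := by
        have := S_ne
        have h5 : ((n : ℝ) + 1) ≠ 0 := by positivity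
        field_simp
      linarith
    refine (le_of_eq ?_).trans (ih _ _ h1)
    rw [Finset.sum_range_succ, Nat.factorial_succ, pow_succ]
    push_cast
    have h5 : ((n : ℝ) + 1) ≠ 0 := by positivity
    have h6 : ((n.factorial : ℕ) : ℝ) ≠ 0 := by positivity
    have := S_ne
    field_simp
    ring

theorem sqL_le_pow (n : ℕ) : ∀ (s : ℕ) (r : ℝ), 0 ≤ r → (s : ℝ) ≤ S * r →
    (sqL n s : ℝ) ≤ S * r ^ (2 ^ n) := by
  induction n with
  | zero =>
    intro s r _ h
    have : sqL 0 s = s := rfl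
    rw [this]
    simpa using h
  | succ n ih =>
    intro s r hr h
    rw [sqL_succ]
    have h1 : ((s * s / S : ℕ) : ℝ) ≤ S * r ^ 2 := by
      refine (div_le_real _ _).trans ?_
      rw [div_le_iff₀ S_pos]
      push_cast
      have h2 : (s : ℝ) * s ≤ (S * r) * (S * r) :=
        mul_le_mul h h (Nat.cast_nonneg _) (mul_nonneg S_pos.le hr)
      nlinarith
    refine (ih _ _ (by positivity) h1).trans (le_of_eq ?_)
    rw [← pow_mul, pow_succ 2 n, mul_comm 2]

theorem pow_le_sqU (n : ℕ) : ∀ (s : ℕ) (r : ℝ), 0 ≤ r → S * r ≤ (s : ℝ) →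
    S * r ^ (2 ^ n) ≤ (sqU n s : ℝ) := by
  induction n with
  | zero =>
    intro s r _ h
    have : sqU 0 s = s := rfl
    rw [this]
    simpa using h
  | succ n ih =>
    intro s r hr h
    rw [sqU_succ]
    have h1 : S * r ^ 2 ≤ ((s * s / S + 1 : ℕ) : ℝ) := by
      have h3 := div_lt_succ (s * s) S S_posN
      push_cast at h3 ⊢
      refine le_trans ?_ h3.le
      rw [le_div_iff₀ S_pos]
      have h2 : (S * r) * (S * r) ≤ (s : ℝ) * s :=
        mul_le_mul h h (mul_nonneg S_pos.le hr) (Nat.cast_nonneg _)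
      nlinarith
    refine (le_of_eq ?_).trans (ih _ _ (by positivity) h1)
    rw [← pow_mul, pow_succ 2 n, mul_comm 2]

theorem S_le_expHL (y n : ℕ) : ∀ s : ℕ, S ≤ s → S ≤ expHL y n s := by
  induction n with
  | zero => intro s h; exact h
  | succ n ih =>
    intro s _
    rw [expHL_succ]
    exact ih _ (Nat.le_add_right _ _)

theorem S_le_sqL (n : ℕ) : ∀ s : ℕ, S ≤ s → S ≤ sqL n s := by
  induction n with
  | zero => intro s h; exact h
  | succ n ih =>
    intro s h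
    rw [sqL_succ]
    apply ih
    rw [Nat.le_div_iff_mul_le S_posN]
    exact Nat.mul_le_mul h h

theorem exp_le_sum9 {z : ℝ} (h0 : 0 ≤ z) (h4 : z ≤ 4) :
    Real.exp z ≤ ∑ k ∈ Finset.range 9, z ^ k / (k.factorial : ℝ)
      + z ^ 9 / ((Nat.factorial 9 : ℕ) : ℝ) * 2 := by
  have h := Complex.exp_bound' (x := (z : ℂ)) (n := 9) (by
    rw [Complex.norm_real, Real.norm_eq_abs, abs_of_nonneg h0]
    norm_num
    linarith)
  have h2 : Complex.exp (z : ℂ) - ∑ m ∈ Finset.range 9, (z : ℂ) ^ m / (m.factorial : ℂ)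
      = ((Real.exp z - ∑ k ∈ Finset.range 9, z ^ k / (k.factorial : ℝ) : ℝ) : ℂ) := by
    push_cast
    rfl
  rw [h2, Complex.norm_real, Complex.norm_real, Real.norm_eq_abs, Real.norm_eq_abs,
    abs_of_nonneg h0] at h
  have h3 := le_abs_self (Real.exp z - ∑ k ∈ Finset.range 9, z ^ k / (k.factorial : ℝ))
  linarith

theorem expPL_le (x : ℕ) : (expPL x : ℝ) ≤ S * Real.exp (x / S) := by
  have h1 := expHL_le_sum (x / 256) 9 S 1 (by rw [mul_one])
  have hz : (0 : ℝ) ≤ ((x / 256 : ℕ) : ℝ) / S := by have := S_pos; positivity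
  have h2 := Real.sum_le_exp_of_nonneg hz 10
  rw [Finset.sum_range_succ] at h2
  have h3 : (expHL (x / 256) 9 S : ℝ) ≤ S * Real.exp (((x / 256 : ℕ) : ℝ) / S) := by
    refine h1.trans ?_
    apply mul_le_mul_of_nonneg_left _ S_pos.le
    rw [mul_one]
    exact h2
  have h4 := sqL_le_pow 8 _ _ (Real.exp_pos _).le h3
  have h5 : expPL x = sqL 8 (expHL (x / 256) 9 S) := rfl
  rw [h5]
  refine h4.trans ?_
  apply mul_le_mul_of_nonneg_left _ S_pos.le
  rw [← Real.exp_nat_mul]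
  apply Real.exp_le_exp.mpr
  have h6 : ((x / 256 : ℕ) : ℝ) ≤ x / 256 := by
    have := div_le_real x 256
    exact_mod_cast this
  have h7 : (((2 ^ 8 : ℕ) : ℝ)) = 256 := by norm_num
  rw [h7, ← mul_div_assoc]
  apply div_le_div_of_nonneg_right _ S_pos.le
  linarith

theorem S_le_expPL (x : ℕ) : S ≤ expPL x := by
  have h5 : expPL x = sqL 8 (expHL (x / 256) 9 S) := rfl
  rw [h5]
  exact S_le_sqL _ _ (S_le_expHL _ _ _ le_rfl)

theorem le_expPU {x : ℕ} (hx : x ≤ 1001 * S) : S * Real.exp (x / S) ≤ expPU x := by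
  have h5 : expPU x = sqU 8 (expHU (x / 256 + 1) 9 (2 * S)) := rfl
  rw [h5]
  have hS : (S : ℝ) = 1152921504606846976 := by rw [S_eq]; norm_num
  have hx' : (x : ℝ) ≤ 1001 * S := by exact_mod_cast hx
  have h6 : ((x / 256 : ℕ) : ℝ) ≤ x / 256 := by
    have := div_le_real x 256
    exact_mod_cast this
  have h6' : (x : ℝ) / 256 < ((x / 256 : ℕ) : ℝ) + 1 := by
    have := div_lt_succ x 256 (by norm_num)
    exact_mod_cast this
  have hz0 : (0 : ℝ) ≤ ((x / 256 + 1 : ℕ) : ℝ) / S := by have := S_pos; positivity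
  have hz4 : ((x / 256 + 1 : ℕ) : ℝ) / S ≤ 4 := by
    rw [div_le_iff₀ S_pos]
    push_cast
    rw [hS] at hx' ⊢
    linarith
  have h1 := exp_le_sum9 hz0 hz4
  have h2 := sum_le_expHU (x / 256 + 1) 9 (2 * S) 2 (by push_cast; linarith)
  have h3 : S * Real.exp (((x / 256 + 1 : ℕ) : ℝ) / S) ≤ (expHU (x / 256 + 1) 9 (2 * S) : ℝ) :=
    (mul_le_mul_of_nonneg_left h1 S_pos.le).trans h2
  have h4 := pow_le_sqU 8 _ _ (Real.exp_pos _).le h3
  refine le_trans ?_ h4
  apply mul_le_mul_of_nonneg_left _ S_pos.le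
  rw [← Real.exp_nat_mul]
  apply Real.exp_le_exp.mpr
  have h7 : (((2 ^ 8 : ℕ) : ℝ)) = 256 := by norm_num
  rw [h7, ← mul_div_assoc]
  apply div_le_div_of_nonneg_right _ S_pos.le
  push_cast
  linarith

theorem expNL_le (x : ℕ) : (expNL x : ℝ) ≤ S * Real.exp (-(x / S)) := by
  have h : expNL x = Bool.rec (nat_lit 0) (Nat.div S2 (expPU x)) (Nat.ble x (1000 * S)) := rfl
  rw [h]
  rcases hb : Nat.ble x (1000 * S) with _ | _
  · show ((0 : ℕ) : ℝ) ≤ _
    have := S_pos
    have := Real.exp_pos (-((x : ℝ) / S))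
    push_cast
    positivity
  · show ((S2 / expPU x : ℕ) : ℝ) ≤ _
    have hx : x ≤ 1000 * S := Nat.le_of_ble_eq_true hb
    have h1 := le_expPU (x := x) (hx.trans (Nat.mul_le_mul_right _ (by norm_num)))
    have h2 : (0 : ℝ) < S * Real.exp (x / S) := mul_pos S_pos (Real.exp_pos _)
    refine (div_le_real _ _).trans ?_
    rw [div_le_iff₀ (lt_of_lt_of_le h2 h1), S2_eq, Real.exp_neg]
    have h3 : (0 : ℝ) ≤ S * (Real.exp (x / S))⁻¹ :=
      mul_nonneg S_pos.le (inv_nonneg.mpr (Real.exp_pos _).le)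
    refine le_trans (le_of_eq ?_) (mul_le_mul_of_nonneg_left h1 h3)
    have h4 : Real.exp (x / S) ≠ 0 := (Real.exp_pos _).ne'
    field_simp

theorem le_expNU (x : ℕ) : S * Real.exp (-(x / S)) ≤ expNU x := by
  have h : expNU x = S2 / expPL x + 1 := rfl
  rw [h]
  have h0 : 0 < expPL x := lt_of_lt_of_le S_posN (S_le_expPL x)
  have h1 := div_lt_succ S2 (expPL x) h0
  have h2 := expPL_le x
  push_cast
  refine le_trans ?_ h1.le
  rw [le_div_iff₀ (by exact_mod_cast h0), S2_eq, Real.exp_neg]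
  have h3 : (0 : ℝ) ≤ S * (Real.exp (x / S))⁻¹ :=
    mul_nonneg S_pos.le (inv_nonneg.mpr (Real.exp_pos _).le)
  refine le_trans (mul_le_mul_of_nonneg_left h2 h3) (le_of_eq ?_)
  have h4 : Real.exp (x / S) ≠ 0 := (Real.exp_pos _).ne'
  field_simp

end IP49N
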