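import Pool.Agent.IP49N.SBasic

/-! IP49N/SLog: soundness of the fixed point logarithm.
For `v > 0`, `k = log2 v`, `2^k ≤ v < 2^(k+1)` (`Nat.log2_eq_log_two`, or `Nat.log2_self_le`,
`Nat.lt_log2_self`), `v/S = 2^(k-60) * (v/2^k)`, `w = ⌊v S / 2^k⌋ ∈ [S, 2S)`.
For `w ∈ [S, 2S]`, `t = (w-S)/(w+S) ≤ 1/3`: `log(w/S) = log((1+t)/(1-t)) = 2 ∑ t^(2j+1)/(2j+1)`
(`Real.hasSum_log_sub_log_of_abs_lt_one`); `logWL` is the Horner value of the first 12 terms with
all roundings down (terms are nonnegative; `t` rounded down is fine because the series is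
increasing in `t`); `logWU`: the tail `∑_{j≥12} u^(j-12)/(2j+1) ≤ (1/25)/(1-1/9) ≤ 1/16` even for
`u ≤ 0.112`, all roundings up. `log 2` bounds: `Real.log_two_gt_d9`, `Real.log_two_lt_d9`. -/

set_option autoImplicit false

namespace IP49N
open Pool.Agent.IP49

theorem atL_le {u : ℕ} {x : ℝ} (hx : (u : ℝ) / S ≤ x) (n s : ℕ) :
    (atL u n s : ℝ) ≤ S * (∑ j ∈ Finset.range n, x ^ j / (2 * j + 1)) + x ^ n * s := by
  have hx0 : 0 ≤ x := le_trans (by positivity) hx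
  induction n generalizing s with
  | zero =>
    have : atL u 0 s = s := rfl
    rw [this]; simp
  | succ n ih =>
    have e : atL u (n + 1) s = atL u n (S / (2 * n + 1) + u * s / S) := rfl
    rw [e]
    refine (ih _).trans ?_
    have h1 : ((S / (2 * n + 1) : ℕ) : ℝ) ≤ (S : ℝ) / (2 * n + 1) := by
      have := div_le_real S (2 * n + 1)
      push_cast at this
      exact this
    have h2 : ((u * s / S : ℕ) : ℝ) ≤ x * s := by
      have := div_le_real (u * s) S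
      push_cast at this
      refine this.trans ?_
      rw [mul_div_right_comm]
      exact mul_le_mul_of_nonneg_right hx (Nat.cast_nonneg _)
    rw [Finset.sum_range_succ]
    push_cast
    have h3 : x ^ n * (((S / (2 * n + 1) : ℕ) : ℝ) + ((u * s / S : ℕ) : ℝ))
        ≤ x ^ n * ((S : ℝ) / (2 * n + 1) + x * s) :=
      mul_le_mul_of_nonneg_left (add_le_add h1 h2) (pow_nonneg hx0 n)
    have h4 : x ^ n * ((S : ℝ) / (2 * n + 1) + x * s)
        = S * (x ^ n / (2 * n + 1)) + x ^ (n + 1) * s := by ring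
    rw [h4] at h3
    rw [mul_add]
    linarith

theorem le_atU {u : ℕ} {x : ℝ} (hx0 : 0 ≤ x) (hx : x ≤ (u : ℝ) / S) (n s : ℕ) :
    S * (∑ j ∈ Finset.range n, x ^ j / (2 * j + 1)) + x ^ n * s ≤ (atU u n s : ℝ) := by
  induction n generalizing s with
  | zero =>
    have : atU u 0 s = s := rfl
    rw [this]; simp
  | succ n ih =>
    have e : atU u (n + 1) s = atU u n ((S / (2 * n + 1) + 1) + (u * s / S + 1)) := rfl
    rw [e]
    refine le_trans ?_ (ih _)
    have h1 : (S : ℝ) / (2 * n + 1) ≤ ((S / (2 * n + 1) : ℕ) : ℝ) + 1 := by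
      have := div_lt_succ S (2 * n + 1) (by omega)
      push_cast at this
      exact this.le
    have h2 : x * s ≤ ((u * s / S : ℕ) : ℝ) + 1 := by
      have := div_lt_succ (u * s) S S_posN
      push_cast at this
      refine le_trans ?_ this.le
      rw [mul_div_right_comm]
      exact mul_le_mul_of_nonneg_right hx (Nat.cast_nonneg _)
    rw [Finset.sum_range_succ]
    push_cast
    have h3 : x ^ n * ((S : ℝ) / (2 * n + 1) + x * s)
        ≤ x ^ n * ((((S / (2 * n + 1) : ℕ) : ℝ) + 1) + (((u * s / S : ℕ) : ℝ) + 1)) :=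
      mul_le_mul_of_nonneg_left (add_le_add h1 h2) (pow_nonneg hx0 n)
    have h4 : x ^ n * ((S : ℝ) / (2 * n + 1) + x * s)
        = S * (x ^ n / (2 * n + 1)) + x ^ (n + 1) * s := by ring
    rw [h4] at h3
    rw [mul_add]
    linarith

/-- the series of the logarithm -/
theorem log_ser {w : ℕ} (h1 : S ≤ w) (h2 : w ≤ 2 * S) :
    ∃ t : ℝ, 0 ≤ t ∧ t ≤ 1 / 3 ∧ t = ((w - S : ℕ) : ℝ) / ((w + S : ℕ) : ℝ) ∧
      HasSum (fun k : ℕ => (2 : ℝ) * (1 / (2 * k + 1)) * t ^ (2 * k + 1)) (Real.log (w / S)) := by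
  have hS := S_pos
  have e1 : ((w - S : ℕ) : ℝ) = (w : ℝ) - S := by rw [Nat.cast_sub h1]
  have w1 : (S : ℝ) ≤ w := by exact_mod_cast h1
  have w2 : (w : ℝ) ≤ 2 * S := by exact_mod_cast h2
  have hp : (0 : ℝ) < (w : ℝ) + S := by linarith
  refine ⟨((w - S : ℕ) : ℝ) / ((w + S : ℕ) : ℝ), div_nonneg (Nat.cast_nonneg _) (Nat.cast_nonneg _), ?_, rfl, ?_⟩
  · rw [e1]
    push_cast
    rw [div_le_div_iff₀ hp (by norm_num)]
    linarith
  · rw [e1]
    push_cast
    have ht0 : 0 ≤ ((w : ℝ) - S) / (w + S) := div_nonneg (by linarith) hp.le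
    have ht1 : ((w : ℝ) - S) / (w + S) < 1 := by rw [div_lt_one hp]; linarith
    have h := Real.hasSum_log_sub_log_of_abs_lt_one
      (show |((w : ℝ) - S) / (w + S)| < 1 by rw [abs_of_nonneg ht0]; exact ht1)
    have e2 : Real.log (1 + ((w : ℝ) - S) / (w + S)) - Real.log (1 - ((w : ℝ) - S) / (w + S))
        = Real.log (w / S) := by
      rw [← Real.log_div (by linarith) (by linarith)]
      congr 1
      have hSne := S_ne
      have hpne := hp.ne'
      have a1 : 1 + ((w : ℝ) - S) / (w + S) = 2 * w / (w + S) := by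
        rw [eq_div_iff hpne, add_mul, div_mul_cancel₀ _ hpne]; ring
      have a2 : 1 - ((w : ℝ) - S) / (w + S) = 2 * S / (w + S) := by
        rw [eq_div_iff hpne, sub_mul, div_mul_cancel₀ _ hpne]; ring
      rw [a1, a2, div_div_div_cancel_right₀ hpne, mul_div_mul_left _ _ two_ne_zero]
    rw [e2] at h
    exact h

theorem slog_aux1 (i : ℕ) : (0 : ℝ) ≤ 1 / (2 * (i : ℝ) + 1) := by positivity

theorem slog_aux2 (i : ℕ) : (0 : ℝ) ≤ 2 * (i : ℝ) + 1 := by positivity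

theorem logWL_le {w : ℕ} (h1 : S ≤ w) (h2 : w ≤ 2 * S) :
    (logWL w : ℝ) ≤ S * Real.log (w / S) := by
  have hS := S_pos
  obtain ⟨t, ht0, ht3, hte, hsum⟩ := log_ser h1 h2
  obtain ⟨tf, htf⟩ : ∃ tf : ℕ, tf = (w - S) * S / (w + S) := ⟨_, rfl⟩
  obtain ⟨u, hu⟩ : ∃ u : ℕ, u = tf * tf / S := ⟨_, rfl⟩
  have e : logWL w = 2 * (tf * atL u 12 0 / S) := by
    unfold logWL
    simp only [fc_eq]
    rw [hu, htf]
    rfl
  have h3 : (tf : ℝ) ≤ t * S := by
    rw [htf, hte]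
    have := div_le_real ((w - S) * S) (w + S)
    refine this.trans (le_of_eq ?_)
    push_cast
    ring
  have h3' : (tf : ℝ) / S ≤ t := by rw [div_le_iff₀ hS]; exact h3
  have h4 : (u : ℝ) / S ≤ t ^ 2 := by
    have h5 := div_le_real (tf * tf) S
    rw [← hu] at h5
    push_cast at h5
    rw [div_le_iff₀ hS]
    refine h5.trans ?_
    rw [div_le_iff₀ hS]
    have : (tf : ℝ) * tf ≤ (t * S) * (t * S) :=
      mul_le_mul h3 h3 (Nat.cast_nonneg _) (mul_nonneg ht0 hS.le)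
    nlinarith
  have h6 := atL_le h4 12 0
  have h7 : ((tf * atL u 12 0 / S : ℕ) : ℝ) ≤ (tf : ℝ) * (atL u 12 0 : ℝ) / S := by
    have := div_le_real (tf * atL u 12 0) S
    push_cast at this
    exact this
  have h8 : ∑ k ∈ Finset.range 12, (2 : ℝ) * (1 / (2 * k + 1)) * t ^ (2 * k + 1)
      ≤ Real.log (w / S) := by
    apply sum_le_hasSum _ _ hsum
    intro i _
    exact mul_nonneg (mul_nonneg zero_le_two (slog_aux1 i)) (pow_nonneg ht0 _)
  have h9 : ∑ k ∈ Finset.range 12, (2 : ℝ) * (1 / (2 * k + 1)) * t ^ (2 * k + 1)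
      = 2 * t * ∑ j ∈ Finset.range 12, (t ^ 2) ^ j / (2 * j + 1) := by
    rw [Finset.mul_sum]
    apply Finset.sum_congr rfl
    intro j _
    rw [← pow_mul, pow_succ]
    ring
  rw [h9] at h8
  rw [e]
  push_cast
  have h10 : (tf : ℝ) * (atL u 12 0 : ℝ) / S
      ≤ t * S * (∑ j ∈ Finset.range 12, (t ^ 2) ^ j / (2 * j + 1)) := by
    have : (tf : ℝ) * (atL u 12 0 : ℝ) / S = tf / S * (atL u 12 0 : ℝ) := by ring
    rw [this]
    have h11 : (atL u 12 0 : ℝ) ≤ S * (∑ j ∈ Finset.range 12, (t ^ 2) ^ j / (2 * j + 1)) := by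
      simpa using h6
    calc (tf : ℝ) / S * (atL u 12 0 : ℝ)
        ≤ t * (S * (∑ j ∈ Finset.range 12, (t ^ 2) ^ j / (2 * j + 1))) :=
          mul_le_mul h3' h11 (Nat.cast_nonneg _) ht0
      _ = _ := by ring
  have h12 : (S : ℝ) * (2 * t * ∑ j ∈ Finset.range 12, (t ^ 2) ^ j / (2 * j + 1))
      ≤ S * Real.log (w / S) := mul_le_mul_of_nonneg_left h8 hS.le
  have h13 : 2 * ((tf * atL u 12 0 / S : ℕ) : ℝ) ≤ 2 * (t * S * (∑ j ∈ Finset.range 12, (t ^ 2) ^ j / (2 * j + 1))) := by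
    linarith
  linarith

theorem log_tail {t L : ℝ} (ht0 : 0 ≤ t) (ht3 : t ≤ 1 / 3)
    (hsum : HasSum (fun k : ℕ => (2 : ℝ) * (1 / (2 * k + 1)) * t ^ (2 * k + 1)) L) :
    L ≤ 2 * t * (∑ j ∈ Finset.range 12, (t ^ 2) ^ j / (2 * j + 1)) + 2 * t * ((t ^ 2) ^ 12 / 16) := by
  have h9 : ∑ k ∈ Finset.range 12, (2 : ℝ) * (1 / (2 * k + 1)) * t ^ (2 * k + 1)
      = 2 * t * ∑ j ∈ Finset.range 12, (t ^ 2) ^ j / (2 * j + 1) := by
    rw [Finset.mul_sum]
    apply Finset.sum_congr rfl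
    intro j _
    rw [← pow_mul, pow_succ]
    ring
  have h1 := hsum.summable.sum_add_tsum_nat_add 12
  rw [hsum.tsum_eq] at h1
  rw [← h1, h9]
  have hg : HasSum (fun k : ℕ => 2 * t * (t ^ 2) ^ 12 / 25 * (1 / 9 : ℝ) ^ k)
      (2 * t * (t ^ 2) ^ 12 / 25 * (1 - 1 / 9)⁻¹) :=
    (hasSum_geometric_of_lt_one (by norm_num) (by norm_num)).mul_left _
  have h2 : ∑' k : ℕ, (2 : ℝ) * (1 / (2 * ((k + 12 : ℕ) : ℝ) + 1)) * t ^ (2 * (k + 12) + 1)
      ≤ 2 * t * (t ^ 2) ^ 12 / 25 * (1 - 1 / 9)⁻¹ := by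
    apply hasSum_le _ ((summable_nat_add_iff 12).2 hsum.summable).hasSum hg
    intro k
    have a1 : t ^ (2 * (k + 12) + 1) = t * (t ^ 2) ^ 12 * (t ^ 2) ^ k := by
      rw [← pow_mul, ← pow_mul]; ring
    have a2 : (t ^ 2) ^ k ≤ (1 / 9 : ℝ) ^ k := by
      apply pow_le_pow_left₀ (sq_nonneg t)
      nlinarith
    have a3 : (1 : ℝ) / (2 * ((k + 12 : ℕ) : ℝ) + 1) ≤ 1 / 25 := by
      apply one_div_le_one_div_of_le (by norm_num)
      push_cast
      have : (0 : ℝ) ≤ k := Nat.cast_nonneg k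
      linarith
    show (2 : ℝ) * (1 / (2 * ((k + 12 : ℕ) : ℝ) + 1)) * t ^ (2 * (k + 12) + 1)
      ≤ 2 * t * (t ^ 2) ^ 12 / 25 * (1 / 9 : ℝ) ^ k
    rw [a1]
    calc (2 : ℝ) * (1 / (2 * ((k + 12 : ℕ) : ℝ) + 1)) * (t * (t ^ 2) ^ 12 * (t ^ 2) ^ k)
        ≤ 2 * (1 / 25) * (t * (t ^ 2) ^ 12 * (1 / 9 : ℝ) ^ k) := by
          apply mul_le_mul
          · linarith
          · exact mul_le_mul_of_nonneg_left a2 (by positivity)
          · positivity
          · norm_num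
      _ = _ := by ring
  have h3 : 2 * t * (t ^ 2) ^ 12 / 25 * (1 - 1 / 9)⁻¹ ≤ 2 * t * ((t ^ 2) ^ 12 / 16) := by
    have : 0 ≤ t * (t ^ 2) ^ 12 := by positivity
    have e : (1 - 1 / 9 : ℝ)⁻¹ = 9 / 8 := by norm_num
    rw [e]
    nlinarith
  linarith

theorem le_logWU {w : ℕ} (h1 : S ≤ w) (h2 : w ≤ 2 * S) :
    S * Real.log (w / S) ≤ logWU w := by
  have hS := S_pos
  obtain ⟨t, ht0, ht3, hte, hsum⟩ := log_ser h1 h2
  obtain ⟨tf, htf⟩ : ∃ tf : ℕ, tf = (w - S) * S / (w + S) + 1 := ⟨_, rfl⟩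
  obtain ⟨u, hu⟩ : ∃ u : ℕ, u = tf * tf / S + 1 := ⟨_, rfl⟩
  have e : logWU w = 2 * (tf * atU u 12 (S / 16) / S + 1) := by
    unfold logWU
    simp only [fc_eq]
    rw [hu, htf]
    rfl
  have h3 : t * S ≤ (tf : ℝ) := by
    rw [htf, hte]
    have := div_lt_succ ((w - S) * S) (w + S) (by have := S_posN; omega)
    push_cast at this ⊢
    refine le_trans (le_of_eq ?_) this.le
    ring
  have h3' : t ≤ (tf : ℝ) / S := by rw [le_div_iff₀ hS]; exact h3
  have h4 : t ^ 2 ≤ (u : ℝ) / S := by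
    have h5 := div_lt_succ (tf * tf) S S_posN
    rw [le_div_iff₀ hS, hu]
    push_cast at h5 ⊢
    refine le_trans ?_ h5.le
    rw [le_div_iff₀ hS]
    have : (t * S) * (t * S) ≤ (tf : ℝ) * tf :=
      mul_le_mul h3 h3 (mul_nonneg ht0 hS.le) (Nat.cast_nonneg _)
    nlinarith
  have h6 := le_atU (sq_nonneg t) h4 12 (S / 16)
  have hS16 : ((S / 16 : ℕ) : ℝ) = S / 16 := by
    have : S = 16 * 72057594037927936 := by decide +kernel
    rw [this]
    rw [Nat.mul_div_cancel_left _ (by norm_num)]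
    push_cast
    ring
  rw [hS16] at h6
  have h7 : (tf : ℝ) * (atU u 12 (S / 16) : ℝ) / S ≤ ((tf * atU u 12 (S / 16) / S : ℕ) : ℝ) + 1 := by
    have := div_lt_succ (tf * atU u 12 (S / 16)) S S_posN
    push_cast at this
    exact this.le
  have h8 := log_tail ht0 ht3 hsum
  rw [e]
  push_cast
  have h10 : t * (S * (∑ j ∈ Finset.range 12, (t ^ 2) ^ j / (2 * j + 1)) + (t ^ 2) ^ 12 * (S / 16))
      ≤ (tf : ℝ) * (atU u 12 (S / 16) : ℝ) / S := by
    have : (tf : ℝ) * (atU u 12 (S / 16) : ℝ) / S = tf / S * (atU u 12 (S / 16) : ℝ) := by ring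
    rw [this]
    have p1 : 0 ≤ ∑ j ∈ Finset.range 12, (t ^ 2) ^ j / (2 * (j : ℝ) + 1) :=
      Finset.sum_nonneg fun j _ => div_nonneg (pow_nonneg (sq_nonneg t) j) (slog_aux2 j)
    have p2 : 0 ≤ (t ^ 2) ^ 12 := pow_nonneg (sq_nonneg t) 12
    apply mul_le_mul h3' h6
    · exact add_nonneg (mul_nonneg hS.le p1) (mul_nonneg p2 (by linarith))
    · exact div_nonneg (Nat.cast_nonneg _) hS.le
  have h11 : (S : ℝ) * Real.log (w / S) ≤ S * (2 * t * (∑ j ∈ Finset.range 12, (t ^ 2) ^ j / (2 * j + 1)) + 2 * t * ((t ^ 2) ^ 12 / 16)) :=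
    mul_le_mul_of_nonneg_left h8 hS.le
  have h12 : (S : ℝ) * (2 * t * (∑ j ∈ Finset.range 12, (t ^ 2) ^ j / (2 * j + 1)) + 2 * t * ((t ^ 2) ^ 12 / 16))
      = 2 * (t * (S * (∑ j ∈ Finset.range 12, (t ^ 2) ^ j / (2 * j + 1)) + (t ^ 2) ^ 12 * (S / 16))) := by
    ring
  linarith

theorem log2_bounds {v : ℕ} (hv : 0 < v) : 2 ^ Nat.log2 v ≤ v ∧ v < 2 ^ (Nat.log2 v + 1) :=
  ⟨Nat.log2_self_le hv.ne', Nat.lt_log2_self⟩

theorem l2L_le : (l2L : ℝ) ≤ S * Real.log 2 := by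
  have h := Real.log_two_gt_d9
  have h2 : (l2L : ℝ) ≤ S * 0.6931471803 := by
    rw [S_eq]
    have : (l2L : ℝ) = 799144290025469441 := by
      have : l2L = 799144290025469441 := rfl
      rw [this]; norm_num
    rw [this]
    norm_num
  have h3 : (S : ℝ) * 0.6931471803 ≤ S * Real.log 2 := mul_le_mul_of_nonneg_left h.le S_pos.le
  linarith

theorem le_l2U : S * Real.log 2 ≤ (l2U : ℝ) := by
  have h := Real.log_two_lt_d9
  have h2 : S * 0.6931471808 ≤ (l2U : ℝ) := by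
    rw [S_eq]
    have : (l2U : ℝ) = 799144290601930194 := by
      have : l2U = 799144290601930194 := rfl
      rw [this]; norm_num
    rw [this]
    norm_num
  have h3 : (S : ℝ) * Real.log 2 ≤ S * 0.6931471808 := mul_le_mul_of_nonneg_left h.le S_pos.le
  linarith

theorem log_split {v : ℕ} (hv : 0 < v) (k : ℕ) :
    Real.log ((v : ℝ) / S) = Real.log ((v : ℝ) / 2 ^ k) + ((k : ℝ) - 60) * Real.log 2 := by
  have hv' : (0 : ℝ) < v := by exact_mod_cast hv
  rw [S_eq, Real.log_div hv'.ne' (by positivity), Real.log_div hv'.ne' (by positivity),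
    Real.log_pow, Real.log_pow]
  push_cast
  ring

theorem logL_le {v : ℕ} (hv : 0 < v) : (logL v : ℝ) ≤ S * Real.log (v / S) := by
  have hS := S_pos
  obtain ⟨k, hk⟩ : ∃ k, k = Nat.log2 v := ⟨_, rfl⟩
  obtain ⟨b1, b2⟩ := log2_bounds hv
  rw [← hk] at b1 b2
  obtain ⟨w, hw⟩ : ∃ w, w = v * S / 2 ^ k := ⟨_, rfl⟩
  have w1 : S ≤ w := by
    rw [hw, Nat.le_div_iff_mul_le (by positivity)]
    rw [mul_comm]
    exact Nat.mul_le_mul_right _ b1
  have w2 : w ≤ 2 * S := by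
    rw [hw]
    apply Nat.div_le_of_le_mul
    calc v * S ≤ 2 ^ (k + 1) * S := Nat.mul_le_mul_right _ b2.le
      _ = 2 ^ k * (2 * S) := by ring
  have h1 := logWL_le w1 w2
  have h2 : Real.log ((w : ℝ) / S) ≤ Real.log ((v : ℝ) / 2 ^ k) := by
    apply Real.log_le_log
    · have : (0 : ℝ) < w := lt_of_lt_of_le hS (by exact_mod_cast w1)
      positivity
    · rw [div_le_iff₀ hS]
      have := div_le_real (v * S) (2 ^ k)
      rw [← hw] at this
      push_cast at this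
      refine this.trans (le_of_eq ?_)
      ring
  have h3 : (logWL w : ℝ) ≤ S * Real.log ((v : ℝ) / 2 ^ k) :=
    h1.trans (mul_le_mul_of_nonneg_left h2 hS.le)
  have hsp := log_split hv k
  have e : logL v = (Bool.rec ((logWL w : ℤ) - (((60 - k) * l2U : ℕ) : ℤ))
      (((logWL w + (k - 60) * l2L : ℕ) : ℤ)) (Nat.ble 60 k) : ℤ) := by
    unfold logL
    simp only [fc_eq]
    rw [hw, hk]
    rfl
  rw [e, hsp]
  by_cases hk60 : 60 ≤ k
  · have hb : Nat.ble 60 k = true := Nat.ble_eq_true_of_le hk60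
    rw [hb]
    show ((((logWL w + (k - 60) * l2L : ℕ) : ℤ)) : ℝ) ≤ _
    push_cast [Nat.cast_sub hk60]
    have hk' : (0 : ℝ) ≤ (k : ℝ) - 60 := by
      have : (60 : ℝ) ≤ k := by exact_mod_cast hk60
      linarith
    have h4 := mul_le_mul_of_nonneg_left l2L_le hk'
    nlinarith
  · have hb : Nat.ble 60 k = false := by
      rw [Bool.eq_false_iff]
      intro h
      exact hk60 (Nat.le_of_ble_eq_true h)
    rw [hb]
    show ((((logWL w : ℤ) - (((60 - k) * l2U : ℕ) : ℤ)) : ℤ) : ℝ) ≤ _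
    push Not at hk60
    push_cast [Nat.cast_sub hk60.le]
    have hk' : (0 : ℝ) ≤ 60 - (k : ℝ) := by
      have : (k : ℝ) < 60 := by exact_mod_cast hk60
      linarith
    have h4 := mul_le_mul_of_nonneg_left le_l2U hk'
    nlinarith

theorem le_logU {v : ℕ} (hv : 0 < v) : S * Real.log (v / S) ≤ logU v := by
  have hS := S_pos
  obtain ⟨k, hk⟩ : ∃ k, k = Nat.log2 v := ⟨_, rfl⟩
  obtain ⟨b1, b2⟩ := log2_bounds hv
  rw [← hk] at b1 b2
  obtain ⟨w, hw⟩ : ∃ w, w = v * S / 2 ^ k + 1 := ⟨_, rfl⟩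
  have w1 : S ≤ w := by
    have : S ≤ v * S / 2 ^ k := by
      rw [Nat.le_div_iff_mul_le (by positivity)]
      rw [mul_comm]
      exact Nat.mul_le_mul_right _ b1
    omega
  have w2 : w ≤ 2 * S := by
    have : v * S / 2 ^ k < 2 * S := by
      rw [Nat.div_lt_iff_lt_mul (by positivity)]
      calc v * S < 2 ^ (k + 1) * S := Nat.mul_lt_mul_of_pos_right b2 S_posN
        _ = 2 * S * 2 ^ k := by ring
    omega
  have h1 := le_logWU w1 w2
  have hv' : (0 : ℝ) < v := by exact_mod_cast hv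
  have h2 : Real.log ((v : ℝ) / 2 ^ k) ≤ Real.log ((w : ℝ) / S) := by
    apply Real.log_le_log
    · positivity
    · rw [le_div_iff₀ hS]
      have := div_lt_succ (v * S) (2 ^ k) (by positivity)
      rw [hw]
      push_cast at this ⊢
      refine le_trans (le_of_eq ?_) this.le
      ring
  have h3 : S * Real.log ((v : ℝ) / 2 ^ k) ≤ (logWU w : ℝ) :=
    (mul_le_mul_of_nonneg_left h2 hS.le).trans h1
  have hsp := log_split hv k
  have e : logU v = (Bool.rec ((logWU w : ℤ) - (((60 - k) * l2L : ℕ) : ℤ))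
      (((logWU w + (k - 60) * l2U : ℕ) : ℤ)) (Nat.ble 60 k) : ℤ) := by
    unfold logU
    simp only [fc_eq]
    rw [hw, hk]
    rfl
  rw [e, hsp]
  by_cases hk60 : 60 ≤ k
  · have hb : Nat.ble 60 k = true := Nat.ble_eq_true_of_le hk60
    rw [hb]
    show _ ≤ ((((logWU w + (k - 60) * l2U : ℕ) : ℤ)) : ℝ)
    push_cast [Nat.cast_sub hk60]
    have hk' : (0 : ℝ) ≤ (k : ℝ) - 60 := by
      have : (60 : ℝ) ≤ k := by exact_mod_cast hk60
      linarith
    have h4 := mul_le_mul_of_nonneg_left le_l2U hk'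
    nlinarith
  · have hb : Nat.ble 60 k = false := by
      rw [Bool.eq_false_iff]
      intro h
      exact hk60 (Nat.le_of_ble_eq_true h)
    rw [hb]
    show _ ≤ ((((logWU w : ℤ) - (((60 - k) * l2L : ℕ) : ℤ)) : ℤ) : ℝ)
    push Not at hk60
    push_cast [Nat.cast_sub hk60.le]
    have hk' : (0 : ℝ) ≤ 60 - (k : ℝ) := by
      have : (k : ℝ) < 60 := by exact_mod_cast hk60
      linarith
    have h4 := mul_le_mul_of_nonneg_left l2L_le hk'
    nlinarith

end IP49N
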