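import Pool.Agent.IP49N.SSer
import Pool.Agent.IP49N.SCf
import Pool.Agent.IP49N.SLog

/-! IP49N/SMilV: the raw values of the inverse Mills ratio and of `log Ph` at an integer point.
`x ≥ 0`, `t = x`: `Mi = 1/M`, `log Ph = log M + log phi = log M - t²/2 - log √(2π)`.
`x < 0`, `t = -x`: `Ph x = 1 - Ph t = 1 - phi t · M(t)`, `phi x = phi t = e^(-t²/2)/√(2π)`,
`pl ≤ S phi t ≤ pu`, `ql ≤ S Ph x ≤ qu`. (`Ph_neg` etc.: `Pool.Agent.IP49.MillsCore`.)
Use `milL_le_of_le`/`milL_le_of_gt` by cases `t ≤ 2 S`. -/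

set_option autoImplicit false

namespace IP49N
open Pool.Agent.IP49

theorem milL_le (t : ℕ) : (milL t : ℝ) ≤ S * (Ph (t / S) / phi (t / S)) := by
  rcases le_or_gt t (2 * S) with h | h
  · exact milL_le_of_le h
  · exact milL_le_of_gt h

theorem le_milU (t : ℕ) : S * (Ph (t / S) / phi (t / S)) ≤ milU t := by
  rcases le_or_gt t (2 * S) with h | h
  · exact le_milU_of_le h
  · exact le_milU_of_gt h

theorem milV_nat {α : Type} (t : ℕ) (k : ℕ → ℕ → ℤ → ℤ → Bool → α) :
    milV (Int.ofNat t) k = k (S2 / milU t) (S2 / milL t + 1)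
      (logL (milL t) - ((hU + t * t / (2 * S) + 1 : ℕ) : ℤ))
      (logU (milU t) - ((hL + t * t / (2 * S) : ℕ) : ℤ)) (Nat.ble 1 (milL t)) := by
  unfold milV
  simp only [fc_eq]
  generalize milL t = ml
  generalize milU t = mu'
  generalize S2 = T2
  generalize S = T
  generalize hL = hL'
  generalize hU = hU'
  generalize logL ml = a
  generalize logU mu' = b
  rfl

theorem milV_neg {α : Type} (n : ℕ) (k : ℕ → ℕ → ℤ → ℤ → Bool → α) :
    milV (Int.negSucc n) k =
      (fun pl pu => (fun ql qu => k (pl * S / qu) (pu * S / ql + 1) (logL ql) (logU qu)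
        (Nat.ble 1 ql)) (S - mu pu (milU (n + 1))) (S - pl * milL (n + 1) / S))
        (cL * expNL ((n + 1) * (n + 1) / (2 * S) + 1) / S)
        (mu cU (expNU ((n + 1) * (n + 1) / (2 * S)))) := by
  unfold milV
  simp only [fc_eq]
  generalize milL = ml
  generalize milU = mu'
  generalize S = T
  generalize cL = hL'
  generalize cU = hU'
  generalize logL = a
  generalize logU = b
  generalize expNL = c
  generalize expNU = d
  generalize mu = e
  rfl

theorem Mi_eq_inv (z : ℝ) : Mi z = 1 / (Ph z / phi z) := by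
  unfold Mi
  rw [one_div_div]

theorem log_Ph_eq (z : ℝ) : Real.log (Ph z)
    = Real.log (Ph z / phi z) - z ^ 2 / 2 - Real.log (Real.sqrt (2 * Real.pi)) := by
  have h1 := MC.Ph_pos z
  have h2 := MC.phi_pos z
  have hs : 0 < Real.sqrt (2 * Real.pi) := Real.sqrt_pos.2 (by positivity)
  have h3 : Real.log (phi z) = -z ^ 2 / 2 - Real.log (Real.sqrt (2 * Real.pi)) := by
    unfold phi
    rw [Real.log_div (Real.exp_pos _).ne' hs.ne', Real.log_exp]
  rw [Real.log_div h1.ne' h2.ne', h3]
  ring

/-- `S (t/S)²/2` against the natural quotient -/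
theorem sq_bounds (t : ℕ) : ((t * t / (2 * S) : ℕ) : ℝ) ≤ S * ((t / S : ℝ) ^ 2 / 2) ∧
    S * ((t / S : ℝ) ^ 2 / 2) ≤ ((t * t / (2 * S) : ℕ) : ℝ) + 1 := by
  have hS := S_pos
  have h : S * ((t / S : ℝ) ^ 2 / 2) = ((t * t : ℕ) : ℝ) / ((2 * S : ℕ) : ℝ) := by
    push_cast
    field_simp
  rw [h]
  exact ⟨div_le_real _ _, (div_lt_succ _ _ (by have := S_posN; omega)).le⟩

theorem milV_spec {α : Type} (x : ℤ) (k : ℕ → ℕ → ℤ → ℤ → Bool → α) :
    ∃ (el eh : ℕ) (ll lh : ℤ) (ok : Bool), milV x k = k el eh ll lh ok ∧ (ok = true →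
      (el : ℝ) ≤ S * Mi (x / S) ∧ S * Mi (x / S) ≤ eh ∧
      (ll : ℝ) ≤ S * Real.log (Ph (x / S)) ∧ S * Real.log (Ph (x / S)) ≤ lh) := by
  have hS := S_pos
  rcases x with t | n
  · refine ⟨_, _, _, _, _, milV_nat t k, ?_⟩
    intro hok
    have hml : 1 ≤ milL t := Nat.le_of_ble_eq_true hok
    have hx : ((Int.ofNat t : ℤ) : ℝ) = (t : ℝ) := by simp
    rw [hx]
    have h1 := milL_le t
    have h2 := le_milU t
    have hml' : (1 : ℝ) ≤ milL t := by exact_mod_cast hml
    set M : ℝ := Ph (t / S) / phi (t / S) with hM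
    have hMpos : 0 < M := div_pos (MC.Ph_pos _) (MC.phi_pos _)
    have hSM : 0 < S * M := mul_pos hS hMpos
    have hmu : (1 : ℝ) ≤ milU t := hml'.trans (h1.trans h2)
    have hmuN : 0 < milU t := by
      have : (0 : ℝ) < milU t := by linarith
      exact_mod_cast this
    have hMi : (S : ℝ) * Mi (t / S) = (S2 : ℝ) / (S * M) := by
      rw [Mi_eq_inv, S2_eq, ← hM]
      field_simp
    have hS2 : (0 : ℝ) ≤ S2 := Nat.cast_nonneg _
    refine ⟨?_, ?_, ?_, ?_⟩
    · rw [hMi]
      refine (div_le_real _ _).trans ?_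
      exact div_le_div_of_nonneg_left hS2 hSM h2
    · rw [hMi]
      push_cast
      refine le_trans ?_ (div_lt_succ S2 (milL t) hml).le
      exact div_le_div_of_nonneg_left hS2 (by linarith) h1
    · rw [log_Ph_eq, ← hM]
      have h3 := logL_le (v := milL t) hml
      have h4 : Real.log ((milL t : ℝ) / S) ≤ Real.log M := by
        apply Real.log_le_log (by positivity)
        rw [div_le_iff₀ hS]; linarith
      have h5 := (sq_bounds t).2
      have h6 := le_hU
      have h7 := mul_le_mul_of_nonneg_left h4 hS.le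
      generalize t * t / (2 * S) = h at *
      push_cast
      linarith
    · rw [log_Ph_eq, ← hM]
      have h3 := le_logU (v := milU t) hmuN
      have h4 : Real.log M ≤ Real.log ((milU t : ℝ) / S) := by
        apply Real.log_le_log hMpos
        rw [le_div_iff₀ hS]; linarith
      have h5 := (sq_bounds t).1
      have h6 := hL_le
      have h7 := mul_le_mul_of_nonneg_left h4 hS.le
      generalize t * t / (2 * S) = h at *
      push_cast
      linarith
  · refine ⟨_, _, _, _, _, milV_neg n k, ?_⟩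
    intro hok
    have hql : 1 ≤ S - mu (mu cU (expNU ((n + 1) * (n + 1) / (2 * S)))) (milU (n + 1)) :=
      Nat.le_of_ble_eq_true hok
    generalize ht : n + 1 = t at *
    have hx : ((Int.negSucc n : ℤ) : ℝ) / S = -((t : ℝ) / S) := by
      rw [← ht, Int.cast_negSucc]; push_cast; ring
    rw [hx]
    have h1 := milL_le t
    have h2 := le_milU t
    set M : ℝ := Ph (t / S) / phi (t / S) with hM
    have hphi : 0 < phi (t / S) := MC.phi_pos _
    have hMpos : 0 < M := div_pos (MC.Ph_pos _) hphi
    have hPhM : Ph (t / S) = phi (t / S) * M := by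
      rw [hM]; field_simp
    have hs : 0 < Real.sqrt (2 * Real.pi) := Real.sqrt_pos.2 (by positivity)
    have hsq := sq_bounds t
    generalize hh : t * t / (2 * S) = h at *
    have hphie : phi (t / S) = 1 / Real.sqrt (2 * Real.pi) * Real.exp (-((t / S : ℝ) ^ 2 / 2)) := by
      unfold phi
      rw [neg_div]; ring
    -- lower bound for phi
    have hpl : ((cL * expNL (h + 1) / S : ℕ) : ℝ) ≤ S * phi (t / S) := by
      refine (div_le_real _ _).trans ?_
      rw [div_le_iff₀ hS]
      push_cast
      have e1 := cL_le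
      have e2 := expNL_le (h + 1)
      have e3 : Real.exp (-(((h + 1 : ℕ) : ℝ) / S)) ≤ Real.exp (-((t / S : ℝ) ^ 2 / 2)) := by
        apply Real.exp_le_exp.2
        apply neg_le_neg
        rw [le_div_iff₀ hS]
        push_cast
        linarith [hsq.2]
      have e4 : (expNL (h + 1) : ℝ) ≤ S * Real.exp (-((t / S : ℝ) ^ 2 / 2)) :=
        e2.trans (mul_le_mul_of_nonneg_left e3 hS.le)
      calc (cL : ℝ) * expNL (h + 1)
          ≤ (S * (1 / Real.sqrt (2 * Real.pi))) * (S * Real.exp (-((t / S : ℝ) ^ 2 / 2))) :=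
            mul_le_mul e1 e4 (Nat.cast_nonneg _) (by positivity)
        _ = S * phi (t / S) * S := by rw [hphie]; ring
    have hpu : phi (t / S) * S ≤ (mu cU (expNU h) : ℕ) := by
      rw [hphie]
      apply le_mu (by positivity) (Real.exp_pos _).le
      · have := le_cU; linarith
      · have e2 := le_expNU h
        have e3 : Real.exp (-((t / S : ℝ) ^ 2 / 2)) ≤ Real.exp (-((h : ℝ) / S)) := by
          apply Real.exp_le_exp.2
          apply neg_le_neg
          rw [div_le_iff₀ hS]
          linarith [hsq.1]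
        have e4 := mul_le_mul_of_nonneg_left e3 hS.le
        linarith
    generalize hpl' : cL * expNL (h + 1) / S = pl at *
    generalize hpu' : mu cU (expNU h) = pu at *
    have hPhle : Ph (t / S) * S ≤ (mu pu (milU t) : ℕ) := by
      rw [hPhM]
      apply le_mu hphi.le hMpos.le hpu
      linarith
    have hlePh : ((pl * milL t / S : ℕ) : ℝ) ≤ Ph (t / S) * S := by
      refine (div_le_real _ _).trans ?_
      rw [div_le_iff₀ hS, hPhM]
      push_cast
      calc (pl : ℝ) * milL t ≤ (S * phi (t / S)) * (S * M) :=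
            mul_le_mul hpl h1 (Nat.cast_nonneg _) (by positivity)
        _ = _ := by ring
    have hPh1 := MC.Ph_lt_one (t / S)
    have hPh0 : 0 < Ph (-(t / S : ℝ)) := MC.Ph_pos _
    have hneg := MC.Ph_neg (t / S)
    have hlt : pl * milL t / S ≤ S := by
      have : ((pl * milL t / S : ℕ) : ℝ) ≤ S := by nlinarith
      exact_mod_cast this
    have hql2 : ((S - mu pu (milU t) : ℕ) : ℝ) ≤ S * Ph (-(t / S : ℝ)) := by
      have : mu pu (milU t) ≤ S := by omega
      rw [Nat.cast_sub this, hneg]
      linarith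
    have hqu2 : S * Ph (-(t / S : ℝ)) ≤ ((S - pl * milL t / S : ℕ) : ℝ) := by
      rw [Nat.cast_sub hlt, hneg]
      linarith
    generalize S - mu pu (milU t) = ql at *
    generalize S - pl * milL t / S = qu at *
    have hql1 : (1 : ℝ) ≤ ql := by exact_mod_cast hql
    have hqu1 : 0 < qu := by
      have : (0 : ℝ) < qu := by linarith
      exact_mod_cast this
    have hqu1' : (0 : ℝ) < qu := by exact_mod_cast hqu1
    have hSPh : 0 < S * Ph (-(t / S : ℝ)) := mul_pos hS hPh0
    have hMi : (S : ℝ) * Mi (-(t / S : ℝ))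
        = (S * phi (t / S)) * S / (S * Ph (-(t / S : ℝ))) := by
      unfold Mi
      rw [MC.phi_neg]
      field_simp
    refine ⟨?_, ?_, ?_, ?_⟩
    · rw [hMi]
      refine (div_le_real _ _).trans ?_
      push_cast
      apply div_le_div₀ (by positivity) (mul_le_mul_of_nonneg_right hpl hS.le) hSPh hqu2
    · rw [hMi]
      push_cast
      refine le_trans ?_ (div_lt_succ (pu * S) ql hql).le
      push_cast
      apply div_le_div₀ (by positivity) _ (by linarith) hql2
      apply mul_le_mul_of_nonneg_right _ hS.le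
      linarith
    · have h3 := logL_le (v := ql) hql
      have h4 : Real.log ((ql : ℝ) / S) ≤ Real.log (Ph (-(t / S : ℝ))) := by
        apply Real.log_le_log (by positivity)
        rw [div_le_iff₀ hS]; linarith
      have h7 := mul_le_mul_of_nonneg_left h4 hS.le
      linarith
    · have h3 := le_logU (v := qu) hqu1
      have h4 : Real.log (Ph (-(t / S : ℝ))) ≤ Real.log ((qu : ℝ) / S) := by
        apply Real.log_le_log hPh0
        rw [le_div_iff₀ hS]; linarith
      have h7 := mul_le_mul_of_nonneg_left h4 hS.le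
      linarith

end IP49N
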