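import Pool.Agent.IP49N.SBasic

/-! IP49N/STay: Taylor's formula with remainder of order 4 (both signs of `v`).
For `v > 0` use `taylor_mean_remainder_lagrange` on `[x0, x0+v]`, or elementary: fix `v`, choose `s`
with `g(x0+v) = P(v) + s v⁴` (for `v ≠ 0`), apply Rolle four times to
`h(u) = g(x0+u) - P(u) - s u⁴` (`h(0) = h(v) = 0`, `h'(0) = h''(0) = h'''(0) = 0`) to get
`g4(ξ) = 24 s`; for `v = 0` take `s = 0`. A negative `v` is reduced to a positive one by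
`x ↦ -x`. -/

set_option autoImplicit false

namespace IP49N
open Pool.Agent.IP49

theorem rolle_step {f f' : ℝ → ℝ} {b v : ℝ} (hb : 0 < b) (hv : v ≠ 0)
    (hd : ∀ t, 0 ≤ t → t ≤ b → HasDerivAt f (v * f' t) t) (h0 : f 0 = 0) (hfb : f b = 0) :
    ∃ c, 0 < c ∧ c < b ∧ f' c = 0 := by
  obtain ⟨c, hc, hc'⟩ := exists_hasDerivAt_eq_zero (f := f) (f' := fun t => v * f' t) hb
    (fun t ht => (hd t ht.1 ht.2).continuousAt.continuousWithinAt) (by rw [h0, hfb])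
    (fun t ht => hd t ht.1.le ht.2.le)
  exact ⟨c, hc.1, hc.2, (mul_eq_zero.1 hc').resolve_left hv⟩

theorem hasDerivAt_line {f f' : ℝ → ℝ} {x0 v t : ℝ} (h : HasDerivAt f (f' (x0 + v * t)) (x0 + v * t))
    (c0 c1 c2 c3 c4 : ℝ) :
    HasDerivAt (fun t => f (x0 + v * t) - (c0 + c1 * (v * t) + c2 * (v * t) ^ 2
        + c3 * (v * t) ^ 3 + c4 * (v * t) ^ 4))
      (v * (f' (x0 + v * t) - (c1 + 2 * c2 * (v * t) + 3 * c3 * (v * t) ^ 2
        + 4 * c4 * (v * t) ^ 3))) t := by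
  have hl : HasDerivAt (fun t : ℝ => v * t) v t := by
    simpa using (hasDerivAt_id t).const_mul v
  have hg : HasDerivAt (fun t => f (x0 + v * t)) (f' (x0 + v * t) * v) t :=
    h.comp t (hl.const_add x0)
  have hp := ((((hasDerivAt_const t c0).add (hl.const_mul c1)).add
    ((hl.pow 2).const_mul c2)).add ((hl.pow 3).const_mul c3)).add ((hl.pow 4).const_mul c4)
  refine (hg.sub hp).congr_deriv ?_
  push_cast
  ring

theorem taylor4 {g g1 g2 g3 g4 : ℝ → ℝ} {x0 ρ K : ℝ}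
    (h1 : ∀ y, |y - x0| ≤ ρ → HasDerivAt g (g1 y) y)
    (h2 : ∀ y, |y - x0| ≤ ρ → HasDerivAt g1 (g2 y) y)
    (h3 : ∀ y, |y - x0| ≤ ρ → HasDerivAt g2 (g3 y) y)
    (h4 : ∀ y, |y - x0| ≤ ρ → HasDerivAt g3 (g4 y) y)
    (hK : ∀ y, |y - x0| ≤ ρ → |g4 y| ≤ K) (v : ℝ) (hv : |v| ≤ ρ) :
    ∃ s : ℝ, |s| ≤ K / 24 ∧
      g (x0 + v) = g x0 + g1 x0 * v + g2 x0 / 2 * v ^ 2 + g3 x0 / 6 * v ^ 3 + s * v ^ 4 := by
  have hK0 : 0 ≤ K := by
    have h0 : |x0 - x0| ≤ ρ := by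
      rw [sub_self, abs_zero]
      exact (abs_nonneg v).trans hv
    exact (abs_nonneg _).trans (hK x0 h0)
  rcases eq_or_ne v 0 with rfl | hv0
  · refine ⟨0, by rw [abs_zero]; positivity, ?_⟩
    simp
  have hv4 : v ^ 4 ≠ 0 := pow_ne_zero 4 hv0
  set s := (g (x0 + v) - (g x0 + g1 x0 * v + g2 x0 / 2 * v ^ 2 + g3 x0 / 6 * v ^ 3)) / v ^ 4
    with hs
  have hs' : s * v ^ 4 = g (x0 + v) - (g x0 + g1 x0 * v + g2 x0 / 2 * v ^ 2
      + g3 x0 / 6 * v ^ 3) := div_mul_cancel₀ _ hv4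
  have hball : ∀ t, 0 ≤ t → t ≤ 1 → |x0 + v * t - x0| ≤ ρ := by
    intro t h0 h1
    rw [add_sub_cancel_left, abs_mul, abs_of_nonneg h0]
    exact (mul_le_of_le_one_right (abs_nonneg v) h1).trans hv
  -- first Rolle
  obtain ⟨a1, ha1, ha1', e1⟩ := rolle_step (b := 1) one_pos hv0
    (f := fun t => g (x0 + v * t) - (g x0 + g1 x0 * (v * t) + g2 x0 / 2 * (v * t) ^ 2
        + g3 x0 / 6 * (v * t) ^ 3 + s * (v * t) ^ 4))
    (f' := fun t => g1 (x0 + v * t) - (g1 x0 + 2 * (g2 x0 / 2) * (v * t)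
        + 3 * (g3 x0 / 6) * (v * t) ^ 2 + 4 * s * (v * t) ^ 3))
    (fun t h0 h1' => hasDerivAt_line (h1 _ (hball t h0 h1')) _ _ _ _ _)
    (by simp) (by
      simp only [mul_one]
      linarith)
  obtain ⟨a2, ha2, ha2', e2⟩ := rolle_step (b := a1) ha1 hv0
    (f := fun t => g1 (x0 + v * t) - (g1 x0 + 2 * (g2 x0 / 2) * (v * t)
        + 3 * (g3 x0 / 6) * (v * t) ^ 2 + 4 * s * (v * t) ^ 3))
    (f' := fun t => g2 (x0 + v * t) - (2 * (g2 x0 / 2) + 2 * (3 * (g3 x0 / 6)) * (v * t)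
        + 3 * (4 * s) * (v * t) ^ 2 + 4 * 0 * (v * t) ^ 3))
    (fun t h0 h1' => by
      have h := hasDerivAt_line (h2 _ (hball t h0 (h1'.trans ha1'.le))) (g1 x0)
        (2 * (g2 x0 / 2)) (3 * (g3 x0 / 6)) (4 * s) 0
      simpa only [zero_mul, add_zero] using h)
    (by simp) e1
  obtain ⟨a3, ha3, ha3', e3⟩ := rolle_step (b := a2) ha2 hv0
    (f := fun t => g2 (x0 + v * t) - (2 * (g2 x0 / 2) + 2 * (3 * (g3 x0 / 6)) * (v * t)
        + 3 * (4 * s) * (v * t) ^ 2 + 4 * 0 * (v * t) ^ 3))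
    (f' := fun t => g3 (x0 + v * t) - (2 * (3 * (g3 x0 / 6)) + 2 * (3 * (4 * s)) * (v * t)
        + 3 * 0 * (v * t) ^ 2 + 4 * 0 * (v * t) ^ 3))
    (fun t h0 h1' => by
      have h := hasDerivAt_line (h3 _ (hball t h0 (h1'.trans (ha2'.le.trans ha1'.le))))
        (2 * (g2 x0 / 2)) (2 * (3 * (g3 x0 / 6))) (3 * (4 * s)) 0 0
      simpa only [zero_mul, mul_zero, add_zero] using h)
    (by simp; ring) (by simpa using e2)
  obtain ⟨a4, ha4, ha4', e4⟩ := rolle_step (b := a3) ha3 hv0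
    (f := fun t => g3 (x0 + v * t) - (2 * (3 * (g3 x0 / 6)) + 2 * (3 * (4 * s)) * (v * t)
        + 3 * 0 * (v * t) ^ 2 + 4 * 0 * (v * t) ^ 3))
    (f' := fun t => g4 (x0 + v * t) - (2 * (3 * (4 * s)) + 2 * 0 * (v * t)
        + 3 * 0 * (v * t) ^ 2 + 4 * 0 * (v * t) ^ 3))
    (fun t h0 h1' => by
      have h := hasDerivAt_line (h4 _ (hball t h0 (h1'.trans (ha3'.le.trans
        (ha2'.le.trans ha1'.le))))) (2 * (3 * (g3 x0 / 6))) (2 * (3 * (4 * s))) 0 0 0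
      simpa only [zero_mul, mul_zero, add_zero] using h)
    (by simp; ring) (by simpa using e3)
  refine ⟨s, ?_, by linarith⟩
  have h5 := hK _ (hball a4 ha4.le (ha4'.le.trans (ha3'.le.trans (ha2'.le.trans ha1'.le))))
  have h6 : g4 (x0 + v * a4) = 24 * s := by
    simp only [mul_zero, zero_mul, add_zero] at e4
    linarith
  rw [h6, abs_mul, abs_of_pos (by norm_num : (0 : ℝ) < 24)] at h5
  linarith

end IP49N
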