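import Pool.Agent.IP49N.STM
import Pool.Agent.IP49N.STay
import Pool.Agent.IP49N.SMilV
import Pool.Agent.IP49.MillsB

/-! IP49N/SMilT: inverse Mills ratio and `log Ph` on Taylor models.
With `E = Mi`, `δ = E - x`, `s = E + δ = 2E - x`: `D1 = E' = E δ ∈ (0,1)` (`Md`), `δ' = D1 - 1`,
`s' = 2 D1 - 1`, `D2 = D1 s - E`, `D3 = D2 s + 2 D1² - 2 D1`, `D4 = D3 s + D2 (6 D1 - 3)`
(`HasDerivAt` chain); `(log Ph)' = -E`. `milV_spec` gives the values at the centre `m` of the ball
of `f c`; `|Mi x - Mi y| ≤ |x - y|`, same for `δ` (monotone decreasing, 1-Lipschitz),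
`|log Ph x - log Ph y| ≤ |x - y| (Mi y + |x-y|)`.
Range: for `|y - f c| S ≤ rho`, `D1(y) S ≤ h1`, `l1 ≤ D1(y) S`
(`|E(y)δ(y) - E(x)δ(x)| ≤ |y-x| (E(x)+δ(x)+|y-x|)` and `0 < D1 < 1`), hence (mean value)
`|E(y)-E(x)| ≤ |y-x| sup D1` and `|δ(y)-δ(x)| ≤ |y-x| (1 - inf D1)`; the balls `ER`, `dR` contain
`E(y)`, `δ(y)`, and then `D1R, sR, D2R, D3R, D4R` by ball arithmetic. Then `taylor4` and
`InT.comp`. -/

set_option autoImplicit false

namespace IP49N
open Pool.Agent.IP49

section aux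

private noncomputable def G2 (y : ℝ) : ℝ := Md y * (2 * Mi y - y) - Mi y
private noncomputable def G3 (y : ℝ) : ℝ :=
  G2 y * (2 * Mi y - y) + 2 * (Md y * Md y) - 2 * Md y
private noncomputable def G4 (y : ℝ) : ℝ :=
  G3 y * (2 * Mi y - y) + G2 y * (6 * Md y - 3)

private theorem dMd (y : ℝ) : HasDerivAt Md (G2 y) y := by
  refine (MC.hasDerivAt_Md y).congr_deriv ?_
  unfold G2 MC.Mdd Md; ring

private theorem dS (y : ℝ) : HasDerivAt (fun y => 2 * Mi y - y) (2 * Md y - 1) y :=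
  ((MC.hasDerivAt_Mi y).const_mul 2).sub (hasDerivAt_id y)

private theorem dG2 (y : ℝ) : HasDerivAt G2 (G3 y) y := by
  have h := ((dMd y).mul (dS y)).sub (MC.hasDerivAt_Mi y)
  refine HasDerivAt.congr_deriv (f := G2) h ?_
  unfold G3; ring

private theorem dG3 (y : ℝ) : HasDerivAt G3 (G4 y) y := by
  have h := ((((dG2 y).mul (dS y)).add (((dMd y).mul (dMd y)).const_mul 2))).sub
    ((dMd y).const_mul 2)
  refine HasDerivAt.congr_deriv (f := G3) h ?_
  unfold G4; ring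

/-- `δ = Mi - id` is 1-Lipschitz -/
private theorem dlt_lip (x y : ℝ) : |(Mi x - x) - (Mi y - y)| ≤ |x - y| := by
  rcases le_total x y with h | h
  · have h1 := MC.Mi_mono h
    have h2 := MC.Mi_sub_antitone h
    rw [abs_of_nonneg (by linarith), abs_of_nonpos (by linarith)]
    linarith
  · have h1 := MC.Mi_mono h
    have h2 := MC.Mi_sub_antitone h
    rw [abs_of_nonpos (by linarith), abs_of_nonneg (by linarith)]
    linarith

/-- mean value bounds from bounds of `Md` -/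
private theorem Mi_mv {x y a b : ℝ} (h : ∀ z, |z - x| ≤ |y - x| → a ≤ Md z ∧ Md z ≤ b) :
    |Mi y - Mi x| ≤ |y - x| * b ∧ |(Mi y - y) - (Mi x - x)| ≤ |y - x| * (1 - a) := by
  rcases lt_trichotomy x y with hxy | hxy | hxy
  · obtain ⟨c, hc, he⟩ := exists_hasDerivAt_eq_slope Mi Md hxy MC.continuous_Mi.continuousOn
      (fun z _ => MC.hasDerivAt_Mi z)
    have hyx : 0 < y - x := sub_pos.2 hxy
    have e : Mi y - Mi x = Md c * (y - x) := by rw [he]; field_simp
    have hc' := h c (by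
      rw [abs_of_pos (sub_pos.2 hc.1), abs_of_pos hyx]; linarith [hc.2])
    have p1 := MC.Md_pos c
    have p2 := MC.Md_lt_one c
    have e2 : (Mi y - y) - (Mi x - x) = -((1 - Md c) * (y - x)) := by linarith
    rw [e2, e, abs_neg, abs_mul, abs_mul, abs_of_pos hyx, abs_of_pos p1,
      abs_of_pos (by linarith : 0 < 1 - Md c)]
    constructor <;> nlinarith [hc'.1, hc'.2]
  · subst hxy
    simp
  · obtain ⟨c, hc, he⟩ := exists_hasDerivAt_eq_slope Mi Md hxy MC.continuous_Mi.continuousOn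
      (fun z _ => MC.hasDerivAt_Mi z)
    have hyx : 0 < x - y := sub_pos.2 hxy
    have e : Mi x - Mi y = Md c * (x - y) := by rw [he]; field_simp
    have hc' := h c (by
      rw [abs_sub_comm, abs_of_pos (sub_pos.2 hc.2), abs_sub_comm, abs_of_pos hyx]
      linarith [hc.1])
    have p1 := MC.Md_pos c
    have p2 := MC.Md_lt_one c
    have e2 : (Mi y - y) - (Mi x - x) = (1 - Md c) * (x - y) := by linarith
    rw [e2, abs_sub_comm (Mi y), e, abs_mul, abs_mul, abs_sub_comm y x, abs_of_pos hyx,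
      abs_of_pos p1, abs_of_pos (by linarith : 0 < 1 - Md c)]
    constructor <;> nlinarith [hc'.1, hc'.2]

private theorem Md_diff (x y : ℝ) :
    |Md y - Md x| ≤ |y - x| * (Mi x + (Mi x - x) + |y - x|) := by
  have e : Md y - Md x = Mi y * ((Mi y - y) - (Mi x - x)) + (Mi x - x) * (Mi y - Mi x) := by
    unfold Md; ring
  rw [e]
  have h1 := dlt_lip y x
  have h2 := MC.abs_Mi_sub_le y x
  have h3 := MC.Mi_pos y
  have h4 := MC.lt_Mi x
  have h5 : Mi y ≤ Mi x + |y - x| := by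
    have := (abs_le.1 h2).2; linarith
  calc |Mi y * ((Mi y - y) - (Mi x - x)) + (Mi x - x) * (Mi y - Mi x)|
      ≤ |Mi y * ((Mi y - y) - (Mi x - x))| + |(Mi x - x) * (Mi y - Mi x)| := abs_add_le _ _
    _ = Mi y * |(Mi y - y) - (Mi x - x)| + (Mi x - x) * |Mi y - Mi x| := by
        rw [abs_mul, abs_mul, abs_of_pos h3, abs_of_pos (by linarith : 0 < Mi x - x)]
    _ ≤ Mi y * |y - x| + (Mi x - x) * |y - x| :=
        add_le_add (mul_le_mul_of_nonneg_left h1 h3.le)
          (mul_le_mul_of_nonneg_left h2 (by linarith))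
    _ ≤ (Mi x + |y - x|) * |y - x| + (Mi x - x) * |y - x| :=
        add_le_add (mul_le_mul_of_nonneg_right h5 (abs_nonneg _)) le_rfl
    _ = _ := by ring

private theorem logPh_diff (x y : ℝ) :
    |Real.log (Ph x) - Real.log (Ph y)| ≤ |x - y| * (Mi y + |x - y|) := by
  have h1 := MC.logPh_tangent x y
  have h2 := MC.logPh_tangent y x
  have h3 := MC.Mi_pos y
  have h4 := MC.Mi_pos x
  have h5 : Mi x ≤ Mi y + |x - y| := by
    have := (abs_le.1 (MC.abs_Mi_sub_le x y)).2; linarith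
  have h6 := neg_abs_le (x - y)
  have h7 := le_abs_self (x - y)
  have h8 := abs_nonneg (x - y)
  rw [abs_le]
  constructor
  · nlinarith
  · nlinarith

end aux

theorem TM.mil_spec {α : Type} {f : ℝ → ℝ} {c : ℝ} {W : ℕ} {a : TM} (k : TM → TM → Bool → α)
    (hf : InT f c (W / S) a) :
    ∃ (a1 a2 : TM) (ok : Bool), TM.mil W a k = k a1 a2 ok ∧ (ok = true →
      InT (fun x => Mi (f x)) c (W / S) a1 ∧
      InT (fun x => Real.log (Ph (f x))) c (W / S) a2) := by
  obtain ⟨el, eh, ll, lh, ok, hk, hv⟩ := milV_spec a.a0.m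
    (fun el eh ll lh ok =>
      fc (Nat.sub eh el) fun ew =>
      fc (Nat.add (TM.rho W a) a.a0.r) fun R =>
      fcB ⟨Int.ofNat el, Nat.add ew a.a0.r⟩ fun E =>
      fcB ⟨Int.sub (Int.ofNat el) a.a0.m, Nat.add ew a.a0.r⟩ fun d =>
      fcB (E.mul d) fun D1 =>
      fcB (E.add d) fun s =>
      fcB ((D1.mul s).sub E) fun D2 =>
      fcB (((D2.mul s).add (D1.mul D1).dbl).sub D1.dbl) fun D3 =>
      fc (mu R (Nat.add (Nat.add E.ab d.ab) R)) fun e1 =>
      fc (Nat.min S (Nat.add D1.ab e1)) fun h1 =>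
      fc (Nat.sub (Int.toNat (Int.sub D1.m (Int.ofNat D1.r))) e1) fun l1 =>
      fcB (E.wid (mu R h1)) fun ER =>
      fcB (d.wid (mu R (Nat.sub S l1))) fun dR =>
      fcB (ER.mul dR) fun D1R =>
      fc (ER.add dR).ab fun sR =>
      fc ((D1R.mul (ER.add dR)).sub ER).ab fun D2R =>
      fc (Nat.add (mu D2R sR) (Nat.mul (nat_lit 2) (mu D1R.ab (Bl.one.sub D1R).ab))) fun D3R =>
      fc (Nat.add (mu D3R sR) (mu D2R (Nat.mul (nat_lit 3) (Bl.one.sub D1R.dbl).ab))) fun D4R =>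
      k (TM.comp W a E D1 (D2.dv (nat_lit 2)) (D3.dv (nat_lit 6))
          (Nat.succ (Nat.div D4R (nat_lit 24))))
        (TM.comp W a ⟨ll, Nat.add (Int.toNat (Int.sub lh ll)) (mu a.a0.r (Nat.add eh a.a0.r))⟩
          E.neg (D1.dv (nat_lit 2)).neg (D2.dv (nat_lit 6)).neg
          (Nat.succ (Nat.div D3R (nat_lit 24)))) ok)
  simp only [fc_eq, fcB_eq] at hk
  have hk2 : TM.mil W a k = milV a.a0.m
    (fun el eh ll lh ok =>
      fc (Nat.sub eh el) fun ew =>
      fc (Nat.add (TM.rho W a) a.a0.r) fun R =>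
      fcB ⟨Int.ofNat el, Nat.add ew a.a0.r⟩ fun E =>
      fcB ⟨Int.sub (Int.ofNat el) a.a0.m, Nat.add ew a.a0.r⟩ fun d =>
      fcB (E.mul d) fun D1 =>
      fcB (E.add d) fun s =>
      fcB ((D1.mul s).sub E) fun D2 =>
      fcB (((D2.mul s).add (D1.mul D1).dbl).sub D1.dbl) fun D3 =>
      fc (mu R (Nat.add (Nat.add E.ab d.ab) R)) fun e1 =>
      fc (Nat.min S (Nat.add D1.ab e1)) fun h1 =>
      fc (Nat.sub (Int.toNat (Int.sub D1.m (Int.ofNat D1.r))) e1) fun l1 =>
      fcB (E.wid (mu R h1)) fun ER =>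
      fcB (d.wid (mu R (Nat.sub S l1))) fun dR =>
      fcB (ER.mul dR) fun D1R =>
      fc (ER.add dR).ab fun sR =>
      fc ((D1R.mul (ER.add dR)).sub ER).ab fun D2R =>
      fc (Nat.add (mu D2R sR) (Nat.mul (nat_lit 2) (mu D1R.ab (Bl.one.sub D1R).ab))) fun D3R =>
      fc (Nat.add (mu D3R sR) (mu D2R (Nat.mul (nat_lit 3) (Bl.one.sub D1R.dbl).ab))) fun D4R =>
      k (TM.comp W a E D1 (D2.dv (nat_lit 2)) (D3.dv (nat_lit 6))
          (Nat.succ (Nat.div D4R (nat_lit 24))))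
        (TM.comp W a ⟨ll, Nat.add (Int.toNat (Int.sub lh ll)) (mu a.a0.r (Nat.add eh a.a0.r))⟩
          E.neg (D1.dv (nat_lit 2)).neg (D2.dv (nat_lit 6)).neg
          (Nat.succ (Nat.div D3R (nat_lit 24)))) ok) := rfl
  simp only [fc_eq, fcB_eq] at hk2
  rw [hk] at hk2
  refine ⟨_, _, ok, hk2, fun hok => ?_⟩
  clear hk hk2
  obtain ⟨v1, v2, v3, v4⟩ := hv hok
  -- centre
  have hx : InB (f c) a.a0 := hf.center
  set x := f c with hxdef
  set r0 := a.a0.r with hr0
  set x0 : ℝ := (a.a0.m : ℝ) / S with hx0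
  have Sp := S_pos
  have hx0S : x0 * S = a.a0.m := by rw [hx0]; field_simp
  have hxx : |x - x0| * S ≤ r0 := by
    have := hx
    unfold InB at this
    rw [← hx0S, ← sub_mul, abs_mul, abs_of_pos Sp] at this
    exact this
  have hle : el ≤ eh := by
    have : (el : ℝ) ≤ eh := v1.trans v2
    exact_mod_cast this
  set E : Bl := ⟨Int.ofNat el, Nat.add (Nat.sub eh el) r0⟩ with hE
  set d : Bl := ⟨Int.sub (Int.ofNat el) a.a0.m, Nat.add (Nat.sub eh el) r0⟩ with hd
  have hew : ((Nat.sub eh el : ℕ) : ℝ) = (eh : ℝ) - el := by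
    show ((eh - el : ℕ) : ℝ) = _
    push_cast [Nat.cast_sub hle]; ring
  have iE : InB (Mi x) E := by
    unfold InB
    show |Mi x * S - (((el : ℕ) : ℤ) : ℝ)| ≤ ((Nat.sub eh el + r0 : ℕ) : ℝ)
    push_cast
    rw [hew]
    have h1 := MC.abs_Mi_sub_le x x0
    have h2 : |(Mi x - Mi x0) * S| ≤ r0 := by
      rw [abs_mul, abs_of_pos Sp]
      exact (mul_le_mul_of_nonneg_right h1 Sp.le).trans hxx
    have h3 : |S * Mi x0 - el| ≤ eh - el := by
      rw [abs_of_nonneg (by linarith)]; linarith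
    calc |Mi x * S - el| = |(Mi x - Mi x0) * S + (S * Mi x0 - el)| := by ring_nf
      _ ≤ _ := abs_add_le _ _
      _ ≤ _ := by linarith
  have id : InB (Mi x - x) d := by
    unfold InB
    show |(Mi x - x) * S - (((el : ℤ) - a.a0.m : ℤ) : ℝ)| ≤ ((Nat.sub eh el + r0 : ℕ) : ℝ)
    push_cast
    rw [hew, ← hx0S]
    have h1 := dlt_lip x x0
    have h2 : |((Mi x - x) - (Mi x0 - x0)) * S| ≤ r0 := by
      rw [abs_mul, abs_of_pos Sp]
      exact (mul_le_mul_of_nonneg_right h1 Sp.le).trans hxx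
    have h3 : |S * Mi x0 - el| ≤ eh - el := by
      rw [abs_of_nonneg (by linarith)]; linarith
    calc |(Mi x - x) * S - (el - x0 * S)|
        = |((Mi x - x) - (Mi x0 - x0)) * S + (S * Mi x0 - el)| := by ring_nf
      _ ≤ _ := abs_add_le _ _
      _ ≤ _ := by linarith
  have iD1 : InB (Md x) (E.mul d) := iE.mul id
  have is : InB (2 * Mi x - x) (E.add d) := by
    have := iE.add id
    rwa [show Mi x + (Mi x - x) = 2 * Mi x - x by ring] at this
  have iD2 : InB (G2 x) (((E.mul d).mul (E.add d)).sub E) := (iD1.mul is).sub iE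
  set D1 := E.mul d with hD1
  set s := E.add d with hs
  set D2 := (D1.mul s).sub E with hD2
  have iD3 : InB (G3 x) (((D2.mul s).add (D1.mul D1).dbl).sub D1.dbl) :=
    ((iD2.mul is).add (iD1.mul iD1).dbl).sub iD1.dbl
  set D3 := ((D2.mul s).add (D1.mul D1).dbl).sub D1.dbl with hD3
  set R := Nat.add (TM.rho W a) r0 with hR
  set e1 := mu R (Nat.add (Nat.add E.ab d.ab) R) with he1
  set h1 := Nat.min S (Nat.add D1.ab e1) with hh1
  set l1 := Nat.sub (Int.toNat (Int.sub D1.m (Int.ofNat D1.r))) e1 with hl1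
  set ER := E.wid (mu R h1) with hER
  set dR := d.wid (mu R (Nat.sub S l1)) with hdR
  set D1R := ER.mul dR with hD1R
  set sR := (ER.add dR).ab with hsR
  set D2R := ((D1R.mul (ER.add dR)).sub ER).ab with hD2R
  set D3R := Nat.add (mu D2R sR) (Nat.mul (nat_lit 2) (mu D1R.ab (Bl.one.sub D1R).ab)) with hD3R
  set D4R := Nat.add (mu D3R sR) (mu D2R (Nat.mul (nat_lit 3) (Bl.one.sub D1R.dbl).ab))
    with hD4R
  have Mx := MC.Mi_pos x
  have dx := MC.lt_Mi x
  -- crude range bounds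
  have rR : ((TM.rho W a : ℕ) : ℝ) ≤ R := by
    rw [hR]
    show ((TM.rho W a : ℕ) : ℝ) ≤ ((TM.rho W a + r0 : ℕ) : ℝ)
    push_cast
    have : (0 : ℝ) ≤ r0 := Nat.cast_nonneg _
    linarith
  have crude : ∀ y, |y - x| * S ≤ TM.rho W a → |Md y - Md x| * S ≤ e1 := by
    intro y hy
    have hyR : |y - x| * S ≤ R := hy.trans rR
    have h2 := Md_diff x y
    have h3 : (Mi x + (Mi x - x) + |y - x|) * S ≤ ((Nat.add (Nat.add E.ab d.ab) R : ℕ) : ℝ) := by
      show (Mi x + (Mi x - x) + |y - x|) * S ≤ ((E.ab + d.ab + R : ℕ) : ℝ)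
      have q1 := iE.ab
      have q2 := id.ab
      rw [abs_of_pos Mx] at q1
      rw [abs_of_pos (by linarith : 0 < Mi x - x)] at q2
      push_cast
      nlinarith
    have h4 := le_mu (abs_nonneg (y - x)) (by have := abs_nonneg (y - x); linarith : (0:ℝ) ≤ Mi x + (Mi x - x) + |y - x|) hyR h3
    exact (mul_le_mul_of_nonneg_right h2 Sp.le).trans h4
  have hh1b : ∀ y, |y - x| * S ≤ TM.rho W a → Md y * S ≤ h1 := by
    intro y hy
    have c1 := crude y hy
    have p2 := MC.Md_lt_one y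
    rw [hh1]
    show Md y * S ≤ ((min S (D1.ab + e1) : ℕ) : ℝ)
    push_cast
    refine le_min ?_ ?_
    · nlinarith
    · have q1 := iD1.ab
      rw [abs_of_pos (MC.Md_pos x)] at q1
      have q2 : (Md y - Md x) * S ≤ |Md y - Md x| * S :=
        mul_le_mul_of_nonneg_right (le_abs_self _) Sp.le
      nlinarith
  have hl1b : ∀ y, |y - x| * S ≤ TM.rho W a → (l1 : ℝ) ≤ Md y * S := by
    intro y hy
    have c1 := crude y hy
    have p1 := MC.Md_pos y
    have q0 : 0 ≤ Md y * S := by positivity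
    have q1 : (D1.m : ℝ) - D1.r ≤ Md x * S := by
      have := iD1
      unfold InB at this
      have := (abs_le.1 this).1
      linarith
    have q2 : -(|Md y - Md x| * S) ≤ (Md y - Md x) * S := by
      have := mul_le_mul_of_nonneg_right (neg_abs_le (Md y - Md x)) Sp.le
      linarith
    rcases Nat.eq_zero_or_pos l1 with h0 | h0
    · rw [h0]; simpa using q0
    · have e : (l1 : ℤ) = (D1.m - D1.r) - e1 := by
        have a1 : l1 = (D1.m - (D1.r : ℤ)).toNat - e1 := rfl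
        omega
      have e2 : (l1 : ℝ) = ((D1.m : ℝ) - D1.r) - e1 := by exact_mod_cast e
      rw [e2]
      nlinarith
  have hl1S : l1 ≤ S := by
    have q := hl1b x (by simp)
    have p2 := MC.Md_lt_one x
    have : (l1 : ℝ) ≤ S := by nlinarith
    exact_mod_cast this
  have Rng : ∀ y, |y - x| ≤ TM.rho W a / S →
      InB (Mi y) ER ∧ InB (Mi y - y) dR := by
    intro y hy
    have hyS : |y - x| * S ≤ TM.rho W a := by rwa [le_div_iff₀ Sp] at hy
    have mv := Mi_mv (x := x) (y := y) (a := l1 / S) (b := h1 / S) (fun z hz => by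
      have hz' : |z - x| * S ≤ TM.rho W a :=
        (mul_le_mul_of_nonneg_right hz Sp.le).trans hyS
      exact ⟨by rw [div_le_iff₀ Sp]; exact hl1b z hz', by rw [le_div_iff₀ Sp]; exact hh1b z hz'⟩)
    have hyR : |y - x| * S ≤ R := hyS.trans rR
    constructor
    · refine iE.wid ?_
      have h2 := le_mu (a := R) (b := h1) (abs_nonneg (y - x))
        (by positivity : (0 : ℝ) ≤ (h1 : ℝ) / S) hyR (by rw [div_mul_cancel₀ _ S_ne])
      exact (mul_le_mul_of_nonneg_right mv.1 Sp.le).trans h2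
    · refine id.wid ?_
      have hl1R : (l1 : ℝ) ≤ S := by exact_mod_cast hl1S
      have hc : ((Nat.sub S l1 : ℕ) : ℝ) = (S : ℝ) - l1 := by
        show ((S - l1 : ℕ) : ℝ) = _
        push_cast [Nat.cast_sub hl1S]; ring
      have h2 := le_mu (a := R) (b := Nat.sub S l1) (abs_nonneg (y - x))
        (by rw [sub_nonneg, div_le_one Sp]; exact hl1R : (0 : ℝ) ≤ 1 - (l1 : ℝ) / S) hyR
        (by rw [hc, sub_mul, div_mul_cancel₀ _ S_ne, one_mul])
      exact (mul_le_mul_of_nonneg_right mv.2 Sp.le).trans h2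
  have R1 : ∀ y, |y - x| ≤ TM.rho W a / S → InB (Md y) D1R := fun y hy =>
    (Rng y hy).1.mul (Rng y hy).2
  have Rs : ∀ y, |y - x| ≤ TM.rho W a / S → InB (2 * Mi y - y) (ER.add dR) := by
    intro y hy
    have := (Rng y hy).1.add (Rng y hy).2
    rwa [show Mi y + (Mi y - y) = 2 * Mi y - y by ring] at this
  have Rs' : ∀ y, |y - x| ≤ TM.rho W a / S → |2 * Mi y - y| * S ≤ sR := fun y hy =>
    (Rs y hy).ab
  have R2 : ∀ y, |y - x| ≤ TM.rho W a / S → |G2 y| * S ≤ D2R := fun y hy =>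
    (((R1 y hy).mul (Rs y hy)).sub (Rng y hy).1).ab
  have R3 : ∀ y, |y - x| ≤ TM.rho W a / S → |G3 y| * S ≤ D3R := by
    intro y hy
    have q1 := le_mu (abs_nonneg _) (abs_nonneg _) (R2 y hy) (Rs' y hy)
    have q2 := le_mu (abs_nonneg _) (abs_nonneg _) (R1 y hy).ab (InB.one.sub (R1 y hy)).ab
    have e : G3 y = G2 y * (2 * Mi y - y) + (-(2 * (Md y * (1 - Md y)))) := by
      unfold G3; ring
    have e3 : |G3 y| ≤ |G2 y| * |2 * Mi y - y| + 2 * (|Md y| * |1 - Md y|) := by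
      rw [e]
      refine (abs_add_le _ _).trans ?_
      rw [abs_neg, abs_mul, abs_mul, abs_mul, abs_of_pos (two_pos : (0 : ℝ) < 2)]
    rw [hD3R]
    show |G3 y| * S ≤ ((mu D2R sR + 2 * (mu D1R.ab (Bl.one.sub D1R).ab) : ℕ) : ℝ)
    push_cast
    have := mul_le_mul_of_nonneg_right e3 Sp.le
    nlinarith
  have R4 : ∀ y, |y - x| ≤ TM.rho W a / S → |G4 y| * S ≤ D4R := by
    intro y hy
    have q1 := le_mu (abs_nonneg _) (abs_nonneg _) (R3 y hy) (Rs' y hy)
    have q0 := (InB.one.sub (R1 y hy).dbl).ab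
    have q2 := le_mu (x := |G2 y|) (y := 3 * |1 - 2 * Md y|)
      (b := Nat.mul (nat_lit 3) (Bl.one.sub D1R.dbl).ab) (abs_nonneg _) (by positivity) (R2 y hy)
      (by
        show 3 * |1 - 2 * Md y| * S ≤ ((3 * (Bl.one.sub D1R.dbl).ab : ℕ) : ℝ)
        push_cast
        nlinarith)
    have e : G4 y = G3 y * (2 * Mi y - y) + (-(G2 y * (3 * (1 - 2 * Md y)))) := by
      unfold G4; ring
    have e3 : |G4 y| ≤ |G3 y| * |2 * Mi y - y| + |G2 y| * (3 * |1 - 2 * Md y|) := by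
      rw [e]
      refine (abs_add_le _ _).trans ?_
      rw [abs_neg, abs_mul, abs_mul, abs_mul, abs_of_pos (three_pos : (0 : ℝ) < 3)]
    rw [hD4R]
    show |G4 y| * S ≤ ((mu D3R sR + mu D2R (Nat.mul (nat_lit 3) (Bl.one.sub D1R.dbl).ab) : ℕ) : ℝ)
    push_cast
    have := mul_le_mul_of_nonneg_right e3 Sp.le
    nlinarith
  have mk : ∀ (K : ℕ) (t : ℝ), |t| ≤ (K / S : ℝ) / 24 →
      |t| * S ≤ ((Nat.succ (Nat.div K (nat_lit 24)) : ℕ) : ℝ) := by
    intro K t ht
    show |t| * S ≤ ((K / 24 + 1 : ℕ) : ℝ)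
    have h1 := div_lt_succ K 24 (by norm_num)
    push_cast at h1 ⊢
    have h2 : |t| * S ≤ (K : ℝ) / 24 := by
      have := mul_le_mul_of_nonneg_right ht Sp.le
      rw [show (K / S : ℝ) / 24 * S = K / 24 by field_simp] at this
      exact this
    linarith
  constructor
  · refine hf.comp ?_
    refine ⟨Mi x, Md x, G2 x / 2, G3 x / 6, iE, iD1, ?_, ?_, ?_⟩
    · have := iD2.dv (n := 2) (by norm_num)
      exact_mod_cast this
    · have := iD3.dv (n := 6) (by norm_num)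
      exact_mod_cast this
    · intro v hv
      obtain ⟨t, ht, he⟩ := taylor4 (g := Mi) (g1 := Md) (g2 := G2) (g3 := G3) (g4 := G4)
        (x0 := x) (ρ := TM.rho W a / S) (K := (D4R / S : ℝ))
        (fun y _ => MC.hasDerivAt_Mi y) (fun y _ => dMd y) (fun y _ => dG2 y)
        (fun y _ => dG3 y) (fun y hy => by rw [le_div_iff₀ Sp]; exact R4 y hy) v hv
      exact ⟨t, mk _ _ ht, he⟩
  · refine hf.comp (g := fun y => Real.log (Ph y)) ?_
    refine ⟨Real.log (Ph x), -Mi x, -(Md x) / 2, -(G2 x) / 6, ?_, iE.neg, ?_, ?_, ?_⟩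
    · unfold InB
      show |Real.log (Ph x) * S - (ll : ℝ)| ≤
        (((lh - ll).toNat + mu r0 (Nat.add eh r0) : ℕ) : ℝ)
      have hll : ll ≤ lh := by
        have : (ll : ℝ) ≤ lh := v3.trans v4
        exact_mod_cast this
      have e1 : (((lh - ll).toNat : ℕ) : ℝ) = (lh : ℝ) - ll := by
        have : (((lh - ll).toNat : ℕ) : ℤ) = lh - ll := Int.toNat_of_nonneg (by omega)
        exact_mod_cast this
      push_cast
      rw [e1]
      have h2 := logPh_diff x x0
      have h3 : (Mi x0 + |x - x0|) * S ≤ ((Nat.add eh r0 : ℕ) : ℝ) := by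
        show (Mi x0 + |x - x0|) * S ≤ ((eh + r0 : ℕ) : ℝ)
        push_cast
        nlinarith
      have h4 := le_mu (abs_nonneg (x - x0))
        (by have := abs_nonneg (x - x0); have := MC.Mi_pos x0; linarith :
          (0 : ℝ) ≤ Mi x0 + |x - x0|) hxx h3
      have h5 : |(Real.log (Ph x) - Real.log (Ph x0)) * S| ≤ mu r0 (Nat.add eh r0) := by
        rw [abs_mul, abs_of_pos Sp]
        exact (mul_le_mul_of_nonneg_right h2 Sp.le).trans h4
      have h6 : |S * Real.log (Ph x0) - ll| ≤ (lh : ℝ) - ll := by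
        rw [abs_of_nonneg (by linarith)]; linarith
      calc |Real.log (Ph x) * S - ll|
          = |(Real.log (Ph x) - Real.log (Ph x0)) * S + (S * Real.log (Ph x0) - ll)| := by
            ring_nf
        _ ≤ _ := abs_add_le _ _
        _ ≤ _ := by linarith
    · have := (iD1.dv (n := 2) (by norm_num)).neg
      rw [show -(Md x) / 2 = -(Md x / ((2 : ℕ) : ℝ)) by push_cast; ring]
      exact this
    · have := (iD2.dv (n := 6) (by norm_num)).neg
      rw [show -(G2 x) / 6 = -(G2 x / ((6 : ℕ) : ℝ)) by push_cast; ring]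
      exact this
    · intro v hv
      obtain ⟨t, ht, he⟩ := taylor4 (g := fun y => Real.log (Ph y)) (g1 := fun y => -Mi y)
        (g2 := fun y => -Md y) (g3 := fun y => -G2 y) (g4 := fun y => -G3 y)
        (x0 := x) (ρ := TM.rho W a / S) (K := (D3R / S : ℝ))
        (fun y _ => MC.hasDerivAt_logPh y) (fun y _ => (MC.hasDerivAt_Mi y).neg)
        (fun y _ => (dMd y).neg) (fun y _ => (dG2 y).neg)
        (fun y hy => by rw [abs_neg, le_div_iff₀ Sp]; exact R3 y hy) v hv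
      exact ⟨t, mk _ _ ht, he⟩

end IP49N
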