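import Pool.Agent.IP49N.STM
import Pool.Agent.IP49N.STay
import Pool.Agent.IP49N.SExp
import Pool.Agent.IP49N.SLog

/-! IP49N/STh: `tanh` and `lc = log (2 cosh)` on Taylor models.
`tanh t = (1 - e)/(1 + e)`, `lc x = |x| + log(1 + e)`, `e = exp(-2|x|)`; values at the centre `m` of
the ball of `f c`, both functions are 1-Lipschitz. With `T = tanh x`, `T1 = 1 - T²`:
derivatives of `tanh`: `T1, -2 T T1, -2 T1² + 4 T² T1, 8 T T1 (2 - 3 T²)`; of `lc`: `T, T1, -2 T T1,
-2 T1 (1 - 3T²)`. Range (`|y - m/S| S ≤ R = rho + a0.r`): `sech² y ≤ sech²(m/S) + |y - m/S|`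
(derivative `-2 T T1`, absolute value `≤ 1`), `|tanh y| ≤ |tanh(m/S)| + |y - m/S| sup sech²`.
`|8 T T1 (2-3T²)| ≤ 16 |T| T1`, `|1 - 3T²| ≤ max(1, 3T²-1)`. Then `taylor4` and `InT.comp`. -/

set_option autoImplicit false

namespace IP49N
open Pool.Agent.IP49

/-! ### analysis -/

private theorem dtanh (x : ℝ) : HasDerivAt Real.tanh (1 - Real.tanh x ^ 2) x := by
  have h := (Real.hasDerivAt_sinh x).div (Real.hasDerivAt_cosh x) (Real.cosh_pos x).ne'
  have h1 : Real.sinh / Real.cosh = Real.tanh := by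
    funext y
    rw [Real.tanh_eq_sinh_div_cosh]
    rfl
  rw [h1] at h
  refine h.congr_deriv ?_
  rw [Real.tanh_eq_sinh_div_cosh]
  have := (Real.cosh_pos x).ne'
  field_simp

private theorem tsq (x : ℝ) : Real.tanh x ^ 2 < 1 := by
  have := Real.abs_tanh_lt_one x
  rw [← sq_abs]
  nlinarith [abs_nonneg (Real.tanh x)]

private theorem dlc (x : ℝ) : HasDerivAt lc (Real.tanh x) x := by
  have h := ((Real.hasDerivAt_cosh x).const_mul 2).log (by have := Real.cosh_pos x; positivity)
  refine h.congr_deriv ?_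
  rw [Real.tanh_eq_sinh_div_cosh]
  have := (Real.cosh_pos x).ne'
  field_simp

/-- the derivative of `tanh` as a function -/
private theorem dT1 (x : ℝ) :
    HasDerivAt (fun y => 1 - Real.tanh y ^ 2) (-2 * Real.tanh x * (1 - Real.tanh x ^ 2)) x := by
  refine (((dtanh x).pow 2).const_sub 1).congr_deriv ?_
  ring

private theorem dT2 (x : ℝ) :
    HasDerivAt (fun y => -2 * Real.tanh y * (1 - Real.tanh y ^ 2))
      (-2 * (1 - Real.tanh x ^ 2) ^ 2 + 4 * Real.tanh x ^ 2 * (1 - Real.tanh x ^ 2)) x := by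
  refine (((dtanh x).const_mul (-2)).mul (dT1 x)).congr_deriv ?_
  ring

private theorem dT3 (x : ℝ) :
    HasDerivAt (fun y => -2 * (1 - Real.tanh y ^ 2) ^ 2 +
        4 * Real.tanh y ^ 2 * (1 - Real.tanh y ^ 2))
      (8 * Real.tanh x * (1 - Real.tanh x ^ 2) * (2 - 3 * Real.tanh x ^ 2)) x := by
  refine ((((dT1 x).pow 2).const_mul (-2)).add ((((dtanh x).pow 2).const_mul 4).mul
    (dT1 x))).congr_deriv ?_
  simp only [Pi.pow_apply]
  ring

private theorem mv {f f' : ℝ → ℝ} {C x y : ℝ} (hd : ∀ z, HasDerivAt f (f' z) z)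
    (hb : ∀ z, |z - x| ≤ |y - x| → |f' z| ≤ C) : |f y - f x| ≤ C * |y - x| := by
  have h := Convex.norm_image_sub_le_of_norm_hasDerivWithin_le (f := f) (f' := f') (C := C)
    (s := Set.uIcc x y) (x := x) (y := y) (fun z _ => (hd z).hasDerivWithinAt)
    (fun z hz => by
      rw [Real.norm_eq_abs]
      exact hb z (Set.abs_sub_left_of_mem_uIcc hz))
    (convex_uIcc x y) Set.left_mem_uIcc Set.right_mem_uIcc
  simpa [Real.norm_eq_abs] using h

private theorem tanh_lip (x y : ℝ) : |Real.tanh y - Real.tanh x| ≤ |y - x| := by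
  have h := mv (C := 1) dtanh (x := x) (y := y) fun z _ => by
    have := tsq z
    rw [abs_of_pos (by linarith)]
    nlinarith [sq_nonneg (Real.tanh z)]
  linarith

private theorem lc_lip (x y : ℝ) : |lc y - lc x| ≤ |y - x| := by
  have h := mv (C := 1) dlc (x := x) (y := y) fun z _ => (Real.abs_tanh_lt_one z).le
  linarith

private theorem sech_lip (x y : ℝ) :
    |(1 - Real.tanh y ^ 2) - (1 - Real.tanh x ^ 2)| ≤ |y - x| := by
  have h := mv (C := 1) dT1 (x := x) (y := y) fun z _ => by
    have h1 := tsq z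
    have h2 := Real.abs_tanh_lt_one z
    rw [abs_mul, abs_mul, abs_of_pos (a := 1 - Real.tanh z ^ 2) (by linarith)]
    rw [← sq_abs] at h1 ⊢
    generalize |Real.tanh z| = s at *
    have h3 : |(-2 : ℝ)| = 2 := by norm_num
    rw [h3]
    nlinarith [sq_nonneg (s - 1 / 2), sq_nonneg (s * (s - 1 / 2)), sq_nonneg (s - 3/5),
      sq_nonneg (2 * s - 1), mul_nonneg (abs_nonneg (Real.tanh z)) (sq_nonneg (s - 3 / 5))]
  linarith

private theorem tanh_abs' (z : ℝ) : Real.tanh |z| =
    (1 - Real.exp (-(2 * |z|))) / (1 + Real.exp (-(2 * |z|))) := by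
  rw [Real.tanh_eq]
  have h1 : Real.exp (-(2 * |z|)) = Real.exp (-|z|) * Real.exp (-|z|) := by
    rw [← Real.exp_add]; ring_nf
  have h2 : Real.exp |z| * Real.exp (-|z|) = 1 := by rw [← Real.exp_add]; simp
  have h3 := Real.exp_pos |z|
  have h4 := Real.exp_pos (-|z|)
  rw [h1, div_eq_div_iff (by positivity) (by positivity)]
  linear_combination 2 * Real.exp (-|z|) * h2

private theorem lc_abs' (z : ℝ) : lc z = |z| + Real.log (1 + Real.exp (-(2 * |z|))) := by
  have h1 : Real.exp (-(2 * |z|)) = Real.exp (-|z|) * Real.exp (-|z|) := by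
    rw [← Real.exp_add]; ring_nf
  have h2 : Real.exp |z| * Real.exp (-|z|) = 1 := by rw [← Real.exp_add]; simp
  have h3 : 2 * Real.cosh z = Real.exp |z| * (1 + Real.exp (-(2 * |z|))) := by
    rw [← Real.cosh_abs, Real.cosh_eq, h1]
    linear_combination -Real.exp (-|z|) * h2
  rw [lc, h3, Real.log_mul (Real.exp_pos _).ne' (by positivity), Real.log_exp]

/-! ### natural number estimates -/

private theorem cast_sub_ge (a b : ℕ) : (a : ℝ) - b ≤ ((a - b : ℕ) : ℝ) := by
  have : a ≤ (a - b) + b := by omega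
  have h : (a : ℝ) ≤ ((a - b : ℕ) : ℝ) + b := by exact_mod_cast this
  linarith

/-- lower bound of `tanh |z|` -/
private theorem tl_le {e : ℝ} (he : 0 < e) (he1 : e ≤ 1) {eh : ℕ} (h : S * e ≤ eh) :
    (((S - eh) * S / (S + eh) : ℕ) : ℝ) ≤ S * ((1 - e) / (1 + e)) := by
  have hS := S_pos
  by_cases hle : eh ≤ S
  · refine (div_le_real _ _).trans ?_
    push_cast [Nat.cast_sub hle]
    rw [← mul_div_assoc, div_le_div_iff₀ (by positivity) (by positivity)]
    nlinarith [mul_le_mul_of_nonneg_left h hS.le]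
  · have h0 : S - eh = 0 := by omega
    rw [h0]
    simp only [Nat.zero_mul, Nat.zero_div, Nat.cast_zero]
    have : 0 ≤ (1 - e) / (1 + e) := div_nonneg (by linarith) (by linarith)
    positivity

/-- upper bound of `tanh |z|` -/
private theorem le_tu {e : ℝ} (he : 0 < e) (he1 : e ≤ 1) {el : ℕ} (h : (el : ℝ) ≤ S * e) :
    S * ((1 - e) / (1 + e)) ≤ (((S - el) * S / (S + el) + 1 : ℕ) : ℝ) := by
  have hS := S_pos
  have hle : el ≤ S := by
    have : (el : ℝ) ≤ S := by nlinarith
    exact_mod_cast this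
  have h1 := div_lt_succ ((S - el) * S) (S + el) (by have := S_posN; omega)
  push_cast [Nat.cast_sub hle] at h1 ⊢
  refine le_trans ?_ h1.le
  rw [← mul_div_assoc, div_le_div_iff₀ (by positivity) (by positivity)]
  nlinarith [mul_le_mul_of_nonneg_left h hS.le]

theorem TM.th_spec {α : Type} {f : ℝ → ℝ} {c : ℝ} {W : ℕ} {a : TM} (k : TM → TM → α)
    (hf : InT f c (W / S) a) :
    ∃ (a1 a2 : TM), TM.th W a k = k a1 a2 ∧
      InT (fun x => Real.tanh (f x)) c (W / S) a1 ∧ InT (fun x => lc (f x)) c (W / S) a2 := by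
  have hS := S_pos
  have hx0 := hf.center
  set x0 := f c with hx0d
  -- the centre of the ball
  set t : ℕ := a.a0.m.natAbs with ht
  set z : ℝ := a.a0.m / S with hz
  have hzt : |z| = t / S := by
    rw [hz, abs_div, abs_of_pos hS, ht, Nat.cast_natAbs, Int.cast_abs]
  have hxz : |x0 - z| * S ≤ a.a0.r := by
    have h1 : (x0 - z) * S = x0 * S - a.a0.m := by
      rw [hz, sub_mul, div_mul_cancel₀ _ hS.ne']
    rw [← abs_of_pos hS, ← abs_mul, h1]
    exact hx0
  set e := Real.exp (-(2 * |z|)) with he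
  have he0 : 0 < e := Real.exp_pos _
  have he1 : e ≤ 1 := Real.exp_le_one_iff.2 (by have := abs_nonneg z; linarith)
  have h2t : (((2 * t : ℕ) : ℝ) / S) = 2 * |z| := by rw [hzt]; push_cast; ring
  set el := expNL (2 * t) with hel
  set eh := expNU (2 * t) with heh
  have hel' : (el : ℝ) ≤ S * e := by
    have := expNL_le (2 * t)
    rwa [h2t] at this
  have heh' : S * e ≤ eh := by
    have := le_expNU (2 * t)
    rwa [h2t] at this
  set tl : ℕ := (S - eh) * S / (S + eh) with htl
  set tu : ℕ := (S - el) * S / (S + el) + 1 with htu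
  have htl' : (tl : ℝ) ≤ S * Real.tanh |z| := by
    rw [tanh_abs']
    exact tl_le he0 he1 heh'
  have htu' : S * Real.tanh |z| ≤ tu := by
    rw [tanh_abs']
    exact le_tu he0 he1 hel'
  have htz0 : 0 ≤ Real.tanh |z| := by
    rw [tanh_abs']
    exact div_nonneg (by linarith) (by linarith)
  have htz : |Real.tanh z| = Real.tanh |z| := by
    rcases abs_cases z with ⟨h1, h2⟩ | ⟨h1, h2⟩
    · rw [h1, abs_of_nonneg]
      rwa [h1] at htz0
    · rw [h1, Real.tanh_neg] at htz0 ⊢
      rw [abs_of_nonpos (by linarith)]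
  -- the ball of tanh
  have hTB : ∀ T : Bl, T.m = (Int.casesOn (motive := fun _ => ℤ) a.a0.m (fun _ => Int.ofNat tl)
      (fun _ => Int.neg (Int.ofNat tl))) → T.r = (tu - tl) + a.a0.r → InB (Real.tanh x0) T := by
    intro T hm hr
    have h1 : |Real.tanh z * S - T.m| ≤ ((tu - tl : ℕ) : ℝ) := by
      have h2 : |Real.tanh |z| * S - tl| ≤ ((tu - tl : ℕ) : ℝ) := by
        have h3 := cast_sub_ge tu tl
        rw [abs_of_nonneg (by linarith)]
        linarith
      rcases hc : a.a0.m with n | n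
      · have hm' : T.m = (tl : ℤ) := by rw [hm, hc]; rfl
        have hz0 : 0 ≤ z := by
          rw [hz, hc]
          simp only [Int.ofNat_eq_natCast, Int.cast_natCast]
          positivity
        rw [hm']
        rw [abs_of_nonneg hz0] at h2
        exact_mod_cast h2
      · have hm' : T.m = -(tl : ℤ) := by rw [hm, hc]; rfl
        have hz0 : z < 0 := by
          rw [hz, hc]
          refine div_neg_of_neg_of_pos ?_ hS
          exact_mod_cast Int.negSucc_lt_zero n
        rw [abs_of_neg hz0, Real.tanh_neg] at h2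
        rw [hm']
        push_cast
        rw [← abs_neg]
        refine (le_of_eq ?_).trans h2
        congr 1
        ring
    have h4 := mul_le_mul_of_nonneg_right (tanh_lip z x0) hS.le
    unfold InB
    rw [hr]
    push_cast
    calc |Real.tanh x0 * S - T.m| = |(Real.tanh z * S - T.m) +
          (Real.tanh x0 - Real.tanh z) * S| := by ring_nf
      _ ≤ |Real.tanh z * S - T.m| + |(Real.tanh x0 - Real.tanh z) * S| := abs_add_le _ _
      _ = |Real.tanh z * S - T.m| + |Real.tanh x0 - Real.tanh z| * S := by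
          rw [abs_mul, abs_of_pos hS]
      _ ≤ _ := by linarith
  set T : Bl := ⟨Int.casesOn (motive := fun _ => ℤ) a.a0.m (fun _ => Int.ofNat tl)
      (fun _ => Int.neg (Int.ofNat tl)), (tu - tl) + a.a0.r⟩ with hTd
  have hT : InB (Real.tanh x0) T := hTB T rfl rfl
  set R : ℕ := TM.rho W a + a.a0.r with hR
  have hyR : ∀ y, |y - x0| ≤ TM.rho W a / S → |y - z| * S ≤ R := by
    intro y hy
    rw [le_div_iff₀ hS] at hy
    have h1 : |y - z| ≤ |y - x0| + |x0 - z| := abs_sub_le _ _ _
    have h2 := mul_le_mul_of_nonneg_right h1 hS.le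
    rw [hR]
    push_cast
    linarith
  set sh : ℕ := min S ((S - tl * tl / S) + R) with hsh
  have hsh' : ∀ y, |y - z| * S ≤ R → (1 - Real.tanh y ^ 2) * S ≤ sh := by
    intro y hy
    rw [hsh]
    push_cast
    refine le_min ?_ ?_
    · nlinarith [sq_nonneg (Real.tanh y)]
    · have h1 := cast_sub_ge S (tl * tl / S)
      have h2 := div_le_real (tl * tl) S
      have h3 : ((tl * tl : ℕ) : ℝ) / S ≤ Real.tanh z ^ 2 * S := by
        rw [div_le_iff₀ hS, ← sq_abs (Real.tanh z), htz]
        push_cast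
        nlinarith [Nat.cast_nonneg (α := ℝ) tl]
      have h4 := (le_abs_self _).trans (sech_lip z y)
      have h5 := mul_le_mul_of_nonneg_right h4 hS.le
      linarith
  set tR : ℕ := min S (tu + mu R sh) with htR
  have htR' : ∀ y, |y - z| * S ≤ R → |Real.tanh y| * S ≤ tR := by
    intro y hy
    rw [htR]
    push_cast
    refine le_min ?_ ?_
    · nlinarith [Real.abs_tanh_lt_one y]
    · have h1 : |Real.tanh y - Real.tanh z| ≤ sh / S * |y - z| := by
        refine mv dtanh fun w hw => ?_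
        have h2 := tsq w
        rw [abs_of_pos (by linarith), le_div_iff₀ hS]
        exact hsh' w ((mul_le_mul_of_nonneg_right hw hS.le).trans hy)
      have h3 : |Real.tanh y| ≤ |Real.tanh z| + |Real.tanh y - Real.tanh z| := by
        have := abs_add_le (Real.tanh z) (Real.tanh y - Real.tanh z)
        simpa using this
      have h4 : |y - z| * (sh / S) * S ≤ mu R sh :=
        le_mu (abs_nonneg _) (by positivity) hy (by rw [div_mul_cancel₀ _ hS.ne'])
      have h5 := mul_le_mul_of_nonneg_right h3 hS.le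
      have h6 := mul_le_mul_of_nonneg_right h1 hS.le
      rw [htz] at h5
      nlinarith
  -- the remaining balls
  have hT1 : InB (1 - Real.tanh x0 ^ 2) (Bl.one.sub (T.mul T)) := by
    rw [sq]
    exact InB.one.sub (hT.mul hT)
  set T1 := Bl.one.sub (T.mul T) with hT1d
  have hT2 : InB (Real.tanh x0 * (1 - Real.tanh x0 ^ 2)) (T.mul T1) := hT.mul hT1
  set T2 := T.mul T1 with hT2d
  have hT3 : InB ((1 - Real.tanh x0 ^ 2) * (1 - Real.tanh x0 ^ 2) -
      2 * (Real.tanh x0 * (Real.tanh x0 * (1 - Real.tanh x0 ^ 2))))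
      ((T1.mul T1).sub (T.mul T2).dbl) := (hT1.mul hT1).sub (hT.mul hT2).dbl
  set T3 := (T1.mul T1).sub (T.mul T2).dbl with hT3d
  have hsh0 : (0 : ℝ) ≤ sh := Nat.cast_nonneg _
  have htR0 : (0 : ℝ) ≤ tR := Nat.cast_nonneg _
  -- expansion of tanh
  have hex1 : Ex4 Real.tanh x0 (TM.rho W a / S) T T1 T2.neg (T3.dv 3).neg
      (2 * mu tR sh / 3 + 1) := by
    refine ⟨Real.tanh x0, 1 - Real.tanh x0 ^ 2, -2 * Real.tanh x0 * (1 - Real.tanh x0 ^ 2) / 2,
      (-2 * (1 - Real.tanh x0 ^ 2) ^ 2 + 4 * Real.tanh x0 ^ 2 * (1 - Real.tanh x0 ^ 2)) / 6,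
      hT, hT1, ?_, ?_, fun v hv => ?_⟩
    · have : -2 * Real.tanh x0 * (1 - Real.tanh x0 ^ 2) / 2 =
          -(Real.tanh x0 * (1 - Real.tanh x0 ^ 2)) := by ring
      rw [this]
      exact hT2.neg
    · have : (-2 * (1 - Real.tanh x0 ^ 2) ^ 2 +
          4 * Real.tanh x0 ^ 2 * (1 - Real.tanh x0 ^ 2)) / 6 =
          -(((1 - Real.tanh x0 ^ 2) * (1 - Real.tanh x0 ^ 2) -
            2 * (Real.tanh x0 * (Real.tanh x0 * (1 - Real.tanh x0 ^ 2)))) / (3 : ℕ)) := by
        push_cast
        ring
      rw [this]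
      exact (hT3.dv (by norm_num)).neg
    · obtain ⟨s, hs, hs2⟩ := taylor4 (ρ := TM.rho W a / S) (K := 16 * (tR / S) * (sh / S))
        (fun y _ => dtanh y) (fun y _ => dT1 y) (fun y _ => dT2 y) (fun y _ => dT3 y)
        (fun y hy => by
          have hy' := hyR y hy
          have h1 : |Real.tanh y| ≤ tR / S := by
            rw [le_div_iff₀ hS]; exact htR' y hy'
          have h2 : 1 - Real.tanh y ^ 2 ≤ sh / S := by
            rw [le_div_iff₀ hS]; exact hsh' y hy'
          have h3 := tsq y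
          have h4 : |2 - 3 * Real.tanh y ^ 2| ≤ 2 := by
            rw [abs_le]
            constructor <;> nlinarith [sq_nonneg (Real.tanh y)]
          have h5 : |8 * Real.tanh y * (1 - Real.tanh y ^ 2) * (2 - 3 * Real.tanh y ^ 2)| =
              8 * (|Real.tanh y| * (1 - Real.tanh y ^ 2)) * |2 - 3 * Real.tanh y ^ 2| := by
            rw [abs_mul, abs_mul, abs_mul, abs_of_pos (a := 1 - Real.tanh y ^ 2) (by linarith),
              abs_of_pos (a := (8 : ℝ)) (by norm_num)]
            ring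
          have h6 : |Real.tanh y| * (1 - Real.tanh y ^ 2) ≤ tR / S * (sh / S) :=
            mul_le_mul h1 h2 (by linarith) (div_nonneg htR0 hS.le)
          have h7 : 0 ≤ |Real.tanh y| * (1 - Real.tanh y ^ 2) :=
            mul_nonneg (abs_nonneg _) (by linarith)
          rw [h5]
          nlinarith [abs_nonneg (2 - 3 * Real.tanh y ^ 2)]) v hv
      refine ⟨s, ?_, hs2⟩
      have h1 : tR / S * (sh / S) * S ≤ (mu tR sh : ℝ) :=
        le_mu (div_nonneg htR0 hS.le) (div_nonneg hsh0 hS.le) (by rw [div_mul_cancel₀ _ hS.ne'])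
          (by rw [div_mul_cancel₀ _ hS.ne'])
      have h2 := div_lt_succ (2 * mu tR sh) 3 (by norm_num)
      have h3 := mul_le_mul_of_nonneg_right hs hS.le
      push_cast at h2 ⊢
      linarith
  -- expansion of lc
  have hlz : InB (lc x0) ⟨(t : ℤ) + logL (S + el),
      (logU (S + eh) - logL (S + el)).toNat + a.a0.r⟩ := by
    have h1 : (logL (S + el) : ℝ) ≤ S * Real.log (1 + e) := by
      refine (logL_le (by have := S_posN; omega)).trans ?_
      refine mul_le_mul_of_nonneg_left (Real.log_le_log (div_pos (Nat.cast_pos.2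
        (by have := S_posN; omega)) hS) ?_) hS.le
      rw [div_le_iff₀ hS]
      push_cast
      linarith
    have h2 : S * Real.log (1 + e) ≤ logU (S + eh) := by
      refine le_trans ?_ (le_logU (by have := S_posN; omega))
      refine mul_le_mul_of_nonneg_left (Real.log_le_log (by positivity) ?_) hS.le
      rw [le_div_iff₀ hS]
      push_cast
      linarith
    have h3 := mul_le_mul_of_nonneg_right (lc_lip z x0) hS.le
    have h4 : lc z * S = t + S * Real.log (1 + e) := by
      rw [lc_abs', hzt]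
      rw [← hzt, ← he, hzt, add_mul, div_mul_cancel₀ _ hS.ne']
      ring
    have h5 : ((logU (S + eh) - logL (S + el) : ℤ) : ℝ) ≤
        (((logU (S + eh) - logL (S + el)).toNat : ℕ) : ℝ) := by
      exact_mod_cast Int.self_le_toNat _
    push_cast at h5
    unfold InB
    push_cast
    rw [abs_le]
    have h6 : |(lc x0 - lc z) * S| ≤ a.a0.r := by
      rw [abs_mul, abs_of_pos hS]
      linarith
    rw [abs_le] at h6
    constructor <;> nlinarith [h6.1, h6.2]
  have hex2 : Ex4 lc x0 (TM.rho W a / S) ⟨(t : ℤ) + logL (S + el),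
      (logU (S + eh) - logL (S + el)).toNat + a.a0.r⟩ T (T1.dv 2) (T2.dv 3).neg
      (mu sh (max S (3 * mu tR tR - S)) / 12 + 1) := by
    refine ⟨lc x0, Real.tanh x0, (1 - Real.tanh x0 ^ 2) / 2,
      (-2 * Real.tanh x0 * (1 - Real.tanh x0 ^ 2)) / 6, hlz, hT, ?_, ?_, fun v hv => ?_⟩
    · have := hT1.dv (n := 2) (by norm_num)
      exact_mod_cast this
    · have : -2 * Real.tanh x0 * (1 - Real.tanh x0 ^ 2) / 6 =
          -(Real.tanh x0 * (1 - Real.tanh x0 ^ 2) / (3 : ℕ)) := by push_cast; ring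
      rw [this]
      exact (hT2.dv (by norm_num)).neg
    · set mx : ℕ := max S (3 * mu tR tR - S) with hmx
      obtain ⟨s, hs, hs2⟩ := taylor4 (ρ := TM.rho W a / S) (K := 2 * (sh / S) * (mx / S))
        (fun y _ => dlc y) (fun y _ => dtanh y) (fun y _ => dT1 y) (fun y _ => dT2 y)
        (fun y hy => by
          have hy' := hyR y hy
          have h1 : |Real.tanh y| ≤ tR / S := by
            rw [le_div_iff₀ hS]; exact htR' y hy'
          have h2 : 1 - Real.tanh y ^ 2 ≤ sh / S := by
            rw [le_div_iff₀ hS]; exact hsh' y hy'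
          have h3 := tsq y
          have h8 : |Real.tanh y| * |Real.tanh y| * S ≤ mu tR tR :=
            le_mu (abs_nonneg _) (abs_nonneg _) (by rw [← le_div_iff₀ hS]; exact h1)
              (by rw [← le_div_iff₀ hS]; exact h1)
          rw [abs_mul_abs_self, ← sq] at h8
          have h4 : |1 - 3 * Real.tanh y ^ 2| ≤ (mx : ℝ) / S := by
            rw [abs_le, neg_le, le_div_iff₀ hS, le_div_iff₀ hS]
            have h9 := cast_sub_ge (3 * mu tR tR) S
            have h10 : ((3 * mu tR tR - S : ℕ) : ℝ) ≤ mx := Nat.cast_le.2 (le_max_right _ _)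
            have h11 : (S : ℝ) ≤ mx := Nat.cast_le.2 (le_max_left _ _)
            rw [Nat.cast_mul] at h9
            have h12 := mul_nonneg (sq_nonneg (Real.tanh y)) hS.le
            constructor
            · push_cast at h9
              linarith
            · linarith
          have h5 : |-2 * (1 - Real.tanh y ^ 2) ^ 2 +
              4 * Real.tanh y ^ 2 * (1 - Real.tanh y ^ 2)| =
              2 * ((1 - Real.tanh y ^ 2) * |1 - 3 * Real.tanh y ^ 2|) := by
            have : -2 * (1 - Real.tanh y ^ 2) ^ 2 +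
              4 * Real.tanh y ^ 2 * (1 - Real.tanh y ^ 2) =
              -2 * ((1 - Real.tanh y ^ 2) * (1 - 3 * Real.tanh y ^ 2)) := by ring
            rw [this, abs_mul, abs_mul, abs_of_pos (a := 1 - Real.tanh y ^ 2) (by linarith)]
            norm_num
          have h6 : (1 - Real.tanh y ^ 2) * |1 - 3 * Real.tanh y ^ 2| ≤ sh / S * (mx / S) :=
            mul_le_mul h2 h4 (abs_nonneg _) (div_nonneg hsh0 hS.le)
          rw [h5]
          linarith) v hv
      refine ⟨s, ?_, hs2⟩
      have h1 : sh / S * (mx / S) * S ≤ (mu sh mx : ℝ) :=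
        le_mu (div_nonneg hsh0 hS.le) (div_nonneg (Nat.cast_nonneg _) hS.le)
          (by rw [div_mul_cancel₀ _ hS.ne']) (by rw [div_mul_cancel₀ _ hS.ne'])
      have h2 := div_lt_succ (mu sh mx) 12 (by norm_num)
      have h3 := mul_le_mul_of_nonneg_right hs hS.le
      push_cast at h2 ⊢
      linarith
  refine ⟨_, _, ?_, hf.comp hex1, hf.comp hex2⟩
  simp only [TM.th, fc_eq, fcB_eq]
  rfl

end IP49N
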