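import Pool.Agent.IP49N.SExp
import Pool.Agent.IP49N.SLog

/-! IP49N/SUnB: `1/x`, `log x`, `exp x` on balls.
`inv`: `|1/x - 1/m| = |x - m|/(x m) ≤ r/(m (m - r))` (all scaled: `x S ∈ [m-r, m+r]`).
`log`: `|log x - log m| ≤ |x - m|/min(x, m) ≤ r/(m - r)`, plus `logL`, `logU`.
`exp`: `lo ≤ S exp(m/S) ≤ hi`, and for `|ρ| ≤ r/S ≤ 1`: `|exp ρ - 1| ≤ r/S + (r/S)²`
(`Real.abs_exp_sub_one_sub_id_le` or similar). -/

set_option autoImplicit false

namespace IP49N
open Pool.Agent.IP49

theorem posB_iff (a : Bl) : posB a = true ↔ (a.r : ℤ) < a.m := by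
  obtain ⟨m, r⟩ := a
  cases m with
  | ofNat m =>
    show Nat.ble (Nat.succ r) m = true ↔ (r : ℤ) < (m : ℤ)
    rw [Nat.ble_eq]
    omega
  | negSucc m =>
    show false = true ↔ (r : ℤ) < Int.negSucc m
    constructor
    · intro h; exact absurd h (by decide)
    · intro h; omega

private theorem pos_data {x : ℝ} {a : Bl} (hx : InB x a) (h : posB a = true) :
    ∃ m : ℕ, a.m = (m : ℤ) ∧ a.r < m ∧ (m : ℝ) - a.r ≤ x * S ∧ x * S ≤ m + a.r := by
  rw [posB_iff] at h
  obtain ⟨m, hm⟩ : ∃ m : ℕ, a.m = (m : ℤ) := ⟨a.m.toNat, by omega⟩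
  unfold InB at hx
  rw [hm] at hx h
  rw [abs_le] at hx
  push_cast at hx
  refine ⟨m, hm, by exact_mod_cast h, by linarith [hx.1], by linarith [hx.2]⟩

theorem InB.pos {x : ℝ} {a : Bl} (hx : InB x a) (h : posB a = true) : 0 < x := by
  obtain ⟨m, hm, hr, h1, h2⟩ := pos_data hx h
  have h3 : (a.r : ℝ) < m := by exact_mod_cast hr
  have h4 : 0 < x * S := by linarith
  exact (pos_iff_pos_of_mul_pos h4).2 S_pos

theorem InB.inv {x : ℝ} {a : Bl} (hx : InB x a) (h : posB a = true) : InB x⁻¹ a.inv := by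
  have hx0 := hx.pos h
  obtain ⟨m, hm, hr, h1, h2⟩ := pos_data hx h
  have h3 : (a.r : ℝ) < m := by exact_mod_cast hr
  have hS := S_pos
  have hinv : a.inv = ⟨((S2 / m : ℕ) : ℤ), 2 + (S2 * a.r) / (m * (m - a.r))⟩ := by
    unfold Bl.inv
    rw [fc_eq, hm]
    rfl
  rw [hinv]
  unfold InB
  show |x⁻¹ * S - (((S2 / m : ℕ) : ℤ) : ℝ)| ≤ ((2 + (S2 * a.r) / (m * (m - a.r)) : ℕ) : ℝ)
  have hmr : 0 < m - a.r := by omega
  have hm0 : 0 < m := by omega
  have e1 := div_lt_succ S2 m hm0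
  have e2 := div_le_real S2 m
  have e3 := div_lt_succ (S2 * a.r) (m * (m - a.r)) (Nat.mul_pos hm0 hmr)
  set q1 : ℕ := S2 / m with hq1
  set q2 : ℕ := (S2 * a.r) / (m * (m - a.r)) with hq2
  have hm0' : (0 : ℝ) < m := by exact_mod_cast hm0
  have hX : 0 < x * S := mul_pos hx0 hS
  have e4 : ((m - a.r : ℕ) : ℝ) = m - a.r := by
    rw [Nat.cast_sub hr.le]
  push_cast at e3 ⊢
  rw [e4] at e3
  have hmr' : (0 : ℝ) < m - a.r := by linarith
  rw [S2_eq] at e1 e2 e3
  have key : |x⁻¹ * S - S * S / m| ≤ S * S * a.r / (m * (m - a.r)) := by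
    have e5 : x⁻¹ * S - S * S / m = S * S * ((m - x * S) / (x * S * m)) := by
      field_simp
    rw [e5, abs_mul, abs_of_pos (mul_pos hS hS), abs_div, abs_of_pos (mul_pos hX hm0'), mul_div_assoc]
    apply mul_le_mul_of_nonneg_left _ (mul_pos hS hS).le
    apply div_le_div₀ (Nat.cast_nonneg _)
    · rw [abs_le]; constructor <;> linarith
    · exact mul_pos hm0' hmr'
    · rw [mul_comm]
      exact mul_le_mul_of_nonneg_right h1 hm0'.le
  have key2 : |(S : ℝ) * S / m - q1| ≤ 1 := by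
    rw [abs_le]; constructor <;> linarith
  calc |x⁻¹ * S - q1| = |(x⁻¹ * S - S * S / m) + (S * S / m - q1)| := by ring_nf
    _ ≤ _ := abs_add_le _ _
    _ ≤ _ := by linarith

theorem InB.log {x : ℝ} {a : Bl} (hx : InB x a) (h : posB a = true) : InB (Real.log x) a.log := by
  have hx0 := hx.pos h
  obtain ⟨m, hm, hr, h1, h2⟩ := pos_data hx h
  have h3 : (a.r : ℝ) < m := by exact_mod_cast hr
  have hS := S_pos
  have hinv : a.log = ⟨logL m, (logU m - logL m).toNat + ((S * a.r) / (m - a.r) + 1)⟩ := by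
    unfold Bl.log
    rw [fc_eq, hm]
    rfl
  rw [hinv]
  unfold InB
  show |Real.log x * S - (logL m : ℝ)| ≤
    (((logU m - logL m).toNat + ((S * a.r) / (m - a.r) + 1) : ℕ) : ℝ)
  have hmr : 0 < m - a.r := by omega
  have hm0 : 0 < m := by omega
  have e3 := div_lt_succ (S * a.r) (m - a.r) hmr
  have l1 := logL_le hm0
  have l2 := le_logU hm0
  set q2 : ℕ := (S * a.r) / (m - a.r) with hq2
  have hm0' : (0 : ℝ) < m := by exact_mod_cast hm0
  have hX : 0 < x * S := mul_pos hx0 hS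
  have e4 : ((m - a.r : ℕ) : ℝ) = m - a.r := by
    rw [Nat.cast_sub hr.le]
  rw [e4] at e3
  push_cast at e3
  have hmr' : (0 : ℝ) < m - a.r := by linarith
  have e5 : ((logU m - logL m : ℤ) : ℝ) ≤ (((logU m - logL m).toNat : ℕ) : ℝ) := by
    have := Int.self_le_toNat (logU m - logL m)
    exact_mod_cast this
  push_cast at e5
  have hnn : (0 : ℝ) ≤ a.r := Nat.cast_nonneg _
  have hfr : (a.r : ℝ) / m ≤ a.r / (m - a.r) :=
    div_le_div_of_nonneg_left hnn hmr' (by linarith)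
  have key : |Real.log x * S - S * Real.log (m / S)| ≤ S * a.r / (m - a.r) := by
    have e6 : Real.log x * S - S * Real.log (m / S) = S * (Real.log x - Real.log (m / S)) := by ring
    rw [e6, abs_mul, abs_of_pos hS, mul_div_assoc]
    apply mul_le_mul_of_nonneg_left _ hS.le
    have e7 : Real.log x - Real.log (m / S) = Real.log (x * S / m) := by
      rw [Real.log_div hm0'.ne' hS.ne', Real.log_div hX.ne' hm0'.ne', Real.log_mul hx0.ne' hS.ne']
      ring
    rw [e7, abs_le]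
    constructor
    · have := Real.one_sub_inv_le_log_of_pos (div_pos hX hm0')
      rw [inv_div] at this
      have e8 : (m : ℝ) / (x * S) - 1 ≤ a.r / (m - a.r) := by
        have e9 : (m : ℝ) / (x * S) - 1 = (m - x * S) / (x * S) := by
          field_simp
        rw [e9]
        rcases le_total ((m : ℝ) - x * S) 0 with h0 | h0
        · exact (div_nonpos_of_nonpos_of_nonneg h0 hX.le).trans (div_nonneg hnn hmr'.le)
        · exact div_le_div₀ hnn (by linarith) hmr' h1
      linarith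
    · have := Real.log_le_sub_one_of_pos (div_pos hX hm0')
      have e8 : x * S / m - 1 ≤ a.r / m := by
        have e9 : x * S / m - 1 = (x * S - m) / m := by field_simp
        rw [e9]
        exact div_le_div_of_nonneg_right (by linarith) hm0'.le
      linarith
  have key2 : |S * Real.log (m / S) - (logL m : ℝ)| ≤ (((logU m - logL m).toNat : ℕ) : ℝ) := by
    rw [abs_of_nonneg (by linarith)]
    linarith
  calc |Real.log x * S - (logL m : ℝ)|
      = |(Real.log x * S - S * Real.log (m / S)) + (S * Real.log (m / S) - (logL m : ℝ))| := by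
        ring_nf
    _ ≤ _ := abs_add_le _ _
    _ ≤ _ := by push_cast; linarith

private theorem exp_core {x : ℝ} {m : ℤ} {r lo hi : ℕ} (hx : |x * S - m| ≤ r) (hr : r ≤ S)
    (hlo : (lo : ℝ) ≤ S * Real.exp (m / S)) (hhi : S * Real.exp (m / S) ≤ hi) :
    |Real.exp x * S - ((lo : ℤ) : ℝ)| ≤ (((hi - lo) + mu hi (r + mu r r) : ℕ) : ℝ) := by
  have hS := S_pos
  have hr' : (r : ℝ) ≤ S := by exact_mod_cast hr
  set ρ := x - m / S with hρ
  have hxe : x = m / S + ρ := by rw [hρ]; ring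
  have e1 : |ρ| * S ≤ r := by
    have : x * S - m = ρ * S := by rw [hρ]; field_simp
    rw [this, abs_mul, abs_of_pos hS] at hx
    exact hx
  have e2 : |ρ| ≤ 1 := by
    by_contra hcon
    push Not at hcon
    nlinarith
  have e3 : |Real.exp ρ - 1| ≤ |ρ| + |ρ| * |ρ| := by
    have := Real.abs_exp_sub_one_sub_id_le e2
    calc |Real.exp ρ - 1| = |ρ + (Real.exp ρ - 1 - ρ)| := by ring_nf
      _ ≤ |ρ| + |Real.exp ρ - 1 - ρ| := abs_add_le _ _
      _ ≤ _ := by
        have h3 : ρ ^ 2 = |ρ| * |ρ| := by rw [abs_mul_abs_self]; ring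
        linarith
  have e4 := le_mu (abs_nonneg ρ) (abs_nonneg ρ) e1 e1
  have e5 : (|ρ| + |ρ| * |ρ|) * S ≤ ((r + mu r r : ℕ) : ℝ) := by
    push_cast
    linarith
  have e6 := le_mu (x := Real.exp (m / S)) (y := |ρ| + |ρ| * |ρ|) (Real.exp_pos _).le
    (by positivity) (by rw [mul_comm]; exact hhi) e5
  have e7 : Real.exp x * S - ((lo : ℤ) : ℝ) = Real.exp (m / S) * (Real.exp ρ - 1) * S
      + (S * Real.exp (m / S) - lo) := by
    rw [hxe, Real.exp_add]
    push_cast
    ring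
  have e8 : (hi : ℝ) - lo ≤ ((hi - lo : ℕ) : ℝ) := by
    have : hi ≤ (hi - lo) + lo := by omega
    have : (hi : ℝ) ≤ ((hi - lo : ℕ) : ℝ) + lo := by exact_mod_cast this
    linarith
  rw [e7]
  calc |Real.exp (m / S) * (Real.exp ρ - 1) * S + (S * Real.exp (m / S) - lo)|
      ≤ |Real.exp (m / S) * (Real.exp ρ - 1) * S| + |S * Real.exp (m / S) - lo| := abs_add_le _ _
    _ ≤ Real.exp (m / S) * (|ρ| + |ρ| * |ρ|) * S + (hi - lo) := by
        apply add_le_add
        · rw [abs_mul, abs_mul, abs_of_pos hS, abs_of_pos (Real.exp_pos _)]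
          apply mul_le_mul_of_nonneg_right _ hS.le
          exact mul_le_mul_of_nonneg_left e3 (Real.exp_pos _).le
        · rw [abs_of_nonneg (by linarith)]
          linarith
    _ ≤ _ := by push_cast at e6 ⊢; linarith

theorem InB.exp {x : ℝ} {a : Bl} (hx : InB x a) (hr : a.r ≤ S) (hm : a.m.natAbs ≤ 1000 * S) :
    InB (Real.exp x) a.exp := by
  obtain ⟨m, r⟩ := a
  unfold InB at hx
  simp only at hx hr hm
  cases m with
  | ofNat n =>
    have e : Bl.exp ⟨Int.ofNat n, r⟩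
        = ⟨((expPL n : ℕ) : ℤ), (expPU n - expPL n) + mu (expPU n) (r + mu r r)⟩ := by
      unfold Bl.exp
      rw [fc_eq, fc_eq]
      rfl
    rw [e]
    have e1 : (((Int.ofNat n : ℤ)) : ℝ) = n := by simp
    refine exp_core hx hr ?_ ?_
    · rw [e1]; exact expPL_le n
    · rw [e1]
      apply le_expPU
      have : (Int.ofNat n).natAbs = n := rfl
      rw [this] at hm
      omega
  | negSucc n =>
    have e : Bl.exp ⟨Int.negSucc n, r⟩
        = ⟨((expNL (n + 1) : ℕ) : ℤ), (expNU (n + 1) - expNL (n + 1))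
            + mu (expNU (n + 1)) (r + mu r r)⟩ := by
      unfold Bl.exp
      rw [fc_eq, fc_eq]
      rfl
    rw [e]
    have e1 : (((Int.negSucc n : ℤ)) : ℝ) / S = -(((n + 1 : ℕ) : ℝ) / S) := by
      rw [Int.cast_negSucc]
      ring
    refine exp_core hx hr ?_ ?_
    · rw [e1]; exact expNL_le (n + 1)
    · rw [e1]; exact le_expNU (n + 1)

end IP49N
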