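import Pool.Agent.IP49N.STM
import Pool.Agent.IP49N.STay
import Pool.Agent.IP49N.SUnB

/-! IP49N/SUnT: `1/f`, `log f`, `exp f` on Taylor models: `InT.comp` with `Ex4`.
`1/(x+v) = 1/x - v/x² + v²/x³ - v³/x⁴ + v⁴/(x⁴ (x+v))` (exact, no Taylor needed);
`log`, `exp`: `taylor4`. The ball `a.a0.wid rho` contains `f c + v` for `|v| S ≤ rho`
(`InB.wid`), `j`/`f` = `ab` of the inverse/exponential on that ball. -/

set_option autoImplicit false

namespace IP49N
open Pool.Agent.IP49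

theorem posB_of_wid {a : Bl} {e : ℕ} (h : posB (a.wid e) = true) : posB a = true := by
  rw [posB_iff] at h ⊢
  have h1 : (((a.wid e).r : ℕ) : ℤ) = (a.r : ℤ) + e := by
    show (((a.r + e : ℕ)) : ℤ) = _
    push_cast; rfl
  have h2 : (a.wid e).m = a.m := rfl
  rw [h1, h2] at h
  have : (0 : ℤ) ≤ (e : ℤ) := Int.natCast_nonneg e
  linarith

theorem InB.widv {x v : ℝ} {a : Bl} {e : ℕ} (hx : InB x a) (hv : |v| ≤ (e : ℝ) / S) :
    InB (x + v) (a.wid e) := by
  apply hx.wid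
  rw [show x + v - x = v by ring]
  rwa [le_div_iff₀ S_pos] at hv

theorem InT.inv {f : ℝ → ℝ} {c : ℝ} {W : ℕ} {a : TM} (hf : InT f c (W / S) a)
    (h : posB (a.a0.wid (TM.rho W a)) = true) : InT (fun x => (f x)⁻¹) c (W / S) (TM.inv W a) := by
  have hc := hf.center
  have hp0 := posB_of_wid h
  have hx0 := hc.pos hp0
  have hi := hc.inv hp0
  have hi2 := hi.mul hi
  have hi3 := hi2.mul hi
  have hi4 := hi2.mul hi2
  have hball : ∀ v : ℝ, |v| ≤ ((TM.rho W a : ℕ) : ℝ) / S →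
      0 < f c + v ∧ |(f c + v)⁻¹| * S ≤ (a.a0.wid (TM.rho W a)).inv.ab := by
    intro v hv
    have hb := hc.widv hv
    exact ⟨hb.pos h, (hb.inv h).ab⟩
  have hj0 : |(f c)⁻¹| * S ≤ (a.a0.wid (TM.rho W a)).inv.ab := by
    have := (hball 0 (by rw [abs_zero]; exact div_nonneg (Nat.cast_nonneg _) S_pos.le)).2
    rwa [add_zero] at this
  have hE : Ex4 (fun y => y⁻¹) (f c) ((TM.rho W a : ℕ) / S) a.a0.inv
      (a.a0.inv.mul a.a0.inv).neg ((a.a0.inv.mul a.a0.inv).mul a.a0.inv)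
      ((a.a0.inv.mul a.a0.inv).mul (a.a0.inv.mul a.a0.inv)).neg
      (mu (a.a0.wid (TM.rho W a)).inv.ab
        (mu (mu (a.a0.wid (TM.rho W a)).inv.ab (a.a0.wid (TM.rho W a)).inv.ab)
          (mu (a.a0.wid (TM.rho W a)).inv.ab (a.a0.wid (TM.rho W a)).inv.ab))) := by
    refine ⟨_, _, _, _, hi, hi2.neg, hi3, hi4.neg, ?_⟩
    intro v hv
    obtain ⟨hpos, hb⟩ := hball v hv
    refine ⟨(f c + v)⁻¹ * (((f c)⁻¹ * (f c)⁻¹) * ((f c)⁻¹ * (f c)⁻¹)), ?_, ?_⟩
    · rw [abs_mul, abs_mul, abs_mul]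
      have h2 := le_mu (abs_nonneg (f c)⁻¹) (abs_nonneg (f c)⁻¹) hj0 hj0
      have h22 : 0 ≤ |(f c)⁻¹| * |(f c)⁻¹| := mul_nonneg (abs_nonneg _) (abs_nonneg _)
      have h4 := le_mu h22 h22 h2 h2
      exact le_mu (abs_nonneg _) (mul_nonneg h22 h22) hb h4
    · have hne : f c ≠ 0 := hx0.ne'
      have hne' : f c + v ≠ 0 := hpos.ne'
      field_simp
      ring
  have := hf.comp hE
  simpa only [TM.inv, fcB_eq, fc_eq] using this

theorem InT.log {f : ℝ → ℝ} {c : ℝ} {W : ℕ} {a : TM} (hf : InT f c (W / S) a)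
    (h : posB (a.a0.wid (TM.rho W a)) = true) :
    InT (fun x => Real.log (f x)) c (W / S) (TM.log W a) := by
  have hc := hf.center
  have hp0 := posB_of_wid h
  have hx0 := hc.pos hp0
  have hi := hc.inv hp0
  have hi2 := hi.mul hi
  have hi3 := hi2.mul hi
  have hl := hc.log hp0
  set J : ℕ := (a.a0.wid (TM.rho W a)).inv.ab with hJ
  set M : ℕ := mu (mu J J) (mu J J) with hM
  have hball : ∀ y : ℝ, |y - f c| ≤ ((TM.rho W a : ℕ) : ℝ) / S →
      0 < y ∧ |y⁻¹| * S ≤ J := by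
    intro y hv
    have hb := hc.widv hv
    rw [show f c + (y - f c) = y by ring] at hb
    exact ⟨hb.pos h, (hb.inv h).ab⟩
  have hK : ∀ y : ℝ, |y - f c| ≤ ((TM.rho W a : ℕ) : ℝ) / S →
      |-6 * (y ^ 4)⁻¹| ≤ 6 * ((M : ℝ) / S) := by
    intro y hy
    obtain ⟨hpos, hb⟩ := hball y hy
    have h2 := le_mu (abs_nonneg y⁻¹) (abs_nonneg y⁻¹) hb hb
    have h22 : 0 ≤ |y⁻¹| * |y⁻¹| := mul_nonneg (abs_nonneg _) (abs_nonneg _)
    have h4 := le_mu h22 h22 h2 h2
    have h5 : |-6 * (y ^ 4)⁻¹| = 6 * (|y⁻¹| * |y⁻¹| * (|y⁻¹| * |y⁻¹|)) := by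
      rw [abs_mul, abs_neg, abs_of_pos (by norm_num : (0 : ℝ) < 6), ← inv_pow, abs_pow]
      ring
    rw [h5]
    refine mul_le_mul_of_nonneg_left ?_ (by norm_num)
    rw [le_div_iff₀ S_pos]
    exact h4
  have hE : Ex4 Real.log (f c) ((TM.rho W a : ℕ) / S) a.a0.log a.a0.inv
      ((a.a0.inv.mul a.a0.inv).dv (nat_lit 2)).neg
      (((a.a0.inv.mul a.a0.inv).mul a.a0.inv).dv (nat_lit 3))
      (Nat.succ (Nat.div M (nat_lit 4))) := by
    have e2 := (hi2.dv (n := nat_lit 2) (by decide)).neg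
    have e3 := hi3.dv (n := nat_lit 3) (by decide)
    refine ⟨_, _, _, _, hl, hi, e2, e3, ?_⟩
    intro v hv
    obtain ⟨s, hs, hs'⟩ := taylor4 (g := Real.log) (g1 := fun y => y⁻¹)
      (g2 := fun y => -(y ^ 2)⁻¹) (g3 := fun y => 2 * (y ^ 3)⁻¹) (g4 := fun y => -6 * (y ^ 4)⁻¹)
      (x0 := f c) (ρ := ((TM.rho W a : ℕ) : ℝ) / S) (K := 6 * ((M : ℝ) / S))
      (fun y hy => Real.hasDerivAt_log (hball y hy).1.ne')
      (fun y hy => hasDerivAt_inv (hball y hy).1.ne')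
      (fun y hy => by
        have hy0 := (hball y hy).1.ne'
        have := ((hasDerivAt_pow 2 y).inv (pow_ne_zero 2 hy0)).neg
        refine this.congr_deriv ?_
        push_cast
        field_simp)
      (fun y hy => by
        have hy0 := (hball y hy).1.ne'
        have := ((hasDerivAt_pow 3 y).inv (pow_ne_zero 3 hy0)).const_mul 2
        refine this.congr_deriv ?_
        push_cast
        field_simp
        norm_num)
      hK v hv
    refine ⟨s, ?_, ?_⟩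
    · have h1 : |s| * S ≤ 6 * ((M : ℝ) / S) / 24 * S := mul_le_mul_of_nonneg_right hs S_pos.le
      have h2 : 6 * ((M : ℝ) / S) / 24 * S = (M : ℝ) / 4 := by
        have := S_ne
        field_simp
        ring
      have h3 := div_lt_succ M 4 (by norm_num)
      have h4 : ((Nat.succ (Nat.div M (nat_lit 4)) : ℕ) : ℝ) = ((M / 4 : ℕ) : ℝ) + 1 := by
        show (((M / 4) + 1 : ℕ) : ℝ) = _
        push_cast; rfl
      rw [h4]
      push_cast at h3 ⊢
      linarith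
    · rw [hs']
      have hne : f c ≠ 0 := hx0.ne'
      have c2 : ((nat_lit 2 : ℕ) : ℝ) = 2 := by
        show ((2 : ℕ) : ℝ) = 2
        norm_num
      have c3 : ((nat_lit 3 : ℕ) : ℝ) = 3 := by
        show ((3 : ℕ) : ℝ) = 3
        norm_num
      rw [c2, c3]
      field_simp
      ring
  have := hf.comp hE
  simpa only [TM.log, fcB_eq, fc_eq] using this

theorem InT.exp {f : ℝ → ℝ} {c : ℝ} {W : ℕ} {a : TM} (hf : InT f c (W / S) a)
    (hr : a.a0.r + TM.rho W a ≤ S) (hm : a.a0.m.natAbs ≤ 1000 * S) :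
    InT (fun x => Real.exp (f x)) c (W / S) (TM.exp W a) := by
  have hc := hf.center
  have he := hc.exp (le_trans (Nat.le_add_right _ _) hr) hm
  set M : ℕ := (a.a0.wid (TM.rho W a)).exp.ab with hM
  have hK : ∀ y : ℝ, |y - f c| ≤ ((TM.rho W a : ℕ) : ℝ) / S → |Real.exp y| ≤ (M : ℝ) / S := by
    intro y hv
    have hb := hc.widv hv
    rw [show f c + (y - f c) = y by ring] at hb
    rw [le_div_iff₀ S_pos]
    exact (hb.exp hr hm).ab
  have hE : Ex4 Real.exp (f c) ((TM.rho W a : ℕ) / S) a.a0.exp a.a0.exp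
      (a.a0.exp.dv (nat_lit 2)) (a.a0.exp.dv (nat_lit 6))
      (Nat.succ (Nat.div M (nat_lit 24))) := by
    have e2 := he.dv (n := nat_lit 2) (by decide)
    have e3 := he.dv (n := nat_lit 6) (by decide)
    refine ⟨_, _, _, _, he, he, e2, e3, ?_⟩
    intro v hv
    obtain ⟨s, hs, hs'⟩ := taylor4 (g := Real.exp) (g1 := Real.exp)
      (g2 := Real.exp) (g3 := Real.exp) (g4 := Real.exp)
      (x0 := f c) (ρ := ((TM.rho W a : ℕ) : ℝ) / S) (K := (M : ℝ) / S)
      (fun y _ => Real.hasDerivAt_exp y) (fun y _ => Real.hasDerivAt_exp y)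
      (fun y _ => Real.hasDerivAt_exp y) (fun y _ => Real.hasDerivAt_exp y)
      hK v hv
    refine ⟨s, ?_, ?_⟩
    · have h1 : |s| * S ≤ ((M : ℝ) / S) / 24 * S := mul_le_mul_of_nonneg_right hs S_pos.le
      have h2 : ((M : ℝ) / S) / 24 * S = (M : ℝ) / 24 := by
        have := S_ne
        field_simp
      have h3 := div_lt_succ M 24 (by norm_num)
      have h4 : ((Nat.succ (Nat.div M (nat_lit 24)) : ℕ) : ℝ) = ((M / 24 : ℕ) : ℝ) + 1 := by
        show (((M / 24) + 1 : ℕ) : ℝ) = _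
        push_cast; rfl
      rw [h4]
      push_cast at h3 ⊢
      linarith
    · rw [hs']
      have c2 : ((nat_lit 2 : ℕ) : ℝ) = 2 := by
        show ((2 : ℕ) : ℝ) = 2
        norm_num
      have c6 : ((nat_lit 6 : ℕ) : ℝ) = 6 := by
        show ((6 : ℕ) : ℝ) = 6
        norm_num
      rw [c2, c6]
  have := hf.comp hE
  simpa only [TM.exp, fcB_eq, fc_eq] using this

end IP49N
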