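import Pool.Agent.IP49N.SSem
import Pool.Agent.IP49N.SUnT
import Pool.Agent.IP49N.SMilT
import Pool.Agent.IP49N.STh

/-! IP49N/SRun: soundness of `run`, by induction on the program. `get l i` corresponds to
`gt fs i` (out of range: `TM.zero` and `0`). -/

set_option autoImplicit false

namespace IP49N
open Pool.Agent.IP49

theorem AllT.get {c w : ℝ} {fs : List (ℝ → ℝ)} {l : List TM} (h : AllT c w fs l) (i : ℕ) :
    InT (gt fs i) c w (get l i) := by
  have hz : InT (fun _ => (0 : ℝ)) c w TM.zero := InT.cst InB.zero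
  induction i generalizing fs l with
  | zero =>
    cases h with
    | nil => exact hz
    | cons h1 _ => exact h1
  | succ i ih =>
    cases h with
    | nil => exact hz
    | cons _ h2 => exact ih h2

/-- every Taylor model describes some function -/
theorem exists_InT (c w : ℝ) (a : TM) : ∃ f : ℝ → ℝ, InT f c w a := by
  have hb : ∀ b : Bl, InB ((b.m : ℝ) / S) b := by
    intro b
    unfold InB
    rw [div_mul_cancel₀ _ S_ne, sub_self, abs_zero]
    exact Nat.cast_nonneg _
  refine ⟨fun x => (a.a0.m : ℝ) / S + (a.a1.m : ℝ) / S * (x - c) +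
    (a.a2.m : ℝ) / S * (x - c) ^ 2 + (a.a3.m : ℝ) / S * (x - c) ^ 3,
    (a.a0.m : ℝ) / S, (a.a1.m : ℝ) / S, (a.a2.m : ℝ) / S, (a.a3.m : ℝ) / S,
    hb _, hb _, hb _, hb _, ?_⟩
  intro u _
  refine ⟨0, ?_, ?_⟩
  · rw [abs_zero, zero_mul]
    exact Nat.cast_nonneg _
  · simp only [add_sub_cancel_left]
    ring

theorem and_true {a b : Bool} (h : Bool.and a b = true) : a = true ∧ b = true := by
  cases a <;> cases b <;> simp_all

theorem run_spec {α : Type} {W : ℕ} {par : List Bl} {pr : ℕ → ℝ}
    (hp : ∀ i, InB (pr i) (getB par i)) (c : ℤ) (prog : List Op) (fs : List (ℝ → ℝ))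
    (l : List TM) (b : Bool) (k : List TM → Bool → α)
    (hl : b = true → AllT (c / S) (W / S) fs l) :
    ∃ (l' : List TM) (b' : Bool), run W par c prog l b k = k l' b' ∧
      (b' = true → b = true ∧ AllT (c / S) (W / S) (evp pr prog fs) l') := by
  induction prog generalizing fs l b with
  | nil => exact ⟨l, b, rfl, fun hb => ⟨hb, hl hb⟩⟩
  | cons op prog ih =>
    have hex : ∀ i, ∃ f : ℝ → ℝ, InT f (c / S) (W / S) (get l i) ∧ (b = true → f = gt fs i) := by
      intro i
      by_cases hb : b = true
      · exact ⟨gt fs i, (hl hb).get i, fun _ => rfl⟩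
      · obtain ⟨f, hf⟩ := exists_InT (c / S) (W / S) (get l i)
        exact ⟨f, hf, fun h => absurd h hb⟩
    cases op with
    | z =>
      exact ih _ _ _ fun hb => List.Forall₂.cons InT.var (hl hb)
    | c n =>
      exact ih ((fun _ => (n : ℝ) / S) :: fs) _ _ fun hb =>
        List.Forall₂.cons (InT.cst (InB.cst n)) (hl hb)
    | p i =>
      have h := ih ((fun _ => pr i) :: fs) (⟨getB par i, Bl.zero, Bl.zero, Bl.zero, nat_lit 0⟩ :: l)
        b fun hb => List.Forall₂.cons (InT.cst (hp i)) (hl hb)
      obtain ⟨l', b', h1, h2⟩ := h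
      refine ⟨l', b', ?_, h2⟩
      rw [← h1]
      exact fcB_eq (getB par i) (fun B => run W par c prog
        (⟨B, Bl.zero, Bl.zero, Bl.zero, nat_lit 0⟩ :: l) b k)
    | add i j =>
      have h := ih ((fun x => gt fs i x + gt fs j x) :: fs) (TM.add (get l i) (get l j) :: l)
        b fun hb => List.Forall₂.cons (((hl hb).get i).add ((hl hb).get j)) (hl hb)
      obtain ⟨l', b', h1, h2⟩ := h
      refine ⟨l', b', ?_, h2⟩
      rw [← h1]
      exact fcT_eq (TM.add (get l i) (get l j)) (fun a => run W par c prog (a :: l) b k)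
    | sub i j =>
      have h := ih ((fun x => gt fs i x - gt fs j x) :: fs) (TM.sub (get l i) (get l j) :: l)
        b fun hb => List.Forall₂.cons (((hl hb).get i).sub ((hl hb).get j)) (hl hb)
      obtain ⟨l', b', h1, h2⟩ := h
      refine ⟨l', b', ?_, h2⟩
      rw [← h1]
      exact fcT_eq (TM.sub (get l i) (get l j)) (fun a => run W par c prog (a :: l) b k)
    | mul i j =>
      have h := ih ((fun x => gt fs i x * gt fs j x) :: fs) (TM.mul W (get l i) (get l j) :: l)
        b fun hb => List.Forall₂.cons (((hl hb).get i).mul ((hl hb).get j)) (hl hb)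
      obtain ⟨l', b', h1, h2⟩ := h
      refine ⟨l', b', ?_, h2⟩
      rw [← h1]
      exact fcT_eq (TM.mul W (get l i) (get l j)) (fun a => run W par c prog (a :: l) b k)
    | inv i =>
      have h := ih ((fun x => (gt fs i x)⁻¹) :: fs) (TM.inv W (get l i) :: l)
        (Bool.and b (posB ((get l i).a0.wid (TM.rho W (get l i))))) fun hb =>
        List.Forall₂.cons (((hl (and_true hb).1).get i).inv (and_true hb).2) (hl (and_true hb).1)
      obtain ⟨l', b', h1, h2⟩ := h
      refine ⟨l', b', ?_, fun hb => ⟨(and_true (h2 hb).1).1, (h2 hb).2⟩⟩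
      rw [← h1]
      exact fcT_eq (TM.inv W (get l i)) (fun a => run W par c prog (a :: l) _ k)
    | log i =>
      have h := ih ((fun x => Real.log (gt fs i x)) :: fs) (TM.log W (get l i) :: l)
        (Bool.and b (posB ((get l i).a0.wid (TM.rho W (get l i))))) fun hb =>
        List.Forall₂.cons (((hl (and_true hb).1).get i).log (and_true hb).2) (hl (and_true hb).1)
      obtain ⟨l', b', h1, h2⟩ := h
      refine ⟨l', b', ?_, fun hb => ⟨(and_true (h2 hb).1).1, (h2 hb).2⟩⟩
      rw [← h1]
      exact fcT_eq (TM.log W (get l i)) (fun a => run W par c prog (a :: l) _ k)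
    | exp i =>
      have h := ih ((fun x => Real.exp (gt fs i x)) :: fs) (TM.exp W (get l i) :: l)
        (Bool.and b (Bool.and
            (Nat.ble (Nat.add (get l i).a0.r (TM.rho W (get l i))) S)
            (Nat.ble (Int.natAbs (get l i).a0.m) (Nat.mul (nat_lit 1000) S)))) fun hb =>
        List.Forall₂.cons (((hl (and_true hb).1).get i).exp
          (Nat.le_of_ble_eq_true (and_true (and_true hb).2).1)
          (Nat.le_of_ble_eq_true (and_true (and_true hb).2).2)) (hl (and_true hb).1)
      obtain ⟨l', b', h1, h2⟩ := h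
      refine ⟨l', b', ?_, fun hb => ⟨(and_true (h2 hb).1).1, (h2 hb).2⟩⟩
      rw [← h1]
      exact fcT_eq (TM.exp W (get l i)) (fun a => run W par c prog (a :: l) _ k)
    | mil i =>
      obtain ⟨f, hf, hff⟩ := hex i
      obtain ⟨a1, a2, ok, h3, h4⟩ := TM.mil_spec (fun a1 a2 ok => fcT a1 fun a1 => fcT a2 fun a2 =>
          run W par c prog (a2 :: a1 :: l) (Bool.and b ok) k) hf
      have h := ih ((fun x => Real.log (Ph (gt fs i x))) :: (fun x => Mi (gt fs i x)) :: fs)
        (a2 :: a1 :: l) (Bool.and b ok) fun hb => by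
          have e := hff (and_true hb).1
          subst e
          have h5 := h4 (and_true hb).2
          exact List.Forall₂.cons h5.2 (List.Forall₂.cons h5.1 (hl (and_true hb).1))
      obtain ⟨l', b', h1, h2⟩ := h
      refine ⟨l', b', ?_, fun hb => ⟨(and_true (h2 hb).1).1, (h2 hb).2⟩⟩
      rw [← h1]
      refine Eq.trans h3 ?_
      simp only [fcT_eq]
    | th i =>
      obtain ⟨f, hf, hff⟩ := hex i
      obtain ⟨a1, a2, h3, h4, h4'⟩ := TM.th_spec (fun a1 a2 => fcT a1 fun a1 => fcT a2 fun a2 =>
          run W par c prog (a2 :: a1 :: l) b k) hf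
      have h := ih ((fun x => lc (gt fs i x)) :: (fun x => Real.tanh (gt fs i x)) :: fs)
        (a2 :: a1 :: l) b fun hb => by
          have e := hff hb
          subst e
          exact List.Forall₂.cons h4' (List.Forall₂.cons h4 (hl hb))
      obtain ⟨l', b', h1, h2⟩ := h
      refine ⟨l', b', ?_, h2⟩
      rw [← h1]
      refine Eq.trans h3 ?_
      simp only [fcT_eq]

end IP49N
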