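import Pool.Agent.IP49N.SBasic

/-! IP49N/SSem: real semantics of the straight-line programs, accumulators. -/

set_option autoImplicit false

namespace IP49N
open Pool.Agent.IP49

noncomputable section

/-- register `i` (the constant `0` when out of range) -/
def gt (l : List (ℝ → ℝ)) (i : ℕ) : ℝ → ℝ := l.getD i (fun _ => 0)

/-- the functions computed by a program -/
def evp (pr : ℕ → ℝ) : List Op → List (ℝ → ℝ) → List (ℝ → ℝ)
  | [], l => l
  | Op.z :: p, l => evp pr p ((fun x => x) :: l)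
  | Op.c n :: p, l => evp pr p ((fun _ => (n : ℝ) / S) :: l)
  | Op.p i :: p, l => evp pr p ((fun _ => pr i) :: l)
  | Op.add i j :: p, l => evp pr p ((fun x => gt l i x + gt l j x) :: l)
  | Op.sub i j :: p, l => evp pr p ((fun x => gt l i x - gt l j x) :: l)
  | Op.mul i j :: p, l => evp pr p ((fun x => gt l i x * gt l j x) :: l)
  | Op.inv i :: p, l => evp pr p ((fun x => (gt l i x)⁻¹) :: l)
  | Op.log i :: p, l => evp pr p ((fun x => Real.log (gt l i x)) :: l)
  | Op.exp i :: p, l => evp pr p ((fun x => Real.exp (gt l i x)) :: l)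
  | Op.mil i :: p, l =>
      evp pr p ((fun x => Real.log (Ph (gt l i x))) :: (fun x => Mi (gt l i x)) :: l)
  | Op.th i :: p, l => evp pr p ((fun x => lc (gt l i x)) :: (fun x => Real.tanh (gt l i x)) :: l)

/-- the accumulator `A` describes the integral `I` -/
def AccV (W : ℕ) (I : ℝ) (A : Acc) : Prop :=
  ∃ σ0 σ2 : ℝ, InB σ0 A.s0 ∧ InB σ2 A.s2 ∧
    |I - (2 * (W / S : ℝ) * σ0 + 2 / 3 * (W / S : ℝ) ^ 3 * σ2)|
      ≤ 2 / 5 * (W / S : ℝ) ^ 5 * (A.r4 / S)

/-- list of registers described by Taylor models -/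
def AllT (c w : ℝ) (fs : List (ℝ → ℝ)) (l : List TM) : Prop :=
  List.Forall₂ (fun f T => InT f c w T) fs l

end

end IP49N
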