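import Pool.Agent.IP49N.SExp
import Pool.Agent.IP49N.SConst
import Pool.Agent.IP49.MillsCore

/-! IP49N/SSer: Mills ratio `M(t) = Ph t / phi t` for `0 ≤ t ≤ 2` by the series.
`M(t) = √(π/2) e^(t²/2) - s(t)`, `s(t) = ∑ t^(2k+1)/(2k+1)!! = e^(t²/2) ∫_0^t e^(-x²/2) dx`.
Bounds of `s` without convergence theory: let `P_N(t) = ∑_{k<N} t^(2k+1)/(2k+1)!!` and
`p_r(t) = P_22(t) + r t^45/45!!`; then `p_r' - t p_r - 1 = c t^44 (45 (r - 1) - r t²)`, `c = 1/45!!`,
so `e^(-t²/2) p_1` grows slower and `e^(-t²/2) p_2` faster than `∫_0^t e^(-x²/2) dx`.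
Horner form: `t · Hs 22 t² r = p_r(t)`. -/

set_option autoImplicit false

namespace IP49N
open Pool.Agent.IP49

namespace SerAux

noncomputable section

/-- Horner form -/
def Hs (z : ℝ) : ℕ → ℝ → ℝ
  | 0, r => r
  | n + 1, r => Hs z n (1 + z * r / (2 * n + 3))

/-- `(2n+1)!!` -/
def df : ℕ → ℝ
  | 0 => 1
  | n + 1 => df n * (2 * n + 3)

/-- the partial sums -/
def Ps (x : ℝ) (n : ℕ) : ℝ := ∑ k ∈ Finset.range n, x ^ (2 * k + 1) / df k

theorem df_pos : ∀ n, 0 < df n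
  | 0 => one_pos
  | n + 1 => mul_pos (df_pos n) (by positivity)

theorem Hs_eq (x : ℝ) : ∀ (n : ℕ) (r : ℝ),
    x * Hs (x ^ 2) n r = Ps x n + r * x ^ (2 * n + 1) / df n
  | 0, r => by simp [Hs, Ps, df]; ring
  | n + 1, r => by
    rw [Hs, Hs_eq x n, Ps, Ps, Finset.sum_range_succ, df]
    have h1 := (df_pos n).ne'
    have h2 : (2 * (n : ℝ) + 3) ≠ 0 := by positivity
    field_simp
    ring

theorem Hs_mono {z : ℝ} (hz : 0 ≤ z) : ∀ (n : ℕ) {r r' : ℝ}, r ≤ r' → Hs z n r ≤ Hs z n r'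
  | 0, _, _, h => h
  | n + 1, r, r', h => by
    rw [Hs, Hs]
    refine Hs_mono hz n ?_
    have : z * r / (2 * (n : ℝ) + 3) ≤ z * r' / (2 * (n : ℝ) + 3) :=
      div_le_div_of_nonneg_right (mul_le_mul_of_nonneg_left h hz) (by positivity)
    linarith

theorem serL_zero (u s : ℕ) : serL u 0 s = s := rfl

theorem serL_succ (u n s : ℕ) :
    serL u (n + 1) s = serL u n (S + u * s / (S * (2 * n + 3))) := by
  unfold serL
  generalize S = T
  rfl

theorem serU_zero (u s : ℕ) : serU u 0 s = s := rfl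

theorem serU_succ (u n s : ℕ) :
    serU u (n + 1) s = serU u n (S + (u * s / (S * (2 * n + 3)) + 1)) := by
  unfold serU
  generalize S = T
  rfl

theorem serL_le {z : ℝ} {u : ℕ} (hz : 0 ≤ z) (hu : (u : ℝ) ≤ S * z) : ∀ (n s : ℕ) {r : ℝ},
    0 ≤ r → (s : ℝ) ≤ S * r → (serL u n s : ℝ) ≤ S * Hs z n r
  | 0, _, _, _, h => by rw [serL_zero, Hs]; exact h
  | n + 1, s, r, hr, h => by
    rw [serL_succ, Hs]
    refine serL_le hz hu n _ (by positivity) ?_
    have h1 := div_le_real (u * s) (S * (2 * n + 3))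
    have h2 : ((u * s : ℕ) : ℝ) / ((S * (2 * n + 3) : ℕ) : ℝ) ≤ S * (z * r / (2 * n + 3)) := by
      have hS := S_pos
      have h3 : (0 : ℝ) < 2 * n + 3 := by positivity
      push_cast
      rw [div_le_iff₀ (by positivity)]
      have h4 : (u : ℝ) * s ≤ (S * z) * (S * r) :=
        mul_le_mul hu h (Nat.cast_nonneg _) (mul_nonneg hS.le hz)
      calc (u : ℝ) * s ≤ (S * z) * (S * r) := h4
        _ = S * (z * r / (2 * n + 3)) * (S * (2 * n + 3)) := by field_simp
    push_cast at h1 h2 ⊢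
    linarith

theorem le_serU {z : ℝ} {u : ℕ} (hz : 0 ≤ z) (hu : S * z ≤ (u : ℝ)) : ∀ (n s : ℕ) {r : ℝ},
    0 ≤ r → S * r ≤ (s : ℝ) → S * Hs z n r ≤ (serU u n s : ℝ)
  | 0, _, _, _, h => by rw [serU_zero, Hs]; exact h
  | n + 1, s, r, hr, h => by
    rw [serU_succ, Hs]
    refine le_serU hz hu n _ (by positivity) ?_
    have h1 := div_lt_succ (u * s) (S * (2 * n + 3)) (Nat.mul_pos S_posN (by omega))
    have h2 : S * (z * r / (2 * n + 3)) ≤ ((u * s : ℕ) : ℝ) / ((S * (2 * n + 3) : ℕ) : ℝ) := by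
      have hS := S_pos
      have h3 : (0 : ℝ) < 2 * n + 3 := by positivity
      push_cast
      rw [le_div_iff₀ (by positivity)]
      have h4 : (S * z) * (S * r) ≤ (u : ℝ) * s :=
        mul_le_mul hu h (mul_nonneg hS.le hr) (Nat.cast_nonneg _)
      calc S * (z * r / (2 * n + 3)) * (S * (2 * n + 3)) = (S * z) * (S * r) := by field_simp
        _ ≤ (u : ℝ) * s := h4
    push_cast at h1 h2 ⊢
    linarith

/-- `g(x) = ∫_0^x e^(-s²/2) ds` -/
def gg (x : ℝ) : ℝ := Real.sqrt (Real.pi / 2) - Real.sqrt (2 * Real.pi) * Ph x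

theorem gg_zero : gg 0 = 0 := by
  unfold gg
  rw [MC.Ph_zero]
  have h : Real.sqrt (2 * Real.pi) = 2 * Real.sqrt (Real.pi / 2) := by
    rw [show 2 * Real.pi = 2 ^ 2 * (Real.pi / 2) by ring,
      Real.sqrt_mul (by norm_num), Real.sqrt_sq (by norm_num)]
  rw [h]; ring

theorem hasDerivAt_gg (x : ℝ) : HasDerivAt gg (Real.exp (-x ^ 2 / 2)) x := by
  have h := ((MC.hasDerivAt_Ph x).const_mul (Real.sqrt (2 * Real.pi))).const_sub
    (Real.sqrt (Real.pi / 2))
  have e : -(Real.sqrt (2 * Real.pi) * -phi x) = Real.exp (-x ^ 2 / 2) := by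
    unfold phi
    have := MC.sqrt_two_pi_pos.ne'
    field_simp
  rw [e] at h
  exact h

theorem hasDerivAt_gauss (x : ℝ) :
    HasDerivAt (fun x : ℝ => Real.exp (-x ^ 2 / 2)) (-x * Real.exp (-x ^ 2 / 2)) x := by
  have h1 : HasDerivAt (fun x : ℝ => -x ^ 2 / 2) (-x) x := by
    have h := ((hasDerivAt_pow 2 x).neg).div_const 2
    have e : -(((2 : ℕ) : ℝ) * x ^ (2 - 1)) / 2 = -x := by norm_num; ring
    rw [e] at h
    exact h
  have h2 := h1.exp
  rw [mul_comm] at h2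
  exact h2

/-- `Ps' = 1 + x Ps - x^(2N) / (2N-1)!!` -/
theorem hasDerivAt_Ps (x : ℝ) : ∀ n : ℕ, HasDerivAt (fun x => Ps x (n + 1))
    (1 + x * Ps x n) x
  | 0 => by
    have h : HasDerivAt (fun x : ℝ => x) 1 x := hasDerivAt_id x
    have e : (fun x : ℝ => Ps x (0 + 1)) = fun x => x := by
      funext x; simp [Ps, df]
    rw [e]
    simpa [Ps] using h
  | n + 1 => by
    have h1 := hasDerivAt_Ps x n
    have h2 : HasDerivAt (fun x : ℝ => x ^ (2 * (n + 1) + 1) / df (n + 1))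
        ((2 * n + 3) * x ^ (2 * n + 2) / df (n + 1)) x := by
      have h := (hasDerivAt_pow (2 * (n + 1) + 1) x).div_const (df (n + 1))
      have e : ((2 * (n + 1) + 1 : ℕ) : ℝ) * x ^ (2 * (n + 1) + 1 - 1) / df (n + 1)
          = (2 * n + 3) * x ^ (2 * n + 2) / df (n + 1) := by
        rw [show 2 * (n + 1) + 1 - 1 = 2 * n + 2 by omega]
        push_cast; ring
      rw [e] at h
      exact h
    have h3 := h1.add h2
    have e1 : (fun x => Ps x (n + 1 + 1))
        = fun x => Ps x (n + 1) + x ^ (2 * (n + 1) + 1) / df (n + 1) := by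
      funext x; rw [Ps, Finset.sum_range_succ]; rfl
    have e2 : 1 + x * Ps x (n + 1) = 1 + x * Ps x n + (2 * n + 3) * x ^ (2 * n + 2) / df (n + 1) := by
      rw [Ps, Finset.sum_range_succ, Ps, df]
      have h4 := (df_pos n).ne'
      have h5 : (2 * (n : ℝ) + 3) ≠ 0 := by positivity
      field_simp
      ring
    rw [e1, e2]
    exact h3

/-- the comparison function `p_r` -/
def pr (r x : ℝ) : ℝ := x * Hs (x ^ 2) 22 r

theorem pr_eq (r : ℝ) : pr r = fun x => Ps x 22 + r * x ^ 45 / df 22 := by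
  funext x
  exact Hs_eq x 22 r

theorem hasDerivAt_pr (r x : ℝ) : HasDerivAt (pr r)
    (1 + x * pr r x + x ^ 44 / df 22 * (45 * (r - 1) - r * x ^ 2)) x := by
  have h1 := hasDerivAt_Ps x 21
  have h2 : HasDerivAt (fun x : ℝ => r * x ^ 45 / df 22) (r * (45 * x ^ 44) / df 22) x := by
    have h := ((hasDerivAt_pow 45 x).const_mul r).div_const (df 22)
    exact h
  have h3 := h1.add h2
  have e : 1 + x * pr r x + x ^ 44 / df 22 * (45 * (r - 1) - r * x ^ 2)
      = 1 + x * Ps x 21 + r * (45 * x ^ 44) / df 22 := by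
    have h4 : Ps x 22 = Ps x 21 + x ^ 43 / df 21 := by
      rw [Ps, Finset.sum_range_succ]; rfl
    have h5 : df 22 = df 21 * 45 := by
      show df 21 * (2 * ((21 : ℕ) : ℝ) + 3) = df 21 * 45
      norm_num
    have h6 : pr r x = Ps x 22 + r * x ^ 45 / df 22 := Hs_eq x 22 r
    rw [h6, h4, h5]
    have h7 := (df_pos 21).ne'
    field_simp
    ring
  rw [e, pr_eq]
  exact h3

theorem hasDerivAt_cmp (r x : ℝ) :
    HasDerivAt (fun x => gg x - Real.exp (-x ^ 2 / 2) * pr r x)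
      (-(Real.exp (-x ^ 2 / 2) * (x ^ 44 / df 22 * (45 * (r - 1) - r * x ^ 2)))) x := by
  have h := (hasDerivAt_gg x).sub ((hasDerivAt_gauss x).mul (hasDerivAt_pr r x))
  have e : -(Real.exp (-x ^ 2 / 2) * (x ^ 44 / df 22 * (45 * (r - 1) - r * x ^ 2)))
      = Real.exp (-x ^ 2 / 2) - (-x * Real.exp (-x ^ 2 / 2) * pr r x + Real.exp (-x ^ 2 / 2) *
        (1 + x * pr r x + x ^ 44 / df 22 * (45 * (r - 1) - r * x ^ 2))) := by ring
  rw [e]
  exact h

theorem pr_zero (r : ℝ) : pr r 0 = 0 := by unfold pr; simp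

/-- lower bound of `s` -/
theorem pr_one_le {x : ℝ} (hx : 0 ≤ x) : Real.exp (-x ^ 2 / 2) * pr 1 x ≤ gg x := by
  have hm : MonotoneOn (fun x => gg x - Real.exp (-x ^ 2 / 2) * pr 1 x) (Set.Ici 0) := by
    refine monotoneOn_of_hasDerivWithinAt_nonneg (convex_Ici 0)
      (fun y _ => (hasDerivAt_cmp 1 y).continuousAt.continuousWithinAt)
      (fun y _ => (hasDerivAt_cmp 1 y).hasDerivWithinAt) ?_
    intro y _
    have h1 : 0 ≤ Real.exp (-y ^ 2 / 2) * (y ^ 44 / df 22 * y ^ 2) := by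
      have := df_pos 22
      positivity
    nlinarith [h1]
  have h := hm (Set.mem_Ici.2 le_rfl) (Set.mem_Ici.2 hx) hx
  simp only [gg_zero, pr_zero, mul_zero, sub_zero] at h
  linarith

/-- upper bound of `s` -/
theorem le_pr_two {x : ℝ} (hx : 0 ≤ x) (hx2 : x ≤ 2) :
    gg x ≤ Real.exp (-x ^ 2 / 2) * pr 2 x := by
  have hm : AntitoneOn (fun x => gg x - Real.exp (-x ^ 2 / 2) * pr 2 x) (Set.Icc 0 2) := by
    refine antitoneOn_of_hasDerivWithinAt_nonpos (convex_Icc 0 2)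
      (fun y _ => (hasDerivAt_cmp 2 y).continuousAt.continuousWithinAt)
      (fun y _ => (hasDerivAt_cmp 2 y).hasDerivWithinAt) ?_
    intro y hy
    rw [interior_Icc] at hy
    have h0 : 0 ≤ 45 * ((2 : ℝ) - 1) - 2 * y ^ 2 := by nlinarith [hy.1, hy.2]
    have h1 : 0 ≤ Real.exp (-y ^ 2 / 2) * (y ^ 44 / df 22 * (45 * ((2 : ℝ) - 1) - 2 * y ^ 2)) := by
      have := df_pos 22
      exact mul_nonneg (Real.exp_pos _).le (mul_nonneg (by positivity) h0)
    linarith
  have h := hm (Set.left_mem_Icc.2 (by norm_num)) ⟨hx, hx2⟩ hx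
  simp only [gg_zero, pr_zero, mul_zero, sub_zero] at h
  linarith

/-- the Mills ratio -/
theorem mills_eq (x : ℝ) : Ph x / phi x
    = Real.sqrt (Real.pi / 2) * Real.exp (x ^ 2 / 2) - Real.exp (x ^ 2 / 2) * gg x := by
  unfold gg phi
  have h1 := MC.sqrt_two_pi_pos.ne'
  have h2 : Real.exp (-x ^ 2 / 2) * Real.exp (x ^ 2 / 2) = 1 := by
    rw [← Real.exp_add, show -x ^ 2 / 2 + x ^ 2 / 2 = 0 by ring, Real.exp_zero]
  have h3 : Real.exp (-x ^ 2 / 2) ≠ 0 := (Real.exp_pos _).ne'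
  have h4 : Real.exp (x ^ 2 / 2) = (Real.exp (-x ^ 2 / 2))⁻¹ := by
    exact eq_inv_of_mul_eq_one_left (by rw [mul_comm]; exact h2)
  rw [h4]
  field_simp
  ring

theorem mills_le {x : ℝ} (hx : 0 ≤ x) : Ph x / phi x
    ≤ Real.sqrt (Real.pi / 2) * Real.exp (x ^ 2 / 2) - pr 1 x := by
  rw [mills_eq]
  have h := mul_le_mul_of_nonneg_left (pr_one_le hx) (Real.exp_pos (x ^ 2 / 2)).le
  have h2 : Real.exp (x ^ 2 / 2) * (Real.exp (-x ^ 2 / 2) * pr 1 x) = pr 1 x := by
    rw [← mul_assoc, ← Real.exp_add, show x ^ 2 / 2 + -x ^ 2 / 2 = 0 by ring, Real.exp_zero,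
      one_mul]
  rw [h2] at h
  linarith

theorem le_mills {x : ℝ} (hx : 0 ≤ x) (hx2 : x ≤ 2) :
    Real.sqrt (Real.pi / 2) * Real.exp (x ^ 2 / 2) - pr 2 x ≤ Ph x / phi x := by
  rw [mills_eq]
  have h := mul_le_mul_of_nonneg_left (le_pr_two hx hx2) (Real.exp_pos (x ^ 2 / 2)).le
  have h2 : Real.exp (x ^ 2 / 2) * (Real.exp (-x ^ 2 / 2) * pr 2 x) = pr 2 x := by
    rw [← mul_assoc, ← Real.exp_add, show x ^ 2 / 2 + -x ^ 2 / 2 = 0 by ring, Real.exp_zero,
      one_mul]
  rw [h2] at h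
  linarith

end

theorem milL_eq {t : ℕ} (ht : t ≤ 2 * S) : milL t
    = spL * expPL (t * t / (2 * S)) / S - (t * serU (t * t / S + 1) 22 (2 * S) / S + 1) := by
  have h : Nat.ble t (Nat.mul (nat_lit 2) S) = true := Nat.ble_eq_true_of_le ht
  unfold milL
  rw [h]
  simp only [fc_eq]
  generalize S = T
  generalize spL = P
  rfl

theorem milU_eq {t : ℕ} (ht : t ≤ 2 * S) : milU t
    = spU * expPU (t * t / (2 * S) + 1) / S + 1 - t * serL (t * t / S) 22 S / S := by
  have h : Nat.ble t (Nat.mul (nat_lit 2) S) = true := Nat.ble_eq_true_of_le ht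
  unfold milU
  rw [h]
  simp only [fc_eq]
  generalize S = T
  generalize spU = P
  rfl

end SerAux

open SerAux

theorem milL_le_of_le {t : ℕ} (ht : t ≤ 2 * S) : (milL t : ℝ) ≤ S * (Ph (t / S) / phi (t / S)) := by
  have hS := S_pos
  set x : ℝ := (t : ℝ) / S with hx
  have hx0 : 0 ≤ x := by positivity
  have htx : (t : ℝ) = S * x := by rw [hx]; field_simp
  have hx2 : x ≤ 2 := by
    rw [hx, div_le_iff₀ hS]; exact_mod_cast ht
  have hpos : 0 ≤ Ph x / phi x := (div_pos (MC.Ph_pos x) (MC.phi_pos x)).le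
  have hm := le_mills hx0 hx2
  rw [milL_eq ht]
  set A : ℕ := spL * expPL (t * t / (2 * S)) / S with hA
  set B : ℕ := t * serU (t * t / S + 1) 22 (2 * S) / S + 1 with hB
  -- the exponential part
  have hAle : (A : ℝ) ≤ S * (Real.sqrt (Real.pi / 2) * Real.exp (x ^ 2 / 2)) := by
    have h1 := div_le_real (spL * expPL (t * t / (2 * S))) S
    have h2 := expPL_le (t * t / (2 * S))
    have h3 : ((t * t / (2 * S) : ℕ) : ℝ) / S ≤ x ^ 2 / 2 := by
      have h4 := div_le_real (t * t) (2 * S)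
      rw [div_le_iff₀ hS]
      refine h4.trans (le_of_eq ?_)
      push_cast
      rw [htx]
      field_simp
    have h5 : (expPL (t * t / (2 * S)) : ℝ) ≤ S * Real.exp (x ^ 2 / 2) :=
      h2.trans (mul_le_mul_of_nonneg_left (Real.exp_le_exp.2 h3) hS.le)
    have h6 : ((spL * expPL (t * t / (2 * S)) : ℕ) : ℝ)
        ≤ (S * Real.sqrt (Real.pi / 2)) * (S * Real.exp (x ^ 2 / 2)) := by
      push_cast
      exact mul_le_mul spL_le h5 (Nat.cast_nonneg _) (by positivity)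
    refine h1.trans ?_
    rw [div_le_iff₀ hS]
    refine h6.trans (le_of_eq (by ring))
  -- the series part
  have hBge : S * pr 2 x ≤ (B : ℝ) := by
    have h1 := div_lt_succ (t * serU (t * t / S + 1) 22 (2 * S)) S S_posN
    have h2 : S * x ^ 2 ≤ ((t * t / S + 1 : ℕ) : ℝ) := by
      have h3 := div_lt_succ (t * t) S S_posN
      have h4 : ((t * t : ℕ) : ℝ) / S = S * x ^ 2 := by
        push_cast
        rw [htx]
        field_simp
      rw [h4] at h3
      push_cast at h3 ⊢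
      linarith
    have h5 := le_serU (sq_nonneg x) h2 22 (2 * S) (r := 2) (by norm_num) (by push_cast; linarith)
    have h6 : S * pr 2 x ≤ ((t * serU (t * t / S + 1) 22 (2 * S) : ℕ) : ℝ) / S := by
      rw [le_div_iff₀ hS]
      push_cast
      rw [htx]
      unfold pr
      nlinarith [mul_le_mul_of_nonneg_left h5 (mul_nonneg hS.le hx0)]
    have h7 : (B : ℝ) = ((t * serU (t * t / S + 1) 22 (2 * S) / S : ℕ) : ℝ) + 1 := by
      rw [hB]; push_cast; ring
    rw [h7]
    linarith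
  rcases le_total B A with hBA | hAB
  · rw [Nat.cast_sub hBA]
    have := mul_le_mul_of_nonneg_left hm hS.le
    nlinarith [this]
  · rw [Nat.sub_eq_zero_of_le hAB]
    push_cast
    positivity

theorem le_milU_of_le {t : ℕ} (ht : t ≤ 2 * S) : S * (Ph (t / S) / phi (t / S)) ≤ milU t := by
  have hS := S_pos
  set x : ℝ := (t : ℝ) / S with hx
  have hx0 : 0 ≤ x := by positivity
  have htx : (t : ℝ) = S * x := by rw [hx]; field_simp
  have hx2 : x ≤ 2 := by
    rw [hx, div_le_iff₀ hS]; exact_mod_cast ht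
  have hm := mills_le hx0
  rw [milU_eq ht]
  set A : ℕ := spU * expPU (t * t / (2 * S) + 1) / S + 1 with hA
  set B : ℕ := t * serL (t * t / S) 22 S / S with hB
  have hAge : S * (Real.sqrt (Real.pi / 2) * Real.exp (x ^ 2 / 2)) ≤ (A : ℝ) := by
    have h1 := div_lt_succ (spU * expPU (t * t / (2 * S) + 1)) S S_posN
    have hle : t * t / (2 * S) + 1 ≤ 1001 * S := by
      have h0 : t * t / (2 * S) ≤ 2 * S := by
        refine Nat.div_le_of_le_mul ?_
        exact Nat.mul_le_mul ht ht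
      have := S_posN
      omega
    have h2 := le_expPU hle
    have h3 : x ^ 2 / 2 ≤ ((t * t / (2 * S) + 1 : ℕ) : ℝ) / S := by
      have h4 := div_lt_succ (t * t) (2 * S) (Nat.mul_pos (by norm_num) S_posN)
      rw [le_div_iff₀ hS]
      have h5 : ((t * t : ℕ) : ℝ) / ((2 * S : ℕ) : ℝ) = x ^ 2 / 2 * S := by
        push_cast
        rw [htx]
        field_simp
      rw [h5] at h4
      push_cast at h4 ⊢
      linarith
    have h5 : S * Real.exp (x ^ 2 / 2) ≤ (expPU (t * t / (2 * S) + 1) : ℝ) :=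
      (mul_le_mul_of_nonneg_left (Real.exp_le_exp.2 h3) hS.le).trans h2
    have h6 : (S * Real.sqrt (Real.pi / 2)) * (S * Real.exp (x ^ 2 / 2))
        ≤ ((spU * expPU (t * t / (2 * S) + 1) : ℕ) : ℝ) := by
      push_cast
      exact mul_le_mul le_spU h5 (by positivity) (Nat.cast_nonneg _)
    have h7 : S * (Real.sqrt (Real.pi / 2) * Real.exp (x ^ 2 / 2))
        ≤ ((spU * expPU (t * t / (2 * S) + 1) : ℕ) : ℝ) / S := by
      rw [le_div_iff₀ hS]
      refine le_trans (le_of_eq (by ring)) h6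
    rw [hA]
    push_cast at h1 h7 ⊢
    linarith
  have hBle : (B : ℝ) ≤ S * pr 1 x := by
    have h1 := div_le_real (t * serL (t * t / S) 22 S) S
    have h2 : ((t * t / S : ℕ) : ℝ) ≤ S * x ^ 2 := by
      have h3 := div_le_real (t * t) S
      have h4 : ((t * t : ℕ) : ℝ) / S = S * x ^ 2 := by
        push_cast
        rw [htx]
        field_simp
      rw [h4] at h3
      exact h3
    have h5 := serL_le (sq_nonneg x) h2 22 S (r := 1) (by norm_num) (by rw [mul_one])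
    refine h1.trans ?_
    rw [div_le_iff₀ hS]
    push_cast
    rw [htx]
    unfold pr
    nlinarith [mul_le_mul_of_nonneg_left h5 (mul_nonneg hS.le hx0)]
  have h8 : (A : ℝ) - B ≤ ((A - B : ℕ) : ℝ) := by
    rcases le_total B A with hBA | hAB
    · rw [Nat.cast_sub hBA]
    · rw [Nat.sub_eq_zero_of_le hAB]
      have : (A : ℝ) ≤ B := by exact_mod_cast hAB
      push_cast
      linarith
  have := mul_le_mul_of_nonneg_left hm hS.le
  nlinarith [this]

end IP49N
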