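import Pool.Agent.IP49N.SMulB

/-! IP49N/STM: arithmetic of Taylor models. Write `f = α0 + u f1`, `f1 = α1 + u f2`,
`f2 = α2 + u f3`, `f3 = α3 + u r` (functions of `u`), so `|f3| S ≤ q3`, `|f2| S ≤ q2`,
`|f1| S ≤ q1`, `|u f1| S ≤ rho` (`le_mu`, `InB.ab`).
mul: coefficient of `u⁴`: `α0 r_g + β0 r_f + α1 g3 + β1 f3 + f2 g2`.
comp: `v = u f1`, `v² = α1² u² + 2 α1 α2 u³ + (2 α1 f3 + f2²) u⁴`,
`v³ = α1³ u³ + f2 (f1² + f1 α1 + α1²) u⁴`, `v⁴ = f1⁴ u⁴`; coefficient of `u⁴`: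
`γ1 r + γ2 (2 α1 f3 + f2²) + γ3 f2 (f1² + f1 α1 + α1²) + s f1⁴`, `|α1| S ≤ q1`. -/

set_option autoImplicit false

namespace IP49N
open Pool.Agent.IP49

private theorem stm_mul {x y : ℝ} {a b : ℕ} (hx : |x| * S ≤ a) (hy : |y| * S ≤ b) :
    |x * y| * S ≤ mu a b := by
  rw [abs_mul]
  exact le_mu (abs_nonneg _) (abs_nonneg _) hx hy

private theorem stm_add {x y : ℝ} {a b : ℕ} (hx : |x| * S ≤ a) (hy : |y| * S ≤ b) :
    |x + y| * S ≤ ((a + b : ℕ) : ℝ) := by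
  push_cast
  have h := mul_le_mul_of_nonneg_right (abs_add_le x y) S_pos.le
  rw [add_mul] at h
  linarith

private theorem stm_sub {x y : ℝ} {a b : ℕ} (hx : |x| * S ≤ a) (hy : |y| * S ≤ b) :
    |x - y| * S ≤ ((a + b : ℕ) : ℝ) := by
  rw [sub_eq_add_neg]
  exact stm_add hx (by rwa [abs_neg])

private theorem stm_u {u : ℝ} {W : ℕ} (hu : |u| ≤ W / S) : |u| * S ≤ W := by
  rwa [le_div_iff₀ S_pos] at hu

private theorem stm_horner {a : TM} {W : ℕ} {α1 α2 α3 r u : ℝ} (h1 : InB α1 a.a1)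
    (h2 : InB α2 a.a2) (h3 : InB α3 a.a3) (hr : |r| * S ≤ a.R) (hu : |u| * S ≤ W) :
    |α3 + r * u| * S ≤ TM.q3 W a ∧ |α2 + (α3 + r * u) * u| * S ≤ TM.q2 W a ∧
      |α1 + (α2 + (α3 + r * u) * u) * u| * S ≤ TM.q1 W a ∧
      |(α1 + (α2 + (α3 + r * u) * u) * u) * u| * S ≤ TM.rho W a := by
  have e3 : |α3 + r * u| * S ≤ TM.q3 W a := stm_add h3.ab (stm_mul hr hu)
  have e2 : |α2 + (α3 + r * u) * u| * S ≤ TM.q2 W a := stm_add h2.ab (stm_mul e3 hu)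
  have e1 : |α1 + (α2 + (α3 + r * u) * u) * u| * S ≤ TM.q1 W a := stm_add h1.ab (stm_mul e2 hu)
  exact ⟨e3, e2, e1, stm_mul e1 hu⟩

private theorem stm_zero_le (W : ℕ) : |(0 : ℝ)| ≤ W / S := by
  rw [abs_zero]
  exact div_nonneg (Nat.cast_nonneg _) S_pos.le

theorem InT.center {f : ℝ → ℝ} {c : ℝ} {W : ℕ} {a : TM} (h : InT f c (W / S) a) :
    InB (f c) a.a0 := by
  obtain ⟨α0, α1, α2, α3, h0, h1, h2, h3, h⟩ := h
  obtain ⟨r, hr, he⟩ := h 0 (stm_zero_le W)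
  have : f c = α0 := by
    rw [add_zero] at he
    rw [he]; ring
  rw [this]; exact h0

/-- range bound -/
theorem InT.range {f : ℝ → ℝ} {c : ℝ} {W : ℕ} {a : TM} (h : InT f c (W / S) a) {u : ℝ}
    (hu : |u| ≤ W / S) : |f (c + u) - f c| * S ≤ TM.rho W a := by
  obtain ⟨α0, α1, α2, α3, h0, h1, h2, h3, h⟩ := h
  obtain ⟨r0, hr0, he0⟩ := h 0 (stm_zero_le W)
  obtain ⟨r, hr, he⟩ := h u hu
  have hc : f c = α0 := by
    rw [add_zero] at he0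
    rw [he0]; ring
  have := (stm_horner h1 h2 h3 hr (stm_u hu)).2.2.2
  have e : f (c + u) - f c = (α1 + (α2 + (α3 + r * u) * u) * u) * u := by
    rw [he, hc]; ring
  rw [e]; exact this

theorem InT.cst {x c w : ℝ} {B : Bl} (h : InB x B) :
    InT (fun _ => x) c w ⟨B, Bl.zero, Bl.zero, Bl.zero, nat_lit 0⟩ := by
  refine ⟨x, 0, 0, 0, h, InB.zero, InB.zero, InB.zero, ?_⟩
  intro u _
  refine ⟨0, ?_, ?_⟩
  · show |(0 : ℝ)| * S ≤ ((0 : ℕ) : ℝ)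
    simp
  · ring

theorem InT.var {c : ℤ} {w : ℝ} :
    InT (fun x => x) (c / S) w ⟨⟨c, nat_lit 0⟩, Bl.one, Bl.zero, Bl.zero, nat_lit 0⟩ := by
  refine ⟨c / S, 1, 0, 0, InB.cst c, InB.one, InB.zero, InB.zero, ?_⟩
  intro u _
  refine ⟨0, ?_, ?_⟩
  · show |(0 : ℝ)| * S ≤ ((0 : ℕ) : ℝ)
    simp
  · ring

theorem InT.add {f g : ℝ → ℝ} {c w : ℝ} {a b : TM} (hf : InT f c w a) (hg : InT g c w b) :
    InT (fun x => f x + g x) c w (a.add b) := by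
  obtain ⟨α0, α1, α2, α3, h0, h1, h2, h3, hf⟩ := hf
  obtain ⟨β0, β1, β2, β3, k0, k1, k2, k3, hg⟩ := hg
  refine ⟨α0 + β0, α1 + β1, α2 + β2, α3 + β3, h0.add k0, h1.add k1, h2.add k2, h3.add k3, ?_⟩
  intro u hu
  obtain ⟨r, hr, he⟩ := hf u hu
  obtain ⟨s, hs, hk⟩ := hg u hu
  refine ⟨r + s, stm_add hr hs, ?_⟩
  show f (c + u) + g (c + u) = _
  rw [he, hk]; ring

theorem InT.sub {f g : ℝ → ℝ} {c w : ℝ} {a b : TM} (hf : InT f c w a) (hg : InT g c w b) :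
    InT (fun x => f x - g x) c w (a.sub b) := by
  obtain ⟨α0, α1, α2, α3, h0, h1, h2, h3, hf⟩ := hf
  obtain ⟨β0, β1, β2, β3, k0, k1, k2, k3, hg⟩ := hg
  refine ⟨α0 - β0, α1 - β1, α2 - β2, α3 - β3, h0.sub k0, h1.sub k1, h2.sub k2, h3.sub k3, ?_⟩
  intro u hu
  obtain ⟨r, hr, he⟩ := hf u hu
  obtain ⟨s, hs, hk⟩ := hg u hu
  refine ⟨r - s, stm_sub hr hs, ?_⟩
  show f (c + u) - g (c + u) = _
  rw [he, hk]; ring

private theorem stm_pr {x y : ℝ} {a b : ℕ} (hx : |x| * S ≤ a) (hy : |y| * S ≤ b) :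
    |x * y| * (S * S) ≤ ((a * b : ℕ) : ℝ) := by
  rw [abs_mul]
  push_cast
  have := mul_le_mul hx hy (mul_nonneg (abs_nonneg _) S_pos.le) (Nat.cast_nonneg _)
  calc |x| * |y| * (S * S) = |x| * S * (|y| * S) := by ring
    _ ≤ _ := this

private theorem stm_add2 {x y : ℝ} {a b : ℕ} (hx : |x| * (S * S) ≤ a) (hy : |y| * (S * S) ≤ b) :
    |x + y| * (S * S) ≤ ((a + b : ℕ) : ℝ) := by
  push_cast
  have h := mul_le_mul_of_nonneg_right (abs_add_le x y) (mul_nonneg S_pos.le S_pos.le)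
  rw [add_mul] at h
  linarith

private theorem stm_fin {x : ℝ} {n : ℕ} (hx : |x| * (S * S) ≤ n) :
    |x| * S ≤ ((n / S + 1 : ℕ) : ℝ) := by
  have h := div_lt_succ n S S_posN
  have h2 : |x| * S ≤ (n : ℝ) / S := by
    rw [le_div_iff₀ S_pos]
    calc |x| * S * S = |x| * (S * S) := by ring
      _ ≤ _ := hx
  push_cast
  linarith

theorem InT.mul {f g : ℝ → ℝ} {c : ℝ} {W : ℕ} {a b : TM} (hf : InT f c (W / S) a)
    (hg : InT g c (W / S) b) : InT (fun x => f x * g x) c (W / S) (TM.mul W a b) := by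
  obtain ⟨α0, α1, α2, α3, h0, h1, h2, h3, hf⟩ := hf
  obtain ⟨β0, β1, β2, β3, k0, k1, k2, k3, hg⟩ := hg
  have hm : TM.mul W a b = ⟨a.a0.mul b.a0,
   (a.a0.mul b.a1).add (a.a1.mul b.a0),
   ((a.a0.mul b.a2).add (a.a1.mul b.a1)).add (a.a2.mul b.a0),
   ((a.a0.mul b.a3).add (a.a1.mul b.a2)).add ((a.a2.mul b.a1).add (a.a3.mul b.a0)),
   (a.a0.ab * b.R + a.R * b.a0.ab + (a.a1.ab * TM.q3 W b + b.a1.ab * TM.q3 W a)
     + TM.q2 W a * TM.q2 W b) / S + 1⟩ := by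
    unfold TM.mul
    simp only [fc_eq]
    rfl
  rw [hm]
  refine ⟨α0 * β0, α0 * β1 + α1 * β0, α0 * β2 + α1 * β1 + α2 * β0,
    α0 * β3 + α1 * β2 + (α2 * β1 + α3 * β0), h0.mul k0, (h0.mul k1).add (h1.mul k0),
    ((h0.mul k2).add (h1.mul k1)).add (h2.mul k0),
    ((h0.mul k3).add (h1.mul k2)).add ((h2.mul k1).add (h3.mul k0)), ?_⟩
  intro u hu
  obtain ⟨r, hr, he⟩ := hf u hu
  obtain ⟨s, hs, hk⟩ := hg u hu
  obtain ⟨p3, p2, p1, p0⟩ := stm_horner h1 h2 h3 hr (stm_u hu)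
  obtain ⟨t3, t2, t1, t0⟩ := stm_horner k1 k2 k3 hs (stm_u hu)
  refine ⟨α0 * s + r * β0 + (α1 * (β3 + s * u) + β1 * (α3 + r * u))
    + (α2 + (α3 + r * u) * u) * (β2 + (β3 + s * u) * u), ?_, ?_⟩
  · exact stm_fin (stm_add2 (stm_add2 (stm_add2 (stm_pr h0.ab hs) (stm_pr hr k0.ab))
      (stm_add2 (stm_pr h1.ab t3) (stm_pr k1.ab p3))) (stm_pr p2 t2))
  · show f (c + u) * g (c + u) = _
    rw [he, hk]; ring

theorem InT.comp {f g : ℝ → ℝ} {c : ℝ} {W : ℕ} {a : TM} {g0 g1 g2 g3 : Bl} {G : ℕ}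
    (hf : InT f c (W / S) a) (hg : Ex4 g (f c) (TM.rho W a / S) g0 g1 g2 g3 G) :
    InT (fun x => g (f x)) c (W / S) (TM.comp W a g0 g1 g2 g3 G) := by
  obtain ⟨α0, α1, α2, α3, h0, h1, h2, h3, hf⟩ := hf
  obtain ⟨γ0, γ1, γ2, γ3, k0, k1, k2, k3, hg⟩ := hg
  have hc : f c = α0 := by
    obtain ⟨r0, hr0, he0⟩ := hf 0 (stm_zero_le W)
    rw [add_zero] at he0
    rw [he0]; ring
  have hm : TM.comp W a g0 g1 g2 g3 G = ⟨g0, g1.mul a.a1,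
      (g1.mul a.a2).add (g2.mul (a.a1.mul a.a1)),
      ((g1.mul a.a3).add (g2.mul (a.a1.mul a.a2)).dbl).add (g3.mul ((a.a1.mul a.a1).mul a.a1)),
      (mu g1.ab a.R + mu g2.ab (2 * mu a.a1.ab (TM.q3 W a) + mu (TM.q2 W a) (TM.q2 W a)))
      + (3 * mu g3.ab (mu (TM.q2 W a) (mu (TM.q1 W a) (TM.q1 W a)))
      + mu G (mu (mu (TM.q1 W a) (TM.q1 W a)) (mu (TM.q1 W a) (TM.q1 W a))))⟩ := by
    unfold TM.comp
    simp only [fc_eq, fcB_eq]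
    rfl
  rw [hm]
  refine ⟨γ0, γ1 * α1, γ1 * α2 + γ2 * (α1 * α1),
    γ1 * α3 + 2 * (γ2 * (α1 * α2)) + γ3 * (α1 * α1 * α1), k0, k1.mul h1,
    (k1.mul h2).add (k2.mul (h1.mul h1)),
    ((k1.mul h3).add (k2.mul (h1.mul h2)).dbl).add (k3.mul ((h1.mul h1).mul h1)), ?_⟩
  intro u hu
  obtain ⟨r, hr, he⟩ := hf u hu
  obtain ⟨p3, p2, p1, p0⟩ := stm_horner h1 h2 h3 hr (stm_u hu)
  obtain ⟨s, hs, hk⟩ := hg ((α1 + (α2 + (α3 + r * u) * u) * u) * u)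
    (by rw [le_div_iff₀ S_pos]; exact p0)
  have q1 : |α1| * S ≤ TM.q1 W a := by
    have e : TM.q1 W a = a.a1.ab + mu (TM.q2 W a) W := rfl
    rw [e]
    push_cast
    have := h1.ab
    have h' : (0 : ℝ) ≤ (mu (TM.q2 W a) W : ℕ) := Nat.cast_nonneg _
    linarith
  have hfu : f (c + u) = f c + (α1 + (α2 + (α3 + r * u) * u) * u) * u := by
    rw [he, hc]; ring
  set f3 := α3 + r * u with hf3
  set f2 := α2 + f3 * u with hf2
  set f1 := α1 + f2 * u with hf1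
  refine ⟨(γ1 * r + γ2 * ((α1 * f3 + α1 * f3) + f2 * f2))
    + ((γ3 * (f2 * (f1 * f1)) + γ3 * (f2 * (f1 * α1)) + γ3 * (f2 * (α1 * α1)))
    + s * ((f1 * f1) * (f1 * f1))), ?_, ?_⟩
  · have := stm_add (stm_add (stm_mul k1.ab hr)
      (stm_mul k2.ab (stm_add (stm_add (stm_mul h1.ab p3) (stm_mul h1.ab p3)) (stm_mul p2 p2))))
      (stm_add (stm_add (stm_add (stm_mul k3.ab (stm_mul p2 (stm_mul p1 p1)))
        (stm_mul k3.ab (stm_mul p2 (stm_mul p1 q1))))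
        (stm_mul k3.ab (stm_mul p2 (stm_mul q1 q1))))
        (stm_mul hs (stm_mul (stm_mul p1 p1) (stm_mul p1 p1))))
    refine this.trans (le_of_eq ?_)
    congr 1
    ring_nf
  · show g (f (c + u)) = _
    rw [hfu, hk, hf1, hf2, hf3]; ring

end IP49N
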