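import Pool.Agent.IP49N.SBasic
import Pool.Agent.IP49.MillsB

/-! IP49N/STail: truncation of Gaussian expectations at `|x| = Z ≥ 6.5`.
`GE f = (1/√(2π)) ∫ f e^(-x²/2)` (`integral_gaussianReal_eq_integral_smul`, `gaussianPDFReal`), and
`2 ∫_Z^∞ (1+x²) phi = 4 Ph Z + 2 Z phi Z ≤ (4/Z + 2 Z) phi Z ≤ 4e-9` at `Z = 6.5`
(`phi 6.5 ≤ 2.68e-10`; decreasing in `Z`; or compare: the tail integral is monotone in `Z`, so
`Z = 6.5` is enough). -/

set_option autoImplicit false
open MeasureTheory ProbabilityTheory intervalIntegral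

namespace IP49N
open Pool.Agent.IP49

theorem phi65 : phi 6.5 ≤ 2.9e-10 := by
  unfold phi
  have h1 : (5 / 2 : ℝ) ≤ Real.sqrt (2 * Real.pi) := by
    apply Real.le_sqrt_of_sq_le
    have := Real.pi_gt_d4
    nlinarith
  have h2 : (1.4e9 : ℝ) ≤ Real.exp 21.125 := by
    have e : (21.125 : ℝ) = 21 * 1 + 0.125 := by norm_num
    rw [e, Real.exp_add]
    have h3 : Real.exp (21 * 1) = Real.exp 1 ^ 21 := by
      rw [← Real.exp_nat_mul]; norm_num
    rw [h3]
    have h4 : (2.7 : ℝ) ^ 21 * 1 ≤ Real.exp 1 ^ 21 * 1 := by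
      rw [mul_one, mul_one]
      exact pow_le_pow_left₀ (by norm_num) (by have := Real.exp_one_gt_d9; linarith) 21
    have h5 : (2.718 : ℝ) ^ 21 ≤ Real.exp 1 ^ 21 :=
      pow_le_pow_left₀ (by norm_num) (by have := Real.exp_one_gt_d9; linarith) 21
    have h6 : (1.125 : ℝ) ≤ Real.exp 0.125 := by
      have := Real.add_one_le_exp (0.125 : ℝ)
      linarith
    calc (1.4e9 : ℝ) ≤ 2.718 ^ 21 * 1.125 := by norm_num
      _ ≤ Real.exp 1 ^ 21 * Real.exp 0.125 :=
        mul_le_mul h5 h6 (by norm_num) (by positivity)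
  have e : (-(6.5 : ℝ) ^ 2 / 2) = -21.125 := by norm_num
  rw [e, Real.exp_neg]
  have h7 : (Real.exp 21.125)⁻¹ ≤ (1.4e9)⁻¹ := inv_anti₀ (by norm_num) h2
  calc (Real.exp 21.125)⁻¹ / Real.sqrt (2 * Real.pi) ≤ (1.4e9)⁻¹ / (5 / 2) :=
        div_le_div₀ (by norm_num) h7 (by norm_num) h1
    _ ≤ 2.9e-10 := by norm_num

theorem integrable_w : Integrable (fun x : ℝ => (1 + x ^ 2) * phi x) := by
  have h := MC.integrable_phi.add (MC.integrable_pow_mul_phi 2)
  refine h.congr (Filter.Eventually.of_forall fun x => ?_)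
  simp only [Pi.add_apply]
  ring

theorem tail_w {Z : ℝ} (hZ : 6.5 ≤ Z) : ∫ x in Set.Ioi Z, (1 + x ^ 2) * phi x ≤ 2e-9 := by
  have h1 : ∫ x in Set.Ioi Z, (1 + x ^ 2) * phi x ≤ ∫ x in Set.Ioi (6.5 : ℝ), (1 + x ^ 2) * phi x :=
    setIntegral_mono_set integrable_w.integrableOn
      (Filter.Eventually.of_forall fun x => mul_nonneg (by positivity) (phi_pos x).le)
      (Set.Ioi_subset_Ioi hZ).eventuallyLE
  have h2 : ∫ x in Set.Ioi (6.5 : ℝ), (1 + x ^ 2) * phi x = Ph 6.5 + (6.5 * phi 6.5 + Ph 6.5) := by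
    have e : ∀ x : ℝ, (1 + x ^ 2) * phi x = phi x + x ^ 2 * phi x := fun x => by ring
    simp_rw [e]
    rw [integral_add MC.integrable_phi.integrableOn
      (MC.integrable_pow_mul_phi 2).integrableOn, ← MC.Ph_eq_integral,
      MC.integral_Ioi_sq_mul_phi]
  have h3 : Ph 6.5 ≤ phi 6.5 / 6.5 := by
    rw [le_div_iff₀ (by norm_num)]
    have h4 := MC.lt_Mi 6.5
    have h5 := MC.Mi_mul_Ph 6.5
    have h6 := MC.Ph_pos 6.5
    nlinarith
  have h7 := phi65
  rw [h2] at h1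
  refine h1.trans ?_
  have h8 : phi 6.5 / 6.5 ≤ 2.9e-10 / 6.5 := by
    exact div_le_div_of_nonneg_right h7 (by norm_num)
  calc Ph 6.5 + (6.5 * phi 6.5 + Ph 6.5) ≤ 2.9e-10 / 6.5 + (6.5 * 2.9e-10 + 2.9e-10 / 6.5) := by
        linarith
    _ ≤ 2e-9 := by norm_num

theorem GE_trunc {f : ℝ → ℝ} (hf : Continuous f) {C Z : ℝ} (hZ : 6.5 ≤ Z)
    (hb : ∀ x, |f x| ≤ C * (1 + x ^ 2)) :
    |GE f - (∫ x in (-Z)..Z, f x * Real.exp (-x ^ 2 / 2)) / Real.sqrt (2 * Real.pi)|
      ≤ C * 4e-9 := by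
  have hC : 0 ≤ C := by
    have h := hb 0
    have h0 := abs_nonneg (f 0)
    have e : C * (1 + (0 : ℝ) ^ 2) = C := by ring
    rw [e] at h
    linarith
  have hbw : ∀ x, ‖phi x * f x‖ ≤ C * ((1 + x ^ 2) * phi x) := by
    intro x
    rw [Real.norm_eq_abs, abs_mul, abs_of_pos (phi_pos x)]
    have := mul_le_mul_of_nonneg_left (hb x) (phi_pos x).le
    linarith
  have hi : Integrable (fun x => phi x * f x) := by
    refine Integrable.mono' (integrable_w.const_mul C)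
      (continuous_phi.mul hf).aestronglyMeasurable (Filter.Eventually.of_forall hbw)
  have e1 : GE f = ∫ x, phi x * f x := GE_eq f
  have e2 : (∫ x in (-Z)..Z, f x * Real.exp (-x ^ 2 / 2)) / Real.sqrt (2 * Real.pi) =
      ∫ x in (-Z)..Z, phi x * f x := by
    rw [← intervalIntegral.integral_div]
    refine intervalIntegral.integral_congr fun x _ => ?_
    unfold phi
    ring
  have e3 : ∫ x, phi x * f x = (∫ x in Set.Iic (-Z), phi x * f x) +
      (∫ x in (-Z)..Z, phi x * f x) + ∫ x in Set.Ioi Z, phi x * f x := by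
    rw [← intervalIntegral.integral_Iic_add_Ioi (b := Z) hi.integrableOn hi.integrableOn,
      ← intervalIntegral.integral_Iic_sub_Iic (a := -Z) (b := Z) hi.integrableOn hi.integrableOn]
    ring
  have h4 : |∫ x in Set.Iic (-Z), phi x * f x| ≤ ∫ x in Set.Iic (-Z), C * ((1 + x ^ 2) * phi x) := by
    have := norm_integral_le_of_norm_le ((integrable_w.const_mul C).integrableOn (s := Set.Iic (-Z)))
      (Filter.Eventually.of_forall hbw)
    simpa [Real.norm_eq_abs] using this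
  have h5 : |∫ x in Set.Ioi Z, phi x * f x| ≤ ∫ x in Set.Ioi Z, C * ((1 + x ^ 2) * phi x) := by
    have := norm_integral_le_of_norm_le ((integrable_w.const_mul C).integrableOn (s := Set.Ioi Z))
      (Filter.Eventually.of_forall hbw)
    simpa [Real.norm_eq_abs] using this
  have h6 : ∫ x in Set.Iic (-Z), C * ((1 + x ^ 2) * phi x) =
      ∫ x in Set.Ioi Z, C * ((1 + x ^ 2) * phi x) := by
    rw [← integral_comp_neg_Ioi]
    refine setIntegral_congr_fun measurableSet_Ioi fun x _ => ?_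
    simp only [neg_sq, phi_neg]
  have h7 : ∫ x in Set.Ioi Z, C * ((1 + x ^ 2) * phi x) ≤ C * 2e-9 := by
    rw [MeasureTheory.integral_const_mul]
    exact mul_le_mul_of_nonneg_left (tail_w hZ) hC
  rw [e1, e2, e3]
  have e4 : (∫ x in Set.Iic (-Z), phi x * f x) + (∫ x in (-Z)..Z, phi x * f x) +
      (∫ x in Set.Ioi Z, phi x * f x) - (∫ x in (-Z)..Z, phi x * f x) =
      (∫ x in Set.Iic (-Z), phi x * f x) + ∫ x in Set.Ioi Z, phi x * f x := by ring
  rw [e4]
  calc _ ≤ |∫ x in Set.Iic (-Z), phi x * f x| + |∫ x in Set.Ioi Z, phi x * f x| := abs_add_le _ _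
    _ ≤ C * 2e-9 + C * 2e-9 := add_le_add (h4.trans (h6.le.trans h7)) (h5.trans h7)
    _ = C * 4e-9 := by ring

end IP49N
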