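import Pool.Agent.IP49N.SMulB
import Pool.Agent.IP49N.SExp
import Pool.Agent.IP49N.SLog
import Pool.Agent.IP49N.SConst
import Pool.Agent.IP49N.SSer
import Pool.Agent.IP49N.SCf
import Pool.Agent.IP49N.SUnB
import Pool.Agent.IP49N.SMilV
import Pool.Agent.IP49N.STM
import Pool.Agent.IP49N.STay
import Pool.Agent.IP49N.SUnT
import Pool.Agent.IP49N.SMilT
import Pool.Agent.IP49N.STh
import Pool.Agent.IP49N.SSem
import Pool.Agent.IP49N.SRun
import Pool.Agent.IP49N.SCell
import Pool.Agent.IP49N.SQuad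
import Pool.Agent.IP49N.STail
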