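import Mathlib

/-! IP49N (helper52): computable part of the verified quadrature engine.  Fixed point numbers:
an integer `x` stands for the real number `x / S`, `S = 2^60`.  Everything is written with raw
`Nat`/`Int` functions (fast in the kernel). -/

namespace IP49N

/-- scale `2^60` -/
def S : ℕ := nat_lit 1152921504606846976
/-- `2^120` -/
def S2 : ℕ := nat_lit 1329227995784915872903807060280344576

/-- force the evaluation of a natural number -/
def fc {α : Type} (n : ℕ) (f : ℕ → α) : α := Nat.casesOn n (f (nat_lit 0)) (fun m => f (Nat.succ m))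

/-! ### exponential of nonnegative arguments -/

/-- `s ↦ S + floor (y s / (S (n+1)))` iterated, `n` decreasing -/
def expHL (y n : ℕ) : ℕ → ℕ :=
  Nat.rec (motive := fun _ => ℕ → ℕ) (fun s => s)
    (fun n ih s => ih (Nat.add S (Nat.div (Nat.mul y s) (Nat.mul S (Nat.succ n))))) n
def expHU (y n : ℕ) : ℕ → ℕ :=
  Nat.rec (motive := fun _ => ℕ → ℕ) (fun s => s)
    (fun n ih s => ih (Nat.add S (Nat.succ (Nat.div (Nat.mul y s) (Nat.mul S (Nat.succ n)))))) n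
def sqL (n : ℕ) : ℕ → ℕ :=
  Nat.rec (motive := fun _ => ℕ → ℕ) (fun s => s) (fun _ ih s => ih (Nat.div (Nat.mul s s) S)) n
def sqU (n : ℕ) : ℕ → ℕ :=
  Nat.rec (motive := fun _ => ℕ → ℕ) (fun s => s)
    (fun _ ih s => ih (Nat.succ (Nat.div (Nat.mul s s) S))) n

/-- lower bound of `exp (x/S) * S` for `x ≥ 0` -/
def expPL (x : ℕ) : ℕ := sqL (nat_lit 8) (expHL (Nat.div x (nat_lit 256)) (nat_lit 9) S)
/-- upper bound of `exp (x/S) * S` for `0 ≤ x ≤ 1000 S` -/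
def expPU (x : ℕ) : ℕ :=
  sqU (nat_lit 8) (expHU (Nat.succ (Nat.div x (nat_lit 256))) (nat_lit 9) (Nat.mul (nat_lit 2) S))

/-- bounds for `exp (-x/S) * S`, `x ≥ 0` -/
def expNL (x : ℕ) : ℕ :=
  Bool.rec (nat_lit 0) (Nat.div S2 (expPU x)) (Nat.ble x (Nat.mul (nat_lit 1000) S))
def expNU (x : ℕ) : ℕ := Nat.succ (Nat.div S2 (expPL x))

/-! ### logarithm -/

def atL (u n : ℕ) : ℕ → ℕ :=
  Nat.rec (motive := fun _ => ℕ → ℕ) (fun s => s)
    (fun n ih s => ih (Nat.add (Nat.div S (Nat.succ (Nat.mul (nat_lit 2) n)))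
      (Nat.div (Nat.mul u s) S))) n
def atU (u n : ℕ) : ℕ → ℕ :=
  Nat.rec (motive := fun _ => ℕ → ℕ) (fun s => s)
    (fun n ih s => ih (Nat.add (Nat.succ (Nat.div S (Nat.succ (Nat.mul (nat_lit 2) n))))
      (Nat.succ (Nat.div (Nat.mul u s) S)))) n

/-- lower/upper bound of `log (w/S) * S` for `S ≤ w ≤ 2 S` -/
def logWL (w : ℕ) : ℕ :=
  fc (Nat.div (Nat.mul (Nat.sub w S) S) (Nat.add w S)) fun t =>
  fc (Nat.div (Nat.mul t t) S) fun u =>
  Nat.mul (nat_lit 2) (Nat.div (Nat.mul t (atL u (nat_lit 12) (nat_lit 0))) S)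
def logWU (w : ℕ) : ℕ :=
  fc (Nat.succ (Nat.div (Nat.mul (Nat.sub w S) S) (Nat.add w S))) fun t =>
  fc (Nat.succ (Nat.div (Nat.mul t t) S)) fun u =>
  Nat.mul (nat_lit 2) (Nat.succ (Nat.div (Nat.mul t (atU u (nat_lit 12)
    (Nat.div S (nat_lit 16)))) S))

/-- `log 2 * S` bounds -/
def l2L : ℕ := nat_lit 799144290025469441
def l2U : ℕ := nat_lit 799144290601930194

/-- bounds of `log (v/S) * S`, `v > 0` natural -/
def logL (v : ℕ) : ℤ :=
  fc (Nat.log2 v) fun k =>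
  fc (logWL (Nat.div (Nat.mul v S) (Nat.pow (nat_lit 2) k))) fun w =>
  Bool.rec (Int.sub (Int.ofNat w) (Int.ofNat (Nat.mul (Nat.sub (nat_lit 60) k) l2U)))
    (Int.ofNat (Nat.add w (Nat.mul (Nat.sub k (nat_lit 60)) l2L))) (Nat.ble (nat_lit 60) k)
def logU (v : ℕ) : ℤ :=
  fc (Nat.log2 v) fun k =>
  fc (logWU (Nat.succ (Nat.div (Nat.mul v S) (Nat.pow (nat_lit 2) k)))) fun w =>
  Bool.rec (Int.sub (Int.ofNat w) (Int.ofNat (Nat.mul (Nat.sub (nat_lit 60) k) l2L)))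
    (Int.ofNat (Nat.add w (Nat.mul (Nat.sub k (nat_lit 60)) l2U))) (Nat.ble (nat_lit 60) k)

/-! ### Mills ratio `M(t) = Pb t / phi t`, `0 ≤ t` -/

/-- `1 + t²/3 (1 + t²/5 (...))` ; `u = t²` -/
def serL (u n : ℕ) : ℕ → ℕ :=
  Nat.rec (motive := fun _ => ℕ → ℕ) (fun s => s)
    (fun n ih s => ih (Nat.add S (Nat.div (Nat.mul u s)
      (Nat.mul S (Nat.add (Nat.mul (nat_lit 2) n) (nat_lit 3)))))) n
def serU (u n : ℕ) : ℕ → ℕ :=
  Nat.rec (motive := fun _ => ℕ → ℕ) (fun s => s)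
    (fun n ih s => ih (Nat.add S (Nat.succ (Nat.div (Nat.mul u s)
      (Nat.mul S (Nat.add (Nat.mul (nat_lit 2) n) (nat_lit 3))))))) n
/-- continued fraction step `r ↦ k S² / (t + r)`, `k` decreasing from `n` to `1`, rounding by
alternation is not tracked: both directions are rounded outwards by `cfL`/`cfU` jointly. -/
def cf (t n : ℕ) : ℕ → ℕ → (ℕ → ℕ → ℕ) → ℕ :=
  Nat.rec (motive := fun _ => ℕ → ℕ → (ℕ → ℕ → ℕ) → ℕ) (fun lo hi k => k lo hi)
    (fun n ih lo hi k => ih (Nat.div (Nat.mul (Nat.succ n) S2) (Nat.add t hi))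
      (Nat.succ (Nat.div (Nat.mul (Nat.succ n) S2) (Nat.add t lo))) k) n

/-- lower and upper bounds of `sqrt(pi/2) * S` -/
def spL : ℕ := nat_lit 1444972820938818966
def spU : ℕ := nat_lit 1444972820938818967

/-- lower/upper bounds of `Mills(t) * S` for `0 ≤ t` -/
def milL (t : ℕ) : ℕ :=
  Bool.rec
    (cf t (nat_lit 20) (nat_lit 0) (Nat.succ (Nat.div (Nat.mul (nat_lit 21) S2) t))
      (fun _ hi => Nat.div S2 (Nat.add t hi)))
    (fc (Nat.succ (Nat.div (Nat.mul t t) S)) fun u =>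
      Nat.sub (Nat.div (Nat.mul spL (expPL (Nat.div (Nat.mul t t) (Nat.mul (nat_lit 2) S)))) S)
        (Nat.succ (Nat.div (Nat.mul t (serU u (nat_lit 22) (Nat.mul (nat_lit 2) S))) S)))
    (Nat.ble t (Nat.mul (nat_lit 2) S))
def milU (t : ℕ) : ℕ :=
  Bool.rec
    (cf t (nat_lit 20) (nat_lit 0) (Nat.succ (Nat.div (Nat.mul (nat_lit 21) S2) t))
      (fun lo _ => Nat.succ (Nat.div S2 (Nat.add t lo))))
    (fc (Nat.div (Nat.mul t t) S) fun u =>
      Nat.sub (Nat.succ (Nat.div (Nat.mul spU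
        (expPU (Nat.succ (Nat.div (Nat.mul t t) (Nat.mul (nat_lit 2) S))))) S))
        (Nat.div (Nat.mul t (serL u (nat_lit 22) S)) S))
    (Nat.ble t (Nat.mul (nat_lit 2) S))

/-- bounds of `1/sqrt(2 pi) * S` -/
def cL : ℕ := nat_lit 459949134171706403
def cU : ℕ := nat_lit 459949134171706404
/-- bounds of `log (sqrt(2 pi)) * S` -/
def hL : ℕ := nat_lit 1059463996343500000
def hU : ℕ := nat_lit 1059463996343600000

/-! ### balls -/

/-- ball: `|x * S - m| ≤ r` -/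
structure Bl where
  m : ℤ
  r : ℕ

def Bl.add (a b : Bl) : Bl := ⟨Int.add a.m b.m, Nat.add a.r b.r⟩
def Bl.neg (a : Bl) : Bl := ⟨Int.neg a.m, a.r⟩
def Bl.sub (a b : Bl) : Bl := ⟨Int.sub a.m b.m, Nat.add a.r b.r⟩
/-- radius of a product of balls with centres of absolute value `m`, `n` and radii `r`, `s` -/
def mrad (m n r s : ℕ) : ℕ :=
  Nat.add (nat_lit 2) (Nat.div (Nat.add (Nat.mul m s) (Nat.mul r (Nat.add n s))) S)
def Bl.mul (a b : Bl) : Bl :=
  Bl.casesOn a fun am ar => Bl.casesOn b fun bm br =>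
  Int.casesOn am
    (fun m => Int.casesOn bm (fun n => ⟨Int.ofNat (Nat.div (Nat.mul m n) S), mrad m n ar br⟩)
      (fun n => ⟨Int.negSucc (Nat.div (Nat.mul m (Nat.succ n)) S), mrad m (Nat.succ n) ar br⟩))
    (fun m => Int.casesOn bm
      (fun n => ⟨Int.negSucc (Nat.div (Nat.mul (Nat.succ m) n) S), mrad (Nat.succ m) n ar br⟩)
      (fun n => ⟨Int.ofNat (Nat.div (Nat.mul (Nat.succ m) (Nat.succ n)) S),
        mrad (Nat.succ m) (Nat.succ n) ar br⟩))
/-- ball from lower and upper bounds -/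
def Bl.lh (lo hi : ℤ) : Bl := ⟨lo, Int.toNat (Int.sub hi lo)⟩
/-- product of two naturals, scaled, rounded up -/
def mu (a b : ℕ) : ℕ := Nat.succ (Nat.div (Nat.mul a b) S)

/-- `1/x` for a ball with `m > r` -/
def Bl.inv (a : Bl) : Bl :=
  fc (Int.toNat a.m) fun m =>
  ⟨Int.ofNat (Nat.div S2 m), Nat.add (nat_lit 2) (Nat.div (Nat.mul S2 a.r)
    (Nat.mul m (Nat.sub m a.r)))⟩
/-- `log x` for a ball with `m > r` -/
def Bl.log (a : Bl) : Bl :=
  fc (Int.toNat a.m) fun m =>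
  ⟨logL m, Nat.add (Int.toNat (Int.sub (logU m) (logL m)))
    (Nat.succ (Nat.div (Nat.mul S a.r) (Nat.sub m a.r)))⟩
/-- `exp x` (radius at most `1`) -/
def Bl.exp (a : Bl) : Bl :=
  fc (Int.casesOn a.m (fun n => expPL n) (fun n => expNL (Nat.succ n))) fun lo =>
  fc (Int.casesOn a.m (fun n => expPU n) (fun n => expNU (Nat.succ n))) fun hi =>
  ⟨Int.ofNat lo, Nat.add (Nat.sub hi lo) (mu hi (Nat.add a.r (mu a.r a.r)))⟩

/-- raw values at a point: `(E lo, E hi, log Ph lo, log Ph hi, success)` passed to a continuation -/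
def milV {α : Type} (x : ℤ) (k : ℕ → ℕ → ℤ → ℤ → Bool → α) : α :=
  Int.casesOn x
    (fun t => fc (milL t) fun ml => fc (milU t) fun mu' =>
      k (Nat.div S2 mu') (Nat.succ (Nat.div S2 ml))
        (Int.sub (logL ml) (Int.ofNat (Nat.succ (Nat.add hU (Nat.div (Nat.mul t t) (Nat.mul (nat_lit 2) S))))))
        (Int.sub (logU mu') (Int.ofNat (Nat.add hL (Nat.div (Nat.mul t t) (Nat.mul (nat_lit 2) S)))))
        (Nat.ble (nat_lit 1) ml))
    (fun n => fc (Nat.succ n) fun t =>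
      fc (milL t) fun ml => fc (milU t) fun mu' =>
      fc (Nat.div (Nat.mul t t) (Nat.mul (nat_lit 2) S)) fun h =>
      fc (Nat.div (Nat.mul cL (expNL (Nat.succ h))) S) fun pl =>
      fc (mu cU (expNU h)) fun pu =>
      fc (Nat.sub S (mu pu mu')) fun ql =>
      fc (Nat.sub S (Nat.div (Nat.mul pl ml) S)) fun qu =>
      k (Nat.div (Nat.mul pl S) qu) (Nat.succ (Nat.div (Nat.mul pu S) ql)) (logL ql) (logU qu)
        (Nat.ble (nat_lit 1) ql))

/-! ### Taylor models of order 4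

`⟨a0,a1,a2,a3,R⟩` describes `f` on the cell `|u| ≤ w`: there are reals `α0 ∈ a0, .., α3 ∈ a3` such
that for every such `u` there is `r`, `|r| ≤ R`, with `f (c + u) = α0 + α1 u + α2 u² + α3 u³ + r u⁴`. -/

structure TM where
  a0 : Bl
  a1 : Bl
  a2 : Bl
  a3 : Bl
  R : ℕ

/-- upper bound of `|x|` for `x` in the ball -/
def Bl.ab (a : Bl) : ℕ := Nat.add (Int.natAbs a.m) a.r
/-- enlarge the radius -/
def Bl.wid (a : Bl) (e : ℕ) : Bl := ⟨a.m, Nat.add a.r e⟩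
/-- quotient of a ball by a positive integer -/
def Bl.dv (a : Bl) (n : ℕ) : Bl := ⟨Int.ediv a.m (Int.ofNat n), Nat.add (nat_lit 2) (Nat.div a.r n)⟩
def Bl.dbl (a : Bl) : Bl := ⟨Int.add a.m a.m, Nat.add a.r a.r⟩
def Bl.zero : Bl := ⟨Int.ofNat (nat_lit 0), nat_lit 0⟩
def Bl.one : Bl := ⟨Int.ofNat S, nat_lit 0⟩

/-- force a ball / a Taylor model -/
def fcI {α : Type} (n : ℤ) (f : ℤ → α) : α :=
  Int.casesOn n (fun m => fc m fun m => f (Int.ofNat m)) (fun m => fc m fun m => f (Int.negSucc m))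
def fcB {α : Type} (a : Bl) (f : Bl → α) : α :=
  Bl.casesOn a fun m r => fcI m fun m => fc r fun r => f ⟨m, r⟩
def fcT {α : Type} (a : TM) (f : TM → α) : α :=
  TM.casesOn a fun a0 a1 a2 a3 r =>
    fcB a0 fun a0 => fcB a1 fun a1 => fcB a2 fun a2 => fcB a3 fun a3 => fc r fun r =>
      f ⟨a0, a1, a2, a3, r⟩

section
variable (w : ℕ)   -- half width of the cell, scaled

/-- `q3 ≥ |α3 + u r|`, `q2 ≥ |α2 + u (α3 + ..)|`, `q1 ≥ |α1 + u (α2 + ..)|` -/
def TM.q3 (a : TM) : ℕ := Nat.add a.a3.ab (mu a.R w)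
def TM.q2 (a : TM) : ℕ := Nat.add a.a2.ab (mu (TM.q3 w a) w)
def TM.q1 (a : TM) : ℕ := Nat.add a.a1.ab (mu (TM.q2 w a) w)
/-- bound of `|f(c+u) - α0|` -/
def TM.rho (a : TM) : ℕ := mu (TM.q1 w a) w

def TM.add (a b : TM) : TM :=
  ⟨a.a0.add b.a0, a.a1.add b.a1, a.a2.add b.a2, a.a3.add b.a3, Nat.add a.R b.R⟩
def TM.sub (a b : TM) : TM :=
  ⟨a.a0.sub b.a0, a.a1.sub b.a1, a.a2.sub b.a2, a.a3.sub b.a3, Nat.add a.R b.R⟩
def TM.mul (a b : TM) : TM :=
  fc (TM.q3 w a) fun q3a => fc (TM.q3 w b) fun q3b =>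
  ⟨a.a0.mul b.a0,
   (a.a0.mul b.a1).add (a.a1.mul b.a0),
   ((a.a0.mul b.a2).add (a.a1.mul b.a1)).add (a.a2.mul b.a0),
   ((a.a0.mul b.a3).add (a.a1.mul b.a2)).add ((a.a2.mul b.a1).add (a.a3.mul b.a0)),
   Nat.succ (Nat.div (Nat.add (Nat.add
     (Nat.add (Nat.mul a.a0.ab b.R) (Nat.mul a.R b.a0.ab))
     (Nat.add (Nat.mul a.a1.ab q3b) (Nat.mul b.a1.ab q3a)))
     (Nat.mul (TM.q2 w a) (TM.q2 w b))) S)⟩

/-- composition with a function having the order-4 expansion `g0,g1,g2,g3`, `|g4| ≤ G` at the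
centre value -/
def TM.comp (a : TM) (g0 g1 g2 g3 : Bl) (G : ℕ) : TM :=
  fc (TM.q3 w a) fun q3 => fc (TM.q2 w a) fun q2 => fc (TM.q1 w a) fun q1 => fc (mu q1 q1) fun q11 =>
  fcB (a.a1.mul a.a1) fun a11 =>
  ⟨g0, g1.mul a.a1, (g1.mul a.a2).add (g2.mul a11),
   ((g1.mul a.a3).add (g2.mul (a.a1.mul a.a2)).dbl).add (g3.mul (a11.mul a.a1)),
   Nat.add (Nat.add (mu g1.ab a.R)
     (mu g2.ab (Nat.add (Nat.mul (nat_lit 2) (mu a.a1.ab q3)) (mu q2 q2))))
     (Nat.add (Nat.mul (nat_lit 3) (mu g3.ab (mu q2 q11))) (mu G (mu q11 q11)))⟩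

def TM.inv (a : TM) : TM :=
  fcB a.a0.inv fun i => fc (a.a0.wid (TM.rho w a)).inv.ab fun j =>
  fcB (i.mul i) fun i2 => fcB (i2.mul i) fun i3 => fc (mu j j) fun j2 =>
  TM.comp w a i i2.neg i3 (i2.mul i2).neg (mu j (mu j2 j2))
def TM.log (a : TM) : TM :=
  fcB a.a0.inv fun i => fc (a.a0.wid (TM.rho w a)).inv.ab fun j =>
  fcB (i.mul i) fun i2 => fc (mu j j) fun j2 =>
  TM.comp w a a.a0.log i (i2.dv (nat_lit 2)).neg ((i2.mul i).dv (nat_lit 3))
    (Nat.succ (Nat.div (mu j2 j2) (nat_lit 4)))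
def TM.exp (a : TM) : TM :=
  fcB a.a0.exp fun e => fc (a.a0.wid (TM.rho w a)).exp.ab fun f =>
  TM.comp w a e e (e.dv (nat_lit 2)) (e.dv (nat_lit 6)) (Nat.succ (Nat.div f (nat_lit 24)))

/-- inverse Mills ratio and log of the upper tail -/
def TM.mil {α : Type} (a : TM) (k : TM → TM → Bool → α) : α :=
  milV a.a0.m fun el eh ll lh ok =>
  fc (Nat.sub eh el) fun ew =>
  fc (Nat.add (TM.rho w a) a.a0.r) fun R =>
  -- at the centre: `E`, `δ = E - x`
  fcB ⟨Int.ofNat el, Nat.add ew a.a0.r⟩ fun E =>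
  fcB ⟨Int.sub (Int.ofNat el) a.a0.m, Nat.add ew a.a0.r⟩ fun d =>
  fcB (E.mul d) fun D1 =>
  fcB (E.add d) fun s =>
  fcB ((D1.mul s).sub E) fun D2 =>
  fcB (((D2.mul s).add (D1.mul D1).dbl).sub D1.dbl) fun D3 =>
  -- crude bounds of `E (E - x)` on the range
  fc (mu R (Nat.add (Nat.add E.ab d.ab) R)) fun e1 =>
  fc (Nat.min S (Nat.add D1.ab e1)) fun h1 =>
  fc (Nat.sub (Int.toNat (Int.sub D1.m (Int.ofNat D1.r))) e1) fun l1 =>
  fcB (E.wid (mu R h1)) fun ER =>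
  fcB (d.wid (mu R (Nat.sub S l1))) fun dR =>
  fcB (ER.mul dR) fun D1R =>
  fc (ER.add dR).ab fun sR =>
  fc ((D1R.mul (ER.add dR)).sub ER).ab fun D2R =>
  -- `|D3| ≤ |D2| |s| + 2 D1 (1 - D1)`, `|D4| ≤ |D3| |s| + |D2| |6 D1 - 3|`
  fc (Nat.add (mu D2R sR) (Nat.mul (nat_lit 2) (mu D1R.ab (Bl.one.sub D1R).ab))) fun D3R =>
  fc (Nat.add (mu D3R sR) (mu D2R (Nat.mul (nat_lit 3) (Bl.one.sub D1R.dbl).ab))) fun D4R =>
  k (TM.comp w a E D1 (D2.dv (nat_lit 2)) (D3.dv (nat_lit 6)) (Nat.succ (Nat.div D4R (nat_lit 24))))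
    (TM.comp w a ⟨ll, Nat.add (Int.toNat (Int.sub lh ll)) (mu a.a0.r (Nat.add eh a.a0.r))⟩ E.neg
      (D1.dv (nat_lit 2)).neg (D2.dv (nat_lit 6)).neg (Nat.succ (Nat.div D3R (nat_lit 24)))) ok

/-- `tanh` and `log (2 cosh)` -/
def TM.th {α : Type} (a : TM) (k : TM → TM → α) : α :=
  fc (Int.natAbs a.a0.m) fun t =>
  fc (expNL (Nat.mul (nat_lit 2) t)) fun el =>
  fc (expNU (Nat.mul (nat_lit 2) t)) fun eh =>
  fc (Nat.div (Nat.mul (Nat.sub S eh) S) (Nat.add S eh)) fun tl =>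
  fc (Nat.succ (Nat.div (Nat.mul (Nat.sub S el) S) (Nat.add S el))) fun tu =>
  fcB (Bl.mk (Int.casesOn a.a0.m (fun _ => Int.ofNat tl) (fun _ => Int.neg (Int.ofNat tl)))
    (Nat.add (Nat.sub tu tl) a.a0.r)) fun T =>
  fc (Nat.add (TM.rho w a) a.a0.r) fun R =>
  -- `sech² ≤ sh` on the range
  fc (Nat.min S (Nat.add (Nat.sub S (Nat.div (Nat.mul tl tl) S)) R)) fun sh =>
  -- `|tanh| ≤ tR` on the range
  fc (Nat.min S (Nat.add tu (mu R sh))) fun tR =>
  fcB (Bl.one.sub (T.mul T)) fun T1 =>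
  fcB (T.mul T1) fun T2 =>
  -- third derivative: `-2 T1 (1 - 3 T²) = -2 (T1² - 2 T · (T T1))`
  fcB ((T1.mul T1).sub (T.mul T2).dbl) fun T3 =>
  -- fourth derivative: `≤ 16 |T| T1`, third `≤ 2 T1 max(1, 3T²-1)`
  k (TM.comp w a T T1 T2.neg (T3.dv (nat_lit 3)).neg (Nat.succ (Nat.div
      (Nat.mul (nat_lit 2) (mu tR sh)) (nat_lit 3))))
    (TM.comp w a ⟨Int.add (Int.ofNat t) (logL (Nat.add S el)),
        Nat.add (Int.toNat (Int.sub (logU (Nat.add S eh)) (logL (Nat.add S el)))) a.a0.r⟩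
      T (T1.dv (nat_lit 2)) (T2.dv (nat_lit 3)).neg (Nat.succ (Nat.div
      (mu sh (Nat.max S (Nat.sub (Nat.mul (nat_lit 3) (mu tR tR)) S))) (nat_lit 12))))

end

/-- straight-line programs; registers are numbered from the most recent one (`0`) -/
inductive Op
  | z
  | c (n : ℤ)
  | p (i : ℕ)
  | add (i j : ℕ)
  | sub (i j : ℕ)
  | mul (i j : ℕ)
  | inv (i : ℕ)
  | log (i : ℕ)
  | exp (i : ℕ)
  | mil (i : ℕ)
  | th (i : ℕ)

def TM.zero : TM := ⟨Bl.zero, Bl.zero, Bl.zero, Bl.zero, nat_lit 0⟩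

def get (l : List TM) (i : ℕ) : TM :=
  Nat.rec (motive := fun _ => List TM → TM)
    (fun l => List.casesOn l TM.zero (fun a _ => a))
    (fun _ ih l => List.casesOn l TM.zero (fun _ t => ih t)) i l

def getB (l : List Bl) (i : ℕ) : Bl :=
  Nat.rec (motive := fun _ => List Bl → Bl)
    (fun l => List.casesOn l Bl.zero (fun a _ => a))
    (fun _ ih l => List.casesOn l Bl.zero (fun _ t => ih t)) i l

/-- positivity test for `inv`/`log` -/
def posB (a : Bl) : Bool := Int.casesOn a.m (fun m => Nat.ble (Nat.succ a.r) m) (fun _ => false)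

/-- run a program on a cell with centre `c`, half width `w`; the Boolean records success. -/
def run {α : Type} (w : ℕ) (par : List Bl) (c : ℤ) (prog : List Op) :
    List TM → Bool → (List TM → Bool → α) → α :=
  List.rec (motive := fun _ => List TM → Bool → (List TM → Bool → α) → α)
    (fun l b k => k l b)
    (fun op _ ih l b k =>
      Op.casesOn op
        (ih (⟨⟨c, nat_lit 0⟩, Bl.one, Bl.zero, Bl.zero, nat_lit 0⟩ :: l) b k)
        (fun n => ih (⟨⟨n, nat_lit 0⟩, Bl.zero, Bl.zero, Bl.zero, nat_lit 0⟩ :: l) b k)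
        (fun i => fcB (getB par i) fun B => ih (⟨B, Bl.zero, Bl.zero, Bl.zero, nat_lit 0⟩ :: l) b k)
        (fun i j => fcT (TM.add (get l i) (get l j)) fun a => ih (a :: l) b k)
        (fun i j => fcT (TM.sub (get l i) (get l j)) fun a => ih (a :: l) b k)
        (fun i j => fcT (TM.mul w (get l i) (get l j)) fun a => ih (a :: l) b k)
        (fun i => fcT (TM.inv w (get l i)) fun a =>
          ih (a :: l) (Bool.and b (posB ((get l i).a0.wid (TM.rho w (get l i))))) k)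
        (fun i => fcT (TM.log w (get l i)) fun a =>
          ih (a :: l) (Bool.and b (posB ((get l i).a0.wid (TM.rho w (get l i))))) k)
        (fun i => fcT (TM.exp w (get l i)) fun a =>
          ih (a :: l) (Bool.and b (Bool.and
            (Nat.ble (Nat.add (get l i).a0.r (TM.rho w (get l i))) S)
            (Nat.ble (Int.natAbs (get l i).a0.m) (Nat.mul (nat_lit 1000) S)))) k)
        (fun i => TM.mil w (get l i) fun a1 a2 ok => fcT a1 fun a1 => fcT a2 fun a2 =>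
          ih (a2 :: a1 :: l) (Bool.and b ok) k)
        (fun i => TM.th w (get l i) fun a1 a2 => fcT a1 fun a1 => fcT a2 fun a2 =>
          ih (a2 :: a1 :: l) b k))
    prog

/-! ### quadrature -/

/-- accumulator: sums of `α0`, of `α2` (balls) and of the remainders -/
structure Acc where
  s0 : Bl
  s2 : Bl
  r4 : ℕ

def Acc.zero : Acc := ⟨Bl.zero, Bl.zero, nat_lit 0⟩

def fcA {α : Type} (a : Acc) (f : Acc → α) : α :=
  Acc.casesOn a fun s0 s2 r4 => fcB s0 fun s0 => fcB s2 fun s2 => fc r4 fun r4 => f ⟨s0, s2, r4⟩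

/-- add the contributions of the output registers; `acc` has the same length as `outs` -/
def accum {α : Type} (l : List TM) (outs : List ℕ) : List Acc → (List Acc → α) → α :=
  List.rec (motive := fun _ => List Acc → (List Acc → α) → α)
    (fun _ k => k [])
    (fun o _ ih acc k =>
      List.casesOn acc (k []) fun A acc =>
        (fun J : TM => fcA ⟨A.s0.add J.a0, A.s2.add J.a2, Nat.add A.r4 J.R⟩ fun A =>
          ih acc fun t => k (A :: t)) (get l o))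
    outs

/-- quadrature over the `n` cells with centres `±(2k+1) w`, `k < n` (scaled by `S`: `c`) -/
def quad {α : Type} (w : ℕ) (par : List Bl) (prog : List Op) (outs : List ℕ) (n : ℕ) :
    List Acc → Bool → (List Acc → Bool → α) → α :=
  Nat.rec (motive := fun _ => List Acc → Bool → (List Acc → Bool → α) → α)
    (fun acc b k => k acc b)
    (fun n ih acc b k =>
      fc (Nat.mul (Nat.succ (Nat.mul (nat_lit 2) n)) w) fun c =>
      run w par (Int.ofNat c) prog [] b fun l b =>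
      accum l outs acc fun acc =>
      run w par (Int.negSucc (Nat.pred c)) prog [] b fun l b =>
      accum l outs acc fun acc => ih acc b k)
    n

/-- the value: `2 w s0 + (2/3) w³ s2 ± (2/5) w⁵ r4`, times `1/sqrt(2 pi)` -/
def Acc.val (w : ℕ) (a : Acc) : Bl :=
  ((a.s0.dbl.mul ⟨Int.ofNat w, nat_lit 0⟩).add
    ((a.s2.dbl.mul ((Bl.mk (Int.ofNat w) (nat_lit 0)).mul ((Bl.mk (Int.ofNat w) (nat_lit 0)).mul
        ⟨Int.ofNat w, nat_lit 0⟩))).dv (nat_lit 3))).wid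
    (Nat.succ (Nat.div (Nat.mul (nat_lit 2) (mu (mu (mu (mu (mu a.r4 w) w) w) w) w)) (nat_lit 5)))
    |>.mul ⟨Int.ofNat cL, Nat.sub cU cL⟩

/-- `|m - c| + r ≤ e` for all outputs -/
def chk (w : ℕ) (cl : List (ℤ × ℕ)) : List Acc → Bool :=
  List.rec (motive := fun _ => List Acc → Bool) (fun _ => true)
    (fun c _ ih acc => List.casesOn acc false fun A acc => Bool.and
      (Nat.ble (Nat.add (Int.natAbs (Int.sub (A.val w).m c.1)) (A.val w).r) c.2)
      (ih acc)) cl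

end IP49N
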