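import Pool.Agent.IP49N.SFin
import Pool.Agent.IP49N.Box

/-! IP49N/LDbI: certified integrals, generated by gen.py (helper52).  -/

set_option autoImplicit false

namespace IP49N
open Pool.Agent.IP49

def LDbI_prog : List Op := [
    .z, .p 0, .p 1, .mul 0 2, .th 0, .mul 4 5, .c (0), .sub 0 1, .mil 0, .mul 10 10,
    .c (-576460752303423488), .mul 1 0, .exp 0, .mul 9 0, .mul 6 6, .mul 0 2, .sub 9 8, .mil 0,
    .mul 0 6]
def LDbI_par : List Bl := [
    ⟨Int.ofNat (nat_lit 1311145853048648213), nat_lit 1900000000000⟩,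
    ⟨Int.ofNat (nat_lit 1850555741999803248), nat_lit 3700000000000⟩]
def LDbI_cl : List (ℤ × ℕ) := [
    (Int.ofNat (nat_lit 1691429701944386397), nat_lit 3477361241334),
    (Int.ofNat (nat_lit 1554733519919080090), nat_lit 3906869223688),
    (Int.negSucc (nat_lit 269178885591582671), nat_lit 1078773587426)]
theorem LDbI_run : quad (nat_lit 36028797018963968) LDbI_par LDbI_prog [6, 4, 0] (nat_lit 128)
    (List.replicate (nat_lit 3) Acc.zero) true
    (fun acc b => Bool.and b (chk (nat_lit 36028797018963968) LDbI_cl acc)) = true := by decide +kernel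

theorem LDbI_all {v r : ℝ}
    (hv : InB v ⟨Int.ofNat (nat_lit 1311145853048648213), nat_lit 1900000000000⟩)
    (hr : InB r ⟨Int.ofNat (nat_lit 1850555741999803248), nat_lit 3700000000000⟩) :
    ((14670783 : ℝ) / 10000000 ≤ GE (fun x => lc (r * x)) ∧
      GE (fun x => lc (r * x)) ≤ (14670845 : ℝ) / 10000000) ∧
    ((13485129 : ℝ) / 10000000 ≤ GE (fun x => Mi (-(v * x)) ^ 2) ∧
      GE (fun x => Mi (-(v * x)) ^ 2) ≤ (13485198 : ℝ) / 10000000) ∧
    ((-23347644 : ℝ) / 100000000 ≤ GE (fun x => Real.log (Ph (-(v * x) - Mi (-(v * x))))) ∧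
      GE (fun x => Real.log (Ph (-(v * x) - Mi (-(v * x))))) ≤ (-23347449 : ℝ) / 100000000) := by
  have bv : |v| ≤ 2 := by simpa using hv.abs_le (K := 2) (by decide +kernel)
  have br : |r| ≤ 2 := by simpa using hr.abs_le (K := 2) (by decide +kernel)
  have cc0 : ((-576460752303423488 : ℤ) : ℝ) / S = (-1/2 : ℝ) := by rw [S_eq]; norm_num
  have h := GE_run8 (W := 36028797018963968) (n := 128) (by norm_num) (by rw [S_eq]; norm_num)
    (par := LDbI_par) (xs := [v, r])
    (.cons hv (.cons hr .nil)) LDbI_prog [6, 4, 0] LDbI_cl LDbI_run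
    (Fs := [fun x => lc (r * x),
      fun x => Mi (-(v * x)) ^ 2,
      fun x => Real.log (Ph (-(v * x) - Mi (-(v * x))))]) rfl
    (by
      refine .cons ⟨by fun_prop (disch := positivity), fun x => ?_⟩ (.cons ⟨by fun_prop (disch := positivity), fun x => ?_⟩ (.cons ⟨by fun_prop (disch := positivity), fun x => ?_⟩ (.nil)))
      all_goals
        simp only [LDbI_prog, evp, gt, List.getD_cons_zero, List.getD_cons_succ, cc0]
        ring_nf)
  simp only [LDbI_cl, List.forall₂_cons, List.Forall₂.nil, _root_.and_true] at h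
  obtain ⟨h0, h1, h2⟩ := h
  have gg : (∃ C k, Gr (fun x => lc (r * x)) C k ∧ k ≤ 6 ∧ C * 8e-10 ≤ (29/10000000000 : ℝ)) ∧
      (∃ C k, Gr (fun x => Mi (-(v * x)) ^ 2) C k ∧ k ≤ 6 ∧ C * 8e-10 ≤ (43/5000000000 : ℝ)) ∧
      (∃ C k, Gr (fun x => Real.log (Ph (-(v * x) - Mi (-(v * x))))) C k ∧ k ≤ 6 ∧ C * 8e-10 ≤ (350001/10000000000000 : ℝ)) := by
    refine ⟨?_, ?_, ?_⟩
    all_goals
      apply gr8
      · repeat' (with_reducible first
          | exact Gr.id
          | exact Gr.par (by assumption)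
          | exact Gr.num (by norm_num)
          | exact Gr.tanh _
          | exact Gr.Md _
          | exact Gr.M2 _
          | exact Gr.Ph _
          | assumption
          | apply Gr.lc
          | apply Gr.Mi
          | apply Gr.logPh
          | apply Gr.neg
          | apply Gr.abs
          | apply Gr.add
          | apply Gr.sub
          | apply Gr.mul
          | apply Gr.pow
          | (refine Gr.div ?_ (by norm_num)))
      · norm_num
      · norm_num
  obtain ⟨gg0, gg1, gg2⟩ := gg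
  have g0 := dec_of (lo := (14670783 : ℝ) / 10000000) (hi := (14670845 : ℝ) / 10000000) (h0 _ gg0)
    (by rw [S_eq]; norm_num) (by rw [S_eq]; norm_num)
  have g1 := dec_of (lo := (13485129 : ℝ) / 10000000) (hi := (13485198 : ℝ) / 10000000) (h1 _ gg1)
    (by rw [S_eq]; norm_num) (by rw [S_eq]; norm_num)
  have g2 := dec_of (lo := (-23347644 : ℝ) / 100000000) (hi := (-23347449 : ℝ) / 100000000) (h2 _ gg2)
    (by rw [S_eq]; norm_num) (by rw [S_eq]; norm_num)
  exact ⟨g0, g1, g2⟩

end IP49N
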