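import Pool.Agent.IP49N.SFin
import Pool.Agent.IP49N.LBase

/-! IP49N/LHerA: certified integrals, generated by gen.py (helper52). Hermite constants 23 of the (L*) side (helper99). -/

set_option autoImplicit false
set_option maxRecDepth 20000

namespace IP49N
open Pool.Agent.IP49

def LHerA_prog : List Op := [
    .z, .p 0, .mul 0 1, .c (0), .sub 0 1, .mil 0, .sub 1 2, .mul 2 0, .mul 0 0, .mul 9 9,
    .c (-576460752303423488), .mul 1 0, .exp 0, .mul 4 0, .add 9 7, .mul 8 0,
    .c (1152921504606846976), .sub 1 0, .mul 13 0, .mul 0 0, .mul 0 7]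
def LHerA_par : List Bl := [
    ⟨Int.ofNat (nat_lit 1311145853048648213), nat_lit 1900000000000⟩]
def LHerA_cl : List (ℤ × ℕ) := [
    (Int.ofNat (nat_lit 458096876884030653), nat_lit 10280634993654),
    (Int.ofNat (nat_lit 50227356553296000), nat_lit 4570665906395)]
theorem LHerA_run : quad (nat_lit 72057594037927936) LHerA_par LHerA_prog [7, 0] (nat_lit 64)
    (List.replicate (nat_lit 2) Acc.zero) true
    (fun acc b => Bool.and b (chk (nat_lit 72057594037927936) LHerA_cl acc)) = true := by decide +kernel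

theorem LHerA_all {v : ℝ}
    (hv : InB v ⟨Int.ofNat (nat_lit 1311145853048648213), nat_lit 1900000000000⟩) :
    ((3973267 : ℝ) / 10000000 ≤ GE (fun x => Md (-(v * x)) ^ 2) ∧
      GE (fun x => Md (-(v * x)) ^ 2) ≤ (3973447 : ℝ) / 10000000) ∧
    ((435613 : ℝ) / 10000000 ≤ GE (fun x => M2 (-(v * x)) ^ 2) ∧
      GE (fun x => M2 (-(v * x)) ^ 2) ≤ (435693 : ℝ) / 10000000) := by
  have bv : |v| ≤ 2 := by simpa using hv.abs_le (K := 2) (by decide +kernel)
  have cc0 : ((-576460752303423488 : ℤ) : ℝ) / S = (-1/2 : ℝ) := by rw [S_eq]; norm_num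
  have cc1 : ((1152921504606846976 : ℤ) : ℝ) / S = (1 : ℝ) := by rw [S_eq]; norm_num
  have h := GE_run8 (W := 72057594037927936) (n := 64) (by norm_num) (by rw [S_eq]; norm_num)
    (par := LHerA_par) (xs := [v])
    (.cons hv .nil) LHerA_prog [7, 0] LHerA_cl LHerA_run
    (Fs := [fun x => Md (-(v * x)) ^ 2,
      fun x => M2 (-(v * x)) ^ 2]) rfl
    (by
      refine .cons ⟨by fun_prop (disch := positivity), fun x => ?_⟩ (.cons ⟨by fun_prop (disch := positivity), fun x => ?_⟩ (.nil))
      all_goals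
        simp only [LHerA_prog, evp, gt, List.getD_cons_zero, List.getD_cons_succ, cc0, cc1, M2, Md]
        ring_nf)
  simp only [LHerA_cl, List.forall₂_cons, List.Forall₂.nil, _root_.and_true] at h
  obtain ⟨h0, h1⟩ := h
  have gg : (∃ C k, Gr (fun x => Md (-(v * x)) ^ 2) C k ∧ k ≤ 6 ∧ C * 8e-10 ≤ (3/3125000000 : ℝ)) ∧
      (∃ C k, Gr (fun x => M2 (-(v * x)) ^ 2) C k ∧ k ≤ 6 ∧ C * 8e-10 ≤ (3/200000000 : ℝ)) := by
    refine ⟨?_, ?_⟩
    all_goals
      apply gr8
      · repeat' (with_reducible first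
          | exact Gr.id
          | exact Gr.par (by assumption)
          | exact Gr.num (by norm_num)
          | exact Gr.tanh _
          | exact Gr.Md _
          | exact Gr.M2 _
          | exact Gr.Ph _
          | assumption
          | apply Gr.lc
          | apply Gr.Mi
          | apply Gr.logPh
          | apply Gr.neg
          | apply Gr.abs
          | apply Gr.add
          | apply Gr.sub
          | apply Gr.mul
          | apply Gr.pow
          | (refine Gr.div ?_ (by norm_num)))
      · norm_num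
      · norm_num
  obtain ⟨gg0, gg1⟩ := gg
  have g0 := dec_of (lo := (3973267 : ℝ) / 10000000) (hi := (3973447 : ℝ) / 10000000) (h0 _ gg0)
    (by rw [S_eq]; norm_num) (by rw [S_eq]; norm_num)
  have g1 := dec_of (lo := (435613 : ℝ) / 10000000) (hi := (435693 : ℝ) / 10000000) (h1 _ gg1)
    (by rw [S_eq]; norm_num) (by rw [S_eq]; norm_num)
  exact ⟨g0, g1⟩

end IP49N
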