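import Pool.Agent.IP49N.SFin
import Pool.Agent.IP49.NLB

/-! IP49N/LPaD (helper72): facts on `Dw` for the data modules LPaI, LPaJ, LPaK: positivity,
the logarithm in the form computed by the engine, and growth with explicit constants. -/

set_option autoImplicit false
open MeasureTheory ProbabilityTheory

namespace IP49N
open Pool.Agent.IP49

section
variable {W : ℝ → ℝ} {a b ka lam0 : ℝ}

theorem Dw_ge (ha : 0 ≤ a) (hab : a < b) (hb : b ≤ 1) (hk : 0 ≤ ka)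
    (hk2 : (62832 / 10000 * ka) ^ 2 * (1 - ((a + b) / 2) ^ 2) ≤ 1)
    (hW : ∀ X, 0 ≤ W X ∧ Pl b X ≤ Ph X - W X) (X : ℝ) :
    ka * (lam0 - a) * Real.exp (-X ^ 2 / (1 + a)) ≤ Dw W a b ka lam0 X := by
  have q1 := Pl_piece ha hab hb hk hk2 le_rfl hab.le (X := X)
  have q2 := (hW X).2
  have q3 := Pl_nonneg a X
  unfold Dw
  nlinarith

theorem Dw_le_one (hb : lam0 ≤ b) (hk : 0 ≤ ka)
    (hW : ∀ X, 0 ≤ W X ∧ Pl b X ≤ Ph X - W X) (X : ℝ) : Dw W a b ka lam0 X ≤ 1 := by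
  have q1 := (hW X).1
  have q2 := Ph_lt_one X
  have q3 : 0 ≤ ka * (b - lam0) * Real.exp (-X ^ 2 / (1 + a)) :=
    mul_nonneg (mul_nonneg hk (by linarith)) (Real.exp_pos _).le
  unfold Dw
  linarith

/-- everything that is used below: `c exp(-X²/(1+a)) ≤ Dw ≤ 1` -/
structure DwOK (W : ℝ → ℝ) (a b ka lam0 c : ℝ) : Prop where
  ha : 0 ≤ a
  hc : 0 < c
  ge : ∀ X, c * Real.exp (-X ^ 2 / (1 + a)) ≤ Dw W a b ka lam0 X
  le : ∀ X, Dw W a b ka lam0 X ≤ 1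
  cont : Continuous W

theorem DwOK.mk' {c : ℝ} (ha : 0 ≤ a) (h0 : a < lam0) (h0b : lam0 ≤ b) (hb : b ≤ 1) (hk : 0 < ka)
    (hk2 : (62832 / 10000 * ka) ^ 2 * (1 - ((a + b) / 2) ^ 2) ≤ 1)
    (hW : Continuous W ∧ ∀ X, 0 ≤ W X ∧ Pl b X ≤ Ph X - W X) (hc : c = ka * (lam0 - a)) :
    DwOK W a b ka lam0 c := by
  subst hc
  exact ⟨ha, mul_pos hk (by linarith), fun X => Dw_ge ha (by linarith) hb hk.le hk2 hW.2 X,
    fun X => Dw_le_one h0b hk.le hW.2 X, hW.1⟩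

theorem DwOK.pos {c : ℝ} (h : DwOK W a b ka lam0 c) (X : ℝ) : 0 < Dw W a b ka lam0 X :=
  lt_of_lt_of_le (mul_pos h.hc (Real.exp_pos _)) (h.ge X)

theorem DwOK.cont_Dw {c : ℝ} (h : DwOK W a b ka lam0 c) : Continuous (Dw W a b ka lam0) := by
  have := h.cont
  unfold Dw
  fun_prop

theorem DwOK.cont_log {c : ℝ} (h : DwOK W a b ka lam0 c) {X : ℝ → ℝ} (hX : Continuous X) :
    Continuous fun x => Real.log (Dw W a b ka lam0 (X x)) :=
  (h.cont_Dw.comp hX).log fun x => (h.pos (X x)).ne'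

theorem DwOK.cont_div {c : ℝ} (h : DwOK W a b ka lam0 c) {X : ℝ → ℝ} (hX : Continuous X) :
    Continuous fun x => Real.exp (-(X x) ^ 2 / (1 + a)) / Dw W a b ka lam0 (X x) := by
  refine Continuous.div (by fun_prop) (h.cont_Dw.comp hX) fun x => (h.pos (X x)).ne'

theorem DwOK.gr_div {c : ℝ} (h : DwOK W a b ka lam0 c) (X : ℝ → ℝ) :
    Gr (fun x => Real.exp (-(X x) ^ 2 / (1 + a)) / Dw W a b ka lam0 (X x)) (1 / c) 0 := by
  refine Gr.bdd fun x => ?_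
  have h1 := h.ge (X x)
  have h2 := h.pos (X x)
  have h3 := h.hc
  rw [abs_of_nonneg (div_nonneg (Real.exp_pos _).le h2.le), div_le_div_iff₀ h2 h3]
  linarith

theorem DwOK.gr_log {c C : ℝ} {k n : ℕ} (h : DwOK W a b ka lam0 c) {X : ℝ → ℝ} (hX : Gr X C k)
    (hn : 1 ≤ c * (2718 / 1000 : ℝ) ^ n) :
    Gr (fun x => Real.log (Dw W a b ka lam0 (X x))) (n + C ^ 2 / (1 + a)) (k * 2) := by
  intro x
  have h1 := h.ge (X x)
  have h2 := h.pos (X x)
  have h3 := h.hc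
  have ha := h.ha
  have h4 : Real.log (Dw W a b ka lam0 (X x)) ≤ 0 := Real.log_nonpos h2.le (h.le _)
  have h5 : -(n : ℝ) ≤ Real.log c := by
    rw [Real.le_log_iff_exp_le h3]
    rw [Real.exp_neg]
    have h6 := exp_nat_ge n
    have h7 : 1 ≤ c * Real.exp n := hn.trans (mul_le_mul_of_nonneg_left h6 h3.le)
    rw [inv_le_iff_one_le_mul₀ (Real.exp_pos _)]
    exact h7
  have h8 := Real.log_le_log (mul_pos h3 (Real.exp_pos _)) h1
  rw [Real.log_mul h3.ne' (Real.exp_pos _).ne', Real.log_exp] at h8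
  have h9 := (hX.pow 2) x
  rw [abs_of_nonneg (sq_nonneg _)] at h9
  have h10 := one_le_w x (k * 2)
  rw [abs_of_nonpos h4, add_mul]
  have h11 : X x ^ 2 / (1 + a) ≤ C ^ 2 / (1 + a) * (1 + |x|) ^ (k * 2) := by
    rw [div_mul_eq_mul_div]
    exact div_le_div_of_nonneg_right h9 (by linarith)
  have h12 : (n : ℝ) ≤ n * (1 + |x|) ^ (k * 2) := le_mul_of_one_le_right (Nat.cast_nonneg n) h10
  have h13 : -(X x) ^ 2 / (1 + a) = -(X x ^ 2 / (1 + a)) := by ring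
  rw [h13] at h8
  linarith

/-- `Dw = Ph * R` and its logarithm, as the engine computes them -/
theorem DwOK.log_eq {c : ℝ} (h : DwOK W a b ka lam0 c) {X R : ℝ}
    (hR : Dw W a b ka lam0 X = Ph X * R) :
    Real.log (Dw W a b ka lam0 X) = Real.log (Ph X) + Real.log R := by
  have h1 := h.pos X
  have h2 := Ph_pos X
  rw [hR] at h1 ⊢
  have h3 : R ≠ 0 := by rintro rfl; simp at h1
  exact Real.log_mul h2.ne' h3

theorem exp_sub_logPh (y X : ℝ) : Real.exp (y - Real.log (Ph X)) = Real.exp y / Ph X := by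
  rw [Real.exp_sub, Real.exp_log (Ph_pos X)]

theorem DwOK.div_eq {c : ℝ} (_h : DwOK W a b ka lam0 c) {X R y : ℝ}
    (hR : Dw W a b ka lam0 X = Ph X * R) :
    Real.exp y / Dw W a b ka lam0 X = Real.exp (y - Real.log (Ph X)) * R⁻¹ := by
  rw [hR, exp_sub_logPh]
  have h2 := (Ph_pos X).ne'
  rw [div_mul_eq_div_div, div_eq_mul_inv (Real.exp y / Ph X)]

end

end IP49N
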