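import Pool.Agent.IP49N.SFin
import Pool.Agent.IP49.NLB

/-! IP49N/LPaG (helper85): common part of the integrals `C1w`, `C2w` (tilt `1/5`). -/

set_option autoImplicit false

namespace IP49N
open Pool.Agent.IP49

noncomputable section

/-- the argument `z + Mi z / 5` at `z = -(v x)` -/
def XX (v x : ℝ) : ℝ := -(v * x) + Mi (-(v * x)) * (1 / 5)

/-- `exp(-c X²)/Ph X` -/
def RX (c X : ℝ) : ℝ := Real.exp (-(X ^ 2 * c) - Real.log (Ph X))

theorem RX_mul (c X : ℝ) : RX c X * Ph X = Real.exp (-(X ^ 2 * c)) := by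
  unfold RX
  have h := Ph_pos X
  rw [Real.exp_sub, Real.exp_log h]
  field_simp

theorem cont_XX (v : ℝ) : Continuous (XX v) := by
  unfold XX
  fun_prop

theorem cont_RX (c : ℝ) : Continuous (RX c) := by
  unfold RX
  fun_prop

theorem Dw_geG {a b ka lam0 : ℝ} {W : ℝ → ℝ} (ha : 0 ≤ a) (h0 : a < lam0) (h0b : lam0 ≤ b)
    (hb : b ≤ 1) (hk : 0 < ka)
    (hk2 : (62832 / 10000 * ka) ^ 2 * (1 - ((a + b) / 2) ^ 2) ≤ 1)
    (hW : ∀ X, 0 ≤ W X ∧ Pl b X ≤ Ph X - W X) (X : ℝ) :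
    Ph X ^ 2 ≤ Dw W a b ka lam0 X ∧
    ka * (lam0 - a) * Real.exp (-X ^ 2 / (1 + a)) ≤ Dw W a b ka lam0 X ∧
    Dw W a b ka lam0 X ≤ 1 := by
  have hab : a < b := lt_of_lt_of_le h0 h0b
  refine ⟨?_, ?_, ?_⟩
  · have q1 := Pl_piece ha hab hb hk.le hk2 h0.le h0b (X := X)
    have q2 := (hW X).2
    have q3 := sq_le_Pl (lam := lam0) (by linarith) (by linarith) X
    unfold Dw
    linarith
  · have q1 := Pl_piece ha hab hb hk.le hk2 le_rfl hab.le (X := X)
    have q2 := (hW X).2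
    have q3 := Pl_nonneg a X
    unfold Dw
    nlinarith
  · have q1 := (hW X).1
    have q2 := Ph_lt_one X
    have q3 : 0 ≤ ka * (b - lam0) * Real.exp (-X ^ 2 / (1 + a)) :=
      mul_nonneg (mul_nonneg hk.le (by linarith)) (Real.exp_pos _).le
    unfold Dw
    linarith

/-- the hypotheses on a cell: `D X = Dw X / Ph X`, `ca = 1/(1+a)` -/
structure Cel (W : ℝ → ℝ) (a b ka lam0 ca : ℝ) (D : ℝ → ℝ) : Prop where
  ha : 0 ≤ a
  h0 : a < lam0
  h0b : lam0 ≤ b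
  hb : b ≤ 1
  hk : 0 < ka
  hk2 : (62832 / 10000 * ka) ^ 2 * (1 - ((a + b) / 2) ^ 2) ≤ 1
  hW : ∀ X, 0 ≤ W X ∧ Pl b X ≤ Ph X - W X
  hca : ca * (1 + a) = 1
  hD : ∀ X, D X * Ph X = Dw W a b ka lam0 X
  hc : Continuous D

variable {W : ℝ → ℝ} {a b ka lam0 ca : ℝ} {D : ℝ → ℝ}

theorem Cel.pos (h : Cel W a b ka lam0 ca D) (X : ℝ) : 0 < D X := by
  have h1 := (Dw_geG h.ha h.h0 h.h0b h.hb h.hk h.hk2 h.hW X).1
  have h2 := Ph_pos X
  have h3 : 0 < Ph X ^ 2 := by positivity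
  rw [← h.hD X] at h1
  by_contra hcon
  have := mul_nonpos_of_nonpos_of_nonneg (not_lt.1 hcon) h2.le
  linarith

theorem Cel.log (h : Cel W a b ka lam0 ca D) (X : ℝ) :
    Real.log (Ph X) + Real.log (D X) = Real.log (Dw W a b ka lam0 X) := by
  rw [← h.hD X, Real.log_mul (h.pos X).ne' (Ph_pos X).ne']
  ring

theorem Cel.quo (h : Cel W a b ka lam0 ca D) (X : ℝ) :
    RX ca X * (D X)⁻¹ = Real.exp (-X ^ 2 / (1 + a)) / Dw W a b ka lam0 X := by
  have h1 := h.pos X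
  have h2 := Ph_pos X
  have h3 : 1 + a ≠ 0 := by have := h.ha; positivity
  have h4 : -X ^ 2 / (1 + a) = -(X ^ 2 * ca) := by
    rw [div_eq_iff h3]
    have := h.hca
    linear_combination (X ^ 2) * this
  rw [h4, ← h.hD X, ← RX_mul]
  field_simp

theorem Cel.gr1 (h : Cel W a b ka lam0 ca D) {v : ℝ} (hv : |v| ≤ 2) :
    Gr (fun x => Real.log (Ph (XX v x)) + Real.log (D (XX v x))) 26 2 := by
  have h1 : Gr (fun x => Real.log (Ph (XX v x))) ((2 * 1 + (2 * 1 + 1) * (1 / 5) + 1) ^ 2)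
      (max (0 + 1) (0 + 1 + 0) * 2) := by
    unfold XX
    repeat' (with_reducible first
      | exact Gr.id
      | exact Gr.par (by assumption)
      | exact Gr.num (by norm_num)
      | exact Gr.tanh _
      | exact Gr.Md _
      | exact Gr.M2 _
      | exact Gr.Ph _
      | assumption
      | apply Gr.lc
      | apply Gr.Mi
      | apply Gr.logPh
      | apply Gr.neg
      | apply Gr.abs
      | apply Gr.add
      | apply Gr.sub
      | apply Gr.mul
      | apply Gr.pow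
      | (refine Gr.div ?_ (by norm_num)))
  have h2 := (Gr.num (a := 2) (by norm_num)).mul h1
  have h3 : Gr (fun x => Real.log (Ph (XX v x)) + Real.log (D (XX v x)))
      (2 * ((2 * 1 + (2 * 1 + 1) * (1 / 5) + 1) ^ 2)) (0 + max (0 + 1) (0 + 1 + 0) * 2) := by
    refine Gr.ite_le h2 fun x => ?_
    rw [h.log]
    obtain ⟨k1, k2, k3⟩ := Dw_geG h.ha h.h0 h.h0b h.hb h.hk h.hk2 h.hW (XX v x)
    have k4 := Ph_pos (XX v x)
    have k5 : 0 < Dw W a b ka lam0 (XX v x) := lt_of_lt_of_le (by positivity) k1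
    have k6 := Real.log_nonpos k5.le k3
    have k7 := Real.log_le_log (by positivity) k1
    rw [Real.log_pow] at k7
    have k8 := logPh_nonpos (XX v x)
    rw [abs_of_nonpos k6, abs_of_nonpos (by linarith)]
    push_cast at k7
    linarith
  exact h3.mono (by norm_num) (by norm_num)

theorem Cel.gr2 (h : Cel W a b ka lam0 ca D) {C : ℝ} (hC : 1 ≤ C * (ka * (lam0 - a))) (v : ℝ) :
    Gr (fun x => RX ca (XX v x) * (D (XX v x))⁻¹) C 0 := by
  refine Gr.bdd fun x => ?_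
  rw [h.quo]
  obtain ⟨k1, k2, k3⟩ := Dw_geG h.ha h.h0 h.h0b h.hb h.hk h.hk2 h.hW (XX v x)
  have k4 := Ph_pos (XX v x)
  have k5 : 0 < Dw W a b ka lam0 (XX v x) := lt_of_lt_of_le (by positivity) k1
  have k6 := Real.exp_pos (-(XX v x) ^ 2 / (1 + a))
  rw [abs_of_pos (div_pos k6 k5), div_le_iff₀ k5]
  have k7 : 0 < ka * (lam0 - a) := mul_pos h.hk (by linarith [h.h0])
  have k8 : 0 ≤ C := by
    by_contra hcon
    have := mul_neg_of_neg_of_pos (not_le.1 hcon) k7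
    linarith
  calc Real.exp (-(XX v x) ^ 2 / (1 + a))
      ≤ (C * (ka * (lam0 - a))) * Real.exp (-(XX v x) ^ 2 / (1 + a)) :=
        le_mul_of_one_le_left k6.le hC
    _ = C * (ka * (lam0 - a) * Real.exp (-(XX v x) ^ 2 / (1 + a))) := by ring
    _ ≤ C * Dw W a b ka lam0 (XX v x) := mul_le_mul_of_nonneg_left k2 k8

theorem Cel.cont1 (h : Cel W a b ka lam0 ca D) (v : ℝ) :
    Continuous fun x => Real.log (Ph (XX v x)) + Real.log (D (XX v x)) := by
  have h1 := cont_XX v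
  have h2 : Continuous fun x => D (XX v x) := h.hc.comp h1
  exact (Cont.logPh h1).add (h2.log fun x => (h.pos _).ne')

theorem Cel.cont2 (h : Cel W a b ka lam0 ca D) (v : ℝ) :
    Continuous fun x => RX ca (XX v x) * (D (XX v x))⁻¹ := by
  have h1 := cont_XX v
  have h2 : Continuous fun x => D (XX v x) := h.hc.comp h1
  exact ((cont_RX ca).comp h1).mul (h2.inv₀ fun x => (h.pos _).ne')

theorem zz_eqG (ψ x : ℝ) : zz 0 ψ x = -(Real.sqrt (qp ψ) / Real.sqrt (1 - qp ψ) * x) := by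
  unfold zz
  ring

theorem Cel.C1 (h : Cel W a b ka lam0 ca D) (ψ : ℝ) :
    C1w ψ (1 / 5) W a b ka lam0 = GE fun x =>
      Real.log (Ph (XX (Real.sqrt (qp ψ) / Real.sqrt (1 - qp ψ)) x)) +
        Real.log (D (XX (Real.sqrt (qp ψ) / Real.sqrt (1 - qp ψ)) x)) := by
  unfold C1w
  congr 1
  funext x
  rw [h.log, zz_eqG]
  unfold XX
  ring_nf

theorem Cel.C2 (h : Cel W a b ka lam0 ca D) (ψ : ℝ) :
    C2w ψ (1 / 5) W a b ka lam0 = GE fun x =>
      RX ca (XX (Real.sqrt (qp ψ) / Real.sqrt (1 - qp ψ)) x) *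
        (D (XX (Real.sqrt (qp ψ) / Real.sqrt (1 - qp ψ)) x))⁻¹ := by
  unfold C2w
  congr 1
  funext x
  rw [h.quo, zz_eqG]
  unfold XX
  ring_nf

end

end IP49N
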