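import Pool.Agent.IP49N.LPaD
import Pool.Agent.IP49N.Box

/-! IP49N/LPaI (helper72): `C1w`, `C2w` for the partition cell `[37/50, 4/5]`, `th = 1/5`,
`ka = 249/1000`, `lam0 = 77/100`. -/

set_option autoImplicit false
open MeasureTheory ProbabilityTheory

namespace IP49N
open Pool.Agent.IP49

def LPaI_prog : List Op := [
    .z, .p 0, .mul 0 1, .c (0), .sub 0 1, .mil 0, .p 1, .mul 0 2, .add 4 0, .mil 0, .mul 2 2,
    .p 2, .mul 0 1, .sub 0 3, .exp 0, .p 3, .p 4, .mul 0 6, .sub 0 8, .exp 0, .mul 4 0, .p 5,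
    .p 6, .mul 0 12, .sub 0 14, .exp 0, .mul 4 0, .add 6 0, .p 7, .p 8, .mul 0 19, .sub 0 21,
    .exp 0, .mul 4 0, .add 6 0, .p 9, .p 10, .mul 0 26, .sub 0 28, .exp 0, .mul 4 0, .add 6 0,
    .p 11, .mul 0 28, .add 2 0, .c (1152921504606846976), .sub 0 1, .log 0, .add 38 0,
    .mul 50 50, .c (-576460752303423488), .mul 1 0, .exp 0, .mul 4 0, .inv 7, .mul 40 0, .mul 0 3]
def LPaI_par : List Bl := [
    ⟨Int.ofNat (nat_lit 1311145853048648213), nat_lit 1900000000000⟩,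
    ⟨Int.ofNat (nat_lit 230584300921369395), nat_lit 1⟩,
    ⟨Int.negSucc (nat_lit 662598565866004008), nat_lit 1⟩,
    ⟨Int.ofNat (nat_lit 19714957728777083), nat_lit 1⟩,
    ⟨Int.negSucc (nat_lit 640511947003803875), nat_lit 1⟩,
    ⟨Int.ofNat (nat_lit 19599665578316399), nat_lit 1⟩,
    ⟨Int.negSucc (nat_lit 619850271294003750), nat_lit 1⟩,
    ⟨Int.ofNat (nat_lit 25825441703193372), nat_lit 1⟩,
    ⟨Int.negSucc (nat_lit 603623824401490562), nat_lit 1⟩,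
    ⟨Int.ofNat (nat_lit 51881467707308114), nat_lit 1⟩,
    ⟨Int.negSucc (nat_lit 588225257452472946), nat_lit 1⟩,
    ⟨Int.ofNat (nat_lit 8612323639413147), nat_lit 1⟩]
def LPaI_cl : List (ℤ × ℕ) := [
    (Int.negSucc (nat_lit 2006743090639110919), nat_lit 19704974145162),
    (Int.ofNat (nat_lit 4706109229375428425), nat_lit 159938073725509)]
theorem LPaI_run : quad (nat_lit 72057594037927936) LPaI_par LPaI_prog [3, 0] (nat_lit 64)
    (List.replicate (nat_lit 2) Acc.zero) true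
    (fun acc b => Bool.and b (chk (nat_lit 72057594037927936) LPaI_cl acc)) = true := by decide +kernel

theorem LPaI_ok : DwOK WI (37/50) (4/5) (249/1000) (77/100) (747/100000) :=
  .mk' (by norm_num) (by norm_num) (by norm_num) (by norm_num) (by norm_num) (by norm_num)
    WI_ok (by norm_num)

/-- the ratio `Dw / Ph` as computed -/
theorem LPaI_R (X : ℝ) : Dw WI (37/50) (4/5) (249/1000) (77/100) X = Ph X * (1 - (171/10000 * Real.exp (-X ^ 2 / (1 + 4/5) - Real.log (Ph X))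
    + 170/10000 * Real.exp (-X ^ 2 / (1 + 43/50) - Real.log (Ph X))
    + 224/10000 * Real.exp (-X ^ 2 / (1 + 91/100) - Real.log (Ph X))
    + 450/10000 * Real.exp (-X ^ 2 / (1 + 24/25) - Real.log (Ph X))
    + 747/100000 * Real.exp (-X ^ 2 / (1 + 37/50) - Real.log (Ph X)))) := by
  simp only [exp_sub_logPh]
  have h := (Ph_pos X).ne'
  unfold Dw WI
  field_simp
  ring

theorem LPaI_all {v : ℝ}
    (hv : InB v ⟨Int.ofNat (nat_lit 1311145853048648213), nat_lit 1900000000000⟩) :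
    ((-1740590 : ℝ) / 1000000 ≤ GE (fun x => Real.log (Dw WI (37/50) (4/5) (249/1000) (77/100) (-(v * x) + 1 / 5 * Mi (-(v * x))))) ∧
      GE (fun x => Real.log (Dw WI (37/50) (4/5) (249/1000) (77/100) (-(v * x) + 1 / 5 * Mi (-(v * x))))) ≤ (-1740555 : ℝ) / 1000000) ∧
    ((408176 : ℝ) / 100000 ≤ GE (fun x => Real.exp (-(-(v * x) + 1 / 5 * Mi (-(v * x))) ^ 2 / (1 + 37/50)) / Dw WI (37/50) (4/5) (249/1000) (77/100) (-(v * x) + 1 / 5 * Mi (-(v * x)))) ∧
      GE (fun x => Real.exp (-(-(v * x) + 1 / 5 * Mi (-(v * x))) ^ 2 / (1 + 37/50)) / Dw WI (37/50) (4/5) (249/1000) (77/100) (-(v * x) + 1 / 5 * Mi (-(v * x)))) ≤ (408204 : ℝ) / 100000) := by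
  have bv : |v| ≤ 2 := by simpa using hv.abs_le (K := 2) (by decide +kernel)
  have cc0 : ((-576460752303423488 : ℤ) : ℝ) / S = (-1/2 : ℝ) := by rw [S_eq]; norm_num
  have cc1 : ((1152921504606846976 : ℤ) : ℝ) / S = (1 : ℝ) := by rw [S_eq]; norm_num
  have hX : Continuous fun x : ℝ => -(v * x) + 1 / 5 * Mi (-(v * x)) := by fun_prop
  have gX : Gr (fun x : ℝ => -(v * x) + 1 / 5 * Mi (-(v * x))) (2 * 1 + 1 / 5 * (2 * 1 + 1)) 1 := by
    refine Gr.mono (C := 2 * 1 + 1 / 5 * (2 * 1 + 1)) (k := max (0 + 1) (0 + (0 + 1))) ?_ le_rfl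
      (by norm_num)
    exact Gr.add (Gr.neg (Gr.mul (Gr.par bv) Gr.id))
      (Gr.mul (Gr.div (Gr.num (by norm_num)) (by norm_num))
        (Gr.Mi (Gr.neg (Gr.mul (Gr.par bv) Gr.id))))
  have h := GE_run8 (W := 72057594037927936) (n := 64) (by norm_num) (by rw [S_eq]; norm_num)
    (par := LPaI_par) (xs := [v, (1/5 : ℝ), (-50/87 : ℝ), (171/10000 : ℝ), (-5/9 : ℝ), (17/1000 : ℝ), (-50/93 : ℝ), (14/625 : ℝ), (-100/191 : ℝ), (9/200 : ℝ), (-25/49 : ℝ), (747/100000 : ℝ)])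
    (.cons hv (.cons (InB.of_bounds (by rw [S_eq]; norm_num) (by rw [S_eq]; norm_num)) (.cons (InB.of_bounds (by rw [S_eq]; norm_num) (by rw [S_eq]; norm_num)) (.cons (InB.of_bounds (by rw [S_eq]; norm_num) (by rw [S_eq]; norm_num)) (.cons (InB.of_bounds (by rw [S_eq]; norm_num) (by rw [S_eq]; norm_num)) (.cons (InB.of_bounds (by rw [S_eq]; norm_num) (by rw [S_eq]; norm_num)) (.cons (InB.of_bounds (by rw [S_eq]; norm_num) (by rw [S_eq]; norm_num)) (.cons (InB.of_bounds (by rw [S_eq]; norm_num) (by rw [S_eq]; norm_num)) (.cons (InB.of_bounds (by rw [S_eq]; norm_num) (by rw [S_eq]; norm_num)) (.cons (InB.of_bounds (by rw [S_eq]; norm_num) (by rw [S_eq]; norm_num)) (.cons (InB.of_bounds (by rw [S_eq]; norm_num) (by rw [S_eq]; norm_num)) (.cons (InB.of_bounds (by rw [S_eq]; norm_num) (by rw [S_eq]; norm_num)) .nil))))))))))))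
    LPaI_prog [3, 0] LPaI_cl LPaI_run
    (Fs := [fun x => Real.log (Dw WI (37/50) (4/5) (249/1000) (77/100) (-(v * x) + 1 / 5 * Mi (-(v * x)))),
      fun x => Real.exp (-(-(v * x) + 1 / 5 * Mi (-(v * x))) ^ 2 / (1 + 37/50)) / Dw WI (37/50) (4/5) (249/1000) (77/100) (-(v * x) + 1 / 5 * Mi (-(v * x)))]) rfl
    (by
      refine .cons ⟨LPaI_ok.cont_log hX, fun x => ?_⟩ (.cons ⟨LPaI_ok.cont_div hX, fun x => ?_⟩ (.nil))
      · beta_reduce
        rw [LPaI_ok.log_eq (LPaI_R _)]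
        simp only [LPaI_prog, evp, gt, List.getD_cons_zero, List.getD_cons_succ, cc0, cc1]
        ring_nf
      · beta_reduce
        rw [LPaI_ok.div_eq (LPaI_R _)]
        simp only [LPaI_prog, evp, gt, List.getD_cons_zero, List.getD_cons_succ, cc0, cc1]
        ring_nf)
  simp only [LPaI_cl, List.forall₂_cons, List.Forall₂.nil, _root_.and_true] at h
  obtain ⟨h0, h1⟩ := h
  have g0 := dec_of (lo := (-1740590 : ℝ) / 1000000) (hi := (-1740555 : ℝ) / 1000000) (h0 (9/1250000000)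
    (gr8 (LPaI_ok.gr_log gX (n := 5) (by norm_num)) (by norm_num) (by norm_num)))
    (by rw [S_eq]; norm_num) (by rw [S_eq]; norm_num)
  have g1 := dec_of (lo := (408176 : ℝ) / 100000) (hi := (408204 : ℝ) / 100000) (h1 (1100001/10000000000000)
    (gr8 (LPaI_ok.gr_div _) (by norm_num) (by norm_num)))
    (by rw [S_eq]; norm_num) (by rw [S_eq]; norm_num)
  exact ⟨g0, g1⟩

theorem LPaI_C1 {ψ : ℝ} (h1 : psi1 ≤ ψ) (h2 : ψ ≤ psi2) :
    (-1740590 : ℝ) / 1000000 ≤ C1w ψ (1 / 5) WI (37/50) (4/5) (249/1000) (77/100) ∧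
    C1w ψ (1 / 5) WI (37/50) (4/5) (249/1000) (77/100) ≤ (-1740555 : ℝ) / 1000000 := by
  simp only [C1w, zz_eq]
  exact (LPaI_all (box_v h1 h2)).1

theorem LPaI_C2 {ψ : ℝ} (h1 : psi1 ≤ ψ) (h2 : ψ ≤ psi2) :
    (408176 : ℝ) / 100000 ≤ C2w ψ (1 / 5) WI (37/50) (4/5) (249/1000) (77/100) ∧
    C2w ψ (1 / 5) WI (37/50) (4/5) (249/1000) (77/100) ≤ (408204 : ℝ) / 100000 := by
  simp only [C2w, zz_eq]
  exact (LPaI_all (box_v h1 h2)).2

end IP49N
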