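import Pool.Agent.IP49N.SFin
import Pool.Agent.IP49N.LBase

/-! IP49N/LSpB: certified integrals, generated by gen.py (helper52). Spin tests B of the (L*) side (helper99): `spF (2e) y = lc (2y) + log (1 + 2 exp (-(lc (2y) + 2e)))`, `y = l tanh h + s h`. -/

set_option autoImplicit false
set_option maxRecDepth 20000

namespace IP49N
open Pool.Agent.IP49

def LSpB_prog : List Op := [
    .z, .p 0, .mul 0 1, .th 0, .p 1, .mul 2 0, .p 2, .mul 5 0, .add 2 0,
    .c (2305843009213693952), .mul 1 0, .th 0, .p 3, .add 1 0, .c (0), .sub 0 1, .exp 0,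
    .mul 0 8, .c (1152921504606846976), .add 1 0, .log 0, .add 9 0, .mul 23 23,
    .c (-576460752303423488), .mul 1 0, .exp 0, .mul 4 0]
def LSpB_par : List Bl := [
    ⟨Int.ofNat (nat_lit 1850555741999803248), nat_lit 3700000000000⟩,
    ⟨Int.ofNat (nat_lit 3850757825386868900), nat_lit 1⟩,
    ⟨Int.ofNat (nat_lit 192537891269343445), nat_lit 1⟩,
    ⟨Int.negSucc (nat_lit 3666290384649773383), nat_lit 1⟩]
def LSpB_cl : List (ℤ × ℕ) := [
    (Int.ofNat (nat_lit 6633704369420889104), nat_lit 58242904145842)]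
theorem LSpB_run : quad (nat_lit 18014398509481984) LSpB_par LSpB_prog [0] (nat_lit 256)
    (List.replicate (nat_lit 1) Acc.zero) true
    (fun acc b => Bool.and b (chk (nat_lit 18014398509481984) LSpB_cl acc)) = true := by decide +kernel

theorem LSpB_all {r : ℝ}
    (hr : InB r ⟨Int.ofNat (nat_lit 1850555741999803248), nat_lit 3700000000000⟩) :
    ((5753770 : ℝ) / 1000000 ≤ GE (fun x => spF (-159 / 50) (167 / 50 * Real.tanh (r * x) + 167 / 1000 * (r * x))) ∧
      GE (fun x => spF (-159 / 50) (167 / 50 * Real.tanh (r * x) + 167 / 1000 * (r * x))) ≤ (5753872 : ℝ) / 1000000) := by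
  have br : |r| ≤ 2 := by simpa using hr.abs_le (K := 2) (by decide +kernel)
  have cc0 : ((-576460752303423488 : ℤ) : ℝ) / S = (-1/2 : ℝ) := by rw [S_eq]; norm_num
  have cc1 : ((1152921504606846976 : ℤ) : ℝ) / S = (1 : ℝ) := by rw [S_eq]; norm_num
  have cc2 : ((2305843009213693952 : ℤ) : ℝ) / S = (2 : ℝ) := by rw [S_eq]; norm_num
  have h := GE_run8 (W := 18014398509481984) (n := 256) (by norm_num) (by rw [S_eq]; norm_num)
    (par := LSpB_par) (xs := [r, (167/50 : ℝ), (167/1000 : ℝ), (-159/50 : ℝ)])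
    (.cons hr (.cons (InB.of_bounds (by rw [S_eq]; norm_num) (by rw [S_eq]; norm_num)) (.cons (InB.of_bounds (by rw [S_eq]; norm_num) (by rw [S_eq]; norm_num)) (.cons (InB.of_bounds (by rw [S_eq]; norm_num) (by rw [S_eq]; norm_num)) .nil)))) LSpB_prog [0] LSpB_cl LSpB_run
    (Fs := [fun x => spF (-159 / 50) (167 / 50 * Real.tanh (r * x) + 167 / 1000 * (r * x))]) rfl
    (by
      refine .cons ⟨by fun_prop (disch := positivity), fun x => ?_⟩ (.nil)
      all_goals
        simp only [LSpB_prog, evp, gt, List.getD_cons_zero, List.getD_cons_succ, cc0, cc1, cc2, spF]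
        ring_nf)
  simp only [LSpB_cl, List.forall₂_cons, List.Forall₂.nil, _root_.and_true] at h
  have h0 := h
  have gg : (∃ C k, Gr (fun x => spF (-159 / 50) (167 / 50 * Real.tanh (r * x) + 167 / 1000 * (r * x))) C k ∧ k ≤ 6 ∧ C * 8e-10 ≤ (860001/10000000000000 : ℝ)) := by
    all_goals
      apply gr8
      · exact Gr.spF _ 4 (by norm_num) (Gr.lin (a := 167/50) (b := 167/1000) br (by norm_num) (by norm_num))
      · norm_num
      · norm_num
  have gg0 := gg
  have g0 := dec_of (lo := (5753770 : ℝ) / 1000000) (hi := (5753872 : ℝ) / 1000000) (h0 _ gg0)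
    (by rw [S_eq]; norm_num) (by rw [S_eq]; norm_num)
  exact g0

end IP49N
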