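import Pool.Agent.IP49N.SFin
import Pool.Agent.IP49N.LBase

/-! IP49N/LSpF: certified integrals, generated by gen.py (helper52). Spin tests JK of the (L*) side (helper99): `spF (2e) y = lc (2y) + log (1 + 2 exp (-(lc (2y) + 2e)))`, `y = l tanh h + s h`. -/

set_option autoImplicit false
set_option maxRecDepth 20000

namespace IP49N
open Pool.Agent.IP49

def LSpF_prog : List Op := [
    .z, .p 0, .mul 0 1, .th 0, .p 1, .mul 2 0, .p 2, .mul 5 0, .add 2 0,
    .c (2305843009213693952), .mul 1 0, .th 0, .p 3, .add 1 0, .c (0), .sub 0 1, .exp 0,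
    .mul 0 8, .c (1152921504606846976), .add 1 0, .log 0, .add 9 0, .mul 23 23,
    .c (-576460752303423488), .mul 1 0, .exp 0, .mul 4 0, .p 4, .mul 26 0, .p 5, .mul 29 0,
    .add 2 0, .mul 0 23, .th 0, .p 6, .add 1 0, .sub 22 0, .exp 0, .mul 0 30, .add 0 21, .log 0,
    .add 7 0, .mul 0 17]
def LSpF_par : List Bl := [
    ⟨Int.ofNat (nat_lit 1850555741999803248), nat_lit 3700000000000⟩,
    ⟨Int.negSucc (nat_lit 80704505322479287), nat_lit 1⟩,
    ⟨Int.ofNat (nat_lit 682529530727253410), nat_lit 1⟩,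
    ⟨Int.ofNat (nat_lit 3209733468825461981), nat_lit 1⟩,
    ⟨Int.negSucc (nat_lit 27670116110564326), nat_lit 1⟩,
    ⟨Int.ofNat (nat_lit 611048397441628897), nat_lit 1⟩,
    ⟨Int.ofNat (nat_lit 4554039943197045555), nat_lit 1⟩]
def LSpF_cl : List (ℤ × ℕ) := [
    (Int.ofNat (nat_lit 1878309435263854409), nat_lit 15795289911943),
    (Int.ofNat (nat_lit 1750691091876377334), nat_lit 13037203177311)]
theorem LSpF_run : quad (nat_lit 72057594037927936) LSpF_par LSpF_prog [17, 0] (nat_lit 64)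
    (List.replicate (nat_lit 2) Acc.zero) true
    (fun acc b => Bool.and b (chk (nat_lit 72057594037927936) LSpF_cl acc)) = true := by decide +kernel

theorem LSpF_all {r : ℝ}
    (hr : InB r ⟨Int.ofNat (nat_lit 1850555741999803248), nat_lit 3700000000000⟩) :
    ((1629160 : ℝ) / 1000000 ≤ GE (fun x => spF (348 / 125) (-7 / 100 * Real.tanh (r * x) + 74 / 125 * (r * x))) ∧
      GE (fun x => spF (348 / 125) (-7 / 100 * Real.tanh (r * x) + 74 / 125 * (r * x))) ≤ (1629188 : ℝ) / 1000000) ∧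
    ((1518471 : ℝ) / 1000000 ≤ GE (fun x => spF (79 / 20) (-3 / 125 * Real.tanh (r * x) + 53 / 100 * (r * x))) ∧
      GE (fun x => spF (79 / 20) (-3 / 125 * Real.tanh (r * x) + 53 / 100 * (r * x))) ≤ (1518494 : ℝ) / 1000000) := by
  have br : |r| ≤ 2 := by simpa using hr.abs_le (K := 2) (by decide +kernel)
  have cc0 : ((-576460752303423488 : ℤ) : ℝ) / S = (-1/2 : ℝ) := by rw [S_eq]; norm_num
  have cc1 : ((1152921504606846976 : ℤ) : ℝ) / S = (1 : ℝ) := by rw [S_eq]; norm_num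
  have cc2 : ((2305843009213693952 : ℤ) : ℝ) / S = (2 : ℝ) := by rw [S_eq]; norm_num
  have h := GE_run8 (W := 72057594037927936) (n := 64) (by norm_num) (by rw [S_eq]; norm_num)
    (par := LSpF_par) (xs := [r, (-7/100 : ℝ), (74/125 : ℝ), (348/125 : ℝ), (-3/125 : ℝ), (53/100 : ℝ), (79/20 : ℝ)])
    (.cons hr (.cons (InB.of_bounds (by rw [S_eq]; norm_num) (by rw [S_eq]; norm_num)) (.cons (InB.of_bounds (by rw [S_eq]; norm_num) (by rw [S_eq]; norm_num)) (.cons (InB.of_bounds (by rw [S_eq]; norm_num) (by rw [S_eq]; norm_num)) (.cons (InB.of_bounds (by rw [S_eq]; norm_num) (by rw [S_eq]; norm_num)) (.cons (InB.of_bounds (by rw [S_eq]; norm_num) (by rw [S_eq]; norm_num)) (.cons (InB.of_bounds (by rw [S_eq]; norm_num) (by rw [S_eq]; norm_num)) .nil))))))) LSpF_prog [17, 0] LSpF_cl LSpF_run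
    (Fs := [fun x => spF (348 / 125) (-7 / 100 * Real.tanh (r * x) + 74 / 125 * (r * x)),
      fun x => spF (79 / 20) (-3 / 125 * Real.tanh (r * x) + 53 / 100 * (r * x))]) rfl
    (by
      refine .cons ⟨by fun_prop (disch := positivity), fun x => ?_⟩ (.cons ⟨by fun_prop (disch := positivity), fun x => ?_⟩ (.nil))
      all_goals
        simp only [LSpF_prog, evp, gt, List.getD_cons_zero, List.getD_cons_succ, cc0, cc1, cc2, spF]
        ring_nf)
  simp only [LSpF_cl, List.forall₂_cons, List.Forall₂.nil, _root_.and_true] at h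
  obtain ⟨h0, h1⟩ := h
  have gg : (∃ C k, Gr (fun x => spF (348 / 125) (-7 / 100 * Real.tanh (r * x) + 74 / 125 * (r * x))) C k ∧ k ≤ 6 ∧ C * 8e-10 ≤ (43/10000000000 : ℝ)) ∧
      (∃ C k, Gr (fun x => spF (79 / 20) (-3 / 125 * Real.tanh (r * x) + 53 / 100 * (r * x))) C k ∧ k ≤ 6 ∧ C * 8e-10 ≤ (43/10000000000 : ℝ)) := by
    refine ⟨?_, ?_⟩
    all_goals
      apply gr8
      · exact Gr.spF _ 0 (by norm_num) (Gr.lin (a := 7/100) (b := 74/125) br (by norm_num) (by norm_num))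
      · norm_num
      · norm_num
  obtain ⟨gg0, gg1⟩ := gg
  have g0 := dec_of (lo := (1629160 : ℝ) / 1000000) (hi := (1629188 : ℝ) / 1000000) (h0 _ gg0)
    (by rw [S_eq]; norm_num) (by rw [S_eq]; norm_num)
  have g1 := dec_of (lo := (1518471 : ℝ) / 1000000) (hi := (1518494 : ℝ) / 1000000) (h1 _ gg1)
    (by rw [S_eq]; norm_num) (by rw [S_eq]; norm_num)
  exact ⟨g0, g1⟩

end IP49N
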