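import Pool.Agent.IP49N.LSpA
import Pool.Agent.IP49N.LSpB
import Pool.Agent.IP49N.LSpC
import Pool.Agent.IP49N.LSpD
import Pool.Agent.IP49N.LSpE
import Pool.Agent.IP49N.LSpF
import Pool.Agent.IP49N.Box

/-! IP49N/LSpX (helper99): the spin fields `sA .. sK` of `LData`. -/

set_option autoImplicit false
open MeasureTheory ProbabilityTheory

namespace IP49N
open Pool.Agent.IP49

theorem Gr.integrable {f : ℝ → ℝ} {C : ℝ} {k : ℕ} (h : Gr f C k) (hf : Continuous f) :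
    Integrable f (gaussianReal 0 1) := by
  refine integrable_of_growth hf.measurable (C := C * 2 ^ k) (k := k) fun x => ?_
  refine (h x).trans ?_
  rw [mul_assoc, ← mul_pow]
  refine mul_le_mul_of_nonneg_left (pow_le_pow_left₀ (by positivity) ?_ k) h.nn
  have h1 := sq_abs x
  nlinarith [sq_nonneg (|x| - 1)]

theorem sp_spF (ψ l s e c : ℝ) (hc : c = 2 * e) :
    sp ψ 0 l s e = e + (GE fun x => spF c (l * Real.tanh (Real.sqrt ψ * x)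
      + s * (Real.sqrt ψ * x))) - 2 * l * qp ψ - 2 * s * (ψ * (1 - qp ψ)) - e * qp ψ := by
  have hg : Gr (fun x => l * Real.tanh (Real.sqrt ψ * x) + s * (Real.sqrt ψ * x))
      (|l| * 1 + |s| * (|Real.sqrt ψ| * 1)) (max (0 + 0) (0 + (0 + 1))) :=
    ((Gr.par le_rfl).mul (Gr.tanh _)).add ((Gr.par le_rfl).mul ((Gr.par le_rfl).mul Gr.id))
  obtain ⟨n, hn⟩ := exists_nat_ge (-c)
  have hI : Integrable (fun x => spF c (l * Real.tanh (Real.sqrt ψ * x)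
      + s * (Real.sqrt ψ * x))) (gaussianReal 0 1) :=
    (Gr.spF c n hn hg).integrable (by fun_prop)
  have h1 : (GE fun x => Real.log (2 * Real.exp e
      * Real.cosh (2 * (l * Real.tanh (Real.sqrt ψ * x) + s * (Real.sqrt ψ * x)))
      + 2 * Real.exp (-e))) = e + GE fun x => spF c (l * Real.tanh (Real.sqrt ψ * x)
      + s * (Real.sqrt ψ * x)) := by
    have h2 : (fun x => Real.log (2 * Real.exp e
      * Real.cosh (2 * (l * Real.tanh (Real.sqrt ψ * x) + s * (Real.sqrt ψ * x)))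
      + 2 * Real.exp (-e))) = fun x => e + spF c (l * Real.tanh (Real.sqrt ψ * x)
      + s * (Real.sqrt ψ * x)) := by
      funext x
      rw [log_spin', hc]
    rw [h2, GE_add (integrable_const e) hI, GE_const]
  unfold sp
  rw [h1]
  ring

theorem box_P {ψ : ℝ} (h1 : psi1 ≤ ψ) (h2 : ψ ≤ psi2) :
    (112341 : ℝ) / 100000 ≤ ψ * (1 - qp ψ) ∧ ψ * (1 - qp ψ) ≤ 1123430 / 1000000 := by
  obtain ⟨q1, q2⟩ := box_q h1 h2
  unfold psi1 at h1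
  unfold psi2 at h2
  constructor <;> nlinarith

theorem LSp_sA {ψ : ℝ} (h1 : psi1 ≤ ψ) (h2 : ψ ≤ psi2) :
    sp ψ 0 (184 / 25) (-527 / 1000) (-73 / 20) ≤ 1425 / 1000 := by
  obtain ⟨q1, q2⟩ := box_q h1 h2
  obtain ⟨p1, p2⟩ := box_P h1 h2
  have h := (LSpA_all (box_r h1 h2)).2
  rw [sp_spF _ _ _ _ (-73 / 10) (by norm_num)]
  linarith

theorem LSp_sB {ψ : ℝ} (h1 : psi1 ≤ ψ) (h2 : ψ ≤ psi2) :
    sp ψ 0 (167 / 50) (167 / 1000) (-159 / 100) ≤ 9183 / 10000 := by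
  obtain ⟨q1, q2⟩ := box_q h1 h2
  obtain ⟨p1, p2⟩ := box_P h1 h2
  have h := (LSpB_all (box_r h1 h2)).2
  rw [sp_spF _ _ _ _ (-159 / 50) (by norm_num)]
  linarith

theorem LSp_sC {ψ : ℝ} (h1 : psi1 ≤ ψ) (h2 : ψ ≤ psi2) :
    sp ψ 0 (27 / 50) (91 / 100) (-73 / 200) ≤ 7061 / 10000 := by
  obtain ⟨q1, q2⟩ := box_q h1 h2
  obtain ⟨p1, p2⟩ := box_P h1 h2
  have h := (LSpC_all (box_r h1 h2)).2
  rw [sp_spF _ _ _ _ (-73 / 100) (by norm_num)]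
  linarith

theorem LSp_D {ψ : ℝ} (h1 : psi1 ≤ ψ) (h2 : ψ ≤ psi2) :
    sp ψ 0 (-9 / 50) (119 / 125) (143 / 500) ≤ 7009 / 10000 ∧
    sp ψ 0 (-19 / 100) (399 / 500) (17 / 25) ≤ 7651 / 10000 ∧
    sp ψ 0 (-27 / 200) (687 / 1000) (991 / 1000) ≤ 8484 / 10000 ∧
    sp ψ 0 (-13 / 125) (639 / 1000) (1163 / 1000) ≤ 904 / 1000 ∧
    sp ψ 0 (-7 / 100) (74 / 125) (174 / 125) ≤ 9855 / 10000 ∧
    sp ψ 0 (-3 / 125) (53 / 100) (79 / 40) ≤ 12165 / 10000 := by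
  obtain ⟨q1, q2⟩ := box_q h1 h2
  obtain ⟨p1, p2⟩ := box_P h1 h2
  obtain ⟨⟨-, hE⟩, ⟨-, hG⟩⟩ := LSpD_all (box_r h1 h2)
  obtain ⟨⟨-, hH⟩, ⟨-, hI⟩⟩ := LSpE_all (box_r h1 h2)
  obtain ⟨⟨-, hJ⟩, ⟨-, hK⟩⟩ := LSpF_all (box_r h1 h2)
  refine ⟨?_, ?_, ?_, ?_, ?_, ?_⟩
  · rw [sp_spF _ _ _ _ (143 / 250) (by norm_num)]; linarith
  · rw [sp_spF _ _ _ _ (34 / 25) (by norm_num)]; linarith
  · rw [sp_spF _ _ _ _ (991 / 500) (by norm_num)]; linarith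
  · rw [sp_spF _ _ _ _ (1163 / 500) (by norm_num)]; linarith
  · rw [sp_spF _ _ _ _ (348 / 125) (by norm_num)]; linarith
  · rw [sp_spF _ _ _ _ (79 / 20) (by norm_num)]; linarith

end IP49N
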