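import Pool.Agent.IP49N.Code
import Pool.Agent.IP49.Defs

/-! IP49N: semantics of balls and Taylor models, basic facts (helper52). -/

set_option autoImplicit false

namespace IP49N
open Pool.Agent.IP49

noncomputable section

/-- `x` lies in the ball `b` -/
def InB (x : ℝ) (b : Bl) : Prop := |x * S - b.m| ≤ b.r

/-- `T` describes `f` on the cell with centre `c` and half width `w` (real numbers) -/
def InT (f : ℝ → ℝ) (c w : ℝ) (T : TM) : Prop :=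
  ∃ α0 α1 α2 α3 : ℝ, InB α0 T.a0 ∧ InB α1 T.a1 ∧ InB α2 T.a2 ∧ InB α3 T.a3 ∧
    ∀ u : ℝ, |u| ≤ w → ∃ r : ℝ, |r| * S ≤ T.R ∧
      f (c + u) = α0 + α1 * u + α2 * u ^ 2 + α3 * u ^ 3 + r * u ^ 4

/-- `g` has an expansion of order `4` at `x0`, valid for `|v| ≤ ρ` -/
def Ex4 (g : ℝ → ℝ) (x0 ρ : ℝ) (g0 g1 g2 g3 : Bl) (G : ℕ) : Prop :=
  ∃ γ0 γ1 γ2 γ3 : ℝ, InB γ0 g0 ∧ InB γ1 g1 ∧ InB γ2 g2 ∧ InB γ3 g3 ∧
    ∀ v : ℝ, |v| ≤ ρ → ∃ s : ℝ, |s| * S ≤ G ∧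
      g (x0 + v) = γ0 + γ1 * v + γ2 * v ^ 2 + γ3 * v ^ 3 + s * v ^ 4

theorem S_eq : (S : ℝ) = 2 ^ 60 := by
  have : S = 2 ^ 60 := by decide +kernel
  rw [this]; norm_num
theorem S_pos : (0 : ℝ) < S := by rw [S_eq]; positivity
theorem S_ne : (S : ℝ) ≠ 0 := S_pos.ne'
theorem S2_eq : (S2 : ℝ) = (S : ℝ) * S := by
  have : S2 = S * S := by decide +kernel
  rw [this]; push_cast; ring
theorem S_posN : 0 < S := by decide +kernel
theorem S_eqN : S = 2 ^ 60 := by decide +kernel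
theorem S2_eqN : S2 = S * S := by decide +kernel

@[simp] theorem fc_eq {α : Type} (n : ℕ) (f : ℕ → α) : fc n f = f n := by
  cases n <;> rfl
@[simp] theorem fcI_eq {α : Type} (n : ℤ) (f : ℤ → α) : fcI n f = f n := by
  cases n <;> simp [fcI]
@[simp] theorem fcB_eq {α : Type} (a : Bl) (f : Bl → α) : fcB a f = f a := by
  cases a; simp [fcB]
@[simp] theorem fcT_eq {α : Type} (a : TM) (f : TM → α) : fcT a f = f a := by
  cases a; simp [fcT]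
@[simp] theorem fcA_eq {α : Type} (a : Acc) (f : Acc → α) : fcA a f = f a := by
  cases a; simp [fcA]

/-! ### elementary ball operations -/

theorem InB.add {x y : ℝ} {a b : Bl} (hx : InB x a) (hy : InB y b) : InB (x + y) (a.add b) := by
  unfold InB at *
  show |(x + y) * S - ((a.m + b.m : ℤ) : ℝ)| ≤ ((a.r + b.r : ℕ) : ℝ)
  push_cast
  calc |(x + y) * S - (a.m + b.m)| = |(x * S - a.m) + (y * S - b.m)| := by ring_nf
    _ ≤ _ := abs_add_le _ _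
    _ ≤ _ := add_le_add hx hy

theorem InB.neg {x : ℝ} {a : Bl} (hx : InB x a) : InB (-x) a.neg := by
  unfold InB at *
  show |(-x) * S - ((-a.m : ℤ) : ℝ)| ≤ (a.r : ℝ)
  push_cast
  rw [show -x * (S : ℝ) - -(a.m : ℝ) = -(x * S - a.m) by ring, abs_neg]
  exact hx

theorem InB.sub {x y : ℝ} {a b : Bl} (hx : InB x a) (hy : InB y b) : InB (x - y) (a.sub b) := by
  unfold InB at *
  show |(x - y) * S - ((a.m - b.m : ℤ) : ℝ)| ≤ ((a.r + b.r : ℕ) : ℝ)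
  push_cast
  calc |(x - y) * S - (a.m - b.m)| = |(x * S - a.m) - (y * S - b.m)| := by ring_nf
    _ ≤ _ := abs_sub _ _
    _ ≤ _ := add_le_add hx hy

theorem InB.dbl {x : ℝ} {a : Bl} (hx : InB x a) : InB (2 * x) a.dbl := by
  rw [two_mul]; exact hx.add hx

theorem InB.wid {x y : ℝ} {a : Bl} {e : ℕ} (hx : InB x a) (h : |y - x| * S ≤ e) :
    InB y (a.wid e) := by
  unfold InB at *
  show |y * S - (a.m : ℝ)| ≤ ((a.r + e : ℕ) : ℝ)
  push_cast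
  calc |y * S - a.m| = |(x * S - a.m) + (y - x) * S| := by ring_nf
    _ ≤ _ := abs_add_le _ _
    _ ≤ _ := by
        rw [abs_mul, abs_of_pos S_pos]
        exact add_le_add hx h

theorem InB.ab {x : ℝ} {a : Bl} (hx : InB x a) : |x| * S ≤ a.ab := by
  unfold InB at hx
  show |x| * S ≤ ((a.m.natAbs + a.r : ℕ) : ℝ)
  push_cast
  rw [Nat.cast_natAbs, Int.cast_abs]
  calc |x| * S = |x * S| := by rw [abs_mul, abs_of_pos S_pos]
    _ = |(a.m : ℝ) + (x * S - a.m)| := by ring_nf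
    _ ≤ _ := abs_add_le _ _
    _ ≤ _ := by linarith

theorem InB.zero : InB 0 Bl.zero := by
  unfold InB
  show |(0 : ℝ) * S - ((0 : ℤ) : ℝ)| ≤ ((0 : ℕ) : ℝ)
  simp

theorem InB.one : InB 1 Bl.one := by
  unfold InB
  show |(1 : ℝ) * S - (((S : ℕ) : ℤ) : ℝ)| ≤ ((0 : ℕ) : ℝ)
  simp

theorem InB.cst (n : ℤ) : InB (n / S) ⟨n, nat_lit 0⟩ := by
  unfold InB
  show |((n : ℝ) / S) * S - ((n : ℤ) : ℝ)| ≤ ((0 : ℕ) : ℝ)
  rw [div_mul_cancel₀ _ S_ne]; simp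

theorem div_lt_succ (a b : ℕ) (hb : 0 < b) : (a : ℝ) / b < ((a / b : ℕ) : ℝ) + 1 := by
  rw [div_lt_iff₀ (by exact_mod_cast hb)]
  have := Nat.lt_div_mul_add (a := a) hb
  have h : (a : ℝ) < ((a / b : ℕ) : ℝ) * b + b := by exact_mod_cast this
  nlinarith

theorem div_le_real (a b : ℕ) : ((a / b : ℕ) : ℝ) ≤ (a : ℝ) / b := Nat.cast_div_le

theorem le_mu {x y : ℝ} {a b : ℕ} (hx0 : 0 ≤ x) (hy0 : 0 ≤ y) (hx : x * S ≤ a)
    (hy : y * S ≤ b) : x * y * S ≤ mu a b := by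
  show x * y * S ≤ (((a * b / S) + 1 : ℕ) : ℝ)
  have h1 := div_lt_succ (a * b) S S_posN
  have h2 : (x * S) * (y * S) ≤ (a : ℝ) * b :=
    mul_le_mul hx hy (mul_nonneg hy0 S_pos.le) (Nat.cast_nonneg _)
  have h3 : x * y * S ≤ (a : ℝ) * b / S := by
    rw [le_div_iff₀ S_pos]; nlinarith
  push_cast at h1 ⊢
  linarith

theorem InB.dv {x : ℝ} {a : Bl} {n : ℕ} (hn : 0 < n) (hx : InB x a) : InB (x / n) (a.dv n) := by
  unfold InB at *
  show |x / n * S - ((a.m / (n : ℤ) : ℤ) : ℝ)| ≤ ((2 + a.r / n : ℕ) : ℝ)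
  have hn' : (0 : ℝ) < n := by exact_mod_cast hn
  have h1 : ((a.m / (n : ℤ) : ℤ) : ℝ) * n ≤ a.m := by
    exact_mod_cast Int.ediv_mul_le a.m (by exact_mod_cast hn.ne')
  have h2 : (a.m : ℝ) < ((a.m / (n : ℤ) : ℤ) : ℝ) * n + n := by
    exact_mod_cast Int.lt_ediv_add_one_mul_self a.m (by exact_mod_cast hn : (0 : ℤ) < n) |>.trans_eq
      (by ring)
  have h3 := div_lt_succ a.r n hn
  push_cast
  have h4 : |x / n * S - a.m / n| ≤ a.r / n := by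
    rw [show x / n * S - a.m / n = (x * S - a.m) / n by ring, abs_div, abs_of_pos hn']
    exact div_le_div_of_nonneg_right hx hn'.le
  have h5 : |(a.m : ℝ) / n - ((a.m / (n : ℤ) : ℤ) : ℝ)| ≤ 1 := by
    rw [abs_le]
    constructor
    · have : ((a.m / (n : ℤ) : ℤ) : ℝ) ≤ a.m / n := by rw [le_div_iff₀ hn']; exact h1
      linarith
    · have : (a.m : ℝ) / n ≤ ((a.m / (n : ℤ) : ℤ) : ℝ) + 1 := by
        rw [div_le_iff₀ hn']; linarith
      linarith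
  calc |x / n * S - ((a.m / (n : ℤ) : ℤ) : ℝ)|
      = |(x / n * S - a.m / n) + ((a.m : ℝ) / n - ((a.m / (n : ℤ) : ℤ) : ℝ))| := by ring_nf
    _ ≤ _ := abs_add_le _ _
    _ ≤ _ := by linarith

end

end IP49N
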