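import Pool.Agent.IP49N.STail

/-! IP49N/STr (helper52): truncation of `GE f` with polynomial weights `(1+|x|)^k`. -/

set_option autoImplicit false
open MeasureTheory ProbabilityTheory intervalIntegral Filter Topology

namespace IP49N
open Pool.Agent.IP49

theorem integrable_wk (k : ℕ) : Integrable (fun x : ℝ => (1 + |x|) ^ k * phi x) := by
  have h1 : Integrable (fun x : ℝ => ((2:ℝ) ^ (k - 1) * (1 + |x| ^ k)) * phi x) := by
    have h2 : Integrable (fun x : ℝ => |x| ^ k * phi x) := by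
      have := (MC.integrable_pow_mul_phi k).norm
      refine this.congr (Eventually.of_forall fun x => ?_)
      simp only [norm_mul, norm_pow, Real.norm_eq_abs, abs_of_pos (phi_pos x)]
    refine ((MC.integrable_phi.add h2).const_mul ((2:ℝ) ^ (k - 1))).congr
      (Eventually.of_forall fun x => ?_)
    simp only [Pi.add_apply]
    ring
  refine h1.mono' ((by fun_prop : Continuous fun x : ℝ => (1 + |x|) ^ k).mul
    continuous_phi).aestronglyMeasurable (Eventually.of_forall fun x => ?_)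
  have hp := phi_pos x
  have h3 : (1 + |x|) ^ k ≤ 2 ^ (k - 1) * (1 ^ k + |x| ^ k) :=
    add_pow_le zero_le_one (abs_nonneg x) k
  rw [one_pow] at h3
  rw [Real.norm_of_nonneg (by positivity)]
  exact mul_le_mul_of_nonneg_right h3 hp.le

theorem tail_wk {k : ℕ} {Z a : ℝ} (hZ : 0 ≤ Z) (ha : 0 < a)
    (h : a ≤ Z - k / (1 + Z)) :
    ∫ x in Set.Ioi Z, (1 + |x|) ^ k * phi x ≤ (1 + Z) ^ k * phi Z / a := by
  set H : ℝ → ℝ := fun x => -((1 + x) ^ k * phi x / a) with hH
  set H' : ℝ → ℝ := fun x => (1 + x) ^ k * phi x * (x - k / (1 + x)) / a with hH'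
  have hd : ∀ x ∈ Set.Ici Z, HasDerivAt H (H' x) x := by
    intro x hx
    have hx0 : 0 ≤ x := hZ.trans hx
    have h1 : HasDerivAt (fun x : ℝ => (1 + x) ^ k) (k * (1 + x) ^ (k - 1)) x := by
      have h := ((hasDerivAt_id x).const_add 1).fun_pow k
      simpa using h
    have h2 := ((h1.mul (hasDerivAt_phi x)).div_const a).neg
    refine h2.congr_deriv ?_
    have hx1 : (1 + x) ≠ 0 := by positivity
    rcases k with _ | k
    · simp [hH']; ring
    · simp only [hH', Nat.add_sub_cancel, pow_succ]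
      field_simp
      ring
  have hnn : ∀ x ∈ Set.Ioi Z, (1 + |x|) ^ k * phi x ≤ H' x := by
    intro x hx
    have hx' : Z < x := hx
    have hx0 : 0 ≤ x := hZ.trans hx'.le
    rw [abs_of_nonneg hx0]
    have hp : 0 ≤ (1 + x) ^ k * phi x := by have := phi_pos x; positivity
    have h1 : (k:ℝ) / (1 + x) ≤ k / (1 + Z) := by
      apply div_le_div_of_nonneg_left (Nat.cast_nonneg k) (by linarith) (by linarith)
    have h2 : 1 ≤ (x - k / (1 + x)) / a := by
      rw [le_div_iff₀ ha]; linarith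
    show _ ≤ (1 + x) ^ k * phi x * (x - k / (1 + x)) / a
    rw [mul_div_assoc]
    exact le_mul_of_one_le_right hp h2
  have hlim : Tendsto H atTop (𝓝 0) := by
    have h1 : Tendsto (fun x : ℝ => (1 + x) ^ k * phi x) atTop (𝓝 0) := by
      have h2 : ∀ x : ℝ, (1 + x) ^ k * phi x
          = ∑ m ∈ Finset.range (k + 1), (k.choose m : ℝ) * (x ^ (k - m) * phi x) := by
        intro x
        rw [add_pow, Finset.sum_mul]
        refine Finset.sum_congr rfl fun m _ => ?_
        rw [one_pow]; ring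
      simp_rw [h2]
      rw [show (0:ℝ) = ∑ m ∈ Finset.range (k + 1), (k.choose m : ℝ) * 0 by simp]
      exact tendsto_finsetSum _ fun m _ => (MC.tendsto_pow_mul_phi_atTop (k - m)).const_mul _
    have := (h1.div_const a).neg
    simpa [hH] using this
  have hpos : ∀ x ∈ Set.Ioi Z, 0 ≤ H' x := fun x hx =>
    le_trans (by have := phi_pos x; positivity) (hnn x hx)
  have hint : IntegrableOn H' (Set.Ioi Z) :=
    integrableOn_Ioi_deriv_of_nonneg' hd hpos hlim
  have e := integral_Ioi_of_hasDerivAt_of_tendsto' hd hint hlim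
  have h3 : ∫ x in Set.Ioi Z, (1 + |x|) ^ k * phi x ≤ ∫ x in Set.Ioi Z, H' x :=
    setIntegral_mono_on (integrable_wk k).integrableOn hint measurableSet_Ioi hnn
  rw [e] at h3
  simpa [hH] using h3

theorem GE_trunc_k {f : ℝ → ℝ} (hf : Continuous f) {C Z a : ℝ} {k : ℕ} (hZ : 0 ≤ Z) (ha : 0 < a)
    (h : a ≤ Z - k / (1 + Z)) (hb : ∀ x, |f x| ≤ C * (1 + |x|) ^ k) :
    |GE f - (∫ x in (-Z)..Z, f x * Real.exp (-x ^ 2 / 2)) / Real.sqrt (2 * Real.pi)|
      ≤ C * (2 * ((1 + Z) ^ k * phi Z / a)) := by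
  have hC : 0 ≤ C := by
    have h := hb 0
    have h0 := abs_nonneg (f 0)
    have e : C * (1 + |(0 : ℝ)|) ^ k = C := by simp
    rw [e] at h
    linarith
  have hbw : ∀ x, ‖phi x * f x‖ ≤ C * ((1 + |x|) ^ k * phi x) := by
    intro x
    rw [Real.norm_eq_abs, abs_mul, abs_of_pos (phi_pos x)]
    have := mul_le_mul_of_nonneg_left (hb x) (phi_pos x).le
    linarith
  have hi : Integrable (fun x => phi x * f x) := by
    refine Integrable.mono' ((integrable_wk k).const_mul C)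
      (continuous_phi.mul hf).aestronglyMeasurable (Filter.Eventually.of_forall hbw)
  have e1 : GE f = ∫ x, phi x * f x := GE_eq f
  have e2 : (∫ x in (-Z)..Z, f x * Real.exp (-x ^ 2 / 2)) / Real.sqrt (2 * Real.pi) =
      ∫ x in (-Z)..Z, phi x * f x := by
    rw [← intervalIntegral.integral_div]
    refine intervalIntegral.integral_congr fun x _ => ?_
    unfold phi
    ring
  have e3 : ∫ x, phi x * f x = (∫ x in Set.Iic (-Z), phi x * f x) +
      (∫ x in (-Z)..Z, phi x * f x) + ∫ x in Set.Ioi Z, phi x * f x := by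
    rw [← intervalIntegral.integral_Iic_add_Ioi (b := Z) hi.integrableOn hi.integrableOn,
      ← intervalIntegral.integral_Iic_sub_Iic (a := -Z) (b := Z) hi.integrableOn hi.integrableOn]
    ring
  have h4 : |∫ x in Set.Iic (-Z), phi x * f x| ≤
      ∫ x in Set.Iic (-Z), C * ((1 + |x|) ^ k * phi x) := by
    have := norm_integral_le_of_norm_le
      (((integrable_wk k).const_mul C).integrableOn (s := Set.Iic (-Z)))
      (Filter.Eventually.of_forall hbw)
    simpa [Real.norm_eq_abs] using this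
  have h5 : |∫ x in Set.Ioi Z, phi x * f x| ≤ ∫ x in Set.Ioi Z, C * ((1 + |x|) ^ k * phi x) := by
    have := norm_integral_le_of_norm_le
      (((integrable_wk k).const_mul C).integrableOn (s := Set.Ioi Z))
      (Filter.Eventually.of_forall hbw)
    simpa [Real.norm_eq_abs] using this
  have h6 : ∫ x in Set.Iic (-Z), C * ((1 + |x|) ^ k * phi x) =
      ∫ x in Set.Ioi Z, C * ((1 + |x|) ^ k * phi x) := by
    rw [← integral_comp_neg_Ioi]
    refine setIntegral_congr_fun measurableSet_Ioi fun x _ => ?_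
    simp only [abs_neg, phi_neg]
  have h7 : ∫ x in Set.Ioi Z, C * ((1 + |x|) ^ k * phi x) ≤ C * ((1 + Z) ^ k * phi Z / a) := by
    rw [MeasureTheory.integral_const_mul]
    exact mul_le_mul_of_nonneg_left (tail_wk hZ ha h) hC
  rw [e1, e2, e3]
  have e4 : (∫ x in Set.Iic (-Z), phi x * f x) + (∫ x in (-Z)..Z, phi x * f x) +
      (∫ x in Set.Ioi Z, phi x * f x) - (∫ x in (-Z)..Z, phi x * f x) =
      (∫ x in Set.Iic (-Z), phi x * f x) + ∫ x in Set.Ioi Z, phi x * f x := by ring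
  rw [e4]
  calc _ ≤ |∫ x in Set.Iic (-Z), phi x * f x| + |∫ x in Set.Ioi Z, phi x * f x| := abs_add_le _ _
    _ ≤ C * ((1 + Z) ^ k * phi Z / a) + C * ((1 + Z) ^ k * phi Z / a) :=
        add_le_add (h4.trans (h6.le.trans h7)) (h5.trans h7)
    _ = C * (2 * ((1 + Z) ^ k * phi Z / a)) := by ring

theorem exp_nat_ge (n : ℕ) : (2718 / 1000 : ℝ) ^ n ≤ Real.exp n := by
  have h : Real.exp n = Real.exp 1 ^ n := by rw [← Real.exp_nat_mul]; simp
  rw [h]
  exact pow_le_pow_left₀ (by norm_num) (by have := Real.exp_one_gt_d9; linarith) n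

theorem phi_nat_le {Z : ℝ} {n : ℕ} (h : Z ^ 2 / 2 = n) :
    phi Z ≤ (1000 / 2718) ^ n / (5 / 2) := by
  unfold phi
  have h1 : (5 / 2 : ℝ) ≤ Real.sqrt (2 * Real.pi) := by
    apply Real.le_sqrt_of_sq_le
    have := Real.pi_gt_d4
    nlinarith
  have e : (-Z ^ 2 / 2) = -(n : ℝ) := by rw [← h]; ring
  rw [e, Real.exp_neg]
  have h7 : (Real.exp n)⁻¹ ≤ ((2718 / 1000 : ℝ) ^ n)⁻¹ := inv_anti₀ (by positivity) (exp_nat_ge n)
  rw [← inv_pow, show (2718 / 1000 : ℝ)⁻¹ = 1000 / 2718 by norm_num] at h7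
  exact div_le_div₀ (by positivity) h7 (by norm_num) h1

/-- `Z = 8`, weight `(1+|x|)^6` -/
theorem GE_trunc8 {f : ℝ → ℝ} (hf : Continuous f) {C : ℝ} (hb : ∀ x, |f x| ≤ C * (1 + |x|) ^ 6) :
    |GE f - (∫ x in (-8 : ℝ)..8, f x * Real.exp (-x ^ 2 / 2)) / Real.sqrt (2 * Real.pi)|
      ≤ C * 8e-10 := by
  have hC : 0 ≤ C := by
    have h := hb 0
    have h0 := abs_nonneg (f 0)
    have e : C * (1 + |(0 : ℝ)|) ^ 6 = C := by simp
    rw [e] at h
    linarith
  refine (GE_trunc_k hf (Z := 8) (a := 73 / 10) (k := 6) (by norm_num) (by norm_num)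
    (by norm_num) hb).trans ?_
  apply mul_le_mul_of_nonneg_left _ hC
  have h1 := phi_nat_le (Z := 8) (n := 32) (by norm_num)
  calc (2 : ℝ) * ((1 + 8) ^ 6 * phi 8 / (73 / 10))
      ≤ 2 * ((1 + 8) ^ 6 * ((1000 / 2718) ^ 32 / (5 / 2)) / (73 / 10)) := by gcongr
    _ ≤ 8e-10 := by norm_num

/-- `Z = 10`, weight `(1+|x|)^12` -/
theorem GE_trunc10 {f : ℝ → ℝ} (hf : Continuous f) {C : ℝ} (hb : ∀ x, |f x| ≤ C * (1 + |x|) ^ 12) :
    |GE f - (∫ x in (-10 : ℝ)..10, f x * Real.exp (-x ^ 2 / 2)) / Real.sqrt (2 * Real.pi)|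
      ≤ C * 6e-11 := by
  have hC : 0 ≤ C := by
    have h := hb 0
    have h0 := abs_nonneg (f 0)
    have e : C * (1 + |(0 : ℝ)|) ^ 12 = C := by simp
    rw [e] at h
    linarith
  refine (GE_trunc_k hf (Z := 10) (a := 89 / 10) (k := 12) (by norm_num) (by norm_num)
    (by norm_num) hb).trans ?_
  apply mul_le_mul_of_nonneg_left _ hC
  have h1 := phi_nat_le (Z := 10) (n := 50) (by norm_num)
  calc (2 : ℝ) * ((1 + 10) ^ 12 * phi 10 / (89 / 10))
      ≤ 2 * ((1 + 10) ^ 12 * ((1000 / 2718) ^ 50 / (5 / 2)) / (89 / 10)) := by gcongr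
    _ ≤ 6e-11 := by norm_num

end IP49N
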