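import Pool.Agent.IP49N.SQuad
import Pool.Agent.IP49N.STr
import Pool.Agent.IP49.RSA

/-! IP49N/SFin: user layer of the quadrature engine (helper52).

Pattern of an instance (made by `gen.py`):
* `X_run`: the kernel computation, `decide +kernel`;
* `X_all`: `GE_run8` (or `GE_run10`), the growth bounds by the lemmas `Gr.*`, the semantics by
  `simp only [X_prog, evp, gt, ..]; ring_nf`. -/

set_option autoImplicit false
open MeasureTheory ProbabilityTheory intervalIntegral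

namespace IP49N
open Pool.Agent.IP49

/-! ### continuity -/

attribute [fun_prop] Pool.Agent.IP49.continuous_tanh' Pool.Agent.IP49.continuous_Mi
  Pool.Agent.IP49.continuous_Md Pool.Agent.IP49.continuous_phi Pool.Agent.IP49.continuous_Ph

@[fun_prop] theorem continuous_lc : Continuous lc :=
  continuous_iff_continuousAt.2 fun x => (hasDerivAt_lc x).continuousAt

@[fun_prop] theorem Cont.logPh {f : ℝ → ℝ} (hf : Continuous f) :
    Continuous fun x => Real.log (Ph (f x)) := MC.continuous_logPh.comp hf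

@[fun_prop] theorem continuous_M2 : Continuous M2 := by unfold M2; fun_prop

/-! ### growth -/

/-- polynomial growth with explicit constants -/
def Gr (f : ℝ → ℝ) (C : ℝ) (k : ℕ) : Prop := ∀ x, |f x| ≤ C * (1 + |x|) ^ k

theorem one_le_w (x : ℝ) (k : ℕ) : 1 ≤ (1 + |x|) ^ k :=
  one_le_pow₀ (by have := abs_nonneg x; linarith)

theorem Gr.nn {f : ℝ → ℝ} {C : ℝ} {k : ℕ} (h : Gr f C k) : 0 ≤ C := by
  have h1 := h 0
  have h0 := abs_nonneg (f 0)
  simp only [abs_zero, add_zero, one_pow, mul_one] at h1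
  linarith

theorem Gr.mono {f : ℝ → ℝ} {C D : ℝ} {k l : ℕ} (h : Gr f C k) (hC : C ≤ D) (hk : k ≤ l) :
    Gr f D l := fun x => (h x).trans (mul_le_mul hC
      (pow_le_pow_right₀ (by have := abs_nonneg x; linarith) hk) (by positivity) (h.nn.trans hC))

theorem Gr.id : Gr (fun x => x) 1 1 := fun x => by rw [pow_one]; linarith

theorem Gr.par {a C : ℝ} (h : |a| ≤ C) : Gr (fun _ => a) C 0 := fun x => by simpa using h

theorem Gr.num {a : ℝ} (h : 0 ≤ a) : Gr (fun _ => a) a 0 := Gr.par (by rw [abs_of_nonneg h])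

theorem Gr.bdd {f : ℝ → ℝ} {C : ℝ} (h : ∀ x, |f x| ≤ C) : Gr f C 0 := fun x => by simpa using h x

theorem Gr.add {f g : ℝ → ℝ} {C D : ℝ} {k l : ℕ} (hf : Gr f C k) (hg : Gr g D l) :
    Gr (fun x => f x + g x) (C + D) (max k l) := fun x => by
  have h1 := hf.mono le_rfl (le_max_left k l) x
  have h2 := hg.mono le_rfl (le_max_right k l) x
  calc |f x + g x| ≤ |f x| + |g x| := abs_add_le _ _
    _ ≤ _ := by rw [add_mul]; exact add_le_add h1 h2

theorem Gr.neg {f : ℝ → ℝ} {C : ℝ} {k : ℕ} (hf : Gr f C k) : Gr (fun x => -f x) C k :=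
  fun x => by rw [abs_neg]; exact hf x

theorem Gr.sub {f g : ℝ → ℝ} {C D : ℝ} {k l : ℕ} (hf : Gr f C k) (hg : Gr g D l) :
    Gr (fun x => f x - g x) (C + D) (max k l) := by
  simpa [sub_eq_add_neg] using hf.add hg.neg

theorem Gr.mul {f g : ℝ → ℝ} {C D : ℝ} {k l : ℕ} (hf : Gr f C k) (hg : Gr g D l) :
    Gr (fun x => f x * g x) (C * D) (k + l) := fun x => by
  rw [abs_mul, pow_add]
  calc |f x| * |g x| ≤ (C * (1 + |x|) ^ k) * (D * (1 + |x|) ^ l) :=
        mul_le_mul (hf x) (hg x) (abs_nonneg _) ((abs_nonneg _).trans (hf x))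
    _ = _ := by ring

theorem Gr.pow {f : ℝ → ℝ} {C : ℝ} {k : ℕ} (hf : Gr f C k) (n : ℕ) :
    Gr (fun x => f x ^ n) (C ^ n) (k * n) := fun x => by
  rw [abs_pow]
  calc |f x| ^ n ≤ (C * (1 + |x|) ^ k) ^ n := pow_le_pow_left₀ (abs_nonneg _) (hf x) n
    _ = _ := by rw [mul_pow, pow_mul]

theorem Gr.div {f : ℝ → ℝ} {C c : ℝ} {k : ℕ} (hf : Gr f C k) (hc : 0 < c) :
    Gr (fun x => f x / c) (C / c) k := fun x => by
  rw [abs_div, abs_of_pos hc, div_mul_eq_mul_div]
  exact div_le_div_of_nonneg_right (hf x) hc.le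

theorem Gr.abs {f : ℝ → ℝ} {C : ℝ} {k : ℕ} (hf : Gr f C k) : Gr (fun x => |f x|) C k :=
  fun x => by rw [abs_abs]; exact hf x

theorem Gr.tanh (f : ℝ → ℝ) : Gr (fun x => Real.tanh (f x)) 1 0 := Gr.bdd fun x => by
  have h := tanh_sq_lt (f x)
  rw [abs_le]; constructor <;> nlinarith

theorem Gr.lc {f : ℝ → ℝ} {C : ℝ} {k : ℕ} (hf : Gr f C k) : Gr (fun x => lc (f x)) (C + 1) k :=
  fun x => by
    have h1 := lc_bounds (f x)
    have h2 : Real.log 2 ≤ 1 := by have := MC.log_two_lt; linarith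
    rw [abs_of_nonneg ((abs_nonneg _).trans h1.1)]
    have h3 := hf x
    have h4 := one_le_w x k
    rw [add_mul]; linarith

theorem Gr.Mi {f : ℝ → ℝ} {C : ℝ} {k : ℕ} (hf : Gr f C k) :
    Gr (fun x => Pool.Agent.IP49.Mi (f x)) (C + 1) k := fun x => by
  have h1 := MC.abs_Mi_le (f x)
  have h3 := hf x
  have h4 := one_le_w x k
  rw [add_mul]; linarith

theorem Gr.Md (f : ℝ → ℝ) : Gr (fun x => Pool.Agent.IP49.Md (f x)) 1 0 :=
  Gr.bdd fun x => MC.abs_Md_le (f x)

theorem Gr.M2 (f : ℝ → ℝ) : Gr (fun x => Pool.Agent.IP49.M2 (f x)) 4 0 :=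
  Gr.bdd fun x => by rw [abs_of_pos (M2_pos _)]; exact M2_le _

theorem Gr.logPh {f : ℝ → ℝ} {C : ℝ} {k : ℕ} (hf : Gr f C k) :
    Gr (fun x => Real.log (Ph (f x))) ((C + 1) ^ 2) (k * 2) := fun x => by
  have h1 := MC.abs_logPh_le (f x)
  have h3 := hf x
  have h4 := one_le_w x k
  have h5 := abs_nonneg (f x)
  calc _ ≤ (1 + |f x|) ^ 2 := h1
    _ ≤ ((C + 1) * (1 + |x|) ^ k) ^ 2 :=
        pow_le_pow_left₀ (by positivity) (by rw [add_mul]; linarith) 2
    _ = _ := by rw [mul_pow, ← pow_mul]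

theorem Gr.Ph (f : ℝ → ℝ) : Gr (fun x => Pool.Agent.IP49.Ph (f x)) 1 0 := Gr.bdd fun x => by
  rw [abs_of_pos (Ph_pos _)]; exact (Ph_lt_one _).le

theorem Gr.expn {f : ℝ → ℝ} (h : ∀ x, f x ≤ 0) : Gr (fun x => Real.exp (f x)) 1 0 :=
  Gr.bdd fun x => by
    rw [abs_of_pos (Real.exp_pos _)]; exact Real.exp_le_one_iff.2 (h x)

theorem Gr.ite_le {f g : ℝ → ℝ} {C : ℝ} {k : ℕ} (hf : Gr f C k) (h : ∀ x, |g x| ≤ |f x|) :
    Gr g C k := fun x => (h x).trans (hf x)

theorem gr8 {f : ℝ → ℝ} {C e : ℝ} {k : ℕ} (h : Gr f C k) (hk : k ≤ 6) (he : C * 8e-10 ≤ e) :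
    ∃ C k, Gr f C k ∧ k ≤ 6 ∧ C * 8e-10 ≤ e := ⟨C, k, h, hk, he⟩

theorem gr10 {f : ℝ → ℝ} {C e : ℝ} {k : ℕ} (h : Gr f C k) (hk : k ≤ 12) (he : C * 6e-11 ≤ e) :
    ∃ C k, Gr f C k ∧ k ≤ 12 ∧ C * 6e-11 ≤ e := ⟨C, k, h, hk, he⟩

/-! ### balls for parameters -/

theorem InB.of_bounds {x : ℝ} {m : ℤ} {r : ℕ} (h1 : (m : ℝ) - r ≤ x * S) (h2 : x * S ≤ m + r) :
    InB x ⟨m, r⟩ := by
  unfold InB
  rw [abs_le]; constructor <;> linarith

theorem InB.bounds {x : ℝ} {m : ℤ} {r : ℕ} (h : InB x ⟨m, r⟩) :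
    ((m : ℝ) - r) / S ≤ x ∧ x ≤ (m + r) / S := by
  unfold InB at h
  rw [abs_le] at h
  obtain ⟨h1, h2⟩ := h
  rw [div_le_iff₀ S_pos, le_div_iff₀ S_pos]
  simp only at h1 h2
  constructor <;> linarith

theorem InB.abs_le {x : ℝ} {b : Bl} (h : InB x b) {K : ℕ}
    (hb : Nat.ble b.ab (Nat.mul K S) = true) : |x| ≤ K := by
  have h1 := h.ab
  have h2 : ((b.ab : ℕ) : ℝ) ≤ ((K * S : ℕ) : ℝ) := by
    exact_mod_cast Nat.le_of_ble_eq_true hb
  rw [Nat.cast_mul] at h2
  exact le_of_mul_le_mul_right (h1.trans h2) S_pos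

theorem getB_nil (i : ℕ) : getB [] i = Bl.zero := by cases i <;> rfl
theorem getB_zero (B : Bl) (l : List Bl) : getB (B :: l) 0 = B := rfl
theorem getB_succ (B : Bl) (l : List Bl) (i : ℕ) : getB (B :: l) (i + 1) = getB l i := rfl

/-- parameters as a list of reals with default `0` -/
theorem pars_list {xs : List ℝ} {Bs : List Bl} (h : List.Forall₂ InB xs Bs) :
    ∀ i, InB ((fun i => xs.getD i 0) i) (getB Bs i) := by
  intro i
  induction h generalizing i with
  | nil => rw [getB_nil]; simpa using InB.zero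
  | cons hx _ ih =>
    cases i with
    | zero => simpa [getB_zero] using hx
    | succ i => rw [getB_succ]; simpa using ih i

theorem halfc : ((-576460752303423488 : ℤ) : ℝ) / S = -(1 / 2) := by
  rw [S_eq]; norm_num

/-! ### the main theorems -/

theorem forall₂_get {α β : Type} {R : α → β → Prop} {l : List α} {l' : List β}
    (h : List.Forall₂ R l l') (a : α) (b : β) : ∀ j < l.length, R (l.getD j a) (l'.getD j b) := by
  induction h with
  | nil => intro j hj; simp at hj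
  | cons h1 _ ih =>
    intro j hj
    cases j with
    | zero => simpa using h1
    | succ j => simpa using ih j (by simpa using hj)

theorem forall₂_of_get {α β : Type} {R : α → β → Prop} {l : List α} {l' : List β} (a : α) (b : β)
    (hlen : l.length = l'.length) (h : ∀ j < l.length, R (l.getD j a) (l'.getD j b)) :
    List.Forall₂ R l l' := by
  induction l generalizing l' with
  | nil =>
    cases l' with
    | nil => exact List.Forall₂.nil
    | cons b' l' => simp at hlen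
  | cons a' l ih =>
    cases l' with
    | nil => simp at hlen
    | cons b' l' =>
      refine List.Forall₂.cons ?_ (ih (by simpa using hlen) fun j hj => ?_)
      · simpa using h 0 (by simp)
      · simpa using h (j + 1) (by simpa using hj)

/-- generic form: `E f` is the truncation error bound for `f` -/
theorem GE_run {W n : ℕ} (hW : 0 < W) {Z : ℝ} (hZ : 2 * n * (W / S : ℝ) = Z)
    {E : (ℝ → ℝ) → ℝ → Prop}
    (hE : ∀ (f : ℝ → ℝ) (e : ℝ), Continuous f → E f e →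
      |GE f - (∫ x in (-Z)..Z, f x * Real.exp (-x ^ 2 / 2)) / Real.sqrt (2 * Real.pi)| ≤ e)
    {par : List Bl} {xs : List ℝ} (hxs : List.Forall₂ InB xs par) (prog : List Op)
    (outs : List ℕ) (cl : List (ℤ × ℕ))
    (h : quad W par prog outs n (List.replicate outs.length Acc.zero) true
      (fun acc b => Bool.and b (chk W cl acc)) = true) {Fs : List (ℝ → ℝ)}
    (hlen : outs.length = cl.length)
    (hF : List.Forall₂ (fun (F : ℝ → ℝ) (o : ℕ) => Continuous F ∧
      ∀ x, gt (evp (fun i => xs.getD i 0) prog []) o x = F x * Real.exp (-x ^ 2 / 2)) Fs outs) :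
    List.Forall₂ (fun (F : ℝ → ℝ) (c : ℤ × ℕ) => ∀ e, E F e →
      |GE F - c.1 / S| ≤ c.2 / S + e) Fs cl := by
  have hl2 := hF.length_eq
  have hgc : ∀ o ∈ outs, Continuous (gt (evp (fun i => xs.getD i 0) prog []) o) := by
    intro o ho
    obtain ⟨j, hj, rfl⟩ := List.getElem_of_mem ho
    have h1 := forall₂_get hF (fun _ => 0) 0 j (by rw [hl2]; exact hj)
    rw [show outs[j] = outs.getD j 0 from (List.getD_eq_getElem outs 0 hj).symm]
    have e : gt (evp (fun i => xs.getD i 0) prog []) (outs.getD j 0)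
        = fun x => Fs.getD j (fun _ => 0) x * Real.exp (-x ^ 2 / 2) := funext h1.2
    rw [e]
    have := h1.1
    fun_prop
  refine forall₂_of_get (fun _ => 0) (0, 0) (hl2.trans hlen) fun j hj => ?_
  intro e he
  have hF' := forall₂_get hF (fun _ => 0) 0 j hj
  have hb := quad_bound hW (pars_list hxs) prog outs cl hgc h j (by rw [← hlen, ← hl2]; exact hj)
    hlen
  have ht := hE _ e hF'.1 he
  set F := Fs.getD j (fun _ => 0)
  have h2 : (∫ x in (-(2 * n * (W / S : ℝ)))..(2 * n * (W / S : ℝ)),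
      gt (evp (fun i => xs.getD i 0) prog []) (outs.getD j 0) x)
      = ∫ x in (-Z)..Z, F x * Real.exp (-x ^ 2 / 2) := by
    rw [hZ]; congr 1; funext x; exact hF'.2 x
  rw [h2] at hb
  set I := (∫ x in (-Z)..Z, F x * Real.exp (-x ^ 2 / 2))
  have h3 : |I / Real.sqrt (2 * Real.pi) - (cl.getD j (0, 0)).1 / S| ≤ (cl.getD j (0, 0)).2 / S := by
    rw [le_div_iff₀ S_pos, ← abs_of_pos S_pos, ← abs_mul, abs_of_pos S_pos, sub_mul,
      div_mul_cancel₀ _ S_ne]
    exact hb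
  calc |GE F - (cl.getD j (0, 0)).1 / S| = |(GE F - I / Real.sqrt (2 * Real.pi))
        + (I / Real.sqrt (2 * Real.pi) - (cl.getD j (0, 0)).1 / S)| := by ring_nf
    _ ≤ _ := abs_add_le _ _
    _ ≤ _ := by linarith

/-- range `[-8, 8]`, growth `C (1 + |x|)^6` -/
theorem GE_run8 {W n : ℕ} (hW : 0 < W) (hZ : 2 * n * (W / S : ℝ) = 8)
    {par : List Bl} {xs : List ℝ} (hxs : List.Forall₂ InB xs par) (prog : List Op)
    (outs : List ℕ) (cl : List (ℤ × ℕ))
    (h : quad W par prog outs n (List.replicate outs.length Acc.zero) true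
      (fun acc b => Bool.and b (chk W cl acc)) = true) {Fs : List (ℝ → ℝ)}
    (hlen : outs.length = cl.length)
    (hF : List.Forall₂ (fun (F : ℝ → ℝ) (o : ℕ) => Continuous F ∧
      ∀ x, gt (evp (fun i => xs.getD i 0) prog []) o x = F x * Real.exp (-x ^ 2 / 2)) Fs outs) :
    List.Forall₂ (fun (F : ℝ → ℝ) (c : ℤ × ℕ) => ∀ e, (∃ C k, Gr F C k ∧ k ≤ 6 ∧ C * 8e-10 ≤ e) →
      |GE F - c.1 / S| ≤ c.2 / S + e) Fs cl := by
  refine GE_run hW hZ ?_ hxs prog outs cl h hlen hF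
  rintro f e hf ⟨C, k, hg, hk, he⟩
  exact (GE_trunc8 hf (hg.mono le_rfl hk)).trans he

/-- range `[-10, 10]`, growth `C (1 + |x|)^12` -/
theorem GE_run10 {W n : ℕ} (hW : 0 < W) (hZ : 2 * n * (W / S : ℝ) = 10)
    {par : List Bl} {xs : List ℝ} (hxs : List.Forall₂ InB xs par) (prog : List Op)
    (outs : List ℕ) (cl : List (ℤ × ℕ))
    (h : quad W par prog outs n (List.replicate outs.length Acc.zero) true
      (fun acc b => Bool.and b (chk W cl acc)) = true) {Fs : List (ℝ → ℝ)}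
    (hlen : outs.length = cl.length)
    (hF : List.Forall₂ (fun (F : ℝ → ℝ) (o : ℕ) => Continuous F ∧
      ∀ x, gt (evp (fun i => xs.getD i 0) prog []) o x = F x * Real.exp (-x ^ 2 / 2)) Fs outs) :
    List.Forall₂ (fun (F : ℝ → ℝ) (c : ℤ × ℕ) => ∀ e, (∃ C k, Gr F C k ∧ k ≤ 12 ∧ C * 6e-11 ≤ e) →
      |GE F - c.1 / S| ≤ c.2 / S + e) Fs cl := by
  refine GE_run hW hZ ?_ hxs prog outs cl h hlen hF
  rintro f e hf ⟨C, k, hg, hk, he⟩
  exact (GE_trunc10 hf (hg.mono le_rfl hk)).trans he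

/-- decimal bounds -/
theorem dec_of {f : ℝ → ℝ} {c : ℤ} {d : ℕ} {e lo hi : ℝ} (h : |GE f - c / S| ≤ d / S + e)
    (h1 : lo ≤ ((c : ℝ) - d) / S - e) (h2 : ((c : ℝ) + d) / S + e ≤ hi) :
    lo ≤ GE f ∧ GE f ≤ hi := by
  rw [_root_.abs_le] at h
  rw [sub_div] at h1
  rw [add_div] at h2
  constructor <;> linarith [h.1, h.2]

end IP49N
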