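import Pool.Agent.IP49N.SRun
import Pool.Agent.IP49N.SCell

/-! IP49N/SQuad: soundness of `accum`, `quad`, `chk`.
`quad` with `n+1`: the two cells with centres `±(2n+1) W` (half width `W`) are
`[2nW, 2(n+1)W]` and its mirror image; the intervals add up to `[-2(n+1)W, 2(n+1)W]`
(`intervalIntegral.integral_add_adjacent_intervals`, continuity). `Int.negSucc (Nat.pred c) = -c`
for `c ≥ 1`. -/

set_option autoImplicit false
open MeasureTheory intervalIntegral

namespace IP49N
open Pool.Agent.IP49

/-- the list passed on by `accum` -/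
def accR (l : List TM) : List ℕ → List Acc → List Acc
  | [], _ => []
  | _ :: _, [] => []
  | o :: outs, A :: acc =>
      ⟨A.s0.add (get l o).a0, A.s2.add (get l o).a2, Nat.add A.r4 (get l o).R⟩ :: accR l outs acc

theorem accum_eq {α : Type} (l : List TM) (outs : List ℕ) :
    ∀ (acc : List Acc) (k : List Acc → α), accum l outs acc k = k (accR l outs acc) := by
  induction outs with
  | nil => intro acc k; rfl
  | cons o outs ih =>
    intro acc k
    cases acc with
    | nil => rfl
    | cons A acc =>
      show fcA ⟨A.s0.add (get l o).a0, A.s2.add (get l o).a2, Nat.add A.r4 (get l o).R⟩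
        (fun A => accum l outs acc fun t => k (A :: t)) = _
      rw [fcA_eq, ih]
      rfl

theorem accR_length (l : List TM) (outs : List ℕ) :
    ∀ (acc : List Acc), outs.length = acc.length → (accR l outs acc).length = acc.length := by
  induction outs with
  | nil => intro acc h; cases acc with
    | nil => rfl
    | cons A acc => simp at h
  | cons o outs ih =>
    intro acc h
    cases acc with
    | nil => simp at h
    | cons A acc =>
      simp only [List.length_cons, Nat.add_right_cancel_iff] at h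
      simp [accR, ih acc h]

theorem AccV.step {W : ℕ} {I J : ℝ} {A : Acc} {T : TM} (h : AccV W I A)
    (hT : ∃ α0 α2 : ℝ, InB α0 T.a0 ∧ InB α2 T.a2 ∧
      |J - (2 * (W / S : ℝ) * α0 + 2 / 3 * (W / S : ℝ) ^ 3 * α2)|
        ≤ 2 / 5 * (W / S : ℝ) ^ 5 * (T.R / S)) :
    AccV W (I + J) ⟨A.s0.add T.a0, A.s2.add T.a2, Nat.add A.r4 T.R⟩ := by
  obtain ⟨σ0, σ2, h0, h2, h⟩ := h
  obtain ⟨α0, α2, g0, g2, g⟩ := hT
  refine ⟨σ0 + α0, σ2 + α2, h0.add g0, h2.add g2, ?_⟩
  have e : I + J - (2 * (W / S : ℝ) * (σ0 + α0) + 2 / 3 * (W / S : ℝ) ^ 3 * (σ2 + α2)) =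
      (I - (2 * (W / S : ℝ) * σ0 + 2 / 3 * (W / S : ℝ) ^ 3 * σ2)) +
      (J - (2 * (W / S : ℝ) * α0 + 2 / 3 * (W / S : ℝ) ^ 3 * α2)) := by ring
  have e2 : ((Nat.add A.r4 T.R : ℕ) : ℝ) = (A.r4 : ℝ) + T.R := by
    show ((A.r4 + T.R : ℕ) : ℝ) = _
    push_cast; ring
  show |_| ≤ 2 / 5 * (W / S : ℝ) ^ 5 * (((Nat.add A.r4 T.R : ℕ) : ℝ) / S)
  rw [e, e2]
  calc _ ≤ _ := abs_add_le _ _
    _ ≤ _ := add_le_add h g
    _ = _ := by ring

theorem accR_spec {c : ℝ} {W : ℕ} {fs : List (ℝ → ℝ)} {l : List TM}
    (hl : AllT c (W / S) fs l) (outs : List ℕ) (hc : ∀ o ∈ outs, Continuous (gt fs o)) :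
    ∀ (Is : List ℝ) (acc : List Acc), List.Forall₂ (AccV W) Is acc →
    outs.length = acc.length → List.Forall₂ (AccV W) (List.zipWith
        (fun I o => I + ∫ x in (c - W / S)..(c + W / S), gt fs o x) Is outs) (accR l outs acc) := by
  induction outs with
  | nil =>
    intro Is acc h hlen
    cases h with
    | nil => exact List.Forall₂.nil
    | cons _ _ => simp at hlen
  | cons o outs ih =>
    intro Is acc h hlen
    cases h with
    | nil => simp at hlen
    | @cons I A Is acc hA h =>
      simp only [List.length_cons, Nat.add_right_cancel_iff] at hlen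
      rw [List.zipWith_cons_cons]
      refine List.Forall₂.cons ?_ (ih (fun o ho => hc o (List.mem_cons_of_mem _ ho)) Is acc h hlen)
      exact hA.step (cell_integral (hc o List.mem_cons_self) (hl.get o))

theorem accum_spec {α : Type} {c : ℝ} {W : ℕ} {fs : List (ℝ → ℝ)} {l : List TM}
    (hl : AllT c (W / S) fs l) (outs : List ℕ) (hc : ∀ o ∈ outs, Continuous (gt fs o))
    (Is : List ℝ) (acc : List Acc) (hacc : List.Forall₂ (AccV W) Is acc)
    (hlen : outs.length = acc.length) (k : List Acc → α) :
    ∃ acc' : List Acc, accum l outs acc k = k acc' ∧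
      List.Forall₂ (AccV W) (List.zipWith
        (fun I o => I + ∫ x in (c - W / S)..(c + W / S), gt fs o x) Is outs) acc' :=
  ⟨accR l outs acc, accum_eq l outs acc k, accR_spec hl outs hc Is acc hacc hlen⟩

theorem zw_comp (f g : ℝ → ℕ → ℝ) (outs : List ℕ) : ∀ Is : List ℝ,
    List.zipWith f (List.zipWith g Is outs) outs =
      List.zipWith (fun I o => f (g I o) o) Is outs := by
  induction outs with
  | nil => intro Is; cases Is <;> rfl
  | cons o outs ih => intro Is; cases Is with
    | nil => rfl
    | cons I Is => simp [ih Is]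

theorem zw_congr (f g : ℝ → ℕ → ℝ) (outs : List ℕ) (h : ∀ o ∈ outs, ∀ I, f I o = g I o) :
    ∀ Is : List ℝ, List.zipWith f Is outs = List.zipWith g Is outs := by
  induction outs with
  | nil => intro Is; cases Is <;> rfl
  | cons o outs ih => intro Is; cases Is with
    | nil => rfl
    | cons I Is =>
      rw [List.zipWith_cons_cons, List.zipWith_cons_cons, h o List.mem_cons_self I,
        ih (fun o ho => h o (List.mem_cons_of_mem _ ho)) Is]

theorem zw_id (outs : List ℕ) : ∀ Is : List ℝ, outs.length = Is.length →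
    List.zipWith (fun I (_ : ℕ) => I) Is outs = Is := by
  induction outs with
  | nil => intro Is h; cases Is with
    | nil => rfl
    | cons I Is => simp at h
  | cons o outs ih => intro Is h; cases Is with
    | nil => rfl
    | cons I Is =>
      simp only [List.length_cons, Nat.add_right_cancel_iff] at h
      rw [List.zipWith_cons_cons, ih Is h]

theorem quad_succ {α : Type} (W : ℕ) (par : List Bl) (prog : List Op) (outs : List ℕ) (n : ℕ)
    (acc : List Acc) (b : Bool) (k : List Acc → Bool → α) :
    quad W par prog outs (n + 1) acc b k =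
      run W par (Int.ofNat ((2 * n + 1) * W)) prog [] b fun l b =>
      accum l outs acc fun acc =>
      run W par (Int.negSucc (Nat.pred ((2 * n + 1) * W))) prog [] b fun l b =>
      accum l outs acc fun acc => quad W par prog outs n acc b k := by
  show fc (Nat.mul (Nat.succ (Nat.mul (nat_lit 2) n)) W) (fun c =>
      run W par (Int.ofNat c) prog [] b fun l b =>
      accum l outs acc fun acc =>
      run W par (Int.negSucc (Nat.pred c)) prog [] b fun l b =>
      accum l outs acc fun acc => quad W par prog outs n acc b k) = _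
  rw [fc_eq]
  rfl

theorem quad_spec {α : Type} {W : ℕ} (hW : 0 < W) {par : List Bl} {pr : ℕ → ℝ}
    (hp : ∀ i, InB (pr i) (getB par i)) (prog : List Op) (outs : List ℕ)
    (hc : ∀ o ∈ outs, Continuous (gt (evp pr prog []) o)) (n : ℕ)
    (Is : List ℝ) (acc : List Acc) (b : Bool)
    (hacc : b = true → List.Forall₂ (AccV W) Is acc ∧ outs.length = acc.length)
    (k : List Acc → Bool → α) :
    ∃ (acc' : List Acc) (b' : Bool), quad W par prog outs n acc b k = k acc' b' ∧
      (b' = true → b = true ∧ List.Forall₂ (AccV W) (List.zipWith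
        (fun I o => I + ∫ x in (-(2 * n * (W / S : ℝ)))..(2 * n * (W / S : ℝ)),
          gt (evp pr prog []) o x) Is outs) acc') := by
  induction n generalizing Is acc b k with
  | zero =>
    refine ⟨acc, b, rfl, fun hb => ⟨hb, ?_⟩⟩
    obtain ⟨h1, h2⟩ := hacc hb
    have : List.zipWith (fun I o => I + ∫ x in (-(2 * ((0 : ℕ) : ℝ) * (W / S : ℝ)))..(2 *
        ((0 : ℕ) : ℝ) * (W / S : ℝ)), gt (evp pr prog []) o x) Is outs = Is := by
      rw [← zw_id outs Is (by rw [h2, h1.length_eq])]
      rw [zw_id outs Is (by rw [h2, h1.length_eq])]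
      conv_rhs => rw [← zw_id outs Is (by rw [h2, h1.length_eq])]
      apply zw_congr
      intro o _ I
      simp
    rw [this]
    exact h1
  | succ n ih =>
    rw [quad_succ]
    obtain ⟨l1, b1, e1, h1⟩ := run_spec (W := W) hp (Int.ofNat ((2 * n + 1) * W)) prog [] [] b
      (fun l b => accum l outs acc fun acc =>
        run W par (Int.negSucc (Nat.pred ((2 * n + 1) * W))) prog [] b fun l b =>
        accum l outs acc fun acc => quad W par prog outs n acc b k)
      (fun _ => List.Forall₂.nil)
    rw [e1, accum_eq]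
    obtain ⟨l2, b2, e2, h2⟩ := run_spec (W := W) hp
      (Int.negSucc (Nat.pred ((2 * n + 1) * W))) prog [] [] b1
      (fun l b => accum l outs (accR l1 outs acc) fun acc => quad W par prog outs n acc b k)
      (fun _ => List.Forall₂.nil)
    rw [e2, accum_eq]
    have hpos : 0 < (2 * n + 1) * W := Nat.mul_pos (Nat.succ_pos _) hW
    have hneg : Int.negSucc (Nat.pred ((2 * n + 1) * W)) = -(((2 * n + 1) * W : ℕ) : ℤ) := by
      rw [Int.negSucc_eq]
      have : ((Nat.pred ((2 * n + 1) * W) : ℕ) : ℤ) + 1 = (((2 * n + 1) * W : ℕ) : ℤ) := by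
        have h := Nat.succ_pred_eq_of_pos hpos
        exact_mod_cast h
      rw [this]
    set w : ℝ := (W : ℝ) / S with hw
    have hc1 : (((Int.ofNat ((2 * n + 1) * W) : ℤ) : ℝ)) / S = (2 * n + 1) * w := by
      have : ((Int.ofNat ((2 * n + 1) * W) : ℤ) : ℝ) = (((2 * n + 1) * W : ℕ) : ℝ) := rfl
      rw [this, hw]; push_cast; ring
    have hc2 : (((Int.negSucc (Nat.pred ((2 * n + 1) * W)) : ℤ) : ℝ)) / S = -((2 * n + 1) * w) := by
      rw [hneg, hw]; push_cast; ring
    set f1 : ℝ → ℕ → ℝ := fun I o => I + ∫ x in ((2 * n + 1) * w - w)..((2 * n + 1) * w + w),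
      gt (evp pr prog []) o x with hf1
    set f2 : ℝ → ℕ → ℝ := fun I o => I + ∫ x in (-((2 * n + 1) * w) - w)..(-((2 * n + 1) * w) + w),
      gt (evp pr prog []) o x with hf2
    have H : b2 = true → List.Forall₂ (AccV W) (List.zipWith f2 (List.zipWith f1 Is outs) outs)
        (accR l2 outs (accR l1 outs acc)) ∧
        outs.length = (accR l2 outs (accR l1 outs acc)).length := by
      intro hb2
      obtain ⟨hb1, hT2⟩ := h2 hb2
      obtain ⟨hb, hT1⟩ := h1 hb1
      obtain ⟨ha, hlen⟩ := hacc hb
      rw [hc1] at hT1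
      rw [hc2] at hT2
      have q1 := accR_spec hT1 outs hc Is acc ha hlen
      have hlen1 : outs.length = (accR l1 outs acc).length := by
        rw [accR_length l1 outs acc hlen]; exact hlen
      have q2 := accR_spec hT2 outs hc _ _ q1 hlen1
      refine ⟨q2, ?_⟩
      rw [accR_length l2 outs _ hlen1]; exact hlen1
    obtain ⟨acc', b', e3, h3⟩ := ih (List.zipWith f2 (List.zipWith f1 Is outs) outs)
      (accR l2 outs (accR l1 outs acc)) b2 H k
    refine ⟨acc', b', e3, fun hb' => ?_⟩
    obtain ⟨hb2, hF⟩ := h3 hb'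
    obtain ⟨hb1, _⟩ := h2 hb2
    obtain ⟨hb, _⟩ := h1 hb1
    refine ⟨hb, ?_⟩
    rw [zw_comp, zw_comp] at hF
    rw [zw_congr (fun I o => I + ∫ x in (-(2 * ((n + 1 : ℕ) : ℝ) * w))..(2 * ((n + 1 : ℕ) : ℝ) * w),
        gt (evp pr prog []) o x) (fun I o => f2 (f1 I o) o +
          ∫ x in (-(2 * (n : ℝ) * w))..(2 * (n : ℝ) * w), gt (evp pr prog []) o x) outs]
    · exact hF
    intro o ho I
    have hi : ∀ a b : ℝ, IntervalIntegrable (gt (evp pr prog []) o) volume a b :=
      fun a b => (hc o ho).intervalIntegrable a b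
    have t1 := integral_add_adjacent_intervals (hi (-(2 * ((n + 1 : ℕ) : ℝ) * w))
      (-(2 * (n : ℝ) * w))) (hi (-(2 * (n : ℝ) * w)) (2 * (n : ℝ) * w))
    have t2 := integral_add_adjacent_intervals (hi (-(2 * ((n + 1 : ℕ) : ℝ) * w))
      (2 * (n : ℝ) * w)) (hi (2 * (n : ℝ) * w) (2 * ((n + 1 : ℕ) : ℝ) * w))
    simp only [hf1, hf2]
    rw [show (2 * (n : ℝ) + 1) * w - w = 2 * (n : ℝ) * w by ring,
      show (2 * (n : ℝ) + 1) * w + w = 2 * ((n + 1 : ℕ) : ℝ) * w by push_cast; ring,
      show -((2 * (n : ℝ) + 1) * w) - w = -(2 * ((n + 1 : ℕ) : ℝ) * w) by push_cast; ring,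
      show -((2 * (n : ℝ) + 1) * w) + w = -(2 * (n : ℝ) * w) by ring]
    rw [← t2, ← t1]
    ring

theorem chk_spec {W : ℕ} (cl : List (ℤ × ℕ)) (Is : List ℝ) (acc : List Acc)
    (h : List.Forall₂ (AccV W) Is acc) (hk : chk W cl acc = true) (j : ℕ) (hj : j < cl.length) :
    |Is.getD j 0 / Real.sqrt (2 * Real.pi) * S - (cl.getD j (0, 0)).1| ≤ (cl.getD j (0, 0)).2 := by
  induction cl generalizing Is acc j with
  | nil => simp at hj
  | cons c cl ih =>
    cases h with
    | nil =>
      have : chk W (c :: cl) [] = false := rfl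
      rw [this] at hk
      exact absurd hk (by decide)
    | @cons I A Is acc hA h =>
      have e : chk W (c :: cl) (A :: acc) = Bool.and
        (Nat.ble (Nat.add (Int.natAbs (Int.sub (A.val W).m c.1)) (A.val W).r) c.2)
        (chk W cl acc) := rfl
      rw [e] at hk
      have hk2 : Nat.ble (Nat.add (Int.natAbs (Int.sub (A.val W).m c.1)) (A.val W).r) c.2 = true ∧
          chk W cl acc = true := by
        revert hk
        cases Nat.ble (Nat.add (Int.natAbs (Int.sub (A.val W).m c.1)) (A.val W).r) c.2 <;>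
        cases chk W cl acc <;> simp
      obtain ⟨k1, k2⟩ := hk2
      cases j with
      | zero =>
        rw [List.getD_cons_zero, List.getD_cons_zero]
        have k1' : Int.natAbs ((A.val W).m - c.1) + (A.val W).r ≤ c.2 := Nat.le_of_ble_eq_true k1
        have hv := hA.val
        unfold InB at hv
        have k3 : |((A.val W).m : ℝ) - c.1| + (A.val W).r ≤ c.2 := by
          have : ((Int.natAbs ((A.val W).m - c.1) + (A.val W).r : ℕ) : ℝ) ≤ (c.2 : ℝ) := by
            exact_mod_cast k1'
          rw [Nat.cast_add, Nat.cast_natAbs, Int.cast_abs] at this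
          push_cast at this
          exact this
        calc |I / Real.sqrt (2 * Real.pi) * S - c.1|
            = |(I / Real.sqrt (2 * Real.pi) * S - (A.val W).m) + (((A.val W).m : ℝ) - c.1)| := by
              ring_nf
          _ ≤ _ := abs_add_le _ _
          _ ≤ _ := by linarith
      | succ j =>
        rw [List.getD_cons_succ, List.getD_cons_succ]
        simp only [List.length_cons, Nat.add_lt_add_iff_right] at hj
        exact ih Is acc h k2 j hj

/-- the final statement about a successful run -/
theorem quad_bound {W n : ℕ} (hW : 0 < W) {par : List Bl} {pr : ℕ → ℝ}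
    (hp : ∀ i, InB (pr i) (getB par i)) (prog : List Op) (outs : List ℕ) (cl : List (ℤ × ℕ))
    (hc : ∀ o ∈ outs, Continuous (gt (evp pr prog []) o))
    (h : quad W par prog outs n (List.replicate outs.length Acc.zero) true
      (fun acc b => Bool.and b (chk W cl acc)) = true)
    (j : ℕ) (hj : j < cl.length) (hlen : outs.length = cl.length) :
    |(∫ x in (-(2 * n * (W / S : ℝ)))..(2 * n * (W / S : ℝ)),
        gt (evp pr prog []) (outs.getD j 0) x) / Real.sqrt (2 * Real.pi) * S
      - (cl.getD j (0, 0)).1| ≤ (cl.getD j (0, 0)).2 := by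
  have hz : ∀ m : ℕ, List.Forall₂ (AccV W) (List.replicate m (0 : ℝ)) (List.replicate m Acc.zero) := by
    intro m
    induction m with
    | zero => exact List.Forall₂.nil
    | succ m ih => exact List.Forall₂.cons AccV.zero ih
  obtain ⟨acc', b', e, hF⟩ := quad_spec hW hp prog outs hc n (List.replicate outs.length 0)
    (List.replicate outs.length Acc.zero) true
    (fun _ => ⟨hz _, by simp⟩) (fun acc b => Bool.and b (chk W cl acc))
  rw [h] at e
  have h2 : b' = true ∧ chk W cl acc' = true := by
    revert e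
    cases b' <;> cases chk W cl acc' <;> simp
  obtain ⟨_, hF⟩ := hF h2.1
  have := chk_spec cl _ acc' hF h2.2 j hj
  have hz2 : ∀ (f : ℝ → ℕ → ℝ) (outs : List ℕ) (j : ℕ), j < outs.length →
      (List.zipWith f (List.replicate outs.length 0) outs).getD j 0 = f 0 (outs.getD j 0) := by
    intro f outs
    induction outs with
    | nil => intro j h; simp at h
    | cons o outs ih =>
      intro j h
      cases j with
      | zero => rfl
      | succ j =>
        rw [List.getD_cons_succ]
        simp only [List.length_cons, Nat.add_lt_add_iff_right] at h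
        rw [← ih j h]
        rfl
  rw [hz2 _ _ _ (by rw [hlen]; exact hj)] at this
  simpa using this

end IP49N
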